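import Pool.Agent.P.MP_3ab3de_lc.Iface

/-! A countable transitive model: Skolem hull and Mostowski collapse. -/

set_option linter.unusedSectionVars false

namespace Pool.Agent.P.MP_3ab3de_lc

open ZFSet

namespace MinP

/-! ### uniformly definable predicates -/

/-- expressed by one formula over every class -/
class U (P : Set ZF → Env → Prop) : Prop where
  out : ∃ φ : Fml, ∀ N v, P N v ↔ Sat N φ v

/-- a renaming of the variables -/
class Rn (e : Env → Env) : Prop where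
  out : ∃ ρ : ℕ → ℕ, ∀ v, e v = fun n => v (ρ n)

instance Rn.ren (ρ : ℕ → ℕ) : Rn (fun v n => v (ρ n)) := ⟨ρ, fun _ => rfl⟩

instance Rn.cons (i : ℕ) {e : Env → Env} [h : Rn e] : Rn (fun v => cons (v i) (e v)) := by
  obtain ⟨ρ, h⟩ := h
  refine ⟨cns i ρ, fun v => ?_⟩
  rw [h]; funext n; cases n <;> rfl

namespace U

variable {P Q : Set ZF → Env → Prop}

theorem congr (h : U P) (H : ∀ N v, Q N v ↔ P N v) : U Q := by
  obtain ⟨φ, h⟩ := h
  exact ⟨φ, fun N v => (H N v).trans (h N v)⟩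

instance sat (φ : Fml) {e : Env → Env} [h : Rn e] : U (fun N v => Sat N φ (e v)) := by
  obtain ⟨ρ, h⟩ := h
  exact ⟨φ.ren ρ, fun N v => by rw [h]; exact (sat_ren _ _ _).symm⟩

instance mem (i j : ℕ) : U (fun _ v => v i ∈ v j) := ⟨.mem i j, fun _ _ => Iff.rfl⟩

instance eq (i j : ℕ) : U (fun _ v => v i = v j) := ⟨.eq i j, fun _ _ => Iff.rfl⟩

theorem bot : U (fun _ _ => False) := ⟨.bot, fun _ _ => Iff.rfl⟩

instance imp [h1 : U P] [h2 : U Q] : U (fun N v => P N v → Q N v) := by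
  obtain ⟨φ, h1⟩ := h1
  obtain ⟨ψ, h2⟩ := h2
  exact ⟨.imp φ ψ, fun N v => imp_congr (h1 N v) (h2 N v)⟩

instance all {R : Set ZF → Env → ZF → Prop} [h : U (fun N v => R N (fun n => v (n + 1)) (v 0))] :
    U (fun N v => ∀ x ∈ N, R N v x) := by
  obtain ⟨φ, h⟩ := h
  exact ⟨.all φ, fun N v => forall_congr' fun x => imp_congr_right fun _ => h N (cons x v)⟩

instance not [U P] : U (fun N v => ¬ P N v) := @imp _ _ _ bot

instance and [U P] [U Q] : U (fun N v => P N v ∧ Q N v) :=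
  (inferInstance : U (fun N v => ¬ (P N v → ¬ Q N v))).congr (fun _ _ => by tauto)

instance or [U P] [U Q] : U (fun N v => P N v ∨ Q N v) :=
  (inferInstance : U (fun N v => ¬ P N v → Q N v)).congr (fun _ _ => by tauto)

instance iff [U P] [U Q] : U (fun N v => P N v ↔ Q N v) :=
  (inferInstance : U (fun N v => (P N v → Q N v) ∧ (Q N v → P N v))).congr (fun _ _ => iff_def)

instance ex {R : Set ZF → Env → ZF → Prop} [h : U (fun N v => R N (fun n => v (n + 1)) (v 0))] :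
    U (fun N v => ∃ x ∈ N, R N v x) :=
  (@not _ (all (R := fun N v x => ¬ R N v x) (h := @not _ h))).congr (fun _ _ => by simp)

end U

/-! ### the Skolem hull -/

/-- a code of a formula -/
def code : Fml → ℕ
  | .mem i j => Nat.pair 0 (Nat.pair i j)
  | .eq i j => Nat.pair 1 (Nat.pair i j)
  | .bot => Nat.pair 2 0
  | .imp φ ψ => Nat.pair 3 (Nat.pair (code φ) (code ψ))
  | .all φ => Nat.pair 4 (code φ)

theorem code_inj (φ : Fml) : ∀ ψ, code φ = code ψ → φ = ψ := by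
  induction φ with
  | mem i j => intro ψ h; cases ψ <;> simp_all [code]
  | eq i j => intro ψ h; cases ψ <;> simp_all [code]
  | bot => intro ψ h; cases ψ <;> simp_all [code]
  | imp a b h1 h2 =>
    intro ψ h
    cases ψ <;> simp only [code, Nat.pair_eq_pair, true_and] at h <;> try omega
    rw [h1 _ h.1, h2 _ h.2]
  | all a h1 =>
    intro ψ h
    cases ψ <;> simp only [code, Nat.pair_eq_pair, true_and] at h <;> try omega
    rw [h1 _ h]

instance : Countable Fml := Function.Injective.countable (f := code) fun φ ψ => code_inj φ ψ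

theorem fin_dep (φ : Fml) :
    ∃ k, ∀ N (v w : Env), (∀ n < k, v n = w n) → (Sat N φ v ↔ Sat N φ w) := by
  induction φ with
  | mem i j =>
    exact ⟨i + j + 1, fun N v w h => by rw [sat_mem, sat_mem, h i (by omega), h j (by omega)]⟩
  | eq i j =>
    exact ⟨i + j + 1, fun N v w h => by rw [sat_eq, sat_eq, h i (by omega), h j (by omega)]⟩
  | bot => exact ⟨0, fun _ _ _ _ => Iff.rfl⟩
  | imp a b h1 h2 =>
    obtain ⟨k, h1⟩ := h1
    obtain ⟨m, h2⟩ := h2
    exact ⟨k + m, fun N v w h => imp_congr (h1 N v w fun n hn => h n (by omega))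
      (h2 N v w fun n hn => h n (by omega))⟩
  | all a h1 =>
    obtain ⟨k, h1⟩ := h1
    refine ⟨k, fun N v w h => forall_congr' fun x => imp_congr_right fun _ => h1 N _ _ fun n hn => ?_⟩
    cases n with
    | zero => rfl
    | succ n => exact h n (by omega)

/-- the assignment given by a list -/
noncomputable def env (s : List ZF) : Env := fun n => s.getD n ∅

theorem env_cons (x : ZF) (s : List ZF) : env (x :: s) = cons x (env s) := by
  funext n; cases n <;> simp [env]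

/-- a counterexample, if there is one -/
noncomputable def sk (φ : Fml) (s : List ZF) : ZF :=
  Classical.epsilon fun x => ¬ Sat Set.univ φ (cons x (env s))

/-- stages of the hull -/
def St : ℕ → Set ZF := Nat.rec {∅} fun _ A =>
  A ∪ (fun p : Fml × List ZF => sk p.1 p.2) '' (Set.univ ×ˢ {s | ∀ x ∈ s, x ∈ A})

theorem countable_lists {A : Set ZF} (h : A.Countable) :
    {s : List ZF | ∀ x ∈ s, x ∈ A}.Countable := by
  have := h.to_subtype
  refine (Set.countable_range (fun s : List A => s.map Subtype.val)).mono fun s hs => ?_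
  lift s to List A using hs
  exact ⟨s, rfl⟩

theorem St_countable (n : ℕ) : (St n).Countable := by
  induction n with
  | zero => exact Set.countable_singleton _
  | succ n ih => exact ih.union ((Set.countable_univ.prod (countable_lists ih)).image _)

theorem St_mono : Monotone St := monotone_nat_of_le_succ fun _ => Set.subset_union_left

/-- the hull -/
def S : Set ZF := ⋃ n, St n

theorem sk_mem (φ : Fml) (s : List ZF) (h : ∀ x ∈ s, x ∈ S) : sk φ s ∈ S := by
  have : ∃ n, ∀ x ∈ s, x ∈ St n := by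
    induction s with
    | nil => exact ⟨0, by simp⟩
    | cons a s ih =>
      obtain ⟨n, hn⟩ := ih fun x hx => h x (List.mem_cons_of_mem _ hx)
      obtain ⟨m, hm⟩ := Set.mem_iUnion.1 (h a List.mem_cons_self)
      refine ⟨n + m, fun x hx => ?_⟩
      rcases List.mem_cons.1 hx with rfl | hx
      exacts [St_mono (by omega) hm, St_mono (by omega) (hn x hx)]
  obtain ⟨n, hn⟩ := this
  exact Set.mem_iUnion.2 ⟨n + 1, Or.inr ⟨(φ, s), ⟨trivial, hn⟩, rfl⟩⟩

theorem tv (φ : Fml) : ∀ s : List ZF, (∀ x ∈ s, x ∈ S) →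
    (Sat S φ (env s) ↔ Sat Set.univ φ (env s)) := by
  induction φ with
  | mem i j => exact fun _ _ => Iff.rfl
  | eq i j => exact fun _ _ => Iff.rfl
  | bot => exact fun _ _ => Iff.rfl
  | imp a b h1 h2 => exact fun s hs => imp_congr (h1 s hs) (h2 s hs)
  | all a ih =>
    intro s hs
    have key : ∀ x ∈ S, (Sat S a (cons x (env s)) ↔ Sat Set.univ a (cons x (env s))) :=
      fun x hx => by
        rw [← env_cons]
        exact ih _ fun y hy => (List.mem_cons.1 hy).elim (fun e => e ▸ hx) (hs y)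
    refine ⟨fun h x _ => by_contra fun hx => ?_, fun h x hx => (key x hx).2 (h x trivial)⟩
    exact Classical.epsilon_spec (p := fun x => ¬ Sat Set.univ a (cons x (env s))) ⟨x, hx⟩
      ((key _ (sk_mem a s hs)).1 (h _ (sk_mem a s hs)))

theorem trS (P : Set ZF → Env → Prop) [h : U P] (H : ∀ v, P Set.univ v) {v : Env} (hv : EIn S v) :
    P S v := by
  obtain ⟨φ, h⟩ := h
  obtain ⟨k, hk⟩ := fin_dep φ
  rw [h, hk S v (env (List.ofFn fun i : Fin k => v i)) fun n hn => by simp [env, hn], tv]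
  · exact (h _ _).1 (H _)
  · intro x hx
    obtain ⟨i, rfl⟩ := List.mem_ofFn.1 hx
    exact hv i

/-! ### the collapse -/

/-- Mostowski collapse of the hull -/
noncomputable def col : ZF → ZF := rc fun _ g => img snd (ZFSet.sep (fun p => fst p ∈ S) g)

theorem mem_col {x z : ZF} : z ∈ col x ↔ ∃ y ∈ x, y ∈ S ∧ col y = z := by
  rw [show col x = _ from rc_eq _ x]
  simp only [mem_img, mem_sep, mem_graph]
  constructor
  · rintro ⟨_, ⟨⟨y, hy, rfl⟩, h⟩, rfl⟩
    exact ⟨y, hy, by simpa using h, by simp; rfl⟩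
  · rintro ⟨y, hy, h, rfl⟩
    exact ⟨_, ⟨⟨y, hy, rfl⟩, by simpa using h⟩, by simp; rfl⟩

theorem col_inj (x : ZF) : x ∈ S → ∀ y ∈ S, col x = col y → x = y := by
  induction x using ZFSet.inductionOn with
  | h x ih =>
    intro hx y hy e
    refine trS (fun N v => (∀ z ∈ N, z ∈ v 0 ↔ z ∈ v 1) → v 0 = v 1)
      (fun v h => ZFSet.ext fun z => h z trivial) (v := cons x fun _ => y)
      (EIn.cons (fun _ => hy) hx) fun z hz => ⟨fun h => ?_, fun h => ?_⟩
    · obtain ⟨y', h1, h2, h3⟩ := mem_col.1 (e ▸ mem_col.2 ⟨z, h, hz, rfl⟩ : col z ∈ col y)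
      exact ih z h hz y' h2 h3.symm ▸ h1
    · obtain ⟨x', h1, h2, h3⟩ := mem_col.1 (e ▸ mem_col.2 ⟨z, h, hz, rfl⟩ : col z ∈ col x)
      exact ih x' h1 h2 z hz h3 ▸ h1

theorem sat_col (φ : Fml) : ∀ v, EIn S v → (Sat (col '' S) φ (fun n => col (v n)) ↔ Sat S φ v) := by
  induction φ with
  | mem i j =>
    refine fun v hv => ⟨fun h => ?_, fun h => mem_col.2 ⟨_, h, hv i, rfl⟩⟩
    obtain ⟨y, h1, h2, h3⟩ := mem_col.1 h
    exact sat_mem.2 (col_inj y h2 _ (hv i) h3 ▸ h1)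
  | eq i j => exact fun v hv => ⟨fun h => col_inj _ (hv i) _ (hv j) h, fun h => congrArg col h⟩
  | bot => exact fun _ _ => Iff.rfl
  | imp a b h1 h2 => exact fun v hv => imp_congr (h1 v hv) (h2 v hv)
  | all a ih =>
    intro v hv
    rw [sat_all, sat_all, Set.forall_mem_image]
    refine forall_congr' fun x => imp_congr_right fun hx => Iff.trans ?_ (ih _ (hv.cons hx))
    have : cons (col x) (fun n => col (v n)) = fun n => col (cons x v n) := by
      funext n; cases n <;> rfl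
    rw [this]

theorem trM (P : Set ZF → Env → Prop) [h : U P] (H : ∀ v, P Set.univ v) {v : Env}
    (hv : EIn (col '' S) v) : P (col '' S) v := by
  choose w hw e using hv
  obtain rfl : v = fun n => col (w n) := funext fun n => (e n).symm
  obtain ⟨φ, h⟩ := h
  rw [h, sat_col φ w hw]
  exact trS (fun N v => Sat N φ v) (h := ⟨φ, fun _ _ => Iff.rfl⟩) (fun v => (h _ _).1 (H v)) hw

theorem col_trans : ∀ x ∈ col '' S, ∀ y ∈ x, y ∈ col '' S := by
  rintro _ ⟨x, -, rfl⟩ y hy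
  obtain ⟨z, -, h, rfl⟩ := mem_col.1 hy
  exact ⟨z, h, rfl⟩

theorem ein_col : EIn (col '' S) fun _ => col ∅ := fun _ =>
  ⟨∅, Set.mem_iUnion.2 ⟨0, rfl⟩, rfl⟩

/-- the ordered pair, read in a class -/
abbrev PairIn (N : Set ZF) (x y f : ZF) : Prop := ∃ p ∈ N, p ∈ f ∧ ∀ u ∈ N,
  u ∈ p ↔ (∀ t ∈ N, t ∈ u ↔ t = x) ∨ ∀ t ∈ N, t ∈ u ↔ t = x ∨ t = y

theorem ext_in {N : Set ZF} (ht : ∀ x ∈ N, ∀ y ∈ x, y ∈ N) {a b : ZF} (ha : a ∈ N)
    (hb : ∀ y ∈ b, y ∈ N) (h : ∀ t ∈ N, t ∈ a ↔ t ∈ b) : a = b :=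
  ZFSet.ext fun t => ⟨fun h' => (h t (ht a ha t h')).1 h', fun h' => (h t (hb t h')).2 h'⟩

theorem pairIn_iff {N : Set ZF} (ht : ∀ x ∈ N, ∀ y ∈ x, y ∈ N)
    (hp : ∀ a ∈ N, ∀ b ∈ N, ({a, b} : ZF) ∈ N) {x y f : ZF} (hx : x ∈ N) (hy : y ∈ N) :
    PairIn N x y f ↔ pair x y ∈ f := by
  have h1 : ({x} : ZF) ∈ N := by simpa using hp x hx x hx
  have h2 := hp x hx y hy
  have h3 : pair x y ∈ N := hp _ h1 _ h2
  have key : ∀ u ∈ N, u ∈ pair x y ↔
      (∀ t ∈ N, t ∈ u ↔ t = x) ∨ ∀ t ∈ N, t ∈ u ↔ t = x ∨ t = y := fun u hu => by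
    rw [ZFSet.pair, mem_pair]
    refine or_congr ⟨fun e t _ => by simp [e], fun h => ext_in ht hu (ht _ h1) fun t h' => ?_⟩
      ⟨fun e t _ => by simp [e], fun h => ext_in ht hu (ht _ h2) fun t h' => ?_⟩
    · rw [h t h', mem_singleton]
    · rw [h t h', mem_pair]
  refine ⟨fun ⟨p, h4, h5, h6⟩ => ?_, fun h => ⟨_, h3, h, key⟩⟩
  rwa [← ext_in ht h4 (ht _ h3) fun u hu => (h6 u hu).trans (key u hu).symm]

end MinP

open MinP

theorem ctm : S_Ctm := by
  refine ⟨col '' S, ?_, (Set.countable_iUnion St_countable).image _⟩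
  have ht := col_trans
  have hp : ∀ a ∈ col '' S, ∀ b ∈ col '' S, ({a, b} : ZF) ∈ col '' S := fun a ha b hb => by
    obtain ⟨c, hc, h⟩ := trM (fun N _ => ∀ a ∈ N, ∀ b ∈ N, ∃ c ∈ N, ∀ x ∈ N, x ∈ c ↔ x = a ∨ x = b)
      (fun _ a _ b _ => ⟨{a, b}, trivial, fun _ _ => mem_pair⟩) ein_col a ha b hb
    rwa [← ext_in ht hc (b := {a, b}) (fun y hy => by
      rcases mem_pair.1 hy with rfl | rfl
      exacts [ha, hb]) fun t h' => (h t h').trans mem_pair.symm]
  refine ⟨ht, hp, fun a ha => ?_, ?_, fun a ha => ?_, fun φ v hv a ha => ?_,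
    fun φ v hv a ha H => ?_, fun a ha => ?_⟩
  · obtain ⟨c, hc, h⟩ := trM
      (fun N _ => ∀ a ∈ N, ∃ c ∈ N, ∀ x ∈ N, x ∈ c ↔ ∃ y ∈ N, y ∈ a ∧ x ∈ y)
      (fun _ a _ => ⟨ZFSet.sUnion a, trivial, fun _ _ => by simp⟩) ein_col a ha
    rwa [← ext_in ht hc (b := ZFSet.sUnion a) (fun y hy => by
      obtain ⟨z, hz, hy⟩ := mem_sUnion.1 hy
      exact ht z (ht a ha z hz) y hy) fun t h' => (h t h').trans
        ⟨fun ⟨y, _, h⟩ => mem_sUnion.2 ⟨y, h⟩, fun h => by
          obtain ⟨y, h1, h2⟩ := mem_sUnion.1 h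
          exact ⟨y, ht a ha y h1, h1, h2⟩⟩]
  · obtain ⟨w, hw, ⟨e, he, h1, h2⟩, h3, h4⟩ := trM
      (fun N _ => ∃ w ∈ N, (∃ e ∈ N, e ∈ w ∧ ∀ x ∈ N, ¬ x ∈ e) ∧
        (∀ x ∈ N, x ∈ w → ∃ s ∈ N, s ∈ w ∧ ∀ y ∈ N, y ∈ s ↔ y = x ∨ y ∈ x) ∧
        ∀ x ∈ N, x ∈ w → (∀ y ∈ N, ¬ y ∈ x) ∨ ∃ y ∈ N, y ∈ w ∧ ∀ z ∈ N, z ∈ x ↔ z = y ∨ z ∈ y)
      (fun _ => ⟨om, trivial, ⟨∅, trivial, omega_zero, fun x _ => notMem_empty x⟩,
        fun x _ hx => ⟨insert x x, trivial, omega_succ hx, fun _ _ => mem_insert_iff⟩,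
        fun x _ hx => by
          obtain ⟨n, rfl⟩ := mem_omega.1 hx
          cases n with
          | zero => exact Or.inl fun y _ => notMem_empty y
          | succ n => exact Or.inr ⟨num n, trivial, num_mem_omega n, fun _ _ => mem_insert_iff⟩⟩)
      ein_col
    have hsucc : ∀ s ∈ col '' S, ∀ x ∈ col '' S, (∀ y ∈ col '' S, y ∈ s ↔ y = x ∨ y ∈ x) →
        s = insert x x := fun s hs x hx h => ext_in ht hs (fun y hy => by
          rcases mem_insert_iff.1 hy with rfl | hy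
          exacts [hx, ht x hx y hy]) fun t h' => (h t h').trans mem_insert_iff.symm
    have hzero : ∀ s ∈ col '' S, (∀ y ∈ col '' S, ¬ y ∈ s) → s = ∅ := fun s hs h =>
      (eq_empty s).2 fun y hy => h y (ht s hs y hy) hy
    have : w = om := by
      ext x
      constructor
      · induction x using ZFSet.inductionOn with
        | h x ih =>
          intro hx
          rcases h4 x (ht w hw x hx) hx with h | ⟨y, h5, h6, h7⟩
          · rw [hzero x (ht w hw x hx) h]; exact omega_zero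
          · have e := hsucc x (ht w hw x hx) y h5 h7
            rw [e]
            exact omega_succ (ih y (e ▸ mem_insert y y) h6)
      · intro hx
        obtain ⟨n, rfl⟩ := mem_omega.1 hx
        clear hx
        induction n with
        | zero => rw [hzero e he h2] at h1; exact h1
        | succ n ih =>
          obtain ⟨s, h5, h6, h7⟩ := h3 _ (ht w hw _ ih) ih
          rw [hsucc s h5 _ (ht w hw _ ih) h7] at h6
          exact h6
    rw [this] at hw
    exact hw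
  · obtain ⟨c, hc, h⟩ := trM
      (fun N _ => ∀ a ∈ N, ∃ c ∈ N, ∀ x ∈ N, x ∈ c ↔ ∀ y ∈ N, y ∈ x → y ∈ a)
      (fun _ a _ => ⟨powerset a, trivial, fun _ _ => mem_powerset.trans
        ⟨fun h _ _ hy => h hy, fun h y hy => h y trivial hy⟩⟩) ein_col a ha
    exact ⟨c, hc, fun x hx => (h x hx).trans
      ⟨fun h y hy => h y (ht x hx y hy) hy, fun h _ _ hy => h hy⟩⟩
  · obtain ⟨b, hb, h⟩ := trM
      (fun N v => ∀ a ∈ N, ∃ b ∈ N, ∀ x ∈ N, x ∈ b ↔ x ∈ a ∧ Sat N φ (cons x fun n => v n))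
      (fun v a _ => ⟨ZFSet.sep (fun x => Sat Set.univ φ (cons x v)) a, trivial,
        fun _ _ => mem_sep⟩) hv a ha
    exact ⟨b, hb, fun x => ⟨fun hx => (h x (ht b hb x hx)).1 hx,
      fun hx => (h x (ht a ha x hx.1)).2 hx⟩⟩
  · obtain ⟨b, hb, h⟩ := trM
      (fun N v => ∀ a ∈ N, (∀ x ∈ N, x ∈ a → ∀ y ∈ N, Sat N φ (cons y (cons x fun n => v n)) →
        ∀ z ∈ N, Sat N φ (cons z (cons x fun n => v n)) → z = y) →
        ∃ b ∈ N, ∀ y ∈ N, y ∈ b ↔ ∃ x ∈ N, x ∈ a ∧ Sat N φ (cons y (cons x fun n => v n)))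
      (fun v a _ H => ⟨img (fun x => Classical.epsilon fun y => Sat Set.univ φ (cons y (cons x v)))
        (ZFSet.sep (fun x => ∃ y, Sat Set.univ φ (cons y (cons x v))) a), trivial, fun y _ => by
          simp only [mem_img, mem_sep]
          constructor
          · rintro ⟨x, ⟨hx, h⟩, rfl⟩
            exact ⟨x, trivial, hx, Classical.epsilon_spec h⟩
          · rintro ⟨x, -, hx, h⟩
            exact ⟨x, ⟨hx, y, h⟩, H x trivial hx y trivial h _ trivial
              (Classical.epsilon_spec (p := fun y => Sat Set.univ φ (cons y (cons x v))) ⟨y, h⟩)⟩⟩)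
      hv a ha fun x _ hx y hy h1 z hz h2 => (H x hx).unique ⟨hz, h2⟩ ⟨hy, h1⟩
    refine ⟨b, hb, fun y => ⟨fun hy => ?_, fun ⟨h1, x, hx, h2⟩ =>
      (h y h1).2 ⟨x, ht a ha x hx, hx, h2⟩⟩⟩
    obtain ⟨x, -, hx⟩ := (h y (ht b hb y hy)).1 hy
    exact ⟨ht b hb y hy, x, hx⟩
  · have hu : ∀ x y f, PairIn Set.univ x y f ↔ pair x y ∈ f := fun x y f =>
      pairIn_iff (fun _ _ _ _ => trivial) (fun _ _ _ _ => trivial) trivial trivial
    obtain ⟨f, hf, h⟩ := trM
      (fun N _ => ∀ a ∈ N, ∃ f ∈ N, ∀ x ∈ N, x ∈ a → (∃ y ∈ N, y ∈ x) →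
        ∃ y ∈ N, y ∈ x ∧ PairIn N x y f ∧ ∀ z ∈ N, PairIn N x z f → z = y)
      (fun _ a _ => ⟨graph (fun x => Classical.epsilon fun y => y ∈ x) a, trivial,
        fun x _ hx ⟨y, _, hy⟩ => ⟨_, trivial, Classical.epsilon_spec (p := fun y => y ∈ x) ⟨y, hy⟩,
          (hu _ _ _).2 (pair_mem_graph.2 ⟨hx, rfl⟩),
          fun z _ hz => (pair_mem_graph.1 ((hu _ _ _).1 hz)).2.symm⟩⟩) ein_col a ha
    refine ⟨f, hf, fun x hx ⟨y, hy⟩ => ?_⟩
    have h0 := ht a ha x hx
    obtain ⟨y, h1, h2, h3, h4⟩ := h x h0 hx ⟨y, ht x h0 y hy, hy⟩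
    refine ⟨y, h2, (pairIn_iff ht hp h0 h1).1 h3, fun z hz => ?_⟩
    have h5 : z ∈ col '' S :=
      ht _ (ht _ (ht f hf _ hz) {x, z} (by simp [ZFSet.pair])) z (by simp)
    exact h4 z h5 ((pairIn_iff ht hp h0 h5).2 hz)

end Pool.Agent.P.MP_3ab3de_lc
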