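import Pool.Agent.P.MP_3ab3de_lc.Rec

/-! Cardinality inside a transitive model. -/

set_option linter.unusedSectionVars false

namespace Pool.Agent.P.MP_3ab3de_lc

open ZFSet

variable {M : Set ZF} [hM : TModel M]

/-- `a` is covered by a function of `M` on `b` -/
def Le (M : Set ZF) (a b : ZF) : Prop := ∃ f ∈ M, ∀ y ∈ a, ∃ x ∈ b, app f x = y

instance df_Le {a b : Env → ZF} [Tm M a] [Tm M b] : Df M (fun v => Le M (a v) (b v)) := by
  unfold Le; infer_instance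

theorem Le.of_fun {a b : ZF} (F : ZF → ZF) (hF : Tm M (fun v => F (v 0))) (hb : b ∈ M)
    (h : ∀ y ∈ a, ∃ x ∈ b, F x = y) : Le M a b := by
  have := In.mk' hb
  refine ⟨graph F b, In.mem _, fun y hy => ?_⟩
  obtain ⟨x, hx, e⟩ := h y hy
  exact ⟨x, hx, by rw [app_graph hx, e]⟩

theorem Le.of_subset {a b : ZF} (hb : b ∈ M) (h : a ⊆ b) : Le M a b :=
  Le.of_fun (fun x => x) inferInstance hb fun y hy => ⟨y, h hy, rfl⟩

theorem Le.refl {a : ZF} (ha : a ∈ M) : Le M a a := Le.of_subset ha fun _ h => h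

theorem Le.mono {a a' b : ZF} (h : Le M a b) (h' : a' ⊆ a) : Le M a' b := by
  obtain ⟨f, hf, h⟩ := h
  exact ⟨f, hf, fun y hy => h y (h' hy)⟩

theorem Le.trans {a b c : ZF} (h : Le M a b) (h' : Le M b c) (hc : c ∈ M) : Le M a c := by
  obtain ⟨f, hf, h⟩ := h
  obtain ⟨g, hg, h'⟩ := h'
  have := In.mk' hf
  have := In.mk' hg
  refine Le.of_fun (fun x => app f (app g x)) inferInstance hc fun y hy => ?_
  obtain ⟨x, hx, rfl⟩ := h y hy
  obtain ⟨z, hz, rfl⟩ := h' x hx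
  exact ⟨z, hz, rfl⟩

theorem le_img {a : ZF} (F : ZF → ZF) (hF : Tm M (fun v => F (v 0))) (ha : a ∈ M) :
    Le M (img F a) a := Le.of_fun F hF ha fun _ hy => mem_img.1 hy

theorem le_empty (b : ZF) : Le M ∅ b := ⟨∅, empty_mem, fun _ h => absurd h (notMem_empty _)⟩

theorem Le.prod {a a' b b' : ZF} (h : Le M a a') (h' : Le M b b') (ha : a' ∈ M) (hb : b' ∈ M) :
    Le M (prod a b) (prod a' b') := by
  obtain ⟨f, hf, h⟩ := h
  obtain ⟨g, hg, h'⟩ := h'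
  have := In.mk' hf
  have := In.mk' hg
  have := In.mk' ha
  have := In.mk' hb
  refine Le.of_fun (fun p => pair (app f (fst p)) (app g (snd p))) inferInstance (In.mem _)
    fun y hy => ?_
  obtain ⟨x, hx, z, hz, rfl⟩ := mem_prod.1 hy
  obtain ⟨x', hx', rfl⟩ := h x hx
  obtain ⟨z', hz', rfl⟩ := h' z hz
  exact ⟨pair x' z', pair_mem_prod.2 ⟨hx', hz'⟩, by simp⟩

theorem Le.pw {a b : ZF} (h : Le M a b) (hb : b ∈ M) : Le M (pw M a) (pw M b) := by
  obtain ⟨f, hf, h⟩ := h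
  have := In.mk' hf
  have := In.mk' hb
  refine Le.of_fun (fun s => img (app f) s) inferInstance (In.mem _) fun y hy => ?_
  obtain ⟨h1, h2⟩ := mem_pw.1 hy
  have := In.mk' h2
  refine ⟨ZFSet.sep (fun x => app f x ∈ y) b, mem_pw.2 ⟨sep_subset, In.mem _⟩, ?_⟩
  ext z
  simp only [mem_img, mem_sep]
  constructor
  · rintro ⟨x, ⟨-, hx⟩, rfl⟩; exact hx
  · intro hz
    obtain ⟨x, hx, rfl⟩ := h z (h1 hz)
    exact ⟨x, ⟨hx, hz⟩, rfl⟩

theorem le_bun {a c : ZF} (F : ZF → ZF) (hF : Tm M (fun v => F (v 0))) (ha : a ∈ M) (hc : c ∈ M)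
    (h : ∀ x ∈ a, Le M (F x) c) : Le M (bun F a) (prod a c) := by
  have := fun s [Tm M s] => hF.one s
  have := In.mk' ha
  have := In.mk' hc
  obtain ⟨g, hg, h1⟩ := skolem (M := M) (fun x f => ∀ y ∈ F x, ∃ z ∈ c, app f z = y) inferInstance ha h
  have := In.mk' hg
  refine Le.of_fun (fun p => app (app g (fst p)) (snd p)) inferInstance (In.mem _) fun y hy => ?_
  obtain ⟨x, hx, hy⟩ := mem_bun.1 hy
  obtain ⟨z, hz, rfl⟩ := h1 x hx y hy
  exact ⟨pair x z, pair_mem_prod.2 ⟨hx, hz⟩, by simp⟩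

theorem cantor {a : ZF} (ha : a ∈ M) : ¬ Le M (pw M a) a := by
  rintro ⟨f, hf, h⟩
  have := In.mk' hf
  have := In.mk' ha
  obtain ⟨x, hx, e⟩ := h (ZFSet.sep (fun x => x ∉ app f x) a) (mem_pw.2 ⟨sep_subset, In.mem _⟩)
  have : x ∈ app f x ↔ x ∈ a ∧ x ∉ app f x := by
    conv_lhs => rw [e, mem_sep]
  tauto

theorem cardLE_of_fun {a b : ZF} (F : ZF → ZF) (hF : Tm M (fun v => F (v 0))) (ha : a ∈ M)
    (h : ∀ x ∈ a, F x ∈ b) (hi : ∀ x ∈ a, ∀ y ∈ a, F x = F y → x = y) : CardLE M a b := by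
  have := In.mk' ha
  refine ⟨graph F a, In.mem _, graph_isFunc h, fun x y z hx hy => ?_⟩
  rw [pair_mem_graph] at hx hy
  exact hi x hx.1 y hy.1 (hx.2.trans hy.2.symm)

theorem CardLE.le {a b : ZF} (h : CardLE M a b) (ha : a ∈ M) (hb : b ∈ M) : Le M a b := by
  obtain ⟨f, hf, h1, h2⟩ := h
  have := In.mk' hf
  have := In.mk' ha
  refine Le.of_fun (fun y => ZFSet.sUnion (ZFSet.sep (fun x => pair x y ∈ f) a)) inferInstance hb
    fun x hx => ⟨app f x, h1.app_mem' hx, ?_⟩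
  have : ZFSet.sep (fun z => pair z (app f x) ∈ f) a = {x} := by
    ext z
    simp only [mem_sep, mem_singleton]
    exact ⟨fun h => h2 _ _ _ h.2 (h1.app_mem hx), fun e => e.symm ▸ ⟨hx, h1.app_mem hx⟩⟩
  rw [this, sUnion_singleton]

theorem Le.cardLE {a o : ZF} (h : Le M a o) (ha : a ∈ M) (hm : o ∈ M) (ho : IsOrdinal o) :
    CardLE M a o := by
  obtain ⟨f, hf, h⟩ := h
  have := In.mk' hf
  have := In.mk' hm
  refine cardLE_of_fun (fun y => lst o fun x => app f x = y) inferInstance ha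
    (fun y hy => (lst_spec ho (h y hy)).1) fun y hy z hz e => ?_
  have h1 := (lst_spec ho (h y hy)).2.1
  have h2 := (lst_spec ho (h z hz)).2.1
  rw [← h1, ← h2, e]

theorem no_ord_set {b : ZF} (hb : b ∈ M) (h : ∀ o ∈ M, IsOrdinal o → o ∈ b) : False := by
  have := In.mk' hb
  have := rank_lt_of_mem (h (rk b) (In.mem _) (rk_ord b))
  simp at this

/-- numeration with a prescribed choice operation -/
theorem num_gen {a : ZF} (ha : a ∈ M) (ch : ZF → ZF) (hc : Tm M (fun v => ch (v 0)))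
    (H : ∀ s ∈ M, s ⊆ a → (∃ y, y ∈ s) → ch s ∈ s) :
    ∃ o ∈ M, IsOrdinal o ∧ ∃ g ∈ M, (∀ η ∈ o, app g η ∈ a \ img (app g) η ∧
      app g η = ch (a \ img (app g) η)) ∧ ∀ y ∈ a, ∃ η ∈ o, app g η = y := by
  have := fun s [Tm M s] => hc.one s
  have := In.mk' ha
  let F := rc fun _ g => ch (a \ img snd g)
  have hF : Tm M (fun v => F (v 0)) := tm_rc inferInstance
  have := fun s [Tm M s] => hF.one s
  have e : ∀ η, F η = ch (a \ img F η) := fun η => by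
    rw [show F η = _ from rc_eq _ η]
    congr 2
    ext y
    simp only [mem_img, mem_graph]
    constructor
    · rintro ⟨_, ⟨x, hx, rfl⟩, rfl⟩; exact ⟨x, hx, by simp; rfl⟩
    · rintro ⟨x, hx, rfl⟩; exact ⟨_, ⟨x, hx, rfl⟩, by simp; rfl⟩
  have h1 : ∀ η ∈ M, ¬ a ⊆ img F η → F η ∈ a \ img F η := fun η hη h => by
    have := In.mk' hη
    rw [e]
    refine H _ (In.mem _) (fun y hy => (mem_sdiff.1 hy).1) ?_
    by_contra h2
    exact h fun y hy => by_contra fun h3 => h2 ⟨y, mem_sdiff.2 ⟨hy, h3⟩⟩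
  have h2 : ∃ o, o ∈ M ∧ IsOrdinal o ∧ a ⊆ img F o := by
    by_contra h
    have h3 : ∀ o ∈ M, IsOrdinal o → F o ∈ a \ img F o := fun o hm ho =>
      h1 o hm fun h' => h ⟨o, hm, ho, h'⟩
    obtain ⟨b, hb, h4⟩ := repl' (M := M) (fun y η => IsOrdinal η ∧ F η = y) inferInstance
      (In.mem (ZFSet.sep (fun y => ∃ η ∈ M, IsOrdinal η ∧ F η = y) a)) fun y hy => by
        obtain ⟨-, η, hη, ho, rfl⟩ := mem_sep.1 hy
        refine ⟨η, ⟨hη, ho, rfl⟩, ?_⟩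
        rintro η' ⟨hη', ho', e⟩
        rcases ho'.mem_trichotomous ho with h | h | h
        · exact absurd (e ▸ img_mem h) (mem_sdiff.1 (h3 η hη ho)).2
        · exact h
        · exact absurd (e ▸ img_mem h) (mem_sdiff.1 (h3 η' hη' ho')).2
    exact no_ord_set hb fun o hm ho => (h4 o).2 ⟨hm, F o,
      mem_sep.2 ⟨(mem_sdiff.1 (h3 o hm ho)).1, o, hm, ho, rfl⟩, ho, rfl⟩
  obtain ⟨o, ⟨hm, ho, h3⟩, h4⟩ := exists_min h2
  have := In.mk' hm
  have e2 : ∀ η ∈ o, img (app (graph F o)) η = img F η := fun η hη => by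
    ext y
    simp only [mem_img]
    exact exists_congr fun x => and_congr_right fun hx => by rw [app_graph (ho.mem_trans hx hη)]
  refine ⟨o, hm, ho, graph F o, In.mem _, fun η hη => ?_, fun y hy => ?_⟩
  · rw [e2 η hη, app_graph hη]
    exact ⟨h1 η (tr hm hη) fun h => h4 η hη ⟨tr hm hη, ho.mem hη, h⟩, e η⟩
  · obtain ⟨η, hη, rfl⟩ := mem_img.1 (h3 hy)
    exact ⟨η, hη, app_graph hη⟩

theorem inj_of_new {o g a : ZF} (ho : IsOrdinal o) (h : ∀ η ∈ o, app g η ∈ a \ img (app g) η) :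
    ∀ η ∈ o, ∀ η' ∈ o, app g η = app g η' → η = η' := by
  intro η hη η' hη' e
  rcases (ho.mem hη).mem_trichotomous (ho.mem hη') with h1 | h1 | h1
  · exact absurd (e ▸ img_mem h1) (mem_sdiff.1 (h η' hη')).2
  · exact h1
  · exact absurd (e ▸ img_mem h1) (mem_sdiff.1 (h η hη)).2

/-- every set is in bijection with an ordinal -/
theorem numer {a : ZF} (ha : a ∈ M) : ∃ o ∈ M, IsOrdinal o ∧ ∃ g ∈ M, (∀ η ∈ o, app g η ∈ a) ∧
    (∀ η ∈ o, ∀ η' ∈ o, app g η = app g η' → η = η') ∧ ∀ y ∈ a, ∃ η ∈ o, app g η = y := by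
  obtain ⟨c, hc, h⟩ := exists_ch ha
  have := In.mk' hc
  obtain ⟨o, hm, ho, g, hg, h1, h2⟩ := num_gen ha (app c) inferInstance h
  exact ⟨o, hm, ho, g, hg, fun η hη => (mem_sdiff.1 (h1 η hη).1).1,
    inj_of_new ho fun η hη => (h1 η hη).1, h2⟩

theorem le_of_inj {o g c : ZF} (hm : o ∈ M) (hg : g ∈ M) (hc : c ∈ M)
    (h : ∀ η ∈ o, app g η ∈ c) (hi : ∀ η ∈ o, ∀ η' ∈ o, app g η = app g η' → η = η') : Le M o c := by
  have := In.mk' hg
  exact (cardLE_of_fun (app g) inferInstance hm h hi).le hm hc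

/-- numeration of a union of layers -/
theorem layers {a k : ZF} (ha : a ∈ M) (hk : k ∈ M) (ho : IsOrdinal k) (F : ZF → ZF)
    (hF : Tm M (fun v => F (v 0))) (h : ∀ y ∈ a, ∃ ξ ∈ k, y ∈ F ξ)
    (H : ∀ ξ ∈ k, ∀ g ∈ M, (∀ η ∈ k, app g η ∈ bun F (insert ξ ξ)) →
      (∀ η ∈ k, ∀ η' ∈ k, app g η = app g η' → η = η') → False) : Le M a k := by
  have := fun s [Tm M s] => hF.one s
  have := In.mk' hk
  obtain ⟨c, hc, h1⟩ := exists_ch ha
  have := In.mk' hc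
  have key : ∀ s ∈ M, s ⊆ a → ∀ y ∈ s, ∀ ξ ∈ k, y ∈ F ξ →
      app c (s ∩ F (lst k fun ξ => ∃ y ∈ s, y ∈ F ξ)) ∈ s ∩ bun F (insert ξ ξ) := by
    intro s hs h2 y hy ξ hξ h3
    have := In.mk' hs
    obtain ⟨h4, ⟨z, hz, h5⟩, h6⟩ := lst_spec ho (P := fun ξ => ∃ y ∈ s, y ∈ F ξ) ⟨ξ, hξ, y, hy, h3⟩
    have h7 := mem_inter.1 (h1 (s ∩ F (lst k fun ξ => ∃ y ∈ s, y ∈ F ξ)) (In.mem _)
      (fun x hx => h2 (mem_inter.1 hx).1) ⟨z, mem_inter.2 ⟨hz, h5⟩⟩)
    exact mem_inter.2 ⟨h7.1, mem_bun.2 ⟨_, (mem_succ_iff (ho.mem h4) (ho.mem hξ)).2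
      (h6 ξ hξ ⟨y, hy, h3⟩), h7.2⟩⟩
  obtain ⟨o, hm, ho', g, hg, h2, h3⟩ := num_gen ha
    (fun s => app c (s ∩ F (lst k fun ξ => ∃ y ∈ s, y ∈ F ξ))) inferInstance
    fun s hs h2 ⟨y, hy⟩ => by
      obtain ⟨ξ, hξ, h3⟩ := h y (h2 hy)
      exact (mem_inter.1 (key s hs h2 y hy ξ hξ h3)).1
  rcases ho.mem_or_subset ho' with h4 | h4
  · exfalso
    have := In.mk' hg
    obtain ⟨h5, h6⟩ := mem_sdiff.1 (h2 k h4).1
    obtain ⟨ξ, hξ, h7⟩ := h _ h5
    refine H ξ hξ g hg (fun η hη => ?_) fun η hη η' hη' =>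
      inj_of_new ho' (fun η hη => (h2 η hη).1) η (ho'.mem_trans hη h4) η' (ho'.mem_trans hη' h4)
    have := In.mk' (tr hk hη)
    have := In.mk' ha
    rw [(h2 η (ho'.mem_trans hη h4)).2]
    refine (mem_inter.1 (key _ (In.mem _) (fun y hy => (mem_sdiff.1 hy).1) (app g k)
      (mem_sdiff.2 ⟨h5, fun h8 => h6 ?_⟩) ξ hξ h7)).2
    obtain ⟨x, hx, e⟩ := mem_img.1 h8
    exact e ▸ img_mem (ho.mem_trans hx hη)
  · exact ⟨g, hg, fun y hy => (h3 y hy).imp fun η hη => ⟨h4 hη.1, hη.2⟩⟩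

/-- `R` absorbs products and omega -/
structure Inf (M : Set ZF) (R : ZF) : Prop where
  mem : R ∈ M
  sq : Le M (prod R R) R
  omLe : Le M om R

theorem inf_omega : Inf M om := by
  refine ⟨hM.infinity, layers (In.mem _) hM.infinity isOrdinal_omega (fun n => prod n n)
    inferInstance (fun y hy => ?_) fun ξ hξ g _ h1 h2 => ?_, Le.refl hM.infinity⟩
  · obtain ⟨a, ha, b, hb, rfl⟩ := mem_prod.1 hy
    obtain ⟨m, rfl⟩ := mem_omega.1 ha
    obtain ⟨n, rfl⟩ := mem_omega.1 hb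
    exact ⟨num (m + n + 1), num_mem_omega _,
      pair_mem_prod.2 ⟨num_mem_num.2 (by omega), num_mem_num.2 (by omega)⟩⟩
  · obtain ⟨n, rfl⟩ := mem_omega.1 hξ
    refine Set.infinite_of_injective_forall_mem (f := fun k : ℕ => app g (num k))
      (s := (fun p : ℕ × ℕ => pair (num p.1) (num p.2)) '' (Set.Iio n ×ˢ Set.Iio n))
      (fun k l e => num_inj.1 (h2 _ (num_mem_omega k) _ (num_mem_omega l) e)) (fun k => ?_)
      (((Set.finite_Iio n).prod (Set.finite_Iio n)).image _)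
    obtain ⟨x, hx, h3⟩ := mem_bun.1 (h1 _ (num_mem_omega k))
    obtain ⟨m, hm, rfl⟩ := (mem_num (n := n + 1)).1 hx
    obtain ⟨a, ha, b, hb, e⟩ := mem_prod.1 h3
    obtain ⟨i, hi, rfl⟩ := mem_num.1 ha
    obtain ⟨j, hj, rfl⟩ := mem_num.1 hb
    exact ⟨(i, j), ⟨show i < n by omega, show j < n by omega⟩, e.symm⟩

namespace Inf

variable {R : ZF} (hR : Inf M R)
include hR

theorem prod {a b : ZF} (h : Le M a R) (h' : Le M b R) : Le M (prod a b) R :=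
  (h.prod h' hR.mem hR.mem).trans hR.sq hR.mem

theorem bun {a : ZF} (F : ZF → ZF) (hF : Tm M (fun v => F (v 0))) (ha : a ∈ M) (h : Le M a R)
    (h' : ∀ x ∈ a, Le M (F x) R) : Le M (bun F a) R :=
  (le_bun F hF ha hR.mem h').trans (hR.prod h (Le.refl hR.mem)) hR.mem

theorem img {a : ZF} (F : ZF → ZF) (hF : Tm M (fun v => F (v 0))) (ha : a ∈ M) (h : Le M a R) :
    Le M (img F a) R := (le_img F hF ha).trans h hR.mem

theorem sUnion {a : ZF} (ha : a ∈ M) (h : Le M a R) (h' : ∀ x ∈ a, Le M x R) :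
    Le M (ZFSet.sUnion a) R :=
  (hR.bun (fun x => x) inferInstance ha h h').mono fun _ hy => mem_bun.2 (mem_sUnion.1 hy)

theorem upair {a b : ZF} (ha : a ∈ M) (hb : b ∈ M) : Le M {a, b} R := by
  classical
  have := In.mk' ha
  have := In.mk' hb
  refine (Le.of_fun (fun x => if x = ∅ then a else b) inferInstance hM.infinity
    fun y hy => ?_).trans hR.omLe hR.mem
  rcases mem_pair.1 hy with rfl | rfl
  · exact ⟨num 0, num_mem_omega 0, if_pos rfl⟩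
  · exact ⟨num 1, num_mem_omega 1, if_neg fun e => absurd (num_inj (n := 0).1 e) (by omega)⟩

theorem singleton {a : ZF} (ha : a ∈ M) : Le M {a} R := by simpa using hR.upair ha ha

theorem union {a b : ZF} (ha : a ∈ M) (hb : b ∈ M) (h : Le M a R) (h' : Le M b R) :
    Le M (a ∪ b) R :=
  hR.sUnion (hM.pairing a ha b hb) (hR.upair ha hb) fun x hx => by
    rcases mem_pair.1 hx with rfl | rfl
    exacts [h, h']

theorem insert {a b : ZF} (ha : a ∈ M) (hb : b ∈ M) (h : Le M b R) : Le M (insert a b) R := by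
  have := In.mk' ha
  rw [insert_eq]
  exact hR.union (In.mem _) hb (hR.singleton ha) h

end Inf

theorem inf_pw : Inf M (pw M om) := by
  refine ⟨In.mem _, Le.trans (b := pw M (prod om om)) (Le.of_fun (fun z =>
    pair (ZFSet.sep (fun n => pair ∅ n ∈ z) om) (ZFSet.sep (fun n => pair (num 1) n ∈ z) om))
    inferInstance (In.mem _) fun y hy => ?_) (inf_omega.sq.pw hM.infinity) (In.mem _),
    Le.of_subset (In.mem _) fun n hn =>
      mem_pw.2 ⟨isOrdinal_omega.subset_of_mem hn, tr hM.infinity hn⟩⟩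
  obtain ⟨a, ha, b, hb, rfl⟩ := mem_prod.1 hy
  obtain ⟨ha, ha'⟩ := mem_pw.1 ha
  obtain ⟨hb, hb'⟩ := mem_pw.1 hb
  have := In.mk' ha'
  have := In.mk' hb'
  have h01 : (∅ : ZF) ≠ num 1 := fun e => absurd (num_inj (m := 0).1 e) (by omega)
  refine ⟨prod {∅} a ∪ prod {num 1} b, mem_pw.2 ⟨fun p hp => ?_, In.mem _⟩, ?_⟩
  · rcases mem_union.1 hp with h | h <;> obtain ⟨x, hx, y, hy, rfl⟩ := mem_prod.1 h <;>
      obtain rfl := mem_singleton.1 hx
    exacts [pair_mem_prod.2 ⟨omega_zero, ha hy⟩, pair_mem_prod.2 ⟨num_mem_omega 1, hb hy⟩]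
  · rw [pair_inj]
    constructor <;> ext n <;> simp only [mem_sep, mem_union, pair_mem_prod, mem_singleton]
    · exact ⟨fun h => h.2.elim And.right fun h => absurd h.1 h01, fun h => ⟨ha h, Or.inl ⟨trivial, h⟩⟩⟩
    · exact ⟨fun h => h.2.elim (fun h => absurd h.1 h01.symm) And.right,
        fun h => ⟨hb h, Or.inr ⟨trivial, h⟩⟩⟩

/-- countable subsets -/
noncomputable def cs (M : Set ZF) (X : ZF) : ZF := ZFSet.sep (fun c => Le M c om) (pw M X)

omit hM in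
theorem mem_cs {X c : ZF} : c ∈ cs M X ↔ (c ⊆ X ∧ c ∈ M) ∧ Le M c om := by simp [cs]

instance tm_cs {a : Env → ZF} [Tm M a] : Tm M (fun v => cs M (a v)) := by
  unfold cs; infer_instance

theorem le_cs {X : ZF} (h : Le M X (pw M om)) : Le M (cs M X) (pw M om) := by
  obtain ⟨g, hg, h⟩ := h
  have := In.mk' hg
  refine Le.trans (b := prod (pw M om) (pw M (prod om om))) (Le.of_fun (fun z =>
    img (fun n => app g (ZFSet.sep (fun m => pair n m ∈ snd z) om)) (fst z))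
    inferInstance (In.mem _) fun c hc => ?_)
    (inf_pw.prod (Le.refl (In.mem _)) (inf_omega.sq.pw hM.infinity)) (In.mem _)
  obtain ⟨⟨h1, h2⟩, f, hf, h3⟩ := mem_cs.1 hc
  have := In.mk' h2
  have := In.mk' hf
  obtain ⟨k, hk, h4⟩ := skolem (M := M) (fun y x => x ∈ pw M om ∧ app g x = y) inferInstance h2
    fun y hy => by
      obtain ⟨x, hx, e⟩ := h y (h1 hy)
      exact ⟨x, (mem_pw.1 hx).2, hx, e⟩
  have := In.mk' hk
  refine ⟨pair (ZFSet.sep (fun n => app f n ∈ c) om)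
    (ZFSet.sep (fun p => snd p ∈ app k (app f (fst p))) (prod om om)),
    pair_mem_prod.2 ⟨mem_pw.2 ⟨sep_subset, In.mem _⟩, mem_pw.2 ⟨sep_subset, In.mem _⟩⟩, ?_⟩
  have key : ∀ n ∈ om, app f n ∈ c → app g (ZFSet.sep (fun m => pair n m ∈
      ZFSet.sep (fun p => snd p ∈ app k (app f (fst p))) (prod om om)) om) = app f n := by
    intro n hn h5
    rw [← (h4 _ h5).2]
    congr 1
    ext m
    simp only [mem_sep, pair_mem_prod, fst_pair, snd_pair]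
    exact ⟨fun h => h.2.2, fun h => ⟨(mem_pw.1 (h4 _ h5).1).1 h,
      ⟨hn, (mem_pw.1 (h4 _ h5).1).1 h⟩, h⟩⟩
  ext y
  simp only [mem_img, fst_pair, snd_pair, mem_sep (p := fun n => app f n ∈ c)]
  constructor
  · rintro ⟨n, ⟨hn, h5⟩, rfl⟩
    rwa [key n hn h5]
  · intro hy
    obtain ⟨n, hn, rfl⟩ := h3 y hy
    exact ⟨n, ⟨hn, hy⟩, key n hn hy⟩

/-- `k` is the least ordinal not covered by `R` -/
structure Hart (M : Set ZF) (R k : ZF) : Prop where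
  mem : k ∈ M
  ord : IsOrdinal k
  not_le : ¬ Le M k R
  le : ∀ ξ ∈ k, Le M ξ R

theorem exists_hart {R : ZF} (hR : R ∈ M) : ∃ k, Hart M R k := by
  obtain ⟨o, hm, ho, g, hg, -, -, h⟩ := numer (pw_mem hR)
  obtain ⟨k, ⟨h1, h2, h3⟩, h4⟩ := exists_min (P := fun k => k ∈ M ∧ IsOrdinal k ∧ ¬ Le M k R)
    ⟨o, hm, ho, fun h' => cantor hR (Le.trans ⟨g, hg, h⟩ h' hR)⟩
  exact ⟨k, h1, h2, h3, fun ξ hξ => by_contra fun h => h4 ξ hξ ⟨tr h1 hξ, h2.mem hξ, h⟩⟩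

namespace Hart

variable {R k : ZF} (h : Hart M R k)
include h

theorem mem_of_le {o : ZF} (ho : IsOrdinal o) (h' : Le M o R) : o ∈ k :=
  (ho.mem_or_subset h.ord).resolve_right fun h2 => h.not_le (h'.mono h2)

theorem succ (hR : Inf M R) {o : ZF} (ho : o ∈ k) : insert o o ∈ k :=
  h.mem_of_le (isOrdinal_succ (h.ord.mem ho)) (hR.insert (tr h.mem ho) (tr h.mem ho) (h.le o ho))

theorem omega (hR : Inf M R) : om ∈ k := h.mem_of_le isOrdinal_omega hR.omLe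

theorem zero (hR : Inf M R) : ∅ ∈ k := h.ord.mem_trans omega_zero (h.omega hR)

theorem num (hR : Inf M R) (n : ℕ) : num n ∈ k := h.ord.mem_trans (num_mem_omega n) (h.omega hR)

theorem union {a b : ZF} (ha : a ∈ k) (hb : b ∈ k) : a ∪ b ∈ k := by
  rcases (h.ord.mem ha).subset_total (h.ord.mem hb) with h1 | h1
  · have : a ∪ b = b := by
      ext x; rw [mem_union]; exact ⟨fun h => h.elim (fun h => h1 h) id, Or.inr⟩
    rwa [this]
  · have : a ∪ b = a := by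
      ext x; rw [mem_union]; exact ⟨fun h => h.elim id fun h => h1 h, Or.inl⟩
    rwa [this]

theorem bdd (hR : Inf M R) {c : ZF} (hc : c ∈ M) (h1 : c ⊆ k) (h2 : Le M c R) :
    ∃ η ∈ k, c ⊆ η := by
  have ho := isOrdinal_sUnion fun x hx => h.ord.mem (h1 hx)
  have h3 := h.mem_of_le ho (hR.sUnion hc h2 fun x hx => h.le x (h1 hx))
  exact ⟨_, h.succ hR h3, fun x hx => (mem_succ_iff (h.ord.mem (h1 hx)) ho).2
    fun y hy => mem_sUnion.2 ⟨x, hx, hy⟩⟩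

/-- witnesses for a small set can be bounded -/
theorem bdd_wit (hR : Inf M R) (P : ZF → ZF → Prop) (hP : Df M (fun v => P (v 0) (v 1))) {c : ZF}
    (hc : c ∈ M) (h2 : Le M c R) (H : ∀ x ∈ c, ∃ ξ ∈ k, P x ξ) :
    ∃ η ∈ k, ∀ x ∈ c, ∃ ξ ∈ η, P x ξ := by
  have := fun s t [Tm M s] [Tm M t] => hP.two s t
  have := In.mk' h.mem
  have := In.mk' hc
  obtain ⟨η, hη, h3⟩ := h.bdd hR (c := img (fun x => lst k (P x)) c) (In.mem _) (fun y hy => by
    obtain ⟨x, hx, rfl⟩ := mem_img.1 hy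
    exact (lst_spec h.ord (H x hx)).1) (hR.img _ inferInstance hc h2)
  exact ⟨η, hη, fun x hx => ⟨_, h3 (img_mem hx), (lst_spec h.ord (H x hx)).2.1⟩⟩

theorem exists_notMem {c : ZF} (h2 : Le M c R) : ∃ ξ ∈ k, ξ ∉ c := by
  by_contra h3
  exact h.not_le (h2.mono fun ξ hξ => by_contra fun h4 => h3 ⟨ξ, hξ, h4⟩)

theorem layers (hR : Inf M R) {a : ZF} (ha : a ∈ M) (F : ZF → ZF) (hF : Tm M (fun v => F (v 0)))
    (h1 : ∀ y ∈ a, ∃ ξ ∈ k, y ∈ F ξ) (h2 : ∀ ξ ∈ k, Le M (F ξ) R) : Le M a k := by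
  have := fun s [Tm M s] => hF.one s
  refine MP_3ab3de_lc.layers ha h.mem h.ord F hF h1 fun ξ hξ g hg h3 h4 => h.not_le ?_
  have := In.mk' (tr h.mem hξ)
  exact (le_of_inj h.mem hg (In.mem _) h3 h4).trans (hR.bun F hF (In.mem _)
    (h.le _ (h.succ hR hξ)) fun x hx => h2 x (h.ord.mem_trans hx (h.succ hR hξ))) hR.mem

theorem cardLE_pw (hR : R ∈ M) : CardLE M k (pw M R) := by
  obtain ⟨o, hm, ho, g, hg, h1, h2, h3⟩ := numer (pw_mem hR)
  have h4 : k ⊆ o := (ho.mem_or_subset h.ord).resolve_left fun h' =>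
    cantor hR (Le.trans ⟨g, hg, h3⟩ (h.le o h') hR)
  have := In.mk' hg
  exact cardLE_of_fun (app g) inferInstance h.mem (fun x hx => h1 x (h4 hx))
    fun x hx y hy => h2 x (h4 hx) y (h4 hy)

theorem le_pw (hR : R ∈ M) : Le M k (pw M R) := (h.cardLE_pw hR).le h.mem (pw_mem hR)

end Hart

/-- countably many dense open sets of a countably closed preorder -/
theorem baire (le : ZF → ZF → Prop) (hl : Df M (fun v => le (v 0) (v 1))) {S : ZF} (hS : S ∈ M)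
    (ht : ∀ a b c, le a b → le b c → le a c)
    (hc : ∀ f ∈ M, (∀ n : ℕ, app f (num n) ∈ S ∧ le (app f (num (n + 1))) (app f (num n))) →
      ∃ q ∈ S, ∀ n : ℕ, le q (app f (num n)))
    (D : ZF → ZF → Prop) (hD : Df M (fun v => D (v 0) (v 1))) {I : ZF} (hI : Le M I om)
    {p : ZF} (hp : p ∈ S) (hr : ∀ q ∈ S, le q q)
    (hd : ∀ i ∈ I, ∀ q ∈ S, le q p → ∃ r ∈ S, le r q ∧ D i r)
    (ho : ∀ i ∈ I, ∀ q r, D i q → le r q → D i r) (hIM : I ∈ M) :
    ∃ q ∈ S, le q p ∧ ∀ i ∈ I, D i q := by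
  have := fun s t [Tm M s] [Tm M t] => hl.two s t
  have := fun s t [Tm M s] [Tm M t] => hD.two s t
  obtain ⟨e, he, h1⟩ := hI
  have := In.mk' he
  have := In.mk' hS
  have := In.mk' hIM
  have := In.mk' (tr hS hp)
  obtain ⟨f, hf, h2, h3⟩ := dc (M := M) (fun n x y => le y x ∧ (app e n ∈ I → D (app e n) y))
    inferInstance (In.mem (ZFSet.sep (fun q => le q p) S)) (mem_sep.2 ⟨hp, hr p hp⟩)
    fun n x hx => by
      obtain ⟨h4, h5⟩ := mem_sep.1 hx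
      by_cases h : app e (num n) ∈ I
      · obtain ⟨r, h6, h7, h8⟩ := hd _ h x h4 h5
        exact ⟨r, mem_sep.2 ⟨h6, ht _ _ _ h7 h5⟩, h7, fun _ => h8⟩
      · exact ⟨x, hx, hr x h4, fun h' => absurd h' h⟩
  obtain ⟨q, hq, h4⟩ := hc f hf fun n => ⟨(mem_sep.1 (h3 n).1).1, (h3 n).2.1⟩
  refine ⟨q, hq, h2 ▸ h4 0, fun i hi => ?_⟩
  obtain ⟨x, hx, rfl⟩ := h1 i hi
  obtain ⟨n, rfl⟩ := mem_omega.1 hx
  exact ho _ hi _ _ ((h3 n).2.2 hi) (h4 (n + 1))

end Pool.Agent.P.MP_3ab3de_lc
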