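import Pool.Agent.P.MP_3ab3de_lc.Force2

/-! The generic extension is a model. -/

set_option linter.unusedSectionVars false

namespace Pool.Agent.P.MP_3ab3de_lc

open ZFSet

namespace ForceP

/-- canonical names -/
noncomputable def chk (P : ZF) : ZF → ZF := rc fun _ g => prod (img snd g) P

theorem mem_chk {P x s p : ZF} : pair s p ∈ chk P x ↔ (∃ y ∈ x, chk P y = s) ∧ p ∈ P := by
  rw [show chk P x = _ from rc_eq _ x, pair_mem_prod, mem_img]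
  refine and_congr_left fun _ => ⟨?_, ?_⟩
  · rintro ⟨w, hw, rfl⟩
    obtain ⟨y, hy, rfl⟩ := mem_graph.1 hw
    exact ⟨y, hy, (snd_pair _ _).symm⟩
  · rintro ⟨y, hy, rfl⟩
    exact ⟨_, mem_graph.2 ⟨y, hy, rfl⟩, snd_pair _ _⟩

/-- name of an ordered pair -/
noncomputable def op (P s t : ZF) : ZF := prod {prod {s} P, prod {s, t} P} P

variable {M : Set ZF} [hM : TModel M] {P L G : ZF}

instance tm_chk [In M P] {a : Env → ZF} [Tm M a] : Tm M (fun v => chk P (a v)) :=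
  (tm_rc (M := M) (Φ := fun _ g => prod (img snd g) P) inferInstance).one a

instance tm_op [In M P] {a b : Env → ZF} [Tm M a] [Tm M b] :
    Tm M (fun v => op P (a v) (b v)) := by
  unfold op; infer_instance

omit hM in
theorem exists_names {v : Env} (hv : ∀ n, v n ∈ val G '' M) :
    ∃ w, EIn M w ∧ v = fun n => val G (w n) := by
  choose w h1 h2 using hv
  exact ⟨w, h1, funext fun n => (h2 n).symm⟩

namespace Cx

variable (C : Cx M P L G)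
include C

theorem val_prod (a : ZF) : val G (prod a P) = img (val G) a := by
  ext y
  rw [mem_val, mem_img]
  constructor
  · rintro ⟨s, p, -, h, rfl⟩
    exact ⟨s, (pair_mem_prod.1 h).1, rfl⟩
  · rintro ⟨s, h, rfl⟩
    obtain ⟨p, hp⟩ := C.ne
    exact ⟨s, p, hp, pair_mem_prod.2 ⟨h, C.gen.sub hp⟩, rfl⟩

theorem val_upair (s t : ZF) : val G (prod {s, t} P) = {val G s, val G t} := by
  ext y
  simp [C.val_prod, eq_comm]

theorem val_op (s t : ZF) : val G (op P s t) = pair (val G s) (val G t) := by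
  have : val G (prod {s} P) = {val G s} := by
    ext y
    simp [C.val_prod, eq_comm]
  rw [op, C.val_upair, C.val_upair, this, pair]

theorem val_chk (x : ZF) : val G (chk P x) = x := by
  induction x using ZFSet.inductionOn with
  | h x ih =>
    ext y
    rw [mem_val]
    constructor
    · rintro ⟨s, p, -, h, rfl⟩
      obtain ⟨⟨z, hz, rfl⟩, -⟩ := mem_chk.1 h
      rwa [ih z hz]
    · intro hy
      obtain ⟨p, hp⟩ := C.ne
      exact ⟨_, p, hp, mem_chk.2 ⟨⟨y, hy, rfl⟩, C.gen.sub hp⟩, ih y hy⟩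

theorem chk_mem {x : ZF} (hx : x ∈ M) : chk P x ∈ M := by
  have := In.mk' C.hP
  have := In.mk' hx
  exact In.mem _

theorem sub_ext : M ⊆ val G '' M := fun x hx => ⟨_, C.chk_mem hx, C.val_chk x⟩

theorem gen_mem : G ∈ val G '' M := by
  have := In.mk' C.hP
  refine ⟨img (fun p => pair (chk P p) p) P, In.mem _, ?_⟩
  ext y
  rw [mem_val]
  constructor
  · rintro ⟨s, p, hp, h, rfl⟩
    obtain ⟨q, -, e⟩ := mem_img.1 h
    obtain ⟨rfl, rfl⟩ := pair_inj.1 e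
    rwa [C.val_chk]
  · exact fun hy => ⟨_, y, hy, img_mem (F := fun p => pair (chk P p) p) (C.gen.sub hy),
      C.val_chk y⟩

theorem union_ext {t : ZF} (ht : t ∈ M) : ZFSet.sUnion (val G t) ∈ val G '' M := by
  have := In.mk' C.hP
  have := In.mk' C.hL
  have := In.mk' ht
  refine ⟨ZFSet.sep (fun w => ∃ s p, pair s p ∈ t ∧ ∃ q, pair (fst w) q ∈ s ∧
    pair (snd w) p ∈ L ∧ pair (snd w) q ∈ L) (prod (bun dom (dom t)) P), In.mem _, ?_⟩
  ext y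
  rw [mem_val, mem_sUnion]
  constructor
  · rintro ⟨s', r, hr, h, rfl⟩
    obtain ⟨-, s, p, h1, q, h2, h3, h4⟩ := mem_sep.1 h
    rw [fst_pair] at h2
    rw [snd_pair] at h3 h4
    exact ⟨_, val_mem (C.gen.up r hr _ h3) h1, val_mem (C.gen.up r hr _ h4) h2⟩
  · rintro ⟨z, hz, hy⟩
    obtain ⟨s, p, hp, h1, rfl⟩ := mem_val.1 hz
    obtain ⟨s', q, hq, h2, rfl⟩ := mem_val.1 hy
    obtain ⟨r, hr, h3, h4⟩ := C.gen.dir p hp q hq
    refine ⟨s', r, hr, mem_sep.2 ⟨pair_mem_prod.2 ⟨mem_bun.2 ⟨s, mem_dom_of h1, mem_dom_of h2⟩,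
      C.gen.sub hr⟩, s, p, h1, q, ?_⟩, rfl⟩
    rw [fst_pair, snd_pair]
    exact ⟨h2, h3, h4⟩

/-- separation with a forcing condition -/
theorem sep_name {t : ZF} (ht : t ∈ M) (A : ZF → ZF → Prop) (hA : Df M (fun v => A (v 0) (v 1)))
    (B : ZF → Prop) (mono : ∀ s ∈ M, ∀ p q, A p s → pair q p ∈ L → A q s)
    (H : ∀ s ∈ M, B (val G s) ↔ ∃ p ∈ G, A p s) :
    ∃ b ∈ M, (∀ w ∈ b, w ∈ prod (dom t) P ∧ ∃ q, pair (fst w) q ∈ t ∧ pair (snd w) q ∈ L) ∧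
      ∀ x, x ∈ val G b ↔ x ∈ val G t ∧ B x := by
  have := In.mk' C.hP
  have := In.mk' C.hL
  have := In.mk' ht
  have := fun s t [Tm M s] [Tm M t] => hA.two s t
  refine ⟨ZFSet.sep (fun w => (∃ q, pair (fst w) q ∈ t ∧ pair (snd w) q ∈ L) ∧
    A (snd w) (fst w)) (prod (dom t) P), In.mem _,
    fun w hw => ⟨(mem_sep.1 hw).1, (mem_sep.1 hw).2.1⟩, fun x => ?_⟩
  rw [mem_val]
  constructor
  · rintro ⟨s, r, hr, h, rfl⟩
    obtain ⟨-, ⟨q, h1, h2⟩, h3⟩ := mem_sep.1 h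
    rw [fst_pair] at h1 h3
    rw [snd_pair] at h2 h3
    exact ⟨val_mem (C.gen.up r hr _ h2) h1, (H s (fst_mem (tr ht h1))).2 ⟨r, hr, h3⟩⟩
  · rintro ⟨h1, h2⟩
    obtain ⟨s, q, hq, h3, rfl⟩ := mem_val.1 h1
    have hs := fst_mem (tr ht h3)
    obtain ⟨p, hp, h4⟩ := (H s hs).1 h2
    obtain ⟨r, hr, h5, h6⟩ := C.gen.dir p hp q hq
    refine ⟨s, r, hr, mem_sep.2 ⟨pair_mem_prod.2 ⟨mem_dom_of h3, C.gen.sub hr⟩, ?_⟩, rfl⟩
    rw [fst_pair, snd_pair]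
    exact ⟨⟨q, h3, h6⟩, mono s hs p r h4 h5⟩

theorem sep_ext (φ : Fml) {v : Env} (hv : EIn M v) {t : ZF} (ht : t ∈ M) :
    ∃ b ∈ val G '' M, ∀ x, x ∈ b ↔ x ∈ val G t ∧
      Sat (val G '' M) φ (cons x fun n => val G (v n)) := by
  have := In.mk' C.hL
  obtain ⟨b, hb, -, h⟩ := C.sep_name ht (fun p s => Fo M L φ p (cons s v)) (df_fo1 φ hv)
    (fun x => Sat (val G '' M) φ (cons x fun n => val G (v n)))
    (fun s hs p q h hq => C.fo_mono φ (hv.cons hs) h hq)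
    fun s hs => by rw [← val_cons, C.truth φ (hv.cons hs)]
  exact ⟨_, ⟨b, hb, rfl⟩, h⟩

theorem power_ext {t : ZF} (ht : t ∈ M) :
    ∃ c ∈ val G '' M, ∀ x ∈ val G '' M, x ∈ c ↔ x ⊆ val G t := by
  have := In.mk' C.hP
  have := In.mk' C.hL
  have := In.mk' ht
  refine ⟨_, ⟨prod (ZFSet.sep (fun b => ∀ w ∈ b, ∃ q, pair (fst w) q ∈ t ∧ pair (snd w) q ∈ L)
    (pw M (prod (dom t) P))) P, In.mem _, rfl⟩, ?_⟩
  rintro _ ⟨s, hs, rfl⟩
  rw [C.val_prod, mem_img]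
  constructor
  · rintro ⟨b, hb, e⟩ y hy
    rw [← e] at hy
    obtain ⟨s', r, hr, h, rfl⟩ := mem_val.1 hy
    obtain ⟨q, h1, h2⟩ := (mem_sep.1 hb).2 _ h
    rw [fst_pair] at h1
    rw [snd_pair] at h2
    exact val_mem (C.gen.up r hr _ h2) h1
  · intro h
    have := In.mk' hs
    obtain ⟨b, hb, h1, h2⟩ := C.sep_name ht (fun p s' => FM M L p s' s) inferInstance
      (fun x => x ∈ val G s) (fun _ _ _ _ h hq => C.fm_mono h hq)
      fun s' hs' => C.truth_mem hs' hs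
    refine ⟨b, mem_sep.2 ⟨mem_pw.2 ⟨fun w hw => (h1 w hw).1, hb⟩, fun w hw => (h1 w hw).2⟩, ?_⟩
    ext y
    rw [h2]
    exact ⟨fun h => h.2, fun h' => ⟨h h', h'⟩⟩

theorem repl_ext (φ : Fml) {v : Env} (hv : EIn M v) {t : ZF} (ht : t ∈ M)
    (H : ∀ x ∈ val G t, ∃! y, y ∈ val G '' M ∧
      Sat (val G '' M) φ (cons y (cons x fun n => val G (v n)))) :
    ∃ b ∈ val G '' M, ∀ y, y ∈ b ↔ y ∈ val G '' M ∧ ∃ x ∈ val G t,
      Sat (val G '' M) φ (cons y (cons x fun n => val G (v n))) := by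
  have := In.mk' C.hP
  have := In.mk' C.hL
  have := In.mk' ht
  have := fun a b c [Tm M a] [Tm M b] [Tm M c] => (df_fo2 (M := M) (L := L) φ hv).three
    (R := fun p y s => Fo M L φ p (cons y (cons s v))) a b c
  have T : ∀ y ∈ M, ∀ s ∈ M, Sat (val G '' M) φ (cons (val G y) (cons (val G s)
      fun n => val G (v n))) ↔ ∃ p ∈ G, Fo M L φ p (cons y (cons s v)) := fun y hy s hs => by
    rw [← val_cons, ← val_cons, C.truth φ ((hv.cons hs).cons hy)]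
  obtain ⟨c, hc, h⟩ := collect (M := M) (fun w y =>
    (∃ y' ∈ M, Fo M L φ (snd w) (cons y' (cons (fst w) v))) →
      Fo M L φ (snd w) (cons y (cons (fst w) v))) inferInstance (In.mem (prod (dom t) P))
    fun w _ => by
      by_cases h : ∃ y' ∈ M, Fo M L φ (snd w) (cons y' (cons (fst w) v))
      · obtain ⟨y, h1, h2⟩ := h
        exact ⟨y, h1, fun _ => h2⟩
      · exact ⟨∅, empty_mem, fun h' => absurd h' h⟩
  have := In.mk' hc
  refine ⟨_, ⟨ZFSet.sep (fun w => ∃ s q, pair s q ∈ t ∧ pair (snd w) q ∈ L ∧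
    Fo M L φ (snd w) (cons (fst w) (cons s v))) (prod c P), In.mem _, rfl⟩, fun y => ?_⟩
  rw [mem_val]
  constructor
  · rintro ⟨y, r, hr, h1, rfl⟩
    obtain ⟨h2, s, q, h3, h4, h5⟩ := mem_sep.1 h1
    rw [snd_pair] at h4 h5
    rw [fst_pair] at h5
    have hy := tr hc (pair_mem_prod.1 h2).1
    exact ⟨⟨y, hy, rfl⟩, _, val_mem (C.gen.up r hr _ h4) h3,
      (T y hy s (fst_mem (tr ht h3))).2 ⟨r, hr, h5⟩⟩
  · rintro ⟨⟨y, hy, rfl⟩, x, hx, h1⟩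
    obtain ⟨s, q, hq, h2, rfl⟩ := mem_val.1 hx
    have hs := fst_mem (tr ht h2)
    obtain ⟨p, hp, h3⟩ := (T y hy s hs).1 h1
    obtain ⟨r, hr, h4, h5⟩ := C.gen.dir p hp q hq
    obtain ⟨y', h6, h7⟩ := h (pair s r) (pair_mem_prod.2 ⟨mem_dom_of h2, C.gen.sub hr⟩)
    rw [fst_pair, snd_pair] at h7
    have h8 := h7 ⟨y, hy, C.fo_mono φ ((hv.cons hs).cons hy) h3 h4⟩
    refine ⟨y', r, hr, mem_sep.2 ⟨pair_mem_prod.2 ⟨h6, C.gen.sub hr⟩, s, q, h2, ?_⟩,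
      (H _ hx).unique ⟨⟨y', tr hc h6, rfl⟩, (T y' (tr hc h6) s hs).2 ⟨r, hr, h8⟩⟩
        ⟨⟨y, hy, rfl⟩, h1⟩⟩
    rw [fst_pair, snd_pair]
    exact ⟨h5, h8⟩

set_option synthInstance.maxSize 1024 in
theorem choice_ext {t : ZF} (ht : t ∈ M) :
    ∃ f ∈ val G '' M, ∀ x ∈ val G t, (∃ y, y ∈ x) →
      ∃ y ∈ x, pair x y ∈ f ∧ ∀ z, pair x z ∈ f → z = y := by
  have := In.mk' C.hP
  have := In.mk' C.hL
  have := In.mk' ht
  obtain ⟨o, hm, ho, g, hg, -, -, h1⟩ := numer (M := M) (In.mem (bun dom (dom t)))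
  have := In.mk' hm
  have := In.mk' hg
  have hgm : ∀ η ∈ o, app g η ∈ M := fun η hη => by
    have := In.mk' (tr hm hη)
    exact In.mem _
  refine ⟨_, ⟨img (fun w => pair (op P (fst (fst w)) (app g (snd (fst w)))) (snd w))
    (ZFSet.sep (fun w => (∃ q, pair (fst (fst w)) q ∈ t ∧ pair (snd w) q ∈ L) ∧
      FM M L (snd w) (app g (snd (fst w))) (fst (fst w)) ∧
      ∀ η ∈ snd (fst w), ∀ u, pair u (snd w) ∈ L → ¬ FM M L u (app g η) (fst (fst w)))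
      (prod (prod (dom t) o) P)), In.mem _, rfl⟩, ?_⟩
  intro x hx ⟨y, hy⟩
  obtain ⟨s, q, hq, h2, rfl⟩ := mem_val.1 hx
  have hs := fst_mem (tr ht h2)
  have := In.mk' hs
  obtain ⟨η, ⟨h3, h4⟩, h5⟩ := exists_min (P := fun η => η ∈ o ∧ val G (app g η) ∈ val G s) (by
    obtain ⟨s', q', hq', h3, rfl⟩ := mem_val.1 hy
    obtain ⟨η, h4, rfl⟩ := h1 s' (mem_bun.2 ⟨s, mem_dom_of h2, mem_dom_of h3⟩)
    exact ⟨η, h4, hy⟩)
  have := In.mk' (tr hm h3)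
  refine ⟨_, h4, ?_, ?_⟩
  · obtain ⟨p, hp, h6⟩ := (C.truth_mem (hgm η h3) hs).1 h4
    obtain ⟨p', hp', h7⟩ := C.meet_or
      (fun r => ∀ η' ∈ η, ∀ u, pair u r ∈ L → ¬ FM M L u (app g η') s)
      (fun r => ∃ η' ∈ η, FM M L r (app g η') s) inferInstance inferInstance
      (fun r _ hn => by
        by_contra hc
        exact hn fun η' h u hu h' => hc ⟨u, hu, η', h, h'⟩)
      (by
        rintro r hr ⟨η', h, h'⟩
        have h8 := ho.mem_trans h h3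
        exact h5 η' h ⟨h8, (C.truth_mem (hgm η' h8) hs).2 ⟨r, hr, h'⟩⟩)
    obtain ⟨r, hr, h8, h9⟩ := C.gen.dir p hp q hq
    obtain ⟨r', hr', h10, h11⟩ := C.gen.dir r hr p' hp'
    rw [← C.val_op]
    refine val_mem hr' (mem_img.2 ⟨pair (pair s η) r', mem_sep.2 ⟨pair_mem_prod.2
      ⟨pair_mem_prod.2 ⟨mem_dom_of h2, h3⟩, C.gen.sub hr'⟩, ?_⟩, ?_⟩)
    · simp only [fst_pair, snd_pair]
      exact ⟨⟨q, h2, C.po.trans _ _ _ h10 h9⟩, C.fm_mono h6 (C.po.trans _ _ _ h10 h8),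
        fun η' h u hu => h7 η' h u (C.po.trans _ _ _ hu h11)⟩
    · simp only [fst_pair, snd_pair]
  · intro z hz
    obtain ⟨s', r, hr, h6, h7⟩ := mem_val.1 hz
    obtain ⟨w, hw, e⟩ := mem_img.1 h6
    obtain ⟨h8, -, h9, h10⟩ := mem_sep.1 hw
    obtain ⟨w', h11, r', -, rfl⟩ := mem_prod.1 h8
    obtain ⟨s₂, h12, η₂, h13, rfl⟩ := mem_prod.1 h11
    simp only [fst_pair, snd_pair] at e h9 h10
    obtain ⟨rfl, rfl⟩ := pair_inj.1 e
    rw [C.val_op] at h7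
    obtain ⟨h14, rfl⟩ := pair_inj.1 h7
    have hs₂ : s₂ ∈ M := tr (In.mem (dom t)) h12
    have h15 := (C.truth_mem (hgm η₂ h13) hs₂).2 ⟨_, hr, h9⟩
    rcases (ho.mem h13).mem_trichotomous (ho.mem h3) with h | h | h
    · exact absurd ⟨h13, h14 ▸ h15⟩ (h5 η₂ h)
    · rw [h]
    · obtain ⟨p, hp, h16⟩ := (C.truth_mem (hgm η h3) hs₂).1 (h14.symm ▸ h4)
      obtain ⟨u, -, h17, h18⟩ := C.gen.dir _ hr p hp
      exact absurd (C.fm_mono h16 h18) (h10 η h u h17)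

theorem cap_ext {s a : ZF} (hs : s ∈ M) (ha : a ∈ M) (h : val G s ⊆ a) :
    ∃ A ∈ M, A ⊆ prod P a ∧ ∀ b, b ∈ val G s ↔ ∃ p ∈ G, pair p b ∈ A := by
  have := In.mk' C.hP
  have := In.mk' C.hL
  have := In.mk' hs
  have := In.mk' ha
  refine ⟨ZFSet.sep (fun w => FM M L (fst w) (chk P (snd w)) s) (prod P a), In.mem _, sep_subset,
    fun b => ?_⟩
  simp only [mem_sep, pair_mem_prod, fst_pair, snd_pair]
  constructor
  · intro hb
    obtain ⟨p, hp, h1⟩ := (C.truth_mem (C.chk_mem (tr ha (h hb))) hs).1 (by rwa [C.val_chk])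
    exact ⟨p, hp, ⟨C.gen.sub hp, h hb⟩, h1⟩
  · rintro ⟨p, hp, ⟨-, h1⟩, h2⟩
    have := (C.truth_mem (C.chk_mem (tr ha h1)) hs).2 ⟨p, hp, h2⟩
    rwa [C.val_chk] at this

theorem model : TModel (val G '' M) where
  trans := by
    rintro _ ⟨t, ht, rfl⟩ y hy
    obtain ⟨s, p, -, h, rfl⟩ := mem_val.1 hy
    exact ⟨s, fst_mem (tr ht h), rfl⟩
  pairing := by
    rintro _ ⟨s, hs, rfl⟩ _ ⟨t, ht, rfl⟩
    have := In.mk' C.hP
    have := In.mk' hs
    have := In.mk' ht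
    exact ⟨prod {s, t} P, In.mem _, C.val_upair s t⟩
  union := by
    rintro _ ⟨t, ht, rfl⟩
    exact C.union_ext ht
  infinity := C.sub_ext hM.infinity
  power := by
    rintro _ ⟨t, ht, rfl⟩
    exact C.power_ext ht
  separation := by
    rintro φ v hv _ ⟨t, ht, rfl⟩
    obtain ⟨w, hw, rfl⟩ := exists_names hv
    exact C.sep_ext φ hw ht
  replacement := by
    rintro φ v hv _ ⟨t, ht, rfl⟩
    obtain ⟨w, hw, rfl⟩ := exists_names hv
    exact C.repl_ext φ hw ht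
  choice := by
    rintro _ ⟨t, ht, rfl⟩
    exact C.choice_ext ht

end Cx

end ForceP

open ForceP in
theorem extEx : S_Ext := by
  intro M _ hc P hP L hL po G gen
  have C : Cx M P L G := ⟨hP, hL, po, gen⟩
  refine ⟨val G '' M, ⟨C.model, C.sub_ext, C.gen_mem, ?_, ?_⟩, hc.image _⟩
  · rintro _ ⟨t, ht, rfl⟩
    exact ⟨t, ht, rank_val G t⟩
  · rintro _ ⟨s, hs, rfl⟩ a ha h
    exact C.cap_ext hs ha h

end Pool.Agent.P.MP_3ab3de_lc
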