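import Mathlib

/-! Transitive models of ZFC, and the notions of the problem read inside such a model `N`. -/

namespace Pool.Agent.P.MP_3ab3de_lc

open ZFSet

/-- First-order formulas of the language of set theory, with de Bruijn variables. -/
inductive Fml : Type
  | mem : ℕ → ℕ → Fml
  | eq : ℕ → ℕ → Fml
  | bot : Fml
  | imp : Fml → Fml → Fml
  | all : Fml → Fml

/-- The assignment `x, v 0, v 1, …`. -/
def cons (x : ZFSet.{0}) (v : ℕ → ZFSet.{0}) (n : ℕ) : ZFSet.{0} := Nat.rec x (fun k _ => v k) n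

/-- Tarski satisfaction in the structure `(N, ∈)` under an assignment of the variables. -/
def Sat (N : Set ZFSet.{0}) (φ : Fml) : (ℕ → ZFSet.{0}) → Prop :=
  Fml.rec (motive := fun _ => (ℕ → ZFSet.{0}) → Prop)
    (fun i j v => v i ∈ v j) (fun i j v => v i = v j) (fun _ => False)
    (fun _ _ p q v => p v → q v) (fun _ p v => ∀ x ∈ N, p (cons x v)) φ

/-- `N` is a transitive model of ZFC.  Extensionality and foundation hold in every transitive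
class, and pairing, union, infinity take their absolute form. -/
class TModel (N : Set ZFSet.{0}) : Prop where
  trans : ∀ x ∈ N, ∀ y ∈ x, y ∈ N
  pairing : ∀ a ∈ N, ∀ b ∈ N, ({a, b} : ZFSet.{0}) ∈ N
  union : ∀ a ∈ N, ZFSet.sUnion a ∈ N
  infinity : ZFSet.omega ∈ N
  power : ∀ a ∈ N, ∃ c ∈ N, ∀ x ∈ N, x ∈ c ↔ x ⊆ a
  separation : ∀ (φ : Fml) (v : ℕ → ZFSet.{0}), (∀ n, v n ∈ N) → ∀ a ∈ N,
    ∃ b ∈ N, ∀ x, x ∈ b ↔ x ∈ a ∧ Sat N φ (cons x v)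
  replacement : ∀ (φ : Fml) (v : ℕ → ZFSet.{0}), (∀ n, v n ∈ N) → ∀ a ∈ N,
    (∀ x ∈ a, ∃! y, y ∈ N ∧ Sat N φ (cons y (cons x v))) →
    ∃ b ∈ N, ∀ y, y ∈ b ↔ y ∈ N ∧ ∃ x ∈ a, Sat N φ (cons y (cons x v))
  choice : ∀ a ∈ N, ∃ f ∈ N, ∀ x ∈ a, (∃ y, y ∈ x) →
    ∃ y ∈ x, pair x y ∈ f ∧ ∀ z, pair x z ∈ f → z = y

variable (N : Set ZFSet.{0}) (κ : ZFSet.{0})

/-- `|A| ≤ |B|` in `N`: some function of `N` maps `A` injectively to `B`. -/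
def CardLE (A B : ZFSet.{0}) : Prop :=
  ∃ f ∈ N, IsFunc A B f ∧ ∀ a a' b, pair a b ∈ f → pair a' b ∈ f → a = a'

/-- In `N`, `κ` is an uncountable cardinal with `κ^{<κ} = κ`. -/
def GoodCard : Prop :=
  κ ∈ N ∧ IsOrdinal κ ∧ (∀ ξ ∈ κ, ¬ CardLE N κ ξ) ∧ ¬ CardLE N κ ZFSet.omega ∧
    ∃ S ∈ N, (∀ s, s ∈ S ↔ s ∈ N ∧ ∃ ξ ∈ κ, IsFunc ξ κ s) ∧ CardLE N S κ ∧ CardLE N κ S

/-- `x` is a point of the generalized Baire space `κ^κ` of `N`. -/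
def Baire (x : ZFSet.{0}) : Prop := x ∈ N ∧ IsFunc κ κ x

/-- The functions `x` and `y` agree below `ξ`. -/
def Agree (ξ x y : ZFSet.{0}) : Prop := ∀ η ∈ ξ, ∀ ζ, pair η ζ ∈ x ↔ pair η ζ ∈ y

/-- `U` is an open subset of `κ^κ` in the bounded topology. -/
def IsOpn (U : ZFSet.{0}) : Prop :=
  ∀ x ∈ U, Baire N κ x ∧ ∃ ξ ∈ κ, ∀ y, Baire N κ y → Agree ξ x y → y ∈ U

/-- `C` is a closed subset of `κ^κ`. -/
def IsCls (C : ZFSet.{0}) : Prop :=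
  (∀ x ∈ C, Baire N κ x) ∧ ∀ x, Baire N κ x → (∀ ξ ∈ κ, ∃ y ∈ C, Agree ξ x y) → x ∈ C

/-- `C` is a closed subset of `κ^κ × κ^κ`. -/
def IsCls2 (C : ZFSet.{0}) : Prop :=
  (∀ p ∈ C, ∃ x y, Baire N κ x ∧ Baire N κ y ∧ p = pair x y) ∧
    ∀ x y, Baire N κ x → Baire N κ y →
      (∀ ξ ∈ κ, ∃ x' y', pair x' y' ∈ C ∧ Agree ξ x x' ∧ Agree ξ y y') → pair x y ∈ C

/-- `A` is `Π¹₁`: the complement of the projection of a closed set of `N`. -/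
def IsPi11 (A : ZFSet.{0}) : Prop :=
  ∃ C ∈ N, IsCls2 N κ C ∧ ∀ x, x ∈ A ↔ Baire N κ x ∧ ¬ ∃ y, pair x y ∈ C

/-- `K ⊆ κ^κ` is `κ`-compact: every open cover in `N` has a subcover of size less than `κ`. -/
def IsCpt (K : ZFSet.{0}) : Prop :=
  (∀ x ∈ K, Baire N κ x) ∧
    ∀ W ∈ N, (∀ U ∈ W, IsOpn N κ U) → (∀ x ∈ K, ∃ U ∈ W, x ∈ U) →
      ∃ W' ∈ N, W' ⊆ W ∧ (∃ ξ ∈ κ, CardLE N W' ξ) ∧ ∀ x ∈ K, ∃ U ∈ W', x ∈ U

/-- `A` is included in the union of a `κ`-sequence of `κ`-compact sets. -/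
def InKk (A : ZFSet.{0}) : Prop :=
  ∃ F ∈ N, ∃ R ∈ N, IsFunc κ R F ∧ (∀ K ∈ R, IsCpt N κ K) ∧
    ∀ x ∈ A, ∃ ξ K, pair ξ K ∈ F ∧ x ∈ K

/-- Some function of `N` is a homeomorphism from `κ^κ` onto `C`. -/
def Homeo (C : ZFSet.{0}) : Prop :=
  ∃ B ∈ N, (∀ x, x ∈ B ↔ Baire N κ x) ∧ ∃ h ∈ N, IsFunc B C h ∧
    (∀ y ∈ C, ∃! x, pair x y ∈ h) ∧
    (∀ x y, pair x y ∈ h → ∀ ξ ∈ κ, ∃ η ∈ κ, ∀ x' y', pair x' y' ∈ h →
      Agree η x x' → Agree ξ y y') ∧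
    ∀ x y, pair x y ∈ h → ∀ ξ ∈ κ, ∃ η ∈ κ, ∀ x' y', pair x' y' ∈ h →
      Agree η y y' → Agree ξ x x'

/-- The Hurewicz dichotomy for `A`, read in `N`. -/
def Hurewicz (A : ZFSet.{0}) : Prop :=
  InKk N κ A ∨ ∃ C ∈ N, C ⊆ A ∧ IsCls N κ C ∧ Homeo N κ C

/-- In `N`, `κ` is an inaccessible cardinal: uncountable, regular and a strong limit. -/
def Inacc : Prop :=
  κ ∈ N ∧ IsOrdinal κ ∧ ZFSet.omega ∈ κ ∧
    (∀ ξ ∈ κ, ∀ f ∈ N, IsFunc ξ κ f → ∃ η ∈ κ, ∀ a b, pair a b ∈ f → b ∈ η) ∧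
    ∀ ξ ∈ κ, ∀ c ∈ N, (∀ x ∈ N, x ∈ c ↔ x ⊆ ξ) → ∃ η ∈ κ, CardLE N c η

/-- `I` is an inner model of `N`: a transitive subclass with all ordinals that models ZFC. -/
def InnerModel (I : Set ZFSet.{0}) : Prop :=
  I ⊆ N ∧ TModel I ∧ ∀ o ∈ N, IsOrdinal o → o ∈ I

end Pool.Agent.P.MP_3ab3de_lc
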