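import Pool.Agent.P.MP_3ab3de_lc.Defs

/-! Definable predicates and terms over a transitive model, as classes found by instance search. -/

set_option linter.unusedSectionVars false

namespace Pool.Agent.P.MP_3ab3de_lc

open ZFSet

abbrev ZF := ZFSet.{0}
abbrev Env := ℕ → ZFSet.{0}
abbrev om : ZFSet.{0} := ZFSet.omega

variable {M : Set ZF}

/-- generic `cons` on index maps -/
def cns {α : Type*} (x : α) (v : ℕ → α) (n : ℕ) : α := Nat.rec x (fun k _ => v k) n

@[simp] theorem cons_zero (x : ZF) (v : Env) : cons x v 0 = x := rfl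
@[simp] theorem cons_succ (x : ZF) (v : Env) (n : ℕ) : cons x v (n + 1) = v n := rfl

def EIn (M : Set ZF) (v : Env) : Prop := ∀ n, v n ∈ M

theorem EIn.cons {v : Env} (h : EIn M v) {x : ZF} (hx : x ∈ M) : EIn M (cons x v) := by
  intro n; cases n
  exacts [hx, h _]

theorem EIn.ren {v : Env} (h : EIn M v) (ρ : ℕ → ℕ) : EIn M (fun n => v (ρ n)) := fun _ => h _

def Fml.ren : Fml → (ℕ → ℕ) → Fml
  | Fml.mem i j, ρ => Fml.mem (ρ i) (ρ j)
  | Fml.eq i j, ρ => Fml.eq (ρ i) (ρ j)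
  | Fml.bot, _ => Fml.bot
  | Fml.imp φ ψ, ρ => Fml.imp (φ.ren ρ) (ψ.ren ρ)
  | Fml.all φ, ρ => Fml.all (φ.ren (cns 0 (fun n => ρ n + 1)))

theorem sat_mem {i j : ℕ} {v : Env} : Sat M (.mem i j) v ↔ v i ∈ v j := Iff.rfl
theorem sat_eq {i j : ℕ} {v : Env} : Sat M (.eq i j) v ↔ v i = v j := Iff.rfl
theorem sat_bot {v : Env} : Sat M .bot v ↔ False := Iff.rfl
theorem sat_imp {φ ψ : Fml} {v : Env} : Sat M (.imp φ ψ) v ↔ (Sat M φ v → Sat M ψ v) := Iff.rfl
theorem sat_all {φ : Fml} {v : Env} : Sat M (.all φ) v ↔ ∀ x ∈ M, Sat M φ (cons x v) := Iff.rfl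

theorem sat_ren (φ : Fml) : ∀ (ρ : ℕ → ℕ) (v : Env),
    Sat M (φ.ren ρ) v ↔ Sat M φ (fun n => v (ρ n)) := by
  induction φ with
  | mem i j => exact fun _ _ => Iff.rfl
  | eq i j => exact fun _ _ => Iff.rfl
  | bot => exact fun _ _ => Iff.rfl
  | imp φ ψ h1 h2 => exact fun ρ v => imp_congr (h1 ρ v) (h2 ρ v)
  | all φ ih =>
    intro ρ v
    refine forall_congr' (fun x => imp_congr_right fun _ => (ih _ _).trans ?_)
    have : (fun n => cons x v (cns 0 (fun n => ρ n + 1) n)) = cons x (fun n => v (ρ n)) := by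
      funext n; cases n <;> rfl
    rw [this]; exact Iff.rfl

/-- Definable in `M` with parameters from `M`. -/
class Df (M : Set ZF) (P : Env → Prop) : Prop where
  out : ∃ (φ : Fml) (ρ : ℕ → ℕ ⊕ M), ∀ v, EIn M v →
    (P v ↔ Sat M φ (fun n => Sum.elim v Subtype.val (ρ n)))

/-- Definable functions with values in `M`. -/
class Tm (M : Set ZF) (t : Env → ZF) : Prop where
  mem : ∀ v, EIn M v → t v ∈ M
  out : Df M (fun v => v 0 = t (fun n => v (n + 1)))

/-- Membership in `M`, as a class. -/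
abbrev In (M : Set ZF) (c : ZF) : Prop := Tm M (fun _ => c)

/-- `x` occurs in `t v x` at a place reached through pairs. -/
class Occ (M : Set ZF) (t : Env → ZF → ZF) : Prop where
  out : ∀ v x, t v x ∈ M → x ∈ M

/-- false outside `M` -/
class Void (M : Set ZF) (P : Env → ZF → Prop) : Prop where
  out : ∀ v, EIn M v → ∀ x, P v x → x ∈ M

/-- true outside `M` -/
class Triv (M : Set ZF) (P : Env → ZF → Prop) : Prop where
  out : ∀ v, EIn M v → ∀ x, x ∉ M → P v x

theorem ein_elim {v : Env} (h : EIn M v) (ρ : ℕ → ℕ ⊕ M) :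
    EIn M (fun n => Sum.elim v Subtype.val (ρ n)) := by
  intro n
  dsimp only
  cases ρ n with
  | inl k => exact h k
  | inr c => exact c.2

namespace Df

theorem congr {P Q : Env → Prop} (h : Df M P) (H : ∀ v, EIn M v → (Q v ↔ P v)) : Df M Q := by
  obtain ⟨φ, ρ, h⟩ := h
  exact ⟨φ, ρ, fun v hv => (H v hv).trans (h v hv)⟩

theorem sub {P : Env → Prop} (h : Df M P) (σ : ℕ → ℕ ⊕ M) :
    Df M (fun v => P (fun n => Sum.elim v Subtype.val (σ n))) := by
  obtain ⟨φ, ρ, h⟩ := h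
  refine ⟨φ, fun n => Sum.elim σ Sum.inr (ρ n), fun v hv => (h _ (ein_elim hv σ)).trans ?_⟩
  have : (fun n => Sum.elim (fun n => Sum.elim v Subtype.val (σ n)) Subtype.val (ρ n)) =
      fun n => Sum.elim v Subtype.val (Sum.elim σ Sum.inr (ρ n)) := by
    funext n; cases ρ n <;> rfl
  rw [this]

theorem ren {P : Env → Prop} (h : Df M P) (σ : ℕ → ℕ) :
    Df M (fun v => P (fun n => v (σ n))) := h.sub (fun n => Sum.inl (σ n))

theorem sat (φ : Fml) : Df M (fun v => Sat M φ v) := ⟨φ, Sum.inl, fun _ _ => Iff.rfl⟩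

theorem mem0 (i j : ℕ) : Df M (fun v => v i ∈ v j) := sat (Fml.mem i j)

theorem eq0 (i j : ℕ) : Df M (fun v => v i = v j) := sat (Fml.eq i j)

theorem bot : Df M (fun _ => False) := sat Fml.bot

instance imp {P Q : Env → Prop} [h1 : Df M P] [h2 : Df M Q] : Df M (fun v => P v → Q v) := by
  obtain ⟨φ, ρ, h1⟩ := h1
  obtain ⟨ψ, σ, h2⟩ := h2
  refine ⟨Fml.imp (φ.ren (fun n => 2 * n)) (ψ.ren (fun n => 2 * n + 1)),
    fun n => if n % 2 = 0 then ρ (n / 2) else σ (n / 2), fun v hv => imp_congr ?_ ?_⟩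
  · rw [h1 v hv]; refine Iff.trans ?_ (sat_ren _ _ _).symm
    simp
  · rw [h2 v hv]; refine Iff.trans ?_ (sat_ren _ _ _).symm
    have e1 : ∀ n : ℕ, (2 * n + 1) / 2 = n := fun n => by omega
    simp [e1]

theorem allM {P : Env → ZF → Prop} (h : Df M (fun v => P (fun n => v (n + 1)) (v 0))) :
    Df M (fun v => ∀ x ∈ M, P v x) := by
  obtain ⟨φ, ρ, h⟩ := h
  refine ⟨Fml.all (φ.ren (fun n => Sum.elim (cns 0 (fun _ => n + 1)) (fun _ => n + 1) (ρ n))),
    fun n => Sum.elim (fun k => Sum.inl (k - 1)) Sum.inr (ρ n),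
    fun v hv => forall_congr' (fun x => imp_congr_right fun hx =>
      (h (cons x v) (hv.cons hx)).trans ?_)⟩
  refine Iff.trans ?_ (sat_ren _ _ _).symm
  have : (fun n => Sum.elim (cons x v) Subtype.val (ρ n)) = fun n =>
      cons x (fun n => Sum.elim v Subtype.val
        (Sum.elim (fun k => Sum.inl (k - 1)) Sum.inr (ρ n) : ℕ ⊕ M))
        (Sum.elim (cns 0 (fun _ => n + 1)) (fun _ => n + 1) (ρ n)) := by
    funext n
    rcases e : ρ n with k | c
    · cases k
      · rfl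
      · simp [cns, e]
    · simp [e]
  rw [this]

instance all {P : Env → ZF → Prop} [t : Triv M P]
    [h : Df M (fun v => P (fun n => v (n + 1)) (v 0))] : Df M (fun v => ∀ x, P v x) :=
  (allM h).congr fun v hv => ⟨fun h x _ => h x, fun h x => by
    by_cases hx : x ∈ M
    exacts [h x hx, t.out v hv x hx]⟩

instance not {P : Env → Prop} [Df M P] : Df M (fun v => ¬ P v) := @imp _ _ _ _ bot

instance and {P Q : Env → Prop} [Df M P] [Df M Q] : Df M (fun v => P v ∧ Q v) :=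
  (inferInstance : Df M (fun v => ¬ (P v → ¬ Q v))).congr (fun _ _ => by tauto)

instance or {P Q : Env → Prop} [Df M P] [Df M Q] : Df M (fun v => P v ∨ Q v) :=
  (inferInstance : Df M (fun v => ¬ P v → Q v)).congr (fun _ _ => by tauto)

instance iff {P Q : Env → Prop} [Df M P] [Df M Q] : Df M (fun v => P v ↔ Q v) :=
  (inferInstance : Df M (fun v => (P v → Q v) ∧ (Q v → P v))).congr (fun _ _ => iff_def)

theorem exM {P : Env → ZF → Prop} (h : Df M (fun v => P (fun n => v (n + 1)) (v 0))) :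
    Df M (fun v => ∃ x ∈ M, P v x) :=
  (@not _ _ (allM (P := fun v x => ¬ P v x) (@not _ _ h))).congr (fun _ _ => by simp)

instance ex {P : Env → ZF → Prop} [t : Void M P]
    [h : Df M (fun v => P (fun n => v (n + 1)) (v 0))] : Df M (fun v => ∃ x, P v x) :=
  (exM h).congr fun v hv => ⟨fun ⟨x, h⟩ => ⟨x, t.out v hv x h, h⟩, fun ⟨x, _, h⟩ => ⟨x, h⟩⟩

instance (priority := low) const (p : Prop) : Df M (fun _ => p) := by
  by_cases h : p
  · exact (@not _ _ bot).congr (fun _ _ => by simp [h])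
  · exact bot.congr (fun _ _ => by simp [h])

instance (priority := low) ren' {P : Env → Prop} [h : Df M P] (ρ : ℕ → ℕ) :
    Df M (fun v => P (fun n => v (ρ n))) := h.ren ρ

end Df

namespace Tm

instance var (i : ℕ) : Tm M (fun v => v i) := ⟨fun _ h => h i, Df.eq0 0 (i + 1)⟩

instance (priority := low) ren {t : Env → ZF} [h : Tm M t] (ρ : ℕ → ℕ) :
    Tm M (fun v => t (fun n => v (ρ n))) :=
  ⟨fun _ hv => h.mem _ (hv.ren ρ), h.out.ren (cns 0 (fun n => ρ n + 1))⟩

end Tm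

theorem In.mk' {c : ZF} (h : c ∈ M) : In M c :=
  ⟨fun _ _ => h, (Df.eq0 0 1).sub (cns (Sum.inl 0) (fun _ => Sum.inr ⟨c, h⟩))⟩

theorem Df.two {R : ZF → ZF → Prop} (h : Df M (fun v => R (v 0) (v 1)))
    (s t : Env → ZF) [hs : Tm M s] [ht : Tm M t] : Df M (fun v => R (s v) (t v)) := by
  have h1 := hs.out.ren (cns 1 (fun n => n + 2))
  have h2 := ht.out.ren (cns 0 (fun n => n + 2))
  have h3 := h.ren (cns 1 (fun _ => 0))
  exact (Df.allM (P := fun v a => ∀ b ∈ M, a = s v → b = t v → R a b) (Df.allM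
    (@Df.imp _ _ _ h1 (@Df.imp _ _ _ h2 h3)))).congr (fun v hv =>
      ⟨fun h _ _ _ _ ha hb => ha ▸ hb ▸ h,
        fun h => h _ (hs.mem v hv) _ (ht.mem v hv) rfl rfl⟩)

instance Df.mem {s t : Env → ZF} [Tm M s] [Tm M t] : Df M (fun v => s v ∈ t v) :=
  Df.two (R := fun a b => a ∈ b) (Df.mem0 0 1) s t

instance Df.eq {s t : Env → ZF} [Tm M s] [Tm M t] : Df M (fun v => s v = t v) :=
  Df.two (Df.eq0 0 1) s t

instance Df.ne {s t : Env → ZF} [Tm M s] [Tm M t] : Df M (fun v => s v ≠ t v) := Df.not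

instance Df.memM {s : Env → ZF} [h : Tm M s] : Df M (fun v => s v ∈ M) :=
  (Df.const True).congr fun v hv => iff_true_intro (h.mem v hv)

theorem Df.one {P : ZF → Prop} (h : Df M (fun v => P (v 0))) (s : Env → ZF) [Tm M s] :
    Df M (fun v => P (s v)) :=
  Df.two (R := fun a _ => P a) h s s

theorem Df.three {R : ZF → ZF → ZF → Prop} (h : Df M (fun v => R (v 0) (v 1) (v 2)))
    (s t r : Env → ZF) [hs : Tm M s] [ht : Tm M t] [hr : Tm M r] :
    Df M (fun v => R (s v) (t v) (r v)) := by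
  have h3 : Df M (fun v => R (v 2) (v 1) (v 0)) := h.ren (cns 2 (cns 1 (fun _ => 0)))
  have h4 : Df M (fun v => v 2 = s (fun n => v (n + 3)) → v 1 = t (fun n => v (n + 3)) →
      v 0 = r (fun n => v (n + 3)) → R (v 2) (v 1) (v 0)) := inferInstance
  exact (Df.allM (P := fun v a => ∀ b ∈ M, ∀ c ∈ M, a = s v → b = t v → c = r v → R a b c)
    (Df.allM (Df.allM h4))).congr fun v hv =>
      ⟨fun h a _ b _ c _ ha hb hc => ha ▸ hb ▸ hc ▸ h,
        fun h => h _ (hs.mem v hv) _ (ht.mem v hv) _ (hr.mem v hv) rfl rfl rfl⟩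

theorem Tm.one {G : ZF → ZF} (h : Tm M (fun v => G (v 0))) (s : Env → ZF) [hs : Tm M s] :
    Tm M (fun v => G (s v)) :=
  ⟨fun v hv => h.mem (fun _ => s v) fun _ => hs.mem v hv,
    Df.two (R := fun a b => a = G b) h.out (fun v => v 0) (fun v => s (fun n => v (n + 1)))⟩

theorem Tm.two {G : ZF → ZF → ZF} (h : Tm M (fun v => G (v 0) (v 1))) (s t : Env → ZF)
    [hs : Tm M s] [ht : Tm M t] : Tm M (fun v => G (s v) (t v)) :=
  ⟨fun v hv => h.mem (cons (s v) fun _ => t v)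
      (EIn.cons (fun _ => ht.mem v hv) (hs.mem v hv)),
    Df.three (R := fun a b c => a = G b c) h.out (fun v => v 0) (fun v => s (fun n => v (n + 1)))
      (fun v => t (fun n => v (n + 1)))⟩

/-! ### bounded quantifiers -/

variable [hM : TModel M]

theorem tr {x y : ZF} (hx : x ∈ M) (hy : y ∈ x) : y ∈ M := hM.trans x hx y hy

theorem empty_mem : (∅ : ZF) ∈ M := tr hM.infinity omega_zero

theorem ein0 : EIn M (fun _ => ∅) := fun _ => empty_mem

theorem In.mem (c : ZF) [h : In M c] : c ∈ M := Tm.mem (t := fun _ => c) (fun _ => ∅) ein0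

theorem fst_mem {a b : ZF} (h : pair a b ∈ M) : a ∈ M :=
  tr (tr h (y := {a}) (by simp [pair])) (by simp)

theorem snd_mem {a b : ZF} (h : pair a b ∈ M) : b ∈ M :=
  tr (tr h (y := {a, b}) (by simp [pair])) (by simp)

omit hM in
instance Occ.id : Occ M (fun _ x => x) := ⟨fun _ _ h => h⟩

instance Occ.pair1 {a b : Env → ZF → ZF} [h : Occ M a] : Occ M (fun v x => pair (a v x) (b v x)) :=
  ⟨fun v x H => h.out v x (fst_mem H)⟩

instance Occ.pair2 {a b : Env → ZF → ZF} [h : Occ M b] : Occ M (fun v x => pair (a v x) (b v x)) :=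
  ⟨fun v x H => h.out v x (snd_mem H)⟩

section

variable {P Q : Env → ZF → Prop} {R : Env → ZF → ZF → Prop} {t : Env → ZF → ZF} {s : Env → ZF}

instance Void.mem [h : Occ M t] [h' : Tm M s] : Void M (fun v x => t v x ∈ s v) :=
  ⟨fun v hv x H => h.out v x (tr (h'.mem v hv) H)⟩

omit hM

instance Void.memM [h : Occ M t] : Void M (fun v x => t v x ∈ M) := ⟨fun v _ x H => h.out v x H⟩

instance Void.eq1 [h : Occ M t] [h' : Tm M s] : Void M (fun v x => t v x = s v) :=
  ⟨fun v hv x H => h.out v x (H ▸ h'.mem v hv)⟩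

instance Void.eq2 [h : Occ M t] [h' : Tm M s] : Void M (fun v x => s v = t v x) :=
  ⟨fun v hv x H => h.out v x (H ▸ h'.mem v hv)⟩

instance Void.and2 [h : Void M Q] : Void M (fun v x => P v x ∧ Q v x) :=
  ⟨fun v hv x H => h.out v hv x H.2⟩

instance Void.and1 [h : Void M P] : Void M (fun v x => P v x ∧ Q v x) :=
  ⟨fun v hv x H => h.out v hv x H.1⟩

instance Void.or [h : Void M P] [h' : Void M Q] : Void M (fun v x => P v x ∨ Q v x) :=
  ⟨fun v hv x H => H.elim (h.out v hv x) (h'.out v hv x)⟩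

instance Void.ex [h : ∀ y, Void M (fun v x => R v x y)] : Void M (fun v x => ∃ y, R v x y) :=
  ⟨fun v hv x ⟨y, H⟩ => (h y).out v hv x H⟩

instance Triv.imp2 [h : Triv M Q] : Triv M (fun v x => P v x → Q v x) :=
  ⟨fun v hv x H _ => h.out v hv x H⟩

instance Triv.imp1 [h : Void M P] : Triv M (fun v x => P v x → Q v x) :=
  ⟨fun v hv x H H' => absurd (h.out v hv x H') H⟩

instance Triv.not [h : Void M P] : Triv M (fun v x => ¬ P v x) :=
  ⟨fun v hv x H H' => H (h.out v hv x H')⟩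

instance Triv.iff [h : Void M P] [h' : Void M Q] : Triv M (fun v x => P v x ↔ Q v x) :=
  ⟨fun v hv x H => iff_of_false (fun H' => H (h.out v hv x H')) (fun H' => H (h'.out v hv x H'))⟩

instance Triv.all [h : ∀ y, Triv M (fun v x => R v x y)] : Triv M (fun v x => ∀ y, R v x y) :=
  ⟨fun v hv x H y => (h y).out v hv x H⟩

end

instance Df.subset {s t : Env → ZF} [Tm M s] [Tm M t] : Df M (fun v => s v ⊆ t v) :=
  (inferInstance : Df M (fun v => ∀ x, x ∈ s v → x ∈ t v)).congr fun _ _ => subset_def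

omit hM in
theorem df_exu {P : Env → ZF → Prop} [Void M P]
    [h : Df M (fun v => P (fun n => v (n + 1)) (v 0))] : Df M (fun v => ∃! x, P v x) := by
  have h3 : Df M (fun v => P (fun n => v (n + 2)) (v 0)) := h.ren (cns 0 (fun n => n + 2))
  have : Void M (fun v x => P (fun n => v (n + 1)) x) :=
    ⟨fun v hv x H => Void.out (P := P) _ (hv.ren _) x H⟩
  exact (inferInstance : Df M (fun v => ∃ x, P v x ∧ ∀ y, P v y → y = x))

omit hM in
instance Df.exu {P : Env → ZF → Prop} [Void M P]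
    [Df M (fun v => P (fun n => v (n + 1)) (v 0))] : Df M (fun v => ∃! x, P v x) := df_exu

/-! ### separation and replacement -/

theorem sep_mem' (P : ZF → Prop) (h : Df M (fun v => P (v 0))) {a : ZF} (ha : a ∈ M) :
    ZFSet.sep P a ∈ M := by
  obtain ⟨φ, ρ, h⟩ := h
  obtain ⟨b, hb, e⟩ := hM.separation (φ.ren (fun n => Sum.elim (fun _ => 0) (fun _ => n + 1) (ρ n)))
    (fun n => Sum.elim (fun _ => a) Subtype.val (ρ n)) (ein_elim (fun _ => ha) ρ) a ha
  convert hb using 1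
  ext x
  rw [e, mem_sep]
  refine and_congr_right fun hx => Iff.trans ?_ (sat_ren _ _ _).symm
  refine (h (fun _ => x) fun _ => tr ha hx).trans ?_
  have : (fun n => cons x (fun n => Sum.elim (fun _ => a) Subtype.val (ρ n))
      (Sum.elim (fun _ => 0) (fun _ => n + 1) (ρ n))) =
      fun n => Sum.elim (fun _ => x) Subtype.val (ρ n) := by
    funext n
    rcases e : ρ n with k | c
    · rfl
    · simp [e]
  rw [this]

theorem repl' (R : ZF → ZF → Prop) (h : Df M (fun v => R (v 1) (v 0))) {a : ZF} (ha : a ∈ M)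
    (hu : ∀ x ∈ a, ∃! y, y ∈ M ∧ R x y) : ∃ b ∈ M, ∀ y, y ∈ b ↔ y ∈ M ∧ ∃ x ∈ a, R x y := by
  obtain ⟨φ, ρ, h⟩ := h
  let φ' := φ.ren (fun n => Sum.elim (cns 0 fun _ => 1) (fun _ => n + 2) (ρ n))
  let w : Env := fun n => Sum.elim (fun _ => a) Subtype.val (ρ n)
  have key : ∀ x ∈ M, ∀ y ∈ M, (R x y ↔ Sat M φ' (cons y (cons x w))) := by
    intro x hx y hy
    refine (h (cons y fun _ => x) (EIn.cons (fun _ => hx) hy)).trans
      (Iff.trans ?_ (sat_ren _ _ _).symm)
    have : (fun n => cons y (cons x w) (Sum.elim (cns 0 fun _ => 1) (fun _ => n + 2) (ρ n))) =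
        fun n => Sum.elim (cons y fun _ => x) Subtype.val (ρ n) := by
      funext n
      rcases e : ρ n with k | c
      · cases k <;> rfl
      · simp [e, w]
    rw [this]
  obtain ⟨b, hb, e⟩ := hM.replacement φ' w (ein_elim (fun _ => ha) ρ) a ha fun x hx => by
    obtain ⟨y, ⟨h1, h2⟩, h3⟩ := hu x hx
    exact ⟨y, ⟨h1, (key x (tr ha hx) y h1).1 h2⟩, fun z hz =>
      h3 z ⟨hz.1, (key x (tr ha hx) z hz.1).2 hz.2⟩⟩
  refine ⟨b, hb, fun y => (e y).trans (and_congr_right fun hy => exists_congr fun x =>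
    and_congr_right fun hx => (key x (tr ha hx) y hy).symm)⟩

/-- fixing the parameters -/
theorem Df.fix1 {P : Env → ZF → Prop} (h : Df M (fun v => P (fun n => v (n + 1)) (v 0))) {v : Env}
    (hv : EIn M v) : Df M (fun w => P v (w 0)) :=
  h.sub (cns (Sum.inl 0) fun n => Sum.inr ⟨v n, hv n⟩)

theorem Tm.fix1 {F : Env → ZF → ZF} (h : Tm M (fun v => F (fun n => v (n + 1)) (v 0))) {v : Env}
    (hv : EIn M v) : Tm M (fun w => F v (w 0)) :=
  ⟨fun w hw => h.mem (cons (w 0) v) (hv.cons (hw 0)),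
    h.out.sub (cns (Sum.inl 0) (cns (Sum.inl 1) fun n => Sum.inr ⟨v n, hv n⟩))⟩

end Pool.Agent.P.MP_3ab3de_lc
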