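import Pool.Agent.P.MP_3ab3de_lc.Iface

/-! Generic filters, names and their values, forcing of equality and membership. -/

set_option linter.unusedSectionVars false

namespace Pool.Agent.P.MP_3ab3de_lc

open ZFSet

theorem genEx : S_Gen := by
  intro M hM P L po p hp
  obtain ⟨f, hf⟩ := Set.countable_iff_exists_subset_range.1 hM
  have h1 : ∀ (n : ℕ) (r : ZF), ∃ q, r ∈ P → pair q r ∈ L ∧
      ((∃ q' ∈ f n, pair q' r ∈ L) → q ∈ f n) := by
    intro n r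
    by_cases h : ∃ q' ∈ f n, pair q' r ∈ L
    · obtain ⟨q, h1, h2⟩ := h
      exact ⟨q, fun _ => ⟨h2, fun _ => h1⟩⟩
    · exact ⟨r, fun hr => ⟨po.refl r hr, fun h' => absurd h' h⟩⟩
  choose nx hnx using h1
  let s : ℕ → ZF := fun n => Nat.rec p (fun n r => nx n r) n
  have hs : ∀ n, s n ∈ P := by
    intro n
    induction n with
    | zero => exact hp
    | succ n ih => exact (po.mem _ _ (hnx n _ ih).1).1
  have hle : ∀ m n, m ≤ n → pair (s n) (s m) ∈ L := by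
    intro m n h
    induction h with
    | refl => exact po.refl _ (hs m)
    | step _ ih => exact po.trans _ _ _ (hnx _ _ (hs _)).1 ih
  have hG : ∀ n, s n ∈ ZFSet.sep (fun q => ∃ n, pair (s n) q ∈ L) P :=
    fun n => mem_sep.2 ⟨hs n, n, po.refl _ (hs n)⟩
  refine ⟨ZFSet.sep (fun q => ∃ n, pair (s n) q ∈ L) P, ⟨sep_subset, ?_, ?_, ?_⟩, hG 0⟩
  · intro a ha q hq
    obtain ⟨-, n, hn⟩ := mem_sep.1 ha
    exact mem_sep.2 ⟨(po.mem _ _ hq).2, n, po.trans _ _ _ hn hq⟩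
  · intro a ha b hb
    obtain ⟨-, m, hm⟩ := mem_sep.1 ha
    obtain ⟨-, n, hn⟩ := mem_sep.1 hb
    exact ⟨s (max m n), hG _, po.trans _ _ _ (hle _ _ (le_max_left m n)) hm,
      po.trans _ _ _ (hle _ _ (le_max_right m n)) hn⟩
  · intro D hD h
    obtain ⟨n, rfl⟩ := hf hD
    exact ⟨s (n + 1), hG (n + 1), (hnx n _ (hs n)).2 (h _ (hs n))⟩

namespace ForceP

theorem rank_lt_of_pair {s p t : ZF} (h : pair s p ∈ t) : rank s < rank t :=
  ((rank_lt_of_mem (show s ∈ ({s} : ZF) by simp)).trans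
    (rank_lt_of_mem (show ({s} : ZF) ∈ pair s p by simp [pair]))).trans (rank_lt_of_mem h)

theorem wf_rank : WellFounded fun y x : ZF => rank y < rank x := InvImage.wf rank wellFounded_lt

theorem nm_ind {Q : ZF → Prop} (h : ∀ t, (∀ s p, pair s p ∈ t → Q s) → Q t) (t : ZF) : Q t :=
  wf_rank.induction t fun t ih => h t fun s _ hs => ih s (rank_lt_of_pair hs)

theorem mem_dom_of {s p t : ZF} (h : pair s p ∈ t) : s ∈ dom t := mem_dom.2 ⟨_, h, by simp⟩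

/-- value of a name -/
noncomputable def val (G : ZF) : ZF → ZF :=
  wf_rank.fix fun t IH =>
    range fun s : ZFSet.sep (fun s => ∃ p ∈ G, pair s p ∈ t) (dom t) =>
      IH s (rank_lt_of_pair (mem_sep.1 s.2).2.choose_spec.2)

theorem mem_val {G t y : ZF} : y ∈ val G t ↔ ∃ s p, p ∈ G ∧ pair s p ∈ t ∧ val G s = y := by
  rw [val, WellFounded.fix_eq, mem_range]
  constructor
  · rintro ⟨⟨s, hs⟩, rfl⟩
    obtain ⟨-, p, h1, h2⟩ := mem_sep.1 hs
    exact ⟨s, p, h1, h2, rfl⟩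
  · rintro ⟨s, p, h1, h2, rfl⟩
    exact ⟨⟨s, mem_sep.2 ⟨mem_dom_of h2, p, h1, h2⟩⟩, rfl⟩

theorem val_mem {G t s p : ZF} (hp : p ∈ G) (h : pair s p ∈ t) : val G s ∈ val G t :=
  mem_val.2 ⟨s, p, hp, h, rfl⟩

theorem rank_val (G t : ZF) : rank (val G t) ≤ rank t := by
  induction t using nm_ind with
  | h t ih =>
    rw [rank_le_iff]
    intro y hy
    obtain ⟨s, p, -, h, rfl⟩ := mem_val.1 hy
    exact (ih s p h).trans_lt (rank_lt_of_pair h)

/-- one half of the unfolding of forced equality -/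
def Half (L : ZF) (R : ZF → ZF → ZF → Prop) (p s t : ZF) : Prop :=
  ∀ s' q, pair s' q ∈ s → ∀ r, pair r p ∈ L → pair r q ∈ L →
    ∃ u, pair u r ∈ L ∧ ∃ t' q', pair t' q' ∈ t ∧ pair u q' ∈ L ∧ R u s' t'

/-- the unfolding of forced equality -/
def Clause (L : ZF) (R : ZF → ZF → ZF → Prop) (p s t : ZF) : Prop :=
  Half L R p s t ∧ Half L (fun u a b => R u b a) p t s

/-- bisimulations -/
def Bis (L R : ZF) : Prop :=
  ∀ p s t, pair p (pair s t) ∈ R → Clause L (fun u a b => pair u (pair a b) ∈ R) p s t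

/-- `p` forces `s = t` -/
def FE (M : Set ZF) (L p s t : ZF) : Prop := ∃ R ∈ M, Bis L R ∧ pair p (pair s t) ∈ R

/-- `p` forces `s ∈ t` -/
def FM (M : Set ZF) (L p s t : ZF) : Prop :=
  ∀ r, pair r p ∈ L → ∃ u, pair u r ∈ L ∧ ∃ t' q, pair t' q ∈ t ∧ pair u q ∈ L ∧ FE M L u s t'

variable {M : Set ZF} [hM : TModel M] {P L G : ZF}

theorem df_half [In M L] {R : ZF → ZF → ZF → Prop} (h : Df M (fun v => R (v 0) (v 1) (v 2)))
    (a b c : Env → ZF) [Tm M a] [Tm M b] [Tm M c] :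
    Df M (fun v => Half L R (a v) (b v) (c v)) := by
  have := fun s t r [Tm M s] [Tm M t] [Tm M r] => h.three s t r
  unfold Half
  infer_instance

set_option synthInstance.maxSize 1024 in
instance df_FE [In M L] {a b c : Env → ZF} [Tm M a] [Tm M b] [Tm M c] :
    Df M (fun v => FE M L (a v) (b v) (c v)) := by
  unfold FE Bis Clause Half
  beta_reduce
  infer_instance

instance df_FM [In M L] {a b c : Env → ZF} [Tm M a] [Tm M b] [Tm M c] :
    Df M (fun v => FM M L (a v) (b v) (c v)) := by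
  unfold FM
  infer_instance

omit hM in
theorem Half.imp {R R' : ZF → ZF → ZF → Prop} {p s t : ZF} (h : Half L R p s t)
    (H : ∀ u r s' q t' q', pair u r ∈ L → pair s' q ∈ s → pair t' q' ∈ t → R u s' t' →
      R' u s' t') : Half L R' p s t := by
  intro s' q h1 r h2 h3
  obtain ⟨u, h4, t', q', h5, h6, h7⟩ := h s' q h1 r h2 h3
  exact ⟨u, h4, t', q', h5, h6, H u r s' q t' q' h4 h1 h5 h7⟩

omit hM in
theorem Half.mono (po : PO P L) {R : ZF → ZF → ZF → Prop} {p p' s t : ZF} (h : Half L R p s t)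
    (hp : pair p' p ∈ L) : Half L R p' s t :=
  fun s' q h1 r h2 h3 => h s' q h1 r (po.trans _ _ _ h2 hp) h3

omit hM in
theorem Half.reg (po : PO P L) {R : ZF → ZF → ZF → Prop} {p s t : ZF}
    (h : ∀ q, pair q p ∈ L → ∃ r, pair r q ∈ L ∧ Half L R r s t) : Half L R p s t := by
  intro s' q h1 r h2 h3
  obtain ⟨r', h4, h5⟩ := h r h2
  obtain ⟨u, h6, h7⟩ := h5 s' q h1 r' (po.refl _ (po.mem _ _ h4).1) (po.trans _ _ _ h4 h3)
  exact ⟨u, po.trans _ _ _ h6 h4, h7⟩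

omit hM in
theorem FE.out {p s t : ZF} (h : FE M L p s t) : Clause L (FE M L) p s t := by
  obtain ⟨R, hR, h1, h2⟩ := h
  exact ⟨(h1 p s t h2).1.imp fun _ _ _ _ _ _ _ _ _ h => ⟨R, hR, h1, h⟩,
    (h1 p s t h2).2.imp fun _ _ _ _ _ _ _ _ _ h => ⟨R, hR, h1, h⟩⟩

/-- the standing hypotheses -/
structure Cx (M : Set ZF) (P L G : ZF) : Prop where
  hP : P ∈ M
  hL : L ∈ M
  po : PO P L
  gen : Gen M P L G

theorem exists_trans {s t : ZF} (hs : s ∈ M) (ht : t ∈ M) :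
    ∃ a ∈ M, IsTransitive a ∧ s ∈ a ∧ t ∈ a := by
  have := In.mk' hs
  have := In.mk' ht
  exact ⟨VM M {s, t}, In.mem _, VM_trans _, mem_VM.2 ⟨rank_lt_of_mem (by simp), hs⟩,
    mem_VM.2 ⟨rank_lt_of_mem (by simp), ht⟩⟩

omit hM in
theorem trans_fst {a s s' q : ZF} (ha : IsTransitive a) (hs : s ∈ a) (h : pair s' q ∈ s) :
    s' ∈ a :=
  ha _ (ha _ (ha s hs h) (show ({s'} : ZF) ∈ pair s' q by simp [pair])) (by simp)

namespace Cx

variable (C : Cx M P L G)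
include C

theorem fe_intro {p s t : ZF} (hp : p ∈ P) (hs : s ∈ M) (ht : t ∈ M)
    (h : Clause L (FE M L) p s t) : FE M L p s t := by
  obtain ⟨a, ha, h1, h2, h3⟩ := exists_trans hs ht
  have := In.mk' ha
  have := In.mk' C.hP
  have := In.mk' C.hL
  have := fun a b c [Tm M a] [Tm M b] [Tm M c] =>
    df_half (M := M) (L := L) (R := FE M L) inferInstance a b c
  have := fun a b c [Tm M a] [Tm M b] [Tm M c] =>
    df_half (M := M) (L := L) (R := fun u a b => FE M L u b a) inferInstance a b c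
  have key : ∀ p s t, pair p (pair s t) ∈ ZFSet.sep (fun w => Clause L (FE M L) (fst w)
      (fst (snd w)) (snd (snd w))) (prod P (prod a a)) ↔
      (p ∈ P ∧ s ∈ a ∧ t ∈ a) ∧ Clause L (FE M L) p s t := by
    intro p s t
    simp only [mem_sep, pair_mem_prod, fst_pair, snd_pair]
  refine ⟨ZFSet.sep (fun w => Clause L (FE M L) (fst w) (fst (snd w)) (snd (snd w)))
    (prod P (prod a a)), ?_, ?_, (key p s t).2 ⟨⟨hp, h2, h3⟩, h⟩⟩
  · unfold Clause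
    exact In.mem _
  · intro p s t hw
    obtain ⟨⟨-, h4, h5⟩, h6⟩ := (key p s t).1 hw
    exact ⟨h6.1.imp fun u r s' q t' q' k1 k2 k3 k4 => (key _ _ _).2
        ⟨⟨(C.po.mem _ _ k1).1, trans_fst h1 h4 k2, trans_fst h1 h5 k3⟩, k4.out⟩,
      h6.2.imp fun u r s' q t' q' k1 k2 k3 k4 => (key _ _ _).2
        ⟨⟨(C.po.mem _ _ k1).1, trans_fst h1 h4 k3, trans_fst h1 h5 k2⟩, k4.out⟩⟩

theorem fe_mono {p p' s t : ZF} (hs : s ∈ M) (ht : t ∈ M) (h : FE M L p s t)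
    (hp : pair p' p ∈ L) : FE M L p' s t :=
  C.fe_intro (C.po.mem _ _ hp).1 hs ht ⟨h.out.1.mono C.po hp, h.out.2.mono C.po hp⟩

theorem fe_reg {p s t : ZF} (hp : p ∈ P) (hs : s ∈ M) (ht : t ∈ M)
    (h : ∀ q, pair q p ∈ L → ∃ r, pair r q ∈ L ∧ FE M L r s t) : FE M L p s t :=
  C.fe_intro hp hs ht ⟨Half.reg C.po fun q hq => (h q hq).imp fun _ h => ⟨h.1, h.2.out.1⟩,
    Half.reg C.po fun q hq => (h q hq).imp fun _ h => ⟨h.1, h.2.out.2⟩⟩

theorem fm_mono {p p' s t : ZF} (h : FM M L p s t) (hp : pair p' p ∈ L) : FM M L p' s t :=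
  fun r hr => h r (C.po.trans _ _ _ hr hp)

theorem fm_reg {p s t : ZF} (h : ∀ q, pair q p ∈ L → ∃ r, pair r q ∈ L ∧ FM M L r s t) :
    FM M L p s t := by
  intro q hq
  obtain ⟨r, h1, h2⟩ := h q hq
  obtain ⟨u, h3, h4⟩ := h2 r (C.po.refl _ (C.po.mem _ _ h1).1)
  exact ⟨u, C.po.trans _ _ _ h3 h1, h4⟩

theorem meet_all (A : ZF → Prop) (hA : Df M (fun v => A (v 0)))
    (h : ∀ q ∈ P, ∃ r, pair r q ∈ L ∧ A r) : ∃ r ∈ G, A r := by
  obtain ⟨r, h1, h2⟩ := C.gen.meet _ (sep_mem' A hA C.hP) fun q hq => by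
    obtain ⟨r, h1, h2⟩ := h q hq
    exact ⟨r, mem_sep.2 ⟨(C.po.mem _ _ h1).1, h2⟩, h1⟩
  exact ⟨r, h1, (mem_sep.1 h2).2⟩

theorem meet_or (A B : ZF → Prop) (hA : Df M (fun v => A (v 0))) (hB : Df M (fun v => B (v 0)))
    (h : ∀ q ∈ P, ¬ A q → ∃ r, pair r q ∈ L ∧ B r) (hn : ∀ r ∈ G, ¬ B r) : ∃ r ∈ G, A r := by
  obtain ⟨r, h1, h2⟩ := C.meet_all (fun r => A r ∨ B r) inferInstance fun q hq => by
    by_cases hq' : A q
    · exact ⟨q, C.po.refl q hq, Or.inl hq'⟩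
    · exact (h q hq hq').imp fun _ h => ⟨h.1, Or.inr h.2⟩
  exact ⟨r, h1, h2.resolve_right (hn r h1)⟩

theorem gm {p : ZF} (hp : p ∈ G) : p ∈ M := tr C.hP (C.gen.sub hp)

theorem grefl {p : ZF} (hp : p ∈ G) : pair p p ∈ L := C.po.refl p (C.gen.sub hp)

theorem meet_below (A : ZF → Prop) (hA : Df M (fun v => A (v 0))) {p : ZF} (hp : p ∈ G)
    (h : ∀ q, pair q p ∈ L → ∃ r, pair r q ∈ L ∧ A r) : ∃ r ∈ G, A r := by
  have := In.mk' C.hL
  have := In.mk' (C.gm hp)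
  obtain ⟨r, h1, h2⟩ := C.meet_all (fun r => A r ∨ ¬ ∃ u, pair u r ∈ L ∧ pair u p ∈ L)
    inferInstance fun q hq => by
      by_cases hq' : ∃ u, pair u q ∈ L ∧ pair u p ∈ L
      · obtain ⟨u, h1, h2⟩ := hq'
        obtain ⟨r, h3, h4⟩ := h u h2
        exact ⟨r, C.po.trans _ _ _ h3 h1, Or.inl h4⟩
      · exact ⟨q, C.po.refl q hq, Or.inr hq'⟩
  obtain ⟨u, -, h3⟩ := C.gen.dir r h1 p hp
  exact ⟨r, h1, h2.resolve_right (not_not.2 ⟨u, h3⟩)⟩

theorem ne : ∃ p, p ∈ G := by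
  obtain ⟨p, hp, -⟩ := C.gen.meet P C.hP fun p hp => ⟨p, hp, C.po.refl p hp⟩
  exact ⟨p, hp⟩

theorem half_sub {R : ZF → ZF → ZF → Prop} (hR : Df M (fun v => R (v 0) (v 1) (v 2)))
    {p s t : ZF} (hs : s ∈ M) (ht : t ∈ M) (hp : p ∈ G) (h : Half L R p s t)
    (H : ∀ u ∈ G, ∀ s' q t' q', pair s' q ∈ s → pair t' q' ∈ t → R u s' t' →
      val G s' = val G t') : val G s ⊆ val G t := by
  intro y hy
  obtain ⟨s', q, h1, h2, rfl⟩ := mem_val.1 hy
  obtain ⟨r, h3, h4, h5⟩ := C.gen.dir p hp q h1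
  have := fun s t r [Tm M s] [Tm M t] [Tm M r] => hR.three s t r
  have := In.mk' C.hL
  have := In.mk' ht
  have := In.mk' (fst_mem (tr hs h2))
  obtain ⟨u, h6, t', q', h7, h8, h9⟩ := C.meet_below
    (fun u => ∃ t' q', pair t' q' ∈ t ∧ pair u q' ∈ L ∧ R u s' t') inferInstance h3
    fun r' hr => h s' q h2 r' (C.po.trans _ _ _ hr h4) (C.po.trans _ _ _ hr h5)
  rw [H u h6 s' q t' q' h2 h7 h9]
  exact val_mem (C.gen.up u h6 _ h8) h7

theorem half_ex {R : ZF → ZF → ZF → Prop} (hR : Df M (fun v => R (v 0) (v 1) (v 2)))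
    {s t : ZF} (hs : s ∈ M) (ht : t ∈ M) (h : val G s ⊆ val G t)
    (H : ∀ s' q t' q', pair s' q ∈ s → pair t' q' ∈ t → val G s' = val G t' →
      ∃ p ∈ G, ∀ u, pair u p ∈ L → R u s' t') : ∃ p ∈ G, Half L R p s t := by
  have := fun s t r [Tm M s] [Tm M t] [Tm M r] => hR.three s t r
  have := In.mk' C.hL
  have := In.mk' ht
  have := In.mk' hs
  refine C.meet_or (fun p => Half L R p s t) (fun r => ∃ s' q, pair s' q ∈ s ∧ pair r q ∈ L ∧
    ¬ ∃ u, pair u r ∈ L ∧ ∃ t' q', pair t' q' ∈ t ∧ pair u q' ∈ L ∧ R u s' t')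
    (df_half hR _ _ _) inferInstance ?_ ?_
  · intro p _ hn
    by_contra hc
    refine hn fun s' q h1 r h2 h3 => ?_
    by_contra h4
    exact hc ⟨r, h2, s', q, h1, h3, h4⟩
  · rintro r hr ⟨s', q, h1, h2, h3⟩
    obtain ⟨t', q', h4, h5, h6⟩ := mem_val.1 (h (val_mem (C.gen.up r hr _ h2) h1))
    obtain ⟨p, h7, h8⟩ := H s' q t' q' h1 h5 h6.symm
    obtain ⟨u, h9, h10, h11⟩ := C.gen.dir r hr q' h4
    obtain ⟨u', -, h12, h13⟩ := C.gen.dir u h9 p h7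
    exact h3 ⟨u', C.po.trans _ _ _ h12 h10, t', q', h5, C.po.trans _ _ _ h12 h11, h8 u' h13⟩

theorem truth_eq (s : ZF) : s ∈ M → ∀ t ∈ M, (val G s = val G t ↔ ∃ p ∈ G, FE M L p s t) := by
  have := In.mk' C.hL
  induction s using nm_ind with
  | h s ih =>
    intro hs t ht
    constructor
    · intro e
      have H : ∀ s' q t' q', pair s' q ∈ s → pair t' q' ∈ t → val G s' = val G t' →
          ∃ p ∈ G, ∀ u, pair u p ∈ L → FE M L u s' t' := fun s' q t' q' h1 h2 h3 => by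
        obtain ⟨p, h4, h5⟩ := (ih s' q h1 (fst_mem (tr hs h1)) t' (fst_mem (tr ht h2))).1 h3
        exact ⟨p, h4, fun u hu => C.fe_mono (fst_mem (tr hs h1)) (fst_mem (tr ht h2)) h5 hu⟩
      obtain ⟨p, h1, h2⟩ := C.half_ex (R := FE M L) inferInstance hs ht (e ▸ fun _ h => h) H
      obtain ⟨q, h3, h4⟩ := C.half_ex (R := fun u a b => FE M L u b a) inferInstance ht hs
        (e ▸ fun _ h => h) fun t' q' s' q h1 h2 h3 => H s' q t' q' h2 h1 h3.symm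
      obtain ⟨r, h5, h6, h7⟩ := C.gen.dir p h1 q h3
      exact ⟨r, h5, C.fe_intro (C.gen.sub h5) hs ht ⟨h2.mono C.po h6, h4.mono C.po h7⟩⟩
    · rintro ⟨p, hp, h⟩
      have H : ∀ u ∈ G, ∀ s' q t' q', pair s' q ∈ s → pair t' q' ∈ t → FE M L u s' t' →
          val G s' = val G t' := fun u hu s' q t' q' h1 h2 h3 =>
        (ih s' q h1 (fst_mem (tr hs h1)) t' (fst_mem (tr ht h2))).2 ⟨u, hu, h3⟩
      have h1 := C.half_sub (R := FE M L) inferInstance hs ht hp h.out.1 H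
      have h2 := C.half_sub (R := fun u a b => FE M L u b a) inferInstance ht hs hp h.out.2
        fun u hu t' q' s' q h1 h2 h3 => (H u hu s' q t' q' h2 h1 h3).symm
      exact ZFSet.ext fun _ => ⟨fun h => h1 h, fun h => h2 h⟩

theorem truth_mem {s t : ZF} (hs : s ∈ M) (ht : t ∈ M) :
    val G s ∈ val G t ↔ ∃ p ∈ G, FM M L p s t := by
  have := In.mk' C.hL
  have := In.mk' hs
  have := In.mk' ht
  constructor
  · intro h
    obtain ⟨t', q, h1, h2, h3⟩ := mem_val.1 h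
    have ht' := fst_mem (tr ht h2)
    obtain ⟨p, h4, h5⟩ := (C.truth_eq s hs t' ht').1 h3.symm
    obtain ⟨r, h6, h7, h8⟩ := C.gen.dir p h4 q h1
    exact ⟨r, h6, fun u hu => ⟨u, C.po.refl _ (C.po.mem _ _ hu).1, t', q, h2,
      C.po.trans _ _ _ hu h8, C.fe_mono hs ht' h5 (C.po.trans _ _ _ hu h7)⟩⟩
  · rintro ⟨p, hp, h⟩
    obtain ⟨u, h1, t', q, h2, h3, h4⟩ := C.meet_below
      (fun u => ∃ t' q, pair t' q ∈ t ∧ pair u q ∈ L ∧ FE M L u s t') inferInstance hp h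
    rw [(C.truth_eq s hs t' (fst_mem (tr ht h2))).2 ⟨u, h1, h4⟩]
    exact val_mem (C.gen.up u h1 _ h3) h2

end Cx

end ForceP

end Pool.Agent.P.MP_3ab3de_lc
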