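import Pool.Agent.P.MP_3ab3de_lc.Force1

/-! The forcing relation: definability and the truth lemma. -/

set_option linter.unusedSectionVars false

namespace Pool.Agent.P.MP_3ab3de_lc

open ZFSet

namespace ForceP

/-- the forcing relation -/
def Fo (M : Set ZF) (L : ZF) : Fml → ZF → Env → Prop
  | Fml.mem i j, p, v => FM M L p (v i) (v j)
  | Fml.eq i j, p, v => FE M L p (v i) (v j)
  | Fml.bot, _, _ => False
  | Fml.imp φ ψ, p, v => ∀ q, pair q p ∈ L → Fo M L φ q v → Fo M L ψ q v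
  | Fml.all φ, p, v => ∀ t ∈ M, Fo M L φ p (cons t v)

variable {M : Set ZF} [hM : TModel M] {P L G : ZF}

theorem df_fo [In M L] (φ : Fml) : Df M (fun w => Fo M L φ (w 0) (fun n => w (n + 1))) := by
  induction φ with
  | mem i j => exact df_FM
  | eq i j => exact df_FE
  | bot => exact Df.bot
  | imp φ ψ h1 h2 =>
    have h3 : Df M (fun w => Fo M L φ (w 0) (fun n => w (n + 1 + 1))) :=
      h1.ren (cns 0 fun n => n + 2)
    have h4 : Df M (fun w => Fo M L ψ (w 0) (fun n => w (n + 1 + 1))) :=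
      h2.ren (cns 0 fun n => n + 2)
    exact Df.all (P := fun w q => pair q (w 0) ∈ L → Fo M L φ q (fun n => w (n + 1)) →
      Fo M L ψ q (fun n => w (n + 1)))
  | all φ h =>
    refine Df.allM (P := fun w t => Fo M L φ (w 0) (cons t fun n => w (n + 1))) ?_
    refine (h.ren (cns 1 (cns 0 fun n => n + 2))).congr fun w _ => ?_
    have : (cons (w 0) fun n => w (n + 1 + 1)) =
        fun n => w (cns 1 (cns 0 fun n => n + 2) (n + 1)) := by
      funext n; cases n <;> rfl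
    rw [this]
    exact Iff.rfl

theorem df_fo0 [In M L] (φ : Fml) {v : Env} (hv : EIn M v) :
    Df M (fun w => Fo M L φ (w 0) v) :=
  (df_fo φ).fix1 (P := fun v p => Fo M L φ p v) hv

theorem df_fo1 [In M L] (φ : Fml) {v : Env} (hv : EIn M v) :
    Df M (fun w => Fo M L φ (w 0) (cons (w 1) v)) := by
  refine ((df_fo (L := L) φ).sub (cns (Sum.inl 0) (cns (Sum.inl 1) fun n => Sum.inr ⟨v n, hv n⟩))).congr
    fun w _ => ?_
  have : cons (w 1) v = fun n => Sum.elim w Subtype.val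
      (cns (Sum.inl 0) (cns (Sum.inl 1) fun n => (Sum.inr ⟨v n, hv n⟩ : ℕ ⊕ M)) (n + 1)) := by
    funext n; cases n <;> rfl
  rw [this]
  exact Iff.rfl

theorem df_fo2 [In M L] (φ : Fml) {v : Env} (hv : EIn M v) :
    Df M (fun w => Fo M L φ (w 0) (cons (w 1) (cons (w 2) v))) := by
  refine ((df_fo (L := L) φ).sub (cns (Sum.inl 0) (cns (Sum.inl 1) (cns (Sum.inl 2)
    fun n => Sum.inr ⟨v n, hv n⟩)))).congr fun w _ => ?_
  have : cons (w 1) (cons (w 2) v) = fun n => Sum.elim w Subtype.val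
      (cns (Sum.inl 0) (cns (Sum.inl 1) (cns (Sum.inl 2)
        fun n => (Sum.inr ⟨v n, hv n⟩ : ℕ ⊕ M))) (n + 1)) := by
    funext n
    rcases n with _ | _ | n <;> rfl
  rw [this]
  exact Iff.rfl

omit hM in
theorem val_cons (t : ZF) (v : Env) :
    (fun n => val G (cons t v n)) = cons (val G t) fun n => val G (v n) := by
  funext n; cases n <;> rfl

namespace Cx

variable (C : Cx M P L G)
include C

theorem fo_mono (φ : Fml) : ∀ {v : Env}, EIn M v → ∀ {p p' : ZF}, Fo M L φ p v →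
    pair p' p ∈ L → Fo M L φ p' v := by
  induction φ with
  | mem i j => exact fun _ _ _ h hp => C.fm_mono h hp
  | eq i j => exact fun hv _ _ h hp => C.fe_mono (hv i) (hv j) h hp
  | bot => exact fun _ _ _ h _ => h
  | imp φ ψ _ _ => exact fun _ _ _ h hp q hq => h q (C.po.trans _ _ _ hq hp)
  | all φ ih => exact fun hv _ _ h hp t ht => ih (hv.cons ht) (h t ht) hp

theorem fo_reg (φ : Fml) : ∀ {v : Env}, EIn M v → ∀ {p : ZF}, p ∈ P →
    (∀ q, pair q p ∈ L → ∃ r, pair r q ∈ L ∧ Fo M L φ r v) → Fo M L φ p v := by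
  induction φ with
  | mem i j => exact fun _ _ _ h => C.fm_reg h
  | eq i j => exact fun hv _ hp h => C.fe_reg hp (hv i) (hv j) h
  | bot =>
    intro v _ p hp h
    obtain ⟨r, -, h1⟩ := h p (C.po.refl p hp)
    exact h1
  | imp φ ψ _ ih =>
    intro v hv p _ h q hq h1
    refine ih hv (C.po.mem _ _ hq).1 fun q' hq' => ?_
    obtain ⟨r, h2, h3⟩ := h q' (C.po.trans _ _ _ hq' hq)
    exact ⟨r, h2, h3 r (C.po.refl _ (C.po.mem _ _ h2).1)
      (C.fo_mono φ hv h1 (C.po.trans _ _ _ h2 hq'))⟩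
  | all φ ih =>
    exact fun hv p hp h t ht => ih (hv.cons ht) hp fun q hq =>
      (h q hq).imp fun r hr => ⟨hr.1, hr.2 t ht⟩

theorem fo_not (φ : Fml) {v : Env} (hv : EIn M v) {p : ZF} (hp : p ∈ P) (h : ¬ Fo M L φ p v) :
    ∃ q, pair q p ∈ L ∧ ∀ r, pair r q ∈ L → ¬ Fo M L φ r v := by
  by_contra hc
  refine h (C.fo_reg φ hv hp fun q hq => ?_)
  by_contra h1
  exact hc ⟨q, hq, fun r hr h2 => h1 ⟨r, hr, h2⟩⟩

theorem truth (φ : Fml) : ∀ {v : Env}, EIn M v →
    (Sat (val G '' M) φ (fun n => val G (v n)) ↔ ∃ p ∈ G, Fo M L φ p v) := by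
  have := In.mk' C.hL
  induction φ with
  | mem i j => exact fun hv => C.truth_mem (hv i) (hv j)
  | eq i j => exact fun hv => C.truth_eq _ (hv i) _ (hv j)
  | bot => exact fun _ => ⟨False.elim, fun ⟨_, _, h⟩ => h⟩
  | imp φ ψ h1 h2 =>
    intro v hv
    rw [sat_imp, h1 hv, h2 hv]
    constructor
    · intro h
      have := fun s [Tm M s] => (df_fo0 (M := M) (L := L) φ hv).one
        (P := fun p => Fo M L φ p v) s
      have := fun s [Tm M s] => (df_fo0 (M := M) (L := L) ψ hv).one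
        (P := fun p => Fo M L ψ p v) s
      refine C.meet_or (fun p => Fo M L (φ.imp ψ) p v)
        (fun p => Fo M L φ p v ∧ ∀ r, pair r p ∈ L → ¬ Fo M L ψ r v)
        (df_fo0 _ hv) inferInstance ?_ ?_
      · intro p _ hn
        have : ∃ q, pair q p ∈ L ∧ Fo M L φ q v ∧ ¬ Fo M L ψ q v := by
          by_contra hc
          refine hn fun q hq h3 => ?_
          by_contra h4
          exact hc ⟨q, hq, h3, h4⟩
        obtain ⟨q, h3, h4, h5⟩ := this
        obtain ⟨r, h6, h7⟩ := C.fo_not ψ hv (C.po.mem _ _ h3).1 h5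
        exact ⟨r, C.po.trans _ _ _ h6 h3, C.fo_mono φ hv h4 h6, h7⟩
      · rintro r hr ⟨h3, h4⟩
        obtain ⟨p, h5, h6⟩ := h ⟨r, hr, h3⟩
        obtain ⟨u, -, h7, h8⟩ := C.gen.dir r hr p h5
        exact h4 u h7 (C.fo_mono ψ hv h6 h8)
    · rintro ⟨p, hp, h⟩ ⟨q, hq, h3⟩
      obtain ⟨r, h4, h5, h6⟩ := C.gen.dir p hp q hq
      exact ⟨r, h4, h r h5 (C.fo_mono φ hv h3 h6)⟩
  | all φ ih =>
    intro v hv
    rw [sat_all]
    constructor
    · intro h
      have := fun s t [Tm M s] [Tm M t] => (df_fo1 (M := M) (L := L) φ hv).two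
        (R := fun p t => Fo M L φ p (cons t v)) s t
      refine C.meet_or (fun p => Fo M L φ.all p v)
        (fun p => ∃ t ∈ M, ∀ r, pair r p ∈ L → ¬ Fo M L φ r (cons t v))
        (df_fo0 _ hv) inferInstance ?_ ?_
      · intro p hp hn
        have : ∃ t ∈ M, ¬ Fo M L φ p (cons t v) := by
          by_contra hc
          refine hn fun t ht => ?_
          by_contra h4
          exact hc ⟨t, ht, h4⟩
        obtain ⟨t, ht, h3⟩ := this
        obtain ⟨r, h6, h7⟩ := C.fo_not φ (hv.cons ht) hp h3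
        exact ⟨r, h6, t, ht, h7⟩
      · rintro r hr ⟨t, ht, h4⟩
        have h3 := h _ ⟨t, ht, rfl⟩
        rw [← val_cons, ih (hv.cons ht)] at h3
        obtain ⟨p, h5, h6⟩ := h3
        obtain ⟨u, -, h7, h8⟩ := C.gen.dir r hr p h5
        exact h4 u h7 (C.fo_mono φ (hv.cons ht) h6 h8)
    · rintro ⟨p, hp, h⟩ _ ⟨t, ht, rfl⟩
      rw [← val_cons, ih (hv.cons ht)]
      exact ⟨p, hp, h t ht⟩

end Cx

end ForceP

end Pool.Agent.P.MP_3ab3de_lc
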