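import Pool.Agent.P.MP_3ab3de_lc.Pos4

/-! Generic extensions by the forcing: density arguments, names, the Lindelöf sets. -/

set_option linter.unusedSectionVars false
set_option synthInstance.maxSize 100000

namespace Pool.Agent.P.MP_3ab3de_lc

open ZFSet Ctx

/-- value of a name for a subset of a ground model set -/
noncomputable def val (G A : ZF) : ZF := bun (row A) G

theorem mem_val {G A b : ZF} : b ∈ val G A ↔ ∃ p ∈ G, pair p b ∈ A := by simp [val]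

instance tm_val {M : Set ZF} [TModel M] {a b : Env → ZF} [Tm M a] [Tm M b] :
    Tm M (fun v => val (a v) (b v)) := by unfold val; infer_instance

theorem Ctx.po (X : Ctx) : PO (X.P X.θ) (X.L X.θ) :=
  ⟨fun _ _ h => ⟨L_left h, L_right h⟩, fun _ h => L_refl h, od_θ.trans⟩

theorem Le.ext {M N : Set ZF} (h : M ⊆ N) {a b : ZF} (h' : Le M a b) : Le N a b :=
  h'.imp fun _ h' => ⟨h h'.1, h'.2⟩

theorem le_func {M : Set ZF} [TModel M] {ξ a s R : ZF} (hs : s ∈ M) (h : IsFunc ξ a s)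
    (hR : Inf M R) (h' : Le M ξ R) : Le M s R := by
  have := In.mk' hs
  have h1 : ξ ∈ M := h.dom_eq ▸ In.mem (dom s)
  refine (hR.img (fun η => pair η (app s η)) inferInstance h1 h').mono fun z hz => ?_
  obtain ⟨x, hx, y, -, rfl⟩ := h.exists_pair hz
  exact mem_img.2 ⟨x, hx, by rw [h.app_eq hz]⟩

theorem func_eq_res {ξ δ a b s t : ZF} (hs : IsFunc ξ a s) (ht : IsFunc δ b t) (h : s ⊆ t) :
    res t ξ = s := by
  have h1 : ξ ⊆ δ := fun η hη => (ht.mem (h (hs.app_mem hη))).1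
  refine (hs.eq_of_subset (ht.res h1) fun z hz => mem_res.2 ⟨h hz, ?_⟩).symm
  obtain ⟨x, hx, y, -, rfl⟩ := hs.exists_pair hz
  simpa using hx

/-- a generic filter with its extension -/
structure GE (X : Ctx) (G : ZF) (N : Set ZF) : Prop where
  gen : Gen X.M (X.P X.θ) (X.L X.θ) G
  ext : Ext X.M N (X.P X.θ) G

namespace GE

variable {X : Ctx} {G : ZF} {N : Set ZF} (h : GE X G N) {p q A a b : ZF}
include h

theorem memP (hp : p ∈ G) : p ∈ X.P X.θ := h.gen.sub hp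

theorem dec_val (hp : p ∈ G) (hd : dec (X.L X.θ) p A b) : b ∈ val G A := by
  obtain ⟨d, h1, h2⟩ := hd
  exact mem_val.2 ⟨d, h.gen.up p hp d h1, h2⟩

theorem val_dec (hb : b ∈ val G A) : ∃ p ∈ G, dec (X.L X.θ) p A b := by
  obtain ⟨p, h1, h2⟩ := mem_val.1 hb
  exact ⟨p, h1, p, L_refl (h.memP h1), h2⟩

theorem meet (φ : ZF → Prop) (hφ : Df X.M (fun v => φ (v 0)))
    (H : ∀ p ∈ X.P X.θ, ∃ q, pair q p ∈ X.L X.θ ∧ φ q) : ∃ q ∈ G, φ q := by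
  obtain ⟨q, h1, h2⟩ := h.gen.meet (ZFSet.sep φ (X.P X.θ)) (In.mem _) fun p hp => by
    obtain ⟨q, h1, h2⟩ := H p hp
    exact ⟨q, mem_sep.2 ⟨L_left h1, h2⟩, h1⟩
  exact ⟨q, h1, (mem_sep.1 h2).2⟩

theorem force (φ : ZF → Prop) (hφ : Df X.M (fun v => φ (v 0))) (H : ∀ r ∈ G, φ r) :
    ∃ q ∈ G, ∀ r, pair r q ∈ X.L X.θ → φ r := by
  have := fun s [Tm X.M s] => hφ.one s
  obtain ⟨q, h1, h2⟩ := h.meet (fun q => φ q → ∀ r, pair r q ∈ X.L X.θ → φ r) inferInstance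
    fun p hp => by
      by_cases h1 : ∀ r, pair r p ∈ X.L X.θ → φ r
      · exact ⟨p, L_refl hp, fun _ => h1⟩
      · push Not at h1
        obtain ⟨r, h2, h3⟩ := h1
        exact ⟨r, h2, fun h4 => absurd h4 h3⟩
  exact ⟨q, h1, h2 (H q h1)⟩

theorem below (φ : ZF → Prop) (hφ : Df X.M (fun v => φ (v 0))) (hq : q ∈ G)
    (H : ∀ r, pair r q ∈ X.L X.θ → ∃ r', pair r' r ∈ X.L X.θ ∧ φ r') :
    ∃ r ∈ G, pair r q ∈ X.L X.θ ∧ φ r := by
  have := fun s [Tm X.M s] => hφ.one s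
  have := In.mk' (P_mem (h.memP hq))
  obtain ⟨r, h1, h2⟩ := h.meet (fun r => (∃ r', pair r' r ∈ X.L X.θ ∧ pair r' q ∈ X.L X.θ) →
    pair r q ∈ X.L X.θ ∧ φ r) inferInstance fun p hp => by
      by_cases h1 : ∃ r', pair r' p ∈ X.L X.θ ∧ pair r' q ∈ X.L X.θ
      · obtain ⟨r, h2, h3⟩ := h1
        obtain ⟨r', h4, h5⟩ := H r h3
        exact ⟨r', od_θ.trans _ _ _ h4 h2, fun _ => ⟨od_θ.trans _ _ _ h4 h3, h5⟩⟩
      · exact ⟨p, L_refl hp, fun h2 => absurd h2 h1⟩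
  obtain ⟨r', -, h3⟩ := h.gen.dir r h1 q hq
  exact ⟨r, h1, h2 ⟨r', h3⟩⟩

theorem cnt (φ : ZF → ZF → Prop) (hφ : Df X.M (fun v => φ (v 0) (v 1))) {I : ZF} (hI : I ∈ X.M)
    (hc : Le X.M I om) (ho : ∀ i ∈ I, ∀ q r, φ i q → pair r q ∈ X.L X.θ → φ i r)
    (H : ∀ i ∈ I, ∃ r ∈ G, φ i r) : ∃ r ∈ G, ∀ i ∈ I, φ i r := by
  have := fun s t [Tm X.M s] [Tm X.M t] => hφ.two s t
  have := In.mk' hI
  obtain ⟨r, h1, h2⟩ := h.meet (fun r => ∀ i ∈ I, φ i r ∨ ∀ r', pair r' r ∈ X.L X.θ → ¬ φ i r')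
    inferInstance fun p hp => baireL od_θ
      (fun i r => φ i r ∨ ∀ r', pair r' r ∈ X.L X.θ → ¬ φ i r') inferInstance hI hc hp
      (fun i _ q hq => by
        by_cases h1 : ∀ r', pair r' q ∈ X.L X.θ → ¬ φ i r'
        · exact ⟨q, L_refl (L_left hq), Or.inr h1⟩
        · push Not at h1
          exact h1.imp fun r h2 => ⟨h2.1, Or.inl h2.2⟩)
      fun i hi q r h1 h2 => h1.imp (fun h3 => ho i hi q r h3 h2)
        fun h3 r' h4 => h3 r' (od_θ.trans _ _ _ h4 h2)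
  refine ⟨r, h1, fun i hi => (h2 i hi).resolve_right fun h3 => ?_⟩
  obtain ⟨r', h4, h5⟩ := H i hi
  obtain ⟨r'', -, h6, h7⟩ := h.gen.dir r h1 r' h4
  exact h3 r'' h6 (ho i hi _ _ h5 h7)

theorem decs {s : ZF} (hA : A ∈ X.M) (hs : s ∈ X.M) (hc : Le X.M s om) (H : s ⊆ val G A) :
    ∃ r ∈ G, ∀ b ∈ s, dec (X.L X.θ) r A b := by
  have := In.mk' hA
  exact h.cnt (fun b r => dec (X.L X.θ) r A b) inferInstance hs hc
    (fun _ _ _ _ h1 h2 => h1.mono od_θ.trans h2) fun b hb => h.val_dec (H hb)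

theorem name {Y : ZF} (hY : Y ∈ N) (ha : a ∈ X.M) (hs : Y ⊆ a) :
    ∃ A ∈ X.M, A ⊆ prod (X.P X.θ) a ∧ val G A = Y := by
  obtain ⟨A, h1, h2, h3⟩ := h.ext.cap Y hY a ha hs
  exact ⟨A, h1, h2, ZFSet.ext fun b => by rw [mem_val, h3]⟩

theorem distrib {Y : ZF} (hY : Y ∈ N) (ha : a ∈ X.M) (hs : Y ⊆ a) (hc : Le N Y om) :
    Y ∈ X.M ∧ Le X.M Y om := by
  have := h.ext.model
  obtain ⟨f, hf, h1⟩ := hc
  obtain ⟨A, hA, -, h2⟩ := h.name (Y := ZFSet.sep (fun z => app f (fst z) = snd z ∧ snd z ∈ Y)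
    (prod om a)) (a := prod om a) (by
      have := In.mk' hf
      have := In.mk' hY
      have := In.mk' (h.ext.sub ha)
      exact In.mem _) (by have := In.mk' ha; exact In.mem _) sep_subset
  have h3 : ∀ n y, pair n y ∈ val G A ↔ (n ∈ om ∧ y ∈ a) ∧ app f n = y ∧ y ∈ Y := by simp [h2]
  have := In.mk' hA
  have := In.mk' ha
  obtain ⟨r, h4, h5⟩ := h.cnt (fun n r => (∃ y, dec (X.L X.θ) r A (pair n y)) ∨
      ∀ r', pair r' r ∈ X.L X.θ → ¬ ∃ y, dec (X.L X.θ) r' A (pair n y)) inferInstance (In.mem om)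
    (Le.refl (In.mem _)) (fun _ _ q r h1 h2 => h1.imp (fun ⟨y, h⟩ => ⟨y, h.mono od_θ.trans h2⟩)
      fun h3 r' h4 => h3 r' (od_θ.trans _ _ _ h4 h2)) fun n _ => by
        have := In.mk' (tr (In.mem (M := X.M) om) ‹_›)
        refine h.meet _ inferInstance fun p hp => ?_
        by_cases h1 : ∀ r', pair r' p ∈ X.L X.θ → ¬ ∃ y, dec (X.L X.θ) r' A (pair n y)
        · exact ⟨p, L_refl hp, Or.inr h1⟩
        · push Not at h1
          exact h1.imp fun r h2 => ⟨h2.1, Or.inl h2.2⟩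
  have := In.mk' (P_mem (h.memP h4))
  have key : ∀ y, y ∈ Y ↔ ∃ n ∈ om, pair n y ∈ dv (X.L X.θ) r A om a ∧
      app (dv (X.L X.θ) r A om a) n = y := fun y => by
    refine ⟨fun hy => ?_, fun ⟨n, _, h6, _⟩ => ((h3 n y).1 (h.dec_val h4 (mem_dv.1 h6).2)).2.2⟩
    obtain ⟨n, hn, e⟩ := h1 y hy
    obtain ⟨r', h6, h7⟩ := h.val_dec ((h3 n y).2 ⟨⟨hn, hs hy⟩, e, hy⟩)
    obtain ⟨r'', -, h8, h9⟩ := h.gen.dir r h4 r' h6
    obtain ⟨y', h10⟩ := (h5 n hn).resolve_right fun h10 => h10 r'' h8 ⟨y, h7.mono od_θ.trans h9⟩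
    obtain rfl : y' = y := ((h3 n y').1 (h.dec_val h4 h10)).2.1.symm.trans e
    have h11 := mem_dv.2 ⟨pair_mem_prod.2 ⟨hn, hs hy⟩, h10⟩
    exact ⟨n, hn, h11, app_eq h11 fun z hz =>
      ((h3 n z).1 (h.dec_val h4 (mem_dv.1 hz).2)).2.1.symm.trans e⟩
  refine ⟨?_, dv (X.L X.θ) r A om a, In.mem _, fun y hy => ((key y).1 hy).imp fun n h => ⟨h.1, h.2.2⟩⟩
  have : Y = ZFSet.sep (fun y => ∃ n ∈ om, pair n y ∈ dv (X.L X.θ) r A om a ∧
      app (dv (X.L X.θ) r A om a) n = y) a := by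
    ext y
    rw [mem_sep, ← key]
    exact ⟨fun hy => ⟨hs hy, hy⟩, And.right⟩
  rw [this]
  exact In.mem _

theorem hart : Hart N om X.κ :=
  ⟨h.ext.sub X.hκ.mem, X.hκ.ord, fun h1 => X.hκ.not_le
    (h.distrib (h.ext.sub X.hκ.mem) X.hκ.mem (fun _ h => h) h1).2,
    fun ξ hξ => (X.hκ.le ξ hξ).ext h.ext.sub⟩

theorem func_mem {ξ s : ZF} (hξ : ξ ∈ X.κ) (ha : a ∈ X.M) (hs : s ∈ N) (hf : IsFunc ξ a s) :
    s ∈ Sq X.M X.κ a := by
  have := h.ext.model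
  have := In.mk' ha
  have := In.mk' (od_κ.of_mem hξ).mem
  exact mem_Sq'.2 ⟨(h.distrib hs (In.mem _) hf.1 (le_func hs hf inf_omega (h.hart.le ξ hξ))).1,
    ξ, hξ, hf⟩

theorem res_mem {ξ y : ZF} (hξ : ξ ∈ X.κ) (ha : a ∈ X.M) (hy : y ∈ N) (hf : IsFunc X.κ a y) :
    res y ξ ∈ Sq X.M X.κ a := by
  have := h.ext.model
  have := In.mk' hy
  have := In.mk' (h.ext.sub (od_κ.of_mem hξ).mem)
  exact h.func_mem hξ ha (In.mem _) (hf.res (od_κ.sub hξ))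

theorem decs_res {ξ : ZF} (hξ : ξ ∈ X.κ) (ha : a ∈ X.M) (hA : A ∈ X.M)
    (hf : IsFunc X.κ a (val G A)) : ∃ r ∈ G, ∀ b ∈ res (val G A) ξ, dec (X.L X.θ) r A b := by
  have := h.ext.model
  have := In.mk' h.ext.gen
  have := In.mk' (h.ext.sub hA)
  have h1 := (Sq_func (h.res_mem hξ ha (In.mem _) hf)).1
  exact h.decs hA h1 (le_func h1 (hf.res (od_κ.sub hξ)) inf_omega (X.hκ.le ξ hξ)) (res_subset _ _)

theorem small_name {Y : ZF} (hY : Y ∈ N) (ha : a ∈ X.M) (hs : Y ⊆ a) (hc : Le X.M a (pw X.M om)) :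
    ∃ γ ∈ X.θ, ∃ A ∈ X.M, A ⊆ prod (X.P γ) a ∧ val G A = Y := by
  obtain ⟨A, hA, -, rfl⟩ := h.name hY ha hs
  obtain ⟨γ, hγ, h1⟩ := reflect hA ha hc
  have := In.mk' hA
  have := In.mk' ha
  have := In.mk' (od_θ.of_mem hγ).mem
  refine ⟨γ, hγ, ZFSet.sep (fun z => dec (X.L X.θ) (fst z) A (snd z)) (prod (X.P γ) a), In.mem _,
    sep_subset, ZFSet.ext fun b => ⟨fun hb => ?_, fun hb => ?_⟩⟩
  · obtain ⟨p, h2, h3⟩ := mem_val.1 hb
    exact h.dec_val h2 (by simpa using (mem_sep.1 h3).2)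
  · obtain ⟨p, h2, h3⟩ := h.val_dec hb
    have := In.mk' (tr ha (hs hb))
    obtain ⟨r, h4, -, d, h5, h6, h7⟩ := h.below (fun r => ∃ d ∈ X.P γ, dec (X.L X.θ) d A b ∧
      pair r d ∈ X.L X.θ) inferInstance h2 fun q hq => by
        obtain ⟨d, h4, h5, r, h6, h7⟩ := h1 b (hs hb) q (h3.mono od_θ.trans hq)
        exact ⟨r, h6, d, h4, h5, h7⟩
    exact mem_val.2 ⟨d, h.gen.up r h4 d h7, mem_sep.2 ⟨pair_mem_prod.2 ⟨h5, hs hb⟩, by simpa using h6⟩⟩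

theorem tot_val {P : ZF} (hq : q ∈ G) (hA : A ∈ X.M) (hs : A ⊆ prod P (prod X.κ a))
    (H : Tot X.κ (X.L X.θ) q A) : IsFunc X.κ a (val G A) := by
  have := In.mk' hA
  refine ⟨fun b hb => ?_, fun η hη => ?_⟩
  · obtain ⟨p, -, h1⟩ := mem_val.1 hb
    exact (pair_mem_prod.1 (hs h1)).2
  · have := In.mk' (od_κ.of_mem hη).mem
    obtain ⟨r, h1, h2, ζ, h3⟩ := h.below (fun r => ∃ ζ, dec (X.L X.θ) r A (pair η ζ)) inferInstance hq
      fun r hr => (H r hr).1 η hη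
    refine ⟨ζ, h.dec_val h1 h3, fun ζ' h4 => ?_⟩
    obtain ⟨r', h5, h6⟩ := h.val_dec h4
    obtain ⟨r'', -, h7, h8⟩ := h.gen.dir r h1 r' h5
    exact (H r'' (od_θ.trans _ _ _ h7 h2)).2 _ _ _ (h6.mono od_θ.trans h8) (h3.mono od_θ.trans h7)

theorem val_tot (hA : A ∈ X.M) (H : IsFunc X.κ a (val G A)) : ∃ q ∈ G, Tot X.κ (X.L X.θ) q A := by
  have := In.mk' hA
  refine h.force _ inferInstance fun r hr => ⟨fun η hη => ?_,
    fun η ζ ζ' h1 h2 => H.uniq (h.dec_val hr h1) (h.dec_val hr h2)⟩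
  obtain ⟨r', h1, h2⟩ := h.val_dec (H.app_mem hη)
  obtain ⟨r'', -, h3, h4⟩ := h.gen.dir r hr r' h1
  exact ⟨r'', h3, _, h2.mono od_θ.trans h4⟩

theorem res_G {γ : ZF} (hp : p ∈ G) (hγ : X.Od γ) : res p γ ∈ G :=
  h.gen.up p hp _ (le_res (h.memP hp) hγ)

end GE

/-- the Lindelöf sets added at the row `α` -/
noncomputable def KK (N : Set ZF) (κ G α η : ZF) : ZF :=
  ZFSet.sep (fun y => IsFunc κ κ y ∧ ∀ p ∈ G, ∀ δ l, tL δ l ∈ row p α → η ⊆ δ → res y δ ∈ l)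
    (pw N (prod κ κ))

theorem mem_KK {N : Set ZF} {κ G α η y : ZF} : y ∈ KK N κ G α η ↔ Baire N κ y ∧
    ∀ p ∈ G, ∀ δ l, tL δ l ∈ row p α → η ⊆ δ → res y δ ∈ l := by
  rw [KK, mem_sep, mem_pw, Baire]
  exact ⟨fun h => ⟨⟨h.1.2, h.2.1⟩, h.2.2⟩, fun h => ⟨⟨h.1.2.1, h.1.1⟩, h.1.2, h.2⟩⟩

instance tm_KK {M : Set ZF} [TModel M] {a b c d : Env → ZF} [Tm M a] [Tm M b] [Tm M c] [Tm M d] :
    Tm M (fun v => KK M (a v) (b v) (c v) (d v)) := by unfold KK; infer_instance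

namespace GE

variable {X : Ctx} {G : ZF} {N : Set ZF} (h : GE X G N) {p q A a b α : ZF}
include h

theorem val_baire {P : ZF} (hq : q ∈ G) (hA : A ∈ X.M) (hs : A ⊆ prod P (prod X.κ X.κ))
    (H : Tot X.κ (X.L X.θ) q A) : Baire N X.κ (val G A) := by
  have := h.ext.model
  have := In.mk' h.ext.gen
  have := In.mk' (h.ext.sub hA)
  exact ⟨In.mem _, h.tot_val hq hA hs H⟩

theorem K_cover (hα : α ∈ X.θ) (hA : A ∈ X.M) (hs : A ⊆ prod (X.P α) (prod X.κ X.κ))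
    (H : IsFunc X.κ X.κ (val G A)) :
    ∃ η ∈ X.κ, ∀ η', η ⊆ η' → val G A ∈ KK N X.κ G α η' := by
  have hα' := od_θ.of_mem hα
  have := In.mk' hA
  have := In.mk' hα'.mem
  obtain ⟨q, h1, h2⟩ := h.val_tot hA H
  obtain ⟨p, h3, -, h4⟩ := h.below (fun r => tX A ∈ row r α) inferInstance h1 fun r hr =>
    addX od_θ hα (L_left hr) (mem_Nm.2 ⟨hs, hA⟩)
      ((tot_res od_θ hα' (od_θ.sub hα) (L_left hr) hs).1 (h2.mono od_θ.trans hr))
  have hp := h.memP h3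
  have := In.mk' (P_mem hp)
  obtain ⟨η, h5, h6⟩ := X.hκ.bdd inf_omega
    (In.mem (ZFSet.sep (fun δ => ∃ l, tL δ l ∈ row p α) X.κ)) sep_subset
    ((inf_omega.img (fun y => fst (snd y)) inferInstance (In.mem (row p α))
      (le_row (P_mem hp) (P_le hp))).mono fun δ hδ => by
        obtain ⟨l, hl⟩ := (mem_sep.1 hδ).2
        exact mem_img.2 ⟨_, hl, by simp⟩)
  refine ⟨η, h5, fun η' h7 => mem_KK.2 ⟨h.val_baire h1 hA hs h2, fun p' h8 δ l h9 h10 => ?_⟩⟩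
  obtain ⟨r, h11, h12, h13⟩ := h.gen.dir p h3 p' h8
  obtain ⟨s, h14, h15, h16⟩ := (L_OO h12 hα).1 δ l A (row_mono (L_sub h13) h9) (fun h14 =>
    mem_irrefl δ (h10 (h7 (h6 (mem_sep.2 ⟨(tL_A.1 (P_row hp h14).2).1, l, h14⟩))))) h4
  rwa [func_eq_res h15 H fun b hb =>
    h.dec_val h11 ((dec_res od_θ hα' (od_θ.sub hα) (h.memP h11) hs).2 (h16 b hb))]

theorem K_lind (hα : α ∈ X.θ) : ∀ η ∈ X.κ, ∀ W ∈ N, (∀ s ∈ W, ∃ ξ ∈ X.κ, IsFunc ξ X.κ s) →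
    (∀ y ∈ KK N X.κ G α η, ∃ ξ ∈ X.κ, res y ξ ∈ W) → ∃ c ∈ N, Le N c om ∧
      ∀ y ∈ KK N X.κ G α η, ∃ ξ ∈ X.κ, res y ξ ∈ W ∧ res y ξ ∈ c := by
  intro η hη W hW h1 h2
  have := h.ext.model
  have hα' := od_θ.of_mem hα
  have ht := (od_θ (X := X)).trans
  have := In.mk' hα'.mem
  have := In.mk' (od_κ.of_mem hη).mem
  obtain ⟨B, hB, -, rfl⟩ := h.name hW (In.mem (Sq X.M X.κ X.κ)) fun s hs => by
    obtain ⟨ξ, h3, h4⟩ := h1 s hs
    exact h.func_mem h3 X.hκ.mem (tr hW hs) h4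
  have := In.mk' hB
  let Hd := fun x q s : ZF => s ∈ Sq X.M X.κ X.κ ∧ (∀ b ∈ s, dec (X.L X.θ) q x b) ∧
    (dec (X.L X.θ) q B s ∨ ∃ l, tL (dom s) l ∈ row q α ∧ η ⊆ dom s ∧ s ∉ l)
  have hm : ∀ x q r s, Hd x q s → pair r q ∈ X.L X.θ → Hd x r s := fun x q r s h3 h4 =>
    ⟨h3.1, fun b hb => (h3.2.1 b hb).mono ht h4, h3.2.2.imp (fun h5 => h5.mono ht h4)
      fun ⟨l, h5, h6⟩ => ⟨l, row_mono (L_sub h4) h5, h6⟩⟩
  have hn : ∀ q ∈ X.P X.θ, ∀ x, tX x ∈ row q α → x ∈ X.M ∧ x ⊆ prod (X.P α) (prod X.κ X.κ) ∧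
      Tot X.κ (X.L X.θ) q x := fun q hq x hx => by
    obtain ⟨h3, h4⟩ := mem_Nm.1 (tX_A.1 (P_row hq hx).2)
    exact ⟨h4, h3, (tot_res od_θ hα' (od_θ.sub hα) hq h3).2 ((P_VV hq hα).1 x hx)⟩
  obtain ⟨p, hp, h3⟩ := h.force (fun q => ∀ x, tX x ∈ row q α →
      ∃ r, pair r q ∈ X.L X.θ ∧ ∃ s, Hd x r s) inferInstance fun q hq x hx => by
    obtain ⟨h3, h4, h5⟩ := hn q (h.memP hq) x hx
    have h6 := h.val_baire hq h3 h4 h5
    have key : ∀ ξ ∈ X.κ, ∀ r ∈ G, (dec (X.L X.θ) r B (res (val G x) ξ) ∨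
        ∃ l, tL ξ l ∈ row r α ∧ η ⊆ ξ ∧ res (val G x) ξ ∉ l) →
        ∃ r, pair r q ∈ X.L X.θ ∧ ∃ s, Hd x r s := fun ξ hξ r hr h7 => by
      obtain ⟨r1, h8, h9⟩ := h.decs_res hξ X.hκ.mem h3 h6.2
      obtain ⟨r2, h10, h11, h12⟩ := h.gen.dir r hr r1 h8
      obtain ⟨r3, -, h13, h14⟩ := h.gen.dir r2 h10 q hq
      refine ⟨r3, h14, res (val G x) ξ, hm x r2 r3 _ ⟨h.res_mem hξ X.hκ.mem h6.1 h6.2,
        fun b hb => (h9 b hb).mono ht h12, ?_⟩ h13⟩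
      rw [(h6.2.res (od_κ.sub hξ)).dom_eq]
      exact h7.imp (fun h => h.mono ht h11) fun ⟨l, h15, h16⟩ => ⟨l, row_mono (L_sub h11) h15, h16⟩
    by_cases h7 : val G x ∈ KK N X.κ G α η
    · obtain ⟨ξ, hξ, h8⟩ := h2 _ h7
      obtain ⟨r, h9, h10⟩ := h.val_dec h8
      exact key ξ hξ r h9 (Or.inl h10)
    · rw [mem_KK] at h7
      push Not at h7
      obtain ⟨r, h8, δ, l, h9, h10⟩ := h7 h6
      exact key δ (tL_A.1 (P_row (h.memP h8) h9).2).1 r h8 (Or.inr ⟨l, h9, h10⟩)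
  obtain ⟨q, hq, -, δ, hδ, h4, l, h5, h6⟩ := h.below (fun q => ∃ δ ∈ X.κ, η ⊆ δ ∧ ∃ l, tL δ l ∈ row q α ∧
      ∀ s' ∈ l, ∃ x, tX x ∈ row q α ∧ ∃ s, Hd x q s ∧ dom s ⊆ δ ∧ s ⊆ s') inferInstance hp
    fun r hr => by
      obtain ⟨q, h4, h5⟩ := closing od_θ (fun y q => ∀ x, y = pair α (tX x) → ∃ s, Hd x q s)
        inferInstance (L_left hr) (fun q hq y hy => by
          by_cases e : ∃ x, y = pair α (tX x)
          · obtain ⟨x, rfl⟩ := e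
            obtain ⟨r', h4, h5⟩ := h3 q (ht _ _ _ hq hr) x (mem_row.2 hy)
            exact ⟨r', h4, fun x' e => by
              obtain rfl : x = x' := by simpa using e
              exact h5⟩
          · exact ⟨q, L_refl (L_left hq), fun x e' => absurd ⟨x, e'⟩ e⟩)
        fun y q r h4 h5 x e => (h4 x e).imp fun s h6 => hm x q r s h6 h5
      have hq := L_left h4
      have := In.mk' (P_mem hq)
      obtain ⟨δ, hδ, h6⟩ := X.hκ.bdd_wit inf_omega (fun x ξ => ∃ s, Hd x q s ∧ dom s = ξ)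
        inferInstance (In.mem (row (row q α) (num 1)))
        (le_row (In.mem _) (le_row (P_mem hq) (P_le hq))) fun x hx => by
          obtain ⟨s, h6⟩ := h5 _ (mem_row.1 (mem_row.1 hx)) x rfl
          exact ⟨_, (Sq_func h6.1).2.1, s, h6, rfl⟩
      have hδ' := X.hκ.union hδ hη
      obtain ⟨q', h7, l, h8, h9⟩ := addL od_θ hα hq hδ'
      refine ⟨q', ht _ _ _ h7 h4, _, hδ', TopP.sub_r _ _, l, h8, fun s' hs' => ?_⟩
      obtain ⟨h10, x, h11, h12⟩ := h9 s' hs'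
      obtain ⟨_, h13, s, h14, rfl⟩ := h6 x (mem_row.2 h11)
      have h15 : dom s ⊆ δ ∪ η := fun z hz => TopP.sub_l _ _ ((od_κ.of_mem hδ).sub h13 hz)
      refine ⟨x, row_mono (L_sub h7) h11, s, hm _ _ _ _ h14 h7, h15, fun b hb => ?_⟩
      obtain ⟨ζ, h16, ζ', -, rfl⟩ := (Sq_func h14.1).2.2.exists_pair hb
      obtain ⟨-, h17, h18⟩ := hn q hq x h11
      have h19 := h10.app_mem (h15 h16)
      rwa [(h18 q' h7).2 _ _ _ ((h14.2.1 _ hb).mono ht h7)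
        ((dec_res od_θ hα' (od_θ.sub hα) (L_left h7) h17).2 (h12 _ h19))]
  obtain ⟨⟨-, h7⟩, h8⟩ := mem_cs.1 (tL_A.1 (P_row (h.memP hq) h5).2).2
  have hδ' := h.hart.succ inf_omega hδ
  have := In.mk' (h.ext.sub h7)
  have := In.mk' (tr h.hart.mem hδ)
  refine ⟨bun (fun s => img (res s) (insert δ δ)) l, In.mem _, inf_omega.bun _ inferInstance
    (In.mem _) (h8.ext h.ext.sub) fun s hs => ?_, fun y hy => ?_⟩
  · have := In.mk' (tr (h.ext.sub h7) hs)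
    exact inf_omega.img _ inferInstance (In.mem _) (h.hart.le _ hδ')
  · obtain ⟨h9, h10⟩ := mem_KK.1 hy
    have h11 := h10 q hq δ l h5 h4
    obtain ⟨x, -, s, ⟨h12, -, h13⟩, h14, h15⟩ := h6 _ h11
    obtain ⟨-, h16, h17⟩ := Sq_func h12
    have e := func_eq_res h17 h9.2 fun b hb => res_subset _ _ (h15 hb)
    refine ⟨dom s, h16, ?_, mem_bun.2 ⟨_, h11, mem_img.2 ⟨dom s,
      (mem_succ_iff (X.hκ.ord.mem h16) (X.hκ.ord.mem hδ)).2 h14, res_res h14⟩⟩⟩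
    rw [e]
    rcases h13 with h13 | ⟨l', h18, h19, h20⟩
    exacts [h.dec_val hq h13, absurd (e ▸ h10 q hq _ l' h18 h19) h20]

theorem good : GoodCard N X.κ := by
  have := h.ext.model
  have hα := X.hθ.zero inf_pw
  have := In.mk' h.ext.gen
  have := In.mk' h.hart.mem
  refine ch N X.κ h.hart (fun η => bun (fun y => img (res y) (insert η η)) (KK N X.κ G ∅ η))
    inferInstance (fun η hη => ?_) fun ξ hξ s hs hf => ?_
  · have := In.mk' (od_κ.of_mem hη).mem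
    obtain ⟨q, hq, l, h1⟩ := h.meet (fun q => ∃ l, tL η l ∈ row q ∅) inferInstance fun p hp => by
      obtain ⟨q, h1, l, h2, -⟩ := addL od_θ hα hp hη
      exact ⟨q, h1, l, h2⟩
    obtain ⟨⟨-, h7⟩, h8⟩ := mem_cs.1 (tL_A.1 (P_row (h.memP hq) h1).2).2
    have hη' := h.hart.succ inf_omega hη
    have := In.mk' (h.ext.sub h7)
    have := In.mk' (tr h.hart.mem hη)
    refine (inf_omega.bun (fun s => img (res s) (insert η η)) inferInstance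
      (In.mem l) (h8.ext h.ext.sub) fun s hs => ?_).mono fun s hs => ?_
    · have := In.mk' (tr (h.ext.sub h7) hs)
      exact inf_omega.img _ inferInstance (In.mem _) (h.hart.le _ hη')
    · obtain ⟨y, hy, hs⟩ := mem_bun.1 hs
      obtain ⟨ξ, hξ, rfl⟩ := mem_img.1 hs
      exact mem_bun.2 ⟨_, (mem_KK.1 hy).2 q hq η l h1 fun _ h => h, mem_img.2 ⟨ξ, hξ, res_res
        ((mem_succ_iff (X.hκ.ord.mem (od_κ.sub hη' hξ)) (X.hκ.ord.mem hη)).1 hξ)⟩⟩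
  · classical
    have := In.mk' (Sq_func (h.func_mem hξ X.hκ.mem hs hf)).1
    have := In.mk' (od_κ.of_mem hξ).mem
    have h1 : IsFunc X.κ X.κ (graph (fun η => if η ∈ ξ then app s η else ∅) X.κ) :=
      graph_isFunc fun η _ => by
        split_ifs with h
        exacts [hf.app_mem' h, X.hκ.zero inf_omega]
    obtain ⟨p, hp, -⟩ := h.meet (fun _ => True) inferInstance fun p hp => ⟨p, L_refl hp, trivial⟩
    have h0 := od_θ.of_mem hα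
    have e : val G (prod (X.P ∅) (graph (fun η => if η ∈ ξ then app s η else ∅) X.κ)) =
        graph (fun η => if η ∈ ξ then app s η else ∅) X.κ := ZFSet.ext fun b => by
      rw [mem_val]
      exact ⟨fun ⟨_, _, h⟩ => (pair_mem_prod.1 h).2, fun hb =>
        ⟨_, h.res_G hp h0, pair_mem_prod.2 ⟨P_res (h.memP hp) h0, hb⟩⟩⟩
    obtain ⟨η, hη, h2⟩ := h.K_cover hα (In.mem _) (fun z hz => by
      obtain ⟨a, ha, b, hb, rfl⟩ := mem_prod.1 hz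
      exact pair_mem_prod.2 ⟨ha, h1.1 hb⟩) (e.symm ▸ h1)
    have hη' := X.hκ.union hη hξ
    refine ⟨_, hη', mem_bun.2 ⟨_, e ▸ h2 _ (TopP.sub_l _ _), mem_img.2 ⟨ξ, (mem_succ_iff
      (X.hκ.ord.mem hξ) (X.hκ.ord.mem hη')).2 (TopP.sub_r _ _), func_eq_res hf h1 fun z hz => ?_⟩⟩⟩
    obtain ⟨a, ha, b, -, rfl⟩ := hf.exists_pair hz
    exact pair_mem_graph.2 ⟨od_κ.sub hξ ha, by rw [if_pos ha, hf.app_eq hz]⟩

end GE

end Pool.Agent.P.MP_3ab3de_lc
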