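import Pool.Agent.P.MP_3ab3de_lc.Gen1
import Pool.Agent.P.MP_3ab3de_lc.Force

/-! The argument with a second generic filter. -/

set_option linter.unusedSectionVars false
set_option synthInstance.maxSize 100000

namespace Pool.Agent.P.MP_3ab3de_lc

open ZFSet Ctx

/-- `x` lies in the projection of the tree `T` -/
def InT (N : Set ZF) (κ T x : ZF) : Prop :=
  ∃ y, Baire N κ y ∧ ∀ ξ ∈ κ, pair (res x ξ) (res y ξ) ∈ T

/-- `q` forces that `(x, y)` is a branch of `T` -/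
def Br (κ L T x y q : ZF) : Prop := Tot κ L q y ∧ ∀ r, pair r q ∈ L → ∀ ξ ∈ κ, ∃ r', pair r' r ∈ L ∧
  ∃ s t, dec L r' T (pair s t) ∧ IsFunc ξ κ s ∧ IsFunc ξ κ t ∧ (∀ b ∈ s, dec L r' x b) ∧
    ∀ b ∈ t, dec L r' y b

/-- `r` forces that `σ` followed by `j` is an initial segment of `z` -/
def On (L r z σ j : ZF) : Prop := (∀ b ∈ σ, dec L r z b) ∧ dec L r z (pair (dom σ) j)

/-- `r` decides a node of the tree along the branch -/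
def DD (κ L L' β ρ T x y z ξ r : ZF) : Prop :=
  ∃ s t, dec L r T (pair s t) ∧ IsFunc ξ κ s ∧ IsFunc ξ κ t ∧ (∀ b ∈ t, dec L r y b) ∧
    ∀ b ∈ s, ∃ σ, tT ρ σ ∈ row r β ∧ ∃ j ∈ num 2, On L r z σ j ∧ dec L' (cp r β ρ σ j) x b

/-- `r` decides the branch beyond its slots -/
def Pz (L β ρ z r1 r : ZF) : Prop := pair r r1 ∈ L ∧ ∀ σ, tT ρ σ ∈ row r β →
  ∀ η ∈ insert (dom σ) (dom σ), ∃ j, dec L r z (pair η j)

section inst

variable {M : Set ZF} [hM : TModel M] {a b c d e f : Env → ZF} [Tm M a] [Tm M b] [Tm M c]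
  [Tm M d] [Tm M e] [Tm M f]

instance df_Br : Df M (fun v => Br (a v) (b v) (c v) (d v) (e v) (f v)) := by
  unfold Br; infer_instance

instance df_On : Df M (fun v => On (a v) (b v) (c v) (d v) (e v)) := by unfold On; infer_instance

instance df_DD {κ L L' β ρ T x y z : ZF} [In M κ] [In M L] [In M L'] [In M β] [In M ρ] [In M T]
    [In M x] [In M y] [In M z] : Df M (fun v => DD κ L L' β ρ T x y z (a v) (b v)) := by
  unfold DD; infer_instance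

instance df_Pz : Df M (fun v => Pz (a v) (b v) (c v) (d v) (e v) (f v)) := by
  unfold Pz; infer_instance

end inst

theorem On.mono {L r r' z σ j : ZF} (ht : ∀ a b c, pair a b ∈ L → pair b c ∈ L → pair a c ∈ L)
    (h : On L r z σ j) (h' : pair r' r ∈ L) : On L r' z σ j :=
  ⟨fun b hb => (h.1 b hb).mono ht h', h.2.mono ht h'⟩

namespace GE

variable {X : Ctx} {G : ZF} {N : Set ZF} (h : GE X G N) {T x y q : ZF}
include h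

theorem inT_of_br (hT : T ∈ X.M) (hx : x ∈ X.M) (hy : y ∈ X.M)
    (hs : y ⊆ prod (X.P X.θ) (prod X.κ X.κ)) (hf : IsFunc X.κ X.κ (val G x)) (hq : q ∈ G)
    (H : Br X.κ (X.L X.θ) T x y q) : InT N X.κ (val G T) (val G x) := by
  have h1 := h.val_baire hq hy hs H.1
  refine ⟨_, h1, fun ξ hξ => ?_⟩
  have := In.mk' hT
  have := In.mk' hx
  have := In.mk' hy
  have := In.mk' (od_κ.of_mem hξ).mem
  obtain ⟨r, h2, -, s, t, h3, h4, h5, h6, h7⟩ := h.below _ inferInstance hq fun r hr => H.2 r hr ξ hξ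
  rw [func_eq_res h4 hf fun b hb => h.dec_val h2 (h6 b hb),
    func_eq_res h5 h1.2 fun b hb => h.dec_val h2 (h7 b hb)]
  exact h.dec_val h2 h3

theorem br_of_inT (hT : T ∈ X.M) (hx : x ∈ X.M) (hf : IsFunc X.κ X.κ (val G x))
    (H : InT N X.κ (val G T) (val G x)) :
    ∃ q ∈ G, ∃ y ∈ pw X.M (prod (X.P X.θ) (prod X.κ X.κ)), Br X.κ (X.L X.θ) T x y q := by
  obtain ⟨y, h1, h2⟩ := H
  obtain ⟨y, hy, hs, rfl⟩ := h.name h1.1 (In.mem _) h1.2.1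
  have ht := (od_θ (X := X)).trans
  have := In.mk' hT
  have := In.mk' hx
  have := In.mk' hy
  obtain ⟨q1, h3, h4⟩ := h.val_tot hy h1.2
  obtain ⟨q2, h5, h6⟩ := h.force (fun r => ∀ ξ ∈ X.κ, ∃ r', pair r' r ∈ X.L X.θ ∧ ∃ s t,
      dec (X.L X.θ) r' T (pair s t) ∧ IsFunc ξ X.κ s ∧ IsFunc ξ X.κ t ∧
      (∀ b ∈ s, dec (X.L X.θ) r' x b) ∧ ∀ b ∈ t, dec (X.L X.θ) r' y b) inferInstance
    fun r hr ξ hξ => by
      obtain ⟨r1, k1, k2⟩ := h.val_dec (h2 ξ hξ)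
      obtain ⟨r2, k3, k4⟩ := h.decs_res hξ X.hκ.mem hx hf
      obtain ⟨r3, k5, k6⟩ := h.decs_res hξ X.hκ.mem hy h1.2
      obtain ⟨r4, k7, k8, k9⟩ := h.gen.dir r hr r1 k1
      obtain ⟨r5, k10, k11, k12⟩ := h.gen.dir r2 k3 r3 k5
      obtain ⟨r6, -, k13, k14⟩ := h.gen.dir r4 k7 r5 k10
      exact ⟨r6, ht _ _ _ k13 k8, _, _, k2.mono ht (ht _ _ _ k13 k9), hf.res (od_κ.sub hξ),
        h1.2.res (od_κ.sub hξ), fun b hb => (k4 b hb).mono ht (ht _ _ _ k14 k11),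
        fun b hb => (k6 b hb).mono ht (ht _ _ _ k14 k12)⟩
  obtain ⟨q, h7, h8, h9⟩ := h.gen.dir q1 h3 q2 h5
  exact ⟨q, h7, y, mem_pw.2 ⟨hs, hy⟩, h4.mono ht h8, fun r hr => h6 r (ht _ _ _ hr h9)⟩

end GE

/-- the data of a root -/
structure Sit (X : Ctx) (β ρ T x r0 p1 : ZF) : Prop where
  hβ : β ∈ X.θ
  hT : T ∈ X.M
  sT : T ⊆ prod (X.P (snd ρ)) (prod (Sq X.M X.κ X.κ) (Sq X.M X.κ X.κ))
  hx : x ∈ X.M
  sx : x ⊆ prod (X.P β) (prod X.κ X.κ)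
  tot : Tot X.κ (X.L X.θ) r0 x
  no : ∀ r, pair r r0 ∈ X.L X.θ →
    ¬ ∃ y ∈ pw X.M (prod (X.P X.θ) (prod X.κ X.κ)), Br X.κ (X.L X.θ) T x y r
  hp : p1 ∈ X.P X.θ
  hY : tY ρ x ∈ row p1 β
  root : ∀ j ∈ num 2, pair (cp p1 β ρ ∅ j) r0 ∈ X.L β
  new : ∀ σ, tT ρ σ ∈ row p1 β → New X.κ (X.L β) (res p1 β) (row p1 β) ρ σ x

/-- names for a branch and a witness -/
structure Bad (X : Ctx) (β ρ T x p1 y z r1 : ZF) : Prop where
  le : pair r1 p1 ∈ X.L X.θ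
  hy : y ∈ X.M
  sy : y ⊆ prod (X.P X.θ) (prod X.κ X.κ)
  hz : z ∈ X.M
  sz : z ⊆ prod (X.P X.θ) (prod X.κ (num 2))
  ty : Tot X.κ (X.L X.θ) r1 y
  tz : Tot X.κ (X.L X.θ) r1 z
  dd : ∀ r, pair r r1 ∈ X.L X.θ → ∀ ξ ∈ X.κ, ∃ r', pair r' r ∈ X.L X.θ ∧
    DD X.κ (X.L X.θ) (X.L β) β ρ T x y z ξ r'

namespace Sit

variable {X : Ctx} {β ρ T x r0 p1 y z r1 r r' ξ : ZF} (S : Sit X β ρ T x r0 p1)
include S

theorem od : X.Od β := od_θ.of_mem S.hβ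

theorem slot0 : tT ρ ∅ ∈ row p1 β := ((P_VV S.hp S.hβ).2.2.2 ρ x S.hY).1

theorem hρ : ρ ∈ prod X.κ (insert β β) := (mem_Sl.1 (P_slot S.hp S.slot0)).1

theorem ρM : ρ ∈ X.M := by
  have := In.mk' S.od.mem
  exact tr (In.mem _) S.hρ

theorem dd_mono (h : DD X.κ (X.L X.θ) (X.L β) β ρ T x y z ξ r) (h' : pair r' r ∈ X.L X.θ) :
    DD X.κ (X.L X.θ) (X.L β) β ρ T x y z ξ r' := by
  obtain ⟨s, t, h1, h2, h3, h4, h5⟩ := h
  refine ⟨s, t, h1.mono od_θ.trans h', h2, h3, fun b hb => (h4 b hb).mono od_θ.trans h',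
    fun b hb => ?_⟩
  obtain ⟨σ, h6, j, hj, h7, h8⟩ := h5 b hb
  exact ⟨σ, row_mono (L_sub h') h6, j, hj, h7.mono od_θ.trans h',
    h8.mono S.od.trans ((L_OO h' S.hβ).2.1 ρ σ h6 j hj)⟩

variable (B : Bad X β ρ T x p1 y z r1)
include B

theorem pz_dense (h : pair r r1 ∈ X.L X.θ) :
    ∃ r', pair r' r ∈ X.L X.θ ∧ Pz (X.L X.θ) β ρ z r1 r' := by
  have := In.mk' S.od.mem
  have := In.mk' S.ρM
  have := In.mk' B.hz
  have ht := (od_θ (X := X)).trans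
  obtain ⟨q, h1, h2⟩ := closing od_θ (fun a q => ∀ σ, a = pair β (tT ρ σ) →
      ∀ η ∈ insert (dom σ) (dom σ), ∃ j, dec (X.L X.θ) q z (pair η j)) inferInstance (L_left h)
    (fun q hq a ha => by
      by_cases e : ∃ σ, a = pair β (tT ρ σ)
      · obtain ⟨σ, rfl⟩ := e
        have h1 := X.hκ.succ inf_omega
          (Sq_func (mem_Sl.1 (P_slot (L_left hq) (mem_row.2 ha))).2).2.1
        obtain ⟨r', h2, h3⟩ := baireL od_θ (fun η q => ∃ j, dec (X.L X.θ) q z (pair η j))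
          inferInstance (od_κ.of_mem h1).mem (X.hκ.le _ h1) (L_left hq) (fun η hη q' hq' =>
            (B.tz q' (ht _ _ _ hq' (ht _ _ _ hq h))).1 η (od_κ.sub h1 hη))
          fun _ _ _ _ ⟨j, h2⟩ h3 => ⟨j, h2.mono ht h3⟩
        exact ⟨r', h2, fun σ' e => by
          obtain rfl : σ = σ' := by simpa using e
          exact h3⟩
      · exact ⟨q, L_refl (L_left hq), fun σ e' => absurd ⟨σ, e'⟩ e⟩)
    fun a q r h1 h2 σ e η hη => (h1 σ e η hη).imp fun _ h3 => h3.mono ht h2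
  exact ⟨q, h1, ht _ _ _ h1 h, fun σ hσ => h2 _ (mem_row.1 hσ) σ rfl⟩

theorem on_two {σ j : ZF} (h : On (X.L X.θ) r z σ j) : j ∈ num 2 :=
  (pair_mem_prod.1 (h.2.shape B.sz)).2

theorem on0 (h : Pz (X.L X.θ) β ρ z r1 r) : tT ρ ∅ ∈ row r β ∧ ∃ j, On (X.L X.θ) r z ∅ j := by
  have h1 := row_mono (L_sub (od_θ.trans _ _ _ h.1 B.le)) S.slot0
  obtain ⟨j, h2⟩ := h.2 _ h1 _ (mem_insert _ _)
  exact ⟨h1, j, fun _ h => absurd h (notMem_empty _), h2⟩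

/-- the first missing slot along the branch -/
theorem next (h : Pz (X.L X.θ) β ρ z r1 r) : ∃ u ∈ Sq X.M X.κ (num 2), tT ρ u ∉ row r β ∧
    (∀ b ∈ u, dec (X.L X.θ) r z b) ∧
    (∀ η ∈ dom u, tT ρ (res u η) ∈ row r β ∧ On (X.L X.θ) r z (res u η) (app u η)) ∧
    ∀ σ j, tT ρ σ ∈ row r β → On (X.L X.θ) r z σ j → ∃ η ∈ dom u, σ = res u η ∧ j = app u η := by
  have hr := L_left h.1
  have := In.mk' S.od.mem
  have := In.mk' B.hz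
  have := In.mk' (P_mem hr)
  obtain ⟨δ, ⟨hδ, h1⟩, h2⟩ := exists_min (P := fun ξ => ξ ∈ X.κ ∧
      ¬ ∃ σ, tT ρ σ ∈ row r β ∧ dom σ = ξ ∧ ∀ b ∈ σ, dec (X.L X.θ) r z b) (by
    obtain ⟨ξ, h1, h2⟩ := X.hκ.exists_notMem (inf_omega.img (fun y => dom (snd (snd y)))
      inferInstance (In.mem (row r β)) (le_row (P_mem hr) (P_le hr)))
    exact ⟨ξ, h1, fun ⟨σ, h3, h4, _⟩ => h2 (mem_img.2 ⟨_, h3, by simpa using h4⟩)⟩)
  have hδ' := od_κ.of_mem hδ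
  have := In.mk' hδ'.mem
  have h3 : ∀ η ∈ δ, ∃ σ, tT ρ σ ∈ row r β ∧ dom σ = η ∧ ∀ b ∈ σ, dec (X.L X.θ) r z b :=
    fun η hη => by_contra fun h3 => h2 η hη ⟨od_κ.sub hδ hη, h3⟩
  have hf : IsFunc δ (num 2) (dv (X.L X.θ) r z δ (num 2)) := dv_func (fun η hη => by
    obtain ⟨σ, h4, rfl, -⟩ := h3 η hη
    obtain ⟨j, h5⟩ := h.2 σ h4 _ (mem_insert _ _)
    exact ⟨j, (pair_mem_prod.1 (h5.shape B.sz)).2, h5⟩) (B.tz r h.1).2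
  have h4 : ∀ σ, tT ρ σ ∈ row r β → (∀ b ∈ σ, dec (X.L X.θ) r z b) →
      dom σ ∈ δ ∧ res (dv (X.L X.θ) r z δ (num 2)) (dom σ) = σ := fun σ h4 h5 => by
    have hσ := (mem_Sl.1 (P_slot hr h4)).2
    obtain ⟨-, h6, h7⟩ := Sq_func hσ
    have h8 : dom σ ∈ δ := by
      rcases (X.hκ.ord.mem h6).mem_trichotomous hδ'.ord with h8 | h8 | h8
      · exact h8
      · exact absurd ⟨σ, h4, h8, h5⟩ h1
      · exact absurd ⟨_, (((P_VV hr S.hβ).2.2.1 ρ σ h4 _ zero_mem_two).2 δ h8).1,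
          (Sq_res hσ h8).2.1, fun b hb => h5 b (res_subset _ _ hb)⟩ h1
    refine ⟨h8, func_eq_res h7 hf fun b hb => mem_dv.2 ⟨?_, h5 b hb⟩⟩
    obtain ⟨a, ha, c, hc, rfl⟩ := h7.exists_pair hb
    exact pair_mem_prod.2 ⟨hδ'.sub h8 ha, hc⟩
  refine ⟨_, mem_Sq'.2 ⟨In.mem _, δ, hδ, hf⟩, fun h5 => h1 ⟨_, h5, hf.dom_eq, fun b hb =>
    (mem_dv.1 hb).2⟩, fun b hb => (mem_dv.1 hb).2, fun η hη => ?_, fun σ j h5 h6 => ?_⟩
  · rw [hf.dom_eq] at hη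
    obtain ⟨σ, h5, rfl, h6⟩ := h3 η hη
    rw [(h4 σ h5 h6).2]
    exact ⟨h5, h6, (mem_dv.1 (hf.app_mem hη)).2⟩
  · obtain ⟨h7, h8⟩ := h4 σ h5 h6.1
    exact ⟨_, hf.dom_eq.symm ▸ h7, h8.symm,
      (hf.app_eq (mem_dv.2 ⟨pair_mem_prod.2 ⟨h7, S.on_two B h6⟩, h6.2⟩)).symm⟩

theorem low (h : Pz (X.L X.θ) β ρ z r1 r) : ∃ e, ∀ σ j, tT ρ σ ∈ row r β → On (X.L X.θ) r z σ j →
    pair e (cp r β ρ σ j) ∈ X.L β := by
  obtain ⟨u, h1, -, -, h2, h3⟩ := S.next B h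
  obtain ⟨e, h4⟩ := branch S.od (L_left h.1) S.ρM h1 fun η hη => (h2 η hη).1
  refine ⟨e, fun σ j h5 h6 => ?_⟩
  obtain ⟨η, hη, rfl, rfl⟩ := h3 σ j h5 h6
  exact h4 η hη

variable {H : ZF} {N : Set ZF} (hH : GE X H N)
include hH

theorem step (h : Pz (X.L X.θ) β ρ z r1 r)
    (h' : ∀ σ j, tT ρ σ ∈ row r β → On (X.L X.θ) r z σ j → cp r β ρ σ j ∈ H) (hξ : ξ ∈ X.κ) :
    ∃ r', pair r' r ∈ X.L X.θ ∧ DD X.κ (X.L X.θ) (X.L β) β ρ T x y z ξ r' ∧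
      Pz (X.L X.θ) β ρ z r1 r' ∧
      ∀ σ j, tT ρ σ ∈ row r' β → On (X.L X.θ) r' z σ j → cp r' β ρ σ j ∈ H := by
  obtain ⟨u, h1, h2, h3, h4, h5⟩ := S.next B h
  have hr := L_left h.1
  have ht := (od_θ (X := X)).trans
  have hs := od_θ.sub S.hβ
  obtain ⟨h6, h7, -⟩ := Sq_func h1
  have := In.mk' S.od.mem
  have := In.mk' S.ρM
  have := In.mk' S.hT
  have := In.mk' S.hx
  have := In.mk' B.hy
  have := In.mk' B.hz
  have := In.mk' (P_mem hr)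
  have := In.mk' (P_mem (L_left B.le))
  have := In.mk' h6
  have := In.mk' (od_κ.of_mem hξ).mem
  obtain ⟨q, hq, h8⟩ := hH.cnt (fun η q => pair q (cp r β ρ (res u η) (app u η)) ∈ X.L X.θ)
    inferInstance (In.mem (dom u)) (X.hκ.le _ h7) (fun _ _ _ _ h1 h2 => ht _ _ _ h2 h1) fun η hη =>
      ⟨_, h' _ _ (h4 η hη).1 (h4 η hη).2, L_refl (hH.memP (h' _ _ (h4 η hη).1 (h4 η hη).2))⟩
  obtain ⟨q', hq', -, r', h9, h10, h11, h12⟩ := hH.below (fun q => ∃ r', pair r' r ∈ X.L X.θ ∧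
      DD X.κ (X.L X.θ) (X.L β) β ρ T x y z ξ r' ∧ Pz (X.L X.θ) β ρ z r1 r' ∧ ∀ σ,
      tT ρ σ ∈ row r' β → ∀ j ∈ num 2, On (X.L X.θ) r' z σ j → pair q (cp r' β ρ σ j) ∈ X.L X.θ)
    inferInstance hq fun q' hq' => by
      have k1 : ∀ η ∈ dom u, pair (res q' β) (cp r β ρ (res u η) (app u η)) ∈ X.L β :=
        fun η hη => P_res_self (cp_P hr (h4 η hη).1 (Sq_res h1 hη).2.2) ▸
          L_res (ht _ _ _ hq' (h8 η hη)) S.od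
      obtain ⟨k2, j, k3⟩ := S.on0 B h
      obtain ⟨η, k4, -⟩ := h5 _ _ k2 k3
      obtain ⟨rb, k5, k6, k7, -⟩ := slot od_θ S.hβ hr (mem_Sl.2 ⟨S.hρ, h1⟩) h2
        (fun η hη => (h4 η hη).1) (S.od.trans _ _ _ (k1 η k4)
          (cp_le_res S.od hr (h4 η k4).1 (Sq_res h1 k4).2.2)) k1 empty_mem (le_empty _)
        fun x hx => absurd hx (notMem_empty _)
      obtain ⟨rc, k8, k9⟩ := B.dd rb (ht _ _ _ k5 h.1) ξ hξ
      obtain ⟨r', k10, k11⟩ := S.pz_dense B (ht _ _ _ k8 (ht _ _ _ k5 h.1))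
      obtain ⟨e, k12⟩ := S.low B k11
      have k13 := ht _ _ _ k10 k8
      have k14 := row_mono (L_sub k13) k6
      obtain ⟨j0, k15⟩ := k11.2 u k14 _ (mem_insert _ _)
      have k16 : On (X.L X.θ) r' z u j0 := ⟨fun b hb => (h3 b hb).mono ht (ht _ _ _ k13 k5), k15⟩
      have k17 := S.on_two B k16
      obtain ⟨k18, k19, -⟩ := amal od_θ S.od hs (L_left hq') (S.od.trans _ _ _ (k12 u j0 k14 k16)
        (S.od.trans _ _ _ ((L_OO k13 S.hβ).2.1 ρ u k6 j0 k17) (k7 j0 k17)))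
      exact ⟨_, k18, r', ht _ _ _ k13 k5, S.dd_mono k9 k10, k11, fun σ k20 j _ k21 =>
        ht _ _ _ k19 (L_lift (k12 σ j k20 k21) hs)⟩
  exact ⟨r', h9, h10, h11, fun σ j k1 k2 => hH.gen.up _ hq' _ (h12 σ k1 j (S.on_two B k2) k2)⟩

theorem limit {g : ZF} (hg : g ∈ X.M) (hξ : ξ ∈ X.κ) (h0 : ∅ ∈ ξ)
    (h1 : ∀ η ∈ ξ, Pz (X.L X.θ) β ρ z r1 (app g η) ∧ ∀ σ j, tT ρ σ ∈ row (app g η) β →
      On (X.L X.θ) (app g η) z σ j → cp (app g η) β ρ σ j ∈ H)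
    (h2 : ∀ η ∈ ξ, ∀ η' ∈ η, pair (app g η) (app g η') ∈ X.L X.θ) :
    ∃ r, (∀ η ∈ ξ, pair r (app g η) ∈ X.L X.θ) ∧ Pz (X.L X.θ) β ρ z r1 r ∧
      ∀ σ j, tT ρ σ ∈ row r β → On (X.L X.θ) r z σ j → cp r β ρ σ j ∈ H := by
  have ht := (od_θ (X := X)).trans
  have hs := od_θ.sub S.hβ
  have ho := od_κ.of_mem hξ
  have := In.mk' hg
  have := In.mk' ho.mem
  have := In.mk' S.od.mem
  have := In.mk' S.ρM
  have hP := fun η hη => L_left (h1 η hη).1.1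
  have hd : ∀ η ∈ ξ, ∀ η' ∈ ξ, ∃ η'' ∈ ξ, pair (app g η'') (app g η) ∈ X.L X.θ ∧
      pair (app g η'') (app g η') ∈ X.L X.θ := fun η hη η' hη' => by
    rcases (ho.of_mem hη).ord.mem_trichotomous (ho.of_mem hη').ord with h | rfl | h
    exacts [⟨η', hη', h2 η' hη' η h, L_refl (hP η' hη')⟩, ⟨η, hη, L_refl (hP η hη), L_refl (hP η hη)⟩,
      ⟨η, hη, L_refl (hP η hη), h2 η hη η' h⟩]
  obtain ⟨h3, h4⟩ := dun od_θ (fun a => ∃ η ∈ ξ, a = app g η) (bun (app g) ξ) (In.mem _)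
    (inf_omega.bun _ inferInstance ho.mem (X.hκ.le ξ hξ) fun η hη => P_le (hP η hη))
    (by
      rintro _ ⟨η, hη, rfl⟩
      exact ⟨hP η hη, fun y hy => mem_bun.2 ⟨η, hη, hy⟩⟩)
    (fun y hy => by
      obtain ⟨η, hη, hy⟩ := mem_bun.1 hy
      exact ⟨_, ⟨η, hη, rfl⟩, hy⟩)
    (by
      rintro _ _ ⟨η, hη, rfl⟩ ⟨η', hη', rfl⟩
      obtain ⟨η'', h, h'⟩ := hd η hη η' hη'
      exact ⟨_, ⟨η'', h, rfl⟩, h'⟩)
  have h5 := fun η hη => h4 _ ⟨η, hη, rfl⟩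
  have h6 := ht _ _ _ (h5 _ h0) (h1 _ h0).1.1
  refine ⟨_, h5, ⟨h6, fun σ hσ η hη => ?_⟩, fun σ j hσ hj => ?_⟩
  · obtain ⟨η', h7, h8⟩ := mem_bun.1 (mem_row.1 hσ)
    exact ((h1 η' h7).1.2 σ (mem_row.2 h8) η hη).imp fun _ h => h.mono ht (h5 η' h7)
  obtain ⟨k1, -, k2⟩ := Sq_func (mem_Sl.1 (P_slot h3 hσ)).2
  have hj' := S.on_two B hj
  have := In.mk' k1
  have := In.mk' (tr (In.mem (M := X.M) _) hj')
  have h7 : ∀ η ∈ ξ, tT ρ σ ∈ row (app g η) β → cp (app g η) β ρ σ j ∈ H := fun η hη h => by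
    have key : ∀ a ∈ insert (dom σ) (dom σ), ∀ c, dec (X.L X.θ) (bun (app g) ξ) z (pair a c) →
        dec (X.L X.θ) (app g η) z (pair a c) := fun a ha c hc => by
      obtain ⟨c', h8⟩ := (h1 η hη).1.2 σ h a ha
      rwa [(B.tz _ h6).2 _ _ _ hc (h8.mono ht (h5 η hη))]
    refine (h1 η hη).2 σ j h ⟨fun b hb => ?_, key _ (mem_insert _ _) _ hj.2⟩
    obtain ⟨a, ha, c, -, rfl⟩ := k2.exists_pair hb
    exact key a (mem_insert_of_mem _ ha) c (hj.1 _ hb)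
  obtain ⟨q, hq, h8⟩ := hH.cnt (fun η q => pair q (cp (app g η) β ρ σ j) ∈ X.L X.θ) inferInstance
    (In.mem (ZFSet.sep (fun η => tT ρ σ ∈ row (app g η) β) ξ)) ((X.hκ.le ξ hξ).mono sep_subset)
    (fun _ _ _ _ h1 h2 => ht _ _ _ h2 h1) fun η hη =>
      ⟨_, h7 η (mem_sep.1 hη).1 (mem_sep.1 hη).2,
        L_refl (hH.memP (h7 η (mem_sep.1 hη).1 (mem_sep.1 hη).2))⟩
  refine hH.gen.up q hq _ (glb od_θ _ _ (hH.memP hq) (P_lift (cp_P h3 hσ hj') hs) fun a ha => ?_)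
  obtain ⟨η, h9, h10⟩ := mem_bun.1 (mem_row.1 hσ)
  have key : ∀ c ∈ bun (app g) ξ, ∃ η ∈ ξ, tT ρ σ ∈ row (app g η) β ∧ c ∈ app g η := fun c hc => by
    obtain ⟨η', h11, h12⟩ := mem_bun.1 hc
    obtain ⟨η'', h13, h14, h15⟩ := hd η h9 η' h11
    exact ⟨η'', h13, mem_row.2 (L_sub h14 h10), L_sub h15 h12⟩
  have hρ := (S.od.root S.hρ).2
  rcases (mem_cp hρ).1 ha with h11 | h11
  · obtain ⟨η', h12, h13, h14⟩ := key _ h11.1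
    exact ⟨_, h8 η' (mem_sep.2 ⟨h12, h13⟩), (mem_cp hρ).2 (Or.inl ⟨h14, h11.2⟩),
      cp_mono (L_sub (h5 η' h12))⟩
  · obtain ⟨η', h12, h13, h14⟩ := key _ (mem_row.1 h11)
    exact ⟨_, h8 η' (mem_sep.2 ⟨h12, h13⟩), (mem_cp hρ).2 (Or.inr (mem_row.2 h14)),
      cp_mono (L_sub (h5 η' h12))⟩

omit hH in
theorem not_bad (hc : X.M.Countable) : False := by
  have ht := (od_θ (X := X)).trans
  have hs := od_θ.sub S.hβ
  obtain ⟨r2, -, h1⟩ := S.pz_dense B (L_refl (L_left B.le))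
  obtain ⟨e, h2⟩ := S.low B h1
  obtain ⟨h3, j0, h4⟩ := S.on0 B h1
  obtain ⟨H, hg, he⟩ := genEx X.M hc _ _ X.po e (P_lift (L_left (h2 _ _ h3 h4)) hs)
  obtain ⟨N, hN, -⟩ := extEx X.M hc _ (In.mem _) _ (In.mem _) X.po H hg
  have hH : GE X H N := ⟨hg, hN⟩
  have h5 : ∀ σ j, tT ρ σ ∈ row r2 β → On (X.L X.θ) r2 z σ j → cp r2 β ρ σ j ∈ H :=
    fun σ j k1 k2 => hg.up e he _ (L_lift (h2 σ j k1 k2) hs)
  have hr0 : r0 ∈ H := hg.up _ (h5 _ _ h3 h4) _ (L_lift (S.od.trans _ _ _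
    ((L_OO (ht _ _ _ h1.1 B.le) S.hβ).2.1 ρ ∅ S.slot0 j0 (S.on_two B h4))
    (S.root j0 (S.on_two B h4))) hs)
  have hx := hH.tot_val hr0 S.hx S.sx S.tot
  have hL : X.L β ∈ X.M := by
    have := In.mk' S.od.mem
    exact In.mem _
  have := hN.model
  have := In.mk' hN.gen
  have := In.mk' (hN.sub S.od.mem)
  have := In.mk' (hN.sub S.ρM)
  have := In.mk' (hN.sub S.hT)
  have := In.mk' (hN.sub S.hx)
  have := In.mk' (hN.sub B.hy)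
  have := In.mk' (hN.sub B.hz)
  have := In.mk' (hN.sub (P_mem (L_left B.le)))
  have := In.mk' (hN.sub hL)
  have := In.mk' (hN.sub (In.mem (X.L X.θ)))
  have := In.mk' (hN.sub (In.mem (X.P X.θ)))
  have := In.mk' hH.hart.mem
  obtain ⟨f, hf, h6, h7⟩ := tdc (M := N) (fun g r => (∀ η ∈ dom g, pair r (app g η) ∈ X.L X.θ) ∧
      DD X.κ (X.L X.θ) (X.L β) β ρ T x y z (dom g) r) inferInstance X.hκ.ord hH.hart.mem
    (In.mem (ZFSet.sep (fun r => Pz (X.L X.θ) β ρ z r1 r ∧ ∀ σ, tT ρ σ ∈ row r β → ∀ j ∈ num 2,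
      On (X.L X.θ) r z σ j → cp r β ρ σ j ∈ H) (X.P X.θ))) fun ξ hξ g hg' k1 k2 => by
    have ho := od_κ.of_mem hξ
    rw [k1.dom_eq]
    obtain ⟨r, k3, k4, k5⟩ : ∃ r, (∀ η ∈ ξ, pair r (app g η) ∈ X.L X.θ) ∧ Pz (X.L X.θ) β ρ z r1 r ∧
        ∀ σ j, tT ρ σ ∈ row r β → On (X.L X.θ) r z σ j → cp r β ρ σ j ∈ H := by
      rcases isOrdinal_empty.mem_or_subset ho.ord with k3 | k3
      · refine S.limit B hH (Sq_func (hH.func_mem (a := X.P X.θ) hξ (In.mem _) hg' ⟨fun p hp => ?_,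
          k1.2⟩)).1 hξ k3 (fun η hη => ?_) fun η hη η' hη' => ?_
        · obtain ⟨a, ha, c, hc, rfl⟩ := k1.exists_pair hp
          exact pair_mem_prod.2 ⟨ha, (mem_sep.1 hc).1⟩
        · obtain ⟨-, k4, k5⟩ := mem_sep.1 (k1.app_mem' hη)
          exact ⟨k4, fun σ j k6 k7 => k5 σ k6 j (S.on_two B k7) k7⟩
        · have k4 := (k2 η hη).1 η' ((k1.res (ho.sub hη)).dom_eq.symm ▸ hη')
          rwa [TopP.app_res k1 (ho.sub hη) hη'] at k4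
      · exact ⟨r2, fun η hη => absurd (k3 hη) (notMem_empty _), h1, h5⟩
    obtain ⟨r', k6, k7, k8, k9⟩ := S.step B hH k4 k5 hξ
    exact ⟨r', mem_sep.2 ⟨L_left k6, k8, fun σ k10 j _ k11 => k9 σ j k10 k11⟩,
      fun η hη => ht _ _ _ k6 (k3 η hη), k7⟩
  have := In.mk' hf
  have h8 : ∀ ξ ∈ X.κ, (∀ η ∈ ξ, pair (app f ξ) (app f η) ∈ X.L X.θ) ∧
      DD X.κ (X.L X.θ) (X.L β) β ρ T x y z ξ (app f ξ) := fun ξ hξ => by
    have k1 := h7 ξ hξ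
    rw [(h6.res (od_κ.sub hξ)).dom_eq] at k1
    exact ⟨fun η hη => TopP.app_res h6 (od_κ.sub hξ) hη ▸ k1.1 η hη, k1.2⟩
  have h9 := fun ξ hξ => (mem_sep.1 (h6.app_mem' (x := ξ) hξ)).2
  have h10 : IsFunc X.κ X.κ (ZFSet.sep (fun b => ∃ ξ ∈ X.κ, dec (X.L X.θ) (app f ξ) y b)
      (prod X.κ X.κ)) := ⟨sep_subset, fun η hη => by
    have k1 := X.hκ.succ inf_omega hη
    obtain ⟨s, t, -, -, k2, k3, -⟩ := (h8 _ k1).2
    have k4 := k3 _ (k2.app_mem (mem_insert _ _))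
    refine ⟨_, mem_sep.2 ⟨k4.shape B.sy, _, k1, k4⟩, fun c hc => ?_⟩
    obtain ⟨-, ξ, k5, k6⟩ := mem_sep.1 hc
    rcases (X.hκ.ord.mem k5).mem_trichotomous (X.hκ.ord.mem k1) with k7 | rfl | k7
    exacts [(B.ty _ (h9 _ k1).1.1).2 _ _ _ (k6.mono ht ((h8 _ k1).1 _ k7)) k4,
      (B.ty _ (h9 _ k1).1.1).2 _ _ _ k6 k4,
      (B.ty _ (h9 _ k5).1.1).2 _ _ _ k6 (k4.mono ht ((h8 _ k5).1 _ k7))]⟩
  obtain ⟨q, hq, y', k1, k2⟩ := hH.br_of_inT S.hT S.hx hx ⟨_, ⟨In.mem _, h10⟩, fun ξ hξ => by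
    obtain ⟨s, t, k1, k2, k3, k4, k5⟩ := (h8 ξ hξ).2
    obtain ⟨k6, k7⟩ := h9 ξ hξ
    have k8 := L_left k6.1
    rw [func_eq_res k3 h10 fun b hb => mem_sep.2 ⟨(k4 b hb).shape B.sy, ξ, hξ, k4 b hb⟩,
      func_eq_res k2 hx fun b hb => by
        obtain ⟨σ, k9, j, hj, k10, d, k11, k12⟩ := k5 b hb
        exact hH.dec_val (k7 σ k9 j hj k10) ⟨d, L_lift k11 hs, k12⟩]
    obtain ⟨k9, j, k10⟩ := S.on0 B k6
    obtain ⟨k11, k12⟩ := S.od.root S.hρ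
    have k13 := hg.up _ (k7 _ k9 j (S.on_two B k10) k10) _
      (L_lift (cp_le_res S.od k8 k9 (S.on_two B k10)) hs)
    obtain ⟨d, k14, k15⟩ := (dec_res od_θ k11 (fun _ h => hs (k12 h)) k8 S.sT).1 k1
    exact hH.dec_val k13 ⟨d, L_lift k14 fun _ h => hs (k12 h), k15⟩⟩
  obtain ⟨q', -, k3, k4⟩ := hg.dir q hq r0 hr0
  exact S.no q' k4 ⟨y', k1, k2.1.mono ht k3, fun r hr => k2.2 r (ht _ _ _ hr k3)⟩

end Sit

end Pool.Agent.P.MP_3ab3de_lc
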