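import Pool.Agent.P.MP_3ab3de_lc.Gen2

/-! The dichotomy in the generic extension. -/

set_option linter.unusedSectionVars false
set_option synthInstance.maxSize 100000

namespace Pool.Agent.P.MP_3ab3de_lc

open ZFSet Ctx

/-- the values decided at a slot -/
noncomputable def ww (κ L G β ρ x σ j : ZF) : ZF :=
  ZFSet.sep (fun b => ∃ r ∈ G, tT ρ σ ∈ row r β ∧ dec L (cp r β ρ σ j) x b) (prod κ κ)

namespace Sit

variable {X : Ctx} {β ρ T x r0 p1 r σ j G : ZF} {N : Set ZF} (S : Sit X β ρ T x r0 p1)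
include S

theorem new' (h : pair r p1 ∈ X.L X.θ) (hs : tT ρ σ ∈ row r β) :
    New X.κ (X.L β) (res r β) (row r β) ρ σ x := by
  by_cases h1 : tT ρ σ ∈ row p1 β
  · exact (S.new σ h1).mono S.od.trans ((L_OO h S.hβ).2.1 ρ σ h1)
  · exact (L_OO h S.hβ).2.2 ρ σ x hs h1 S.hY

theorem tot' (h : pair r p1 ∈ X.L X.θ) (hs : tT ρ σ ∈ row r β) (hj : j ∈ num 2) :
    Tot X.κ (X.L β) (cp r β ρ σ j) x := by
  obtain ⟨-, -, h1, h2⟩ := P_VV (L_left h) S.hβ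
  have h3 := (h2 ρ x (row_mono (L_sub h) S.hY)).2
  by_cases e : σ = ∅
  · exact e ▸ (h3 j hj).1
  · have hσ := (mem_Sl.1 (P_slot (L_left h) hs)).2
    have h4 := empty_mem_dom hσ e
    have h5 := ((h1 ρ σ hs j hj).2 _ h4).2
    rw [res_empty] at h5
    exact (h3 _ (Sq_res hσ h4).2.2).1.mono S.od.trans h5

variable (h : GE X G N) (hp : p1 ∈ G)
include h hp

theorem sch : TopP.Sch N X.κ (ww X.κ (X.L β) G β ρ x) := by
  intro ξ hξ σ hσ hf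
  have h1 := h.func_mem hξ (In.mem _) hσ hf
  have := In.mk' S.od.mem
  have := In.mk' S.ρM
  have := In.mk' (Sq_func h1).1
  obtain ⟨r, hr, h2, h3⟩ := h.below (fun r => tT ρ σ ∈ row r β) inferInstance hp fun r hr =>
    slot_dense od_θ S.hβ _ σ h1 rfl r (L_left hr) (row_mono (L_sub hr) S.slot0)
  obtain ⟨h4, η, -, ζ, ζ', h5, h6, h7⟩ := S.new' h2 h3
  have key : ∀ j b, dec (X.L β) (cp r β ρ σ j) x b → b ∈ ww X.κ (X.L β) G β ρ x σ j :=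
    fun j b hb => mem_sep.2 ⟨hb.shape S.sx, r, hr, h3, hb⟩
  have key2 : ∀ σ', ∀ j ∈ num 2, ∀ b ∈ ww X.κ (X.L β) G β ρ x σ' j, ∀ r ∈ G, ∃ r' ∈ G,
      pair r' r ∈ X.L X.θ ∧ ∀ r'', pair r'' r' ∈ X.L X.θ → dec (X.L β) (cp r'' β ρ σ' j) x b :=
    fun σ' j hj b hb r hr => by
      obtain ⟨-, r1, k1, k2, k3⟩ := mem_sep.1 hb
      obtain ⟨r', k4, k5, k6⟩ := h.gen.dir r hr r1 k1
      exact ⟨r', k4, k5, fun r'' k7 => k3.mono S.od.trans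
        ((L_OO (od_θ.trans _ _ _ k7 k6) S.hβ).2.1 ρ σ' k2 j hj)⟩
  refine ⟨fun j hj => ⟨sep_subset, fun η ζ ζ' k1 k2 => ?_, fun η hη =>
    (h4 j hj η (hf.dom_eq.symm ▸ hη)).imp fun _ => key j _, fun η hη b hb => ?_⟩,
    η, ζ, ζ', h5, key _ _ h6, key _ _ h7⟩
  · obtain ⟨r1, k3, k4, k5⟩ := key2 _ j hj _ k1 r hr
    obtain ⟨r2, -, k6, k7⟩ := key2 _ j hj _ k2 r1 k3
    have k8 := od_θ.trans _ _ _ k6 k4
    have k9 := row_mono (L_sub k8) h3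
    exact (S.tot' (od_θ.trans _ _ _ k8 h2) k9 hj _ (L_refl (cp_P (L_left k6) k9 hj))).2 _ _ _
      (k5 r2 k6) (k7 r2 (L_refl (L_left k6)))
  · obtain ⟨r1, k3, k4, k5⟩ := key2 _ _ (hf.app_mem' hη) _ hb r hr
    have k9 := row_mono (L_sub k4) h3
    exact mem_sep.2 ⟨(mem_sep.1 hb).1, r1, k3, k9, (k5 r1 (L_refl (L_left k4))).mono S.od.trans
      (((P_VV (L_left k4) S.hβ).2.2.1 ρ σ k9 j hj).2 η (hf.dom_eq.symm ▸ hη)).2⟩

omit hp in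
theorem tm_ww : haveI := h.ext.model
    Tm N (fun v => ww X.κ (X.L β) G β ρ x (v 0) (v 1)) := by
  have hL : X.L β ∈ X.M := by
    have := In.mk' S.od.mem
    exact In.mem _
  have := h.ext.model
  have := In.mk' h.ext.gen
  have := In.mk' (h.ext.sub S.od.mem)
  have := In.mk' (h.ext.sub S.ρM)
  have := In.mk' (h.ext.sub S.hx)
  have := In.mk' (h.ext.sub hL)
  have := In.mk' h.hart.mem
  unfold ww
  infer_instance

theorem not_inT (hc : X.M.Countable) {z : ZF} (hz : z ∈ N) (hf : IsFunc X.κ (num 2) z) :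
    Baire N X.κ (TopP.xz X.κ (ww X.κ (X.L β) G β ρ x) z) ∧
      ¬ InT N X.κ (val G T) (TopP.xz X.κ (ww X.κ (X.L β) G β ρ x) z) := by
  have := h.ext.model
  have ht := (od_θ (X := X)).trans
  have hB : Baire N X.κ (TopP.xz X.κ (ww X.κ (X.L β) G β ρ x) z) := by
    have := fun s t [Tm N s] [Tm N t] => (S.tm_ww h).two s t
    have := In.mk' hz
    have := In.mk' h.hart.mem
    exact ⟨In.mem (bun _ _), TopP.xz_fn h.hart (S.sch h hp) hz hf⟩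
  refine ⟨hB, fun ⟨y, hy, h1⟩ => ?_⟩
  obtain ⟨y, hym, sy, rfl⟩ := h.name hy.1 (In.mem _) hy.2.1
  obtain ⟨z, hzm, sz, rfl⟩ := h.name hz (In.mem _) hf.1
  have := In.mk' S.od.mem
  have := In.mk' S.ρM
  have := In.mk' S.hT
  have := In.mk' S.hx
  have := In.mk' hym
  have := In.mk' hzm
  obtain ⟨q1, h2, h3⟩ := h.val_tot hym hy.2
  obtain ⟨q2, h4, h5⟩ := h.val_tot hzm hf
  obtain ⟨q3, h6, h7⟩ := h.force (fun r => ∀ ξ ∈ X.κ, ∃ r', pair r' r ∈ X.L X.θ ∧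
      DD X.κ (X.L X.θ) (X.L β) β ρ T x y z ξ r') inferInstance fun r hr ξ hξ => by
    obtain ⟨r1, k1, k2⟩ := h.val_dec (h1 ξ hξ)
    obtain ⟨r2, k3, k4⟩ := h.decs_res hξ X.hκ.mem hym hy.2
    have k5 := (Sq_func (h.res_mem hξ X.hκ.mem hB.1 hB.2)).1
    have k6 := hB.2.res (od_κ.sub hξ)
    obtain ⟨r3, k7, k8⟩ := h.cnt (fun b r => ∃ σ, tT ρ σ ∈ row r β ∧ ∃ j ∈ num 2,
        On (X.L X.θ) r z σ j ∧ dec (X.L β) (cp r β ρ σ j) x b) inferInstance k5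
      (le_func k5 k6 inf_omega (X.hκ.le ξ hξ)) (fun b _ q r ⟨σ, k7, j, hj, k8, k9⟩ k10 =>
        ⟨σ, row_mono (L_sub k10) k7, j, hj, k8.mono ht k10,
          k9.mono S.od.trans ((L_OO k10 S.hβ).2.1 ρ σ k7 j hj)⟩) fun b hb => by
      obtain ⟨η, hη, k7⟩ := mem_bun.1 (res_subset _ _ hb)
      obtain ⟨-, a1, k8, k9, k10⟩ := mem_sep.1 k7
      obtain ⟨a2, k11, k12⟩ := h.decs_res hη (In.mem _) hzm hf
      obtain ⟨a3, k13, k14⟩ := h.val_dec (hf.app_mem hη)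
      obtain ⟨a4, k15, k16, k17⟩ := h.gen.dir a1 k8 a2 k11
      obtain ⟨a5, k18, k19, k20⟩ := h.gen.dir a4 k15 a3 k13
      have k21 := ht _ _ _ k19 k16
      refine ⟨a5, k18, _, row_mono (L_sub k21) k9, _, hf.app_mem' hη,
        ⟨fun b hb => (k12 b hb).mono ht (ht _ _ _ k19 k17), ?_⟩,
        k10.mono S.od.trans ((L_OO k21 S.hβ).2.1 ρ _ k9 _ (hf.app_mem' hη))⟩
      rw [(hf.res (od_κ.sub hη)).dom_eq]
      exact k14.mono ht k20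
    obtain ⟨r4, k9, k10, k11⟩ := h.gen.dir r hr r1 k1
    obtain ⟨r5, k12, k13, k14⟩ := h.gen.dir r2 k3 r3 k7
    obtain ⟨r6, -, k15, k16⟩ := h.gen.dir r4 k9 r5 k12
    have k17 := ht _ _ _ k16 k14
    refine ⟨r6, ht _ _ _ k15 k10, _, _, k2.mono ht (ht _ _ _ k15 k11), k6, hy.2.res (od_κ.sub hξ),
      fun b hb => (k4 b hb).mono ht (ht _ _ _ k16 k13), fun b hb => ?_⟩
    obtain ⟨σ, k18, j, hj, k19, k20⟩ := k8 b hb
    exact ⟨σ, row_mono (L_sub k17) k18, j, hj, k19.mono ht k17,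
      k20.mono S.od.trans ((L_OO k17 S.hβ).2.1 ρ σ k18 j hj)⟩
  obtain ⟨q4, h8, h9, h10⟩ := h.gen.dir q1 h2 q2 h4
  obtain ⟨q5, h11, h12, h13⟩ := h.gen.dir q3 h6 p1 hp
  obtain ⟨r1, -, h14, h15⟩ := h.gen.dir q4 h8 q5 h11
  exact S.not_bad ⟨ht _ _ _ h15 h13, hym, sy, hzm, sz, h3.mono ht (ht _ _ _ h14 h9),
    h5.mono ht (ht _ _ _ h14 h10), fun r hr => h7 r (ht _ _ _ hr (ht _ _ _ h15 h12))⟩ hc

end Sit

namespace GE

variable {X : Ctx} {G : ZF} {N : Set ZF} (h : GE X G N)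
include h

theorem exists_sit {α T x : ZF} (hα : α ∈ X.θ) (hT : T ∈ X.M)
    (sT : T ⊆ prod (X.P α) (prod (Sq X.M X.κ X.κ) (Sq X.M X.κ X.κ))) (hx : Baire N X.κ x)
    (h1 : ¬ InT N X.κ (val G T) x)
    (h2 : ¬ ∃ A ∈ X.M, A ⊆ prod (X.P α) (prod X.κ X.κ) ∧ val G A = x) :
    ∃ β ρ x' r0, ∃ p1 ∈ G, Sit X β ρ T x' r0 p1 := by
  have ht := (od_θ (X := X)).trans
  have hκ := X.hκ.le_pw (In.mem om)
  have hα' := od_θ.of_mem hα
  obtain ⟨β0, h3, x, hm, sx, rfl⟩ := h.small_name hx.1 (In.mem _) hx.2.1 (inf_pw.prod hκ hκ)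
  have := In.mk' hT
  have := In.mk' hm
  have := In.mk' hα'.mem
  obtain ⟨q1, h4, h5⟩ := h.val_tot hm hx.2
  obtain ⟨q2, h6, h7⟩ := h.force (fun r => ¬ ∃ y ∈ pw X.M (prod (X.P X.θ) (prod X.κ X.κ)),
      Br X.κ (X.L X.θ) T x y r) inferInstance fun r hr ⟨y, k1, k2⟩ =>
    h1 (h.inT_of_br hT hm (mem_pw.1 k1).2 (mem_pw.1 k1).1 hx.2 hr k2)
  obtain ⟨q3, h8, h9⟩ := h.force (fun r => ∃ q0, pair q0 r ∈ X.L X.θ ∧ ∃ q1, pair q1 r ∈ X.L X.θ ∧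
      res q0 α = res q1 α ∧ spl X.κ (X.L X.θ) q0 q1 x) inferInstance fun r hr => by
    by_contra k1
    have := In.mk' (P_mem (h.memP hr))
    refine h2 ⟨ZFSet.sep (fun z => ∃ q, pair q r ∈ X.L X.θ ∧ res q α = fst z ∧
      dec (X.L X.θ) q x (snd z)) (prod (X.P α) (prod X.κ X.κ)), In.mem _, sep_subset,
      ZFSet.ext fun b => ⟨fun hb => ?_, fun hb => ?_⟩⟩
    · obtain ⟨d, k2, k3⟩ := mem_val.1 hb
      obtain ⟨k4, q, k5, k6, k7⟩ := mem_sep.1 k3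
      simp only [fst_pair, snd_pair] at k6 k7
      obtain ⟨η, hη, ζ, -, rfl⟩ := mem_prod.1 (pair_mem_prod.1 k4).2
      obtain ⟨a1, k8, k9⟩ := h.val_dec (hx.2.app_mem hη)
      obtain ⟨a2, k10, k11, k12⟩ := h.gen.dir r hr d k2
      obtain ⟨a3, -, k13, k14⟩ := h.gen.dir a1 k8 a2 k10
      obtain ⟨q', k15, k16⟩ := sync od_θ hα' (od_θ.sub hα) (L_left k5)
        (q0 := d) (by rw [← k6, res_res fun _ h => h]) (ht _ _ _ k14 k12)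
      by_cases e : app (val G x) η = ζ
      · exact e ▸ hx.2.app_mem hη
      · exact absurd ⟨a3, ht _ _ _ k14 k11, q', ht _ _ _ k15 k5, k16, η, hη, _, _, e,
          k9.mono ht k13, k7.mono ht k15⟩ k1
    · obtain ⟨a1, k2, k3⟩ := h.val_dec hb
      obtain ⟨q, k4, k5, k6⟩ := h.gen.dir r hr a1 k2
      exact mem_val.2 ⟨_, h.res_G k4 hα', mem_sep.2 ⟨pair_mem_prod.2
        ⟨P_res (h.memP k4) hα', hx.2.1 hb⟩, q, k5, by simp, by simpa using k3.mono ht k6⟩⟩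
  obtain ⟨q4, h10, h11, h12⟩ := h.gen.dir q1 h4 q2 h6
  obtain ⟨r0, h13, h14, h15⟩ := h.gen.dir q4 h10 q3 h8
  obtain ⟨ξ, h16, h17⟩ := P_bdd (h.memP h13)
  have hβ := X.hθ.union (X.hθ.union h3 h16) hα
  have hβ' := od_θ.of_mem hβ
  have h18 : r0 ∈ X.P (β0 ∪ ξ ∪ α) := P_lift h17 fun _ h => TopP.sub_l _ _ (TopP.sub_r _ _ h)
  have sx' : x ⊆ prod (X.P (β0 ∪ ξ ∪ α)) (prod X.κ X.κ) := fun z hz => by
    obtain ⟨a, ha, b, hb, rfl⟩ := mem_prod.1 (sx hz)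
    exact pair_mem_prod.2 ⟨P_lift ha fun _ h => TopP.sub_l _ _ (TopP.sub_l _ _ h), hb⟩
  have h19 := h5.mono ht (ht _ _ _ h14 h11)
  have := In.mk' hβ'.mem
  have := In.mk' (P_mem h18)
  obtain ⟨p1, h20, -, i, -, h21, h22, h23⟩ := h.below (fun p => ∃ i ∈ X.κ,
      tY (pair i α) x ∈ row p (β0 ∪ ξ ∪ α) ∧
      (∀ j ∈ num 2, pair (cp p (β0 ∪ ξ ∪ α) (pair i α) ∅ j) r0 ∈ X.L (β0 ∪ ξ ∪ α)) ∧
      ∀ σ, tT (pair i α) σ ∈ row p (β0 ∪ ξ ∪ α) → New X.κ (X.L (β0 ∪ ξ ∪ α)) (res p (β0 ∪ ξ ∪ α))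
        (row p (β0 ∪ ξ ∪ α)) (pair i α) σ x) inferInstance h13 fun r hr => by
    obtain ⟨p, k1, i, hi, k2, k3, k4⟩ := root od_θ hβ (L_left hr)
      ((mem_succ_iff hα'.ord hβ'.ord).2 (TopP.sub_r _ _)) (mem_Nm.2 ⟨sx', hm⟩)
      ((tot_res od_θ hβ' (od_θ.sub hβ) (L_left hr) sx').1 (h19.mono ht hr))
      (split_res od_θ hβ' (od_θ.sub hβ) (TopP.sub_r _ _) (L_left hr) sx'
        fun q hq => h9 q (ht _ _ _ hq (ht _ _ _ hr h15)))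
    exact ⟨p, k1, i, hi, k2, fun j hj => hβ'.trans _ _ _ (k3 j hj)
      (P_res_self h18 ▸ L_res hr hβ'), k4⟩
  exact ⟨_, _, x, r0, p1, h20, hβ, hT, (snd_pair i α).symm ▸ sT, hm, sx', h19,
    fun r hr => h7 r (ht _ _ _ hr (ht _ _ _ h14 h12)), h.memP h20, h21, h22, h23⟩

theorem hurewicz (hc : X.M.Countable) {A : ZF} (hA : IsPi11 N X.κ A) : Hurewicz N X.κ A := by
  have := h.ext.model
  obtain ⟨C, hC, ⟨h1, h2⟩, h3⟩ := hA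
  have hκ := X.hκ.le_pw (In.mem om)
  have hS := h.ext.sub (In.mem (Sq X.M X.κ X.κ))
  have := In.mk' hC
  have := In.mk' hS
  have := In.mk' h.hart.mem
  have := In.mk' h.ext.gen
  obtain ⟨α, hα, T, hT, sT, e⟩ := h.small_name (Y := ZFSet.sep (fun z => ∃ x y, pair x y ∈ C ∧
    ∃ ξ ∈ X.κ, z = pair (res x ξ) (res y ξ)) (prod (Sq X.M X.κ X.κ) (Sq X.M X.κ X.κ))) (In.mem _)
    (In.mem _) sep_subset (inf_pw.prod (le_Sq hκ) (le_Sq hκ))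
  have hb : ∀ x y, pair x y ∈ C → Baire N X.κ x ∧ Baire N X.κ y := fun x y hp => by
    obtain ⟨x', y', h4, h5, h6⟩ := h1 _ hp
    obtain ⟨rfl, rfl⟩ := pair_inj.1 h6
    exact ⟨h4, h5⟩
  have key : ∀ x, x ∈ A ↔ Baire N X.κ x ∧ ¬ InT N X.κ (val G T) x := fun x => by
    rw [h3, e]
    refine and_congr_right fun hx => not_congr ⟨fun ⟨y, hy⟩ => ⟨y, (hb x y hy).2, fun ξ hξ =>
      mem_sep.2 ⟨pair_mem_prod.2 ⟨h.res_mem hξ X.hκ.mem hx.1 hx.2, h.res_mem hξ X.hκ.mem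
        (hb x y hy).2.1 (hb x y hy).2.2⟩, x, y, hy, ξ, hξ, rfl⟩⟩,
      fun ⟨y, hy, h4⟩ => ⟨y, h2 x y hx hy fun ξ hξ => ?_⟩⟩
    obtain ⟨-, x', y', h5, ξ', hξ', h6⟩ := mem_sep.1 (h4 ξ hξ)
    obtain ⟨h7, h8⟩ := pair_inj.1 h6
    obtain rfl : ξ = ξ' := by
      rw [← (hx.2.res (od_κ.sub hξ)).dom_eq, h7, ((hb x' y' h5).1.2.res (od_κ.sub hξ')).dom_eq]
    exact ⟨x', y', h5, TopP.agree_of_res h7, TopP.agree_of_res h8⟩
  by_cases h4 : ∀ x ∈ A, ∃ B ∈ X.M, B ⊆ prod (X.P α) (prod X.κ X.κ) ∧ val G B = x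
  · have := In.mk' (h.ext.sub (od_θ.of_mem hα).mem)
    refine Or.inl (kk N X.κ h.hart (KK N X.κ G α) inferInstance (fun η _ y hy => (mem_KK.1 hy).1)
      (h.K_lind hα) A fun x hx => ?_)
    obtain ⟨B, h5, h6, rfl⟩ := h4 x hx
    obtain ⟨η, h7, h8⟩ := h.K_cover hα h5 h6 ((key _).1 hx).1.2
    exact ⟨η, h7, h8 η fun _ h => h⟩
  · rw [not_forall₂] at h4
    obtain ⟨x, hx, h4⟩ := h4
    obtain ⟨β, ρ, x', r0, p1, h5, S⟩ := h.exists_sit hα hT sT ((key x).1 hx).1 ((key x).1 hx).2 h4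
    exact Or.inr (perf N X.κ h.hart _ (S.tm_ww h) (S.sch h h5) A fun z hz hf =>
      (key _).2 (S.not_inT h h5 hc hz hf))

end GE

end Pool.Agent.P.MP_3ab3de_lc
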