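import Pool.Agent.P.MP_3ab3de_lc.Card

/-! Statements of the independent packages. -/

namespace Pool.Agent.P.MP_3ab3de_lc

open ZFSet

/-- `L` is (the graph of) a preorder on `P`; `pair p q ∈ L` reads `p ≤ q` -/
structure PO (P L : ZF) : Prop where
  mem : ∀ p q, pair p q ∈ L → p ∈ P ∧ q ∈ P
  refl : ∀ p ∈ P, pair p p ∈ L
  trans : ∀ p q r, pair p q ∈ L → pair q r ∈ L → pair p r ∈ L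

/-- generic filter -/
structure Gen (M : Set ZF) (P L G : ZF) : Prop where
  sub : G ⊆ P
  up : ∀ p ∈ G, ∀ q, pair p q ∈ L → q ∈ G
  dir : ∀ p ∈ G, ∀ q ∈ G, ∃ r ∈ G, pair r p ∈ L ∧ pair r q ∈ L
  meet : ∀ D ∈ M, (∀ p ∈ P, ∃ q ∈ D, pair q p ∈ L) → ∃ q ∈ G, q ∈ D

/-- what is used of a generic extension -/
structure Ext (M N : Set ZF) (P G : ZF) : Prop where
  model : TModel N
  sub : M ⊆ N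
  gen : G ∈ N
  rank : ∀ x ∈ N, ∃ y ∈ M, rank x ≤ rank y
  cap : ∀ X ∈ N, ∀ a ∈ M, X ⊆ a →
    ∃ A ∈ M, A ⊆ prod P a ∧ ∀ b, b ∈ X ↔ ∃ p ∈ G, pair p b ∈ A

def S_Gen : Prop := ∀ (M : Set ZF), M.Countable → ∀ P L, PO P L → ∀ p ∈ P,
  ∃ G, Gen M P L G ∧ p ∈ G

def S_Ext : Prop := ∀ (M : Set ZF) [TModel M], M.Countable → ∀ P ∈ M, ∀ L ∈ M, PO P L →
  ∀ G, Gen M P L G → ∃ N, Ext M N P G ∧ N.Countable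

def S_Ctm : Prop := ∃ M : Set ZF, TModel M ∧ M.Countable

def S_Vlam : Prop := ∀ (I : Set ZF) [TModel I] (l : ZF), Inacc I l →
  TModel ((VM I l : ZF) : Set ZF)

def S_Perf : Prop := ∀ (N : Set ZF) [TModel N] (κ : ZF), Hart N om κ → ∀ (w : ZF → ZF → ZF),
  Tm N (fun v => w (v 0) (v 1)) →
  (∀ ξ ∈ κ, ∀ σ ∈ N, IsFunc ξ (num 2) σ →
    (∀ j ∈ num 2, w σ j ⊆ prod κ κ ∧
      (∀ η ζ ζ', pair η ζ ∈ w σ j → pair η ζ' ∈ w σ j → ζ = ζ') ∧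
      (∀ η ∈ ξ, ∃ ζ, pair η ζ ∈ w σ j) ∧ ∀ η ∈ ξ, w (res σ η) (app σ η) ⊆ w σ j) ∧
    ∃ η ζ ζ', ζ ≠ ζ' ∧ pair η ζ ∈ w σ (num 0) ∧ pair η ζ' ∈ w σ (num 1)) →
  ∀ A : ZF, (∀ z ∈ N, IsFunc κ (num 2) z → bun (fun η => w (res z η) (app z η)) κ ∈ A) →
  ∃ C ∈ N, C ⊆ A ∧ IsCls N κ C ∧ Homeo N κ C

def S_Kk : Prop := ∀ (N : Set ZF) [TModel N] (κ : ZF), Hart N om κ → ∀ (K : ZF → ZF),
  Tm N (fun v => K (v 0)) → (∀ η ∈ κ, ∀ y ∈ K η, Baire N κ y) →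
  (∀ η ∈ κ, ∀ W ∈ N, (∀ s ∈ W, ∃ ξ ∈ κ, IsFunc ξ κ s) → (∀ y ∈ K η, ∃ ξ ∈ κ, res y ξ ∈ W) →
    ∃ c ∈ N, Le N c om ∧ ∀ y ∈ K η, ∃ ξ ∈ κ, res y ξ ∈ W ∧ res y ξ ∈ c) →
  ∀ A : ZF, (∀ x ∈ A, ∃ η ∈ κ, x ∈ K η) → InKk N κ A

def S_CH : Prop := ∀ (N : Set ZF) [TModel N] (κ : ZF), Hart N om κ → ∀ (F : ZF → ZF),
  Tm N (fun v => F (v 0)) → (∀ η ∈ κ, Le N (F η) om) →
  (∀ ξ ∈ κ, ∀ s ∈ N, IsFunc ξ κ s → ∃ η ∈ κ, s ∈ F η) → GoodCard N κ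

end Pool.Agent.P.MP_3ab3de_lc
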