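import Pool.Agent.P.MP_3ab3de_lc.Iface

/-! The level of the cumulative hierarchy at an inaccessible cardinal is a transitive model. -/

set_option linter.unusedSectionVars false

namespace Pool.Agent.P.MP_3ab3de_lc

open ZFSet

namespace MinP

variable {I : Set ZF} [hI : TModel I] {l : ZF}

/-- covered by an ordinal below `l` -/
def Lt (I : Set ZF) (l x : ZF) : Prop := ∃ η ∈ l, Le I x η

theorem bd (h : Inacc I l) {ξ : ZF} (hξ : ξ ∈ l) (F : ZF → ZF) (hF : Tm I (fun v => F (v 0)))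
    (H : ∀ x ∈ ξ, F x ∈ l) : ∃ η ∈ l, ∀ x ∈ ξ, F x ∈ η := by
  have := In.mk' (tr h.1 hξ)
  obtain ⟨η, hη, h1⟩ := h.2.2.2.1 ξ hξ (graph F ξ) (In.mem _) (graph_isFunc H)
  exact ⟨η, hη, fun x hx => h1 x _ (pair_mem_graph.2 ⟨hx, rfl⟩)⟩

theorem zero_mem (h : Inacc I l) : ∅ ∈ l := h.2.1.mem_trans omega_zero h.2.2.1

theorem lim (h : Inacc I l) {α : Ordinal.{0}} (hα : α < rank l) : Order.succ α < rank l := by
  have h1 : α.toZFSet ∈ l := by
    rw [← (isOrdinal_toZFSet α).rank_lt_iff_mem h.2.1, Ordinal.rank_toZFSet]; exact hα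
  have := In.mk' (tr h.1 h1)
  obtain ⟨η, hη, h2⟩ := bd h h.2.2.1 (fun _ => α.toZFSet) inferInstance fun _ _ => h1
  have h3 := rank_lt_of_mem (h2 _ omega_zero)
  rw [Ordinal.rank_toZFSet] at h3
  exact (Order.succ_le_of_lt h3).trans_lt (rank_lt_of_mem hη)

theorem Lt.mono {x y : ZF} (h : Lt I l x) (h' : y ⊆ x) : Lt I l y := by
  obtain ⟨η, hη, h⟩ := h
  exact ⟨η, hη, h.mono h'⟩

theorem Lt.of_le (h : Inacc I l) {x y : ZF} (h1 : Le I y x) (h2 : Lt I l x) : Lt I l y := by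
  obtain ⟨η, hη, h2⟩ := h2
  exact ⟨η, hη, h1.trans h2 (tr h.1 hη)⟩

theorem Lt.pw (h : Inacc I l) {x : ZF} (hx : Lt I l x) : Lt I l (pw I x) := by
  obtain ⟨η, hη, hx⟩ := hx
  have h1 := tr h.1 hη
  obtain ⟨ζ, hζ, h2⟩ := h.2.2.2.2 η hη (MP_3ab3de_lc.pw I η) (pw_mem h1) fun y hy => by simp [hy]
  exact ⟨ζ, hζ, (hx.pw h1).trans (h2.le (pw_mem h1) (tr h.1 hζ)) (tr h.1 hζ)⟩

theorem Lt.bd (h : Inacc I l) {c : ZF} (hc : c ∈ I) (hx : Lt I l c) (F : ZF → ZF)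
    (hF : Tm I (fun v => F (v 0))) (H : ∀ x ∈ c, F x ∈ l) : ∃ η ∈ l, ∀ x ∈ c, F x ∈ η := by
  classical
  obtain ⟨ξ, hξ, f, hf, h1⟩ := hx
  have := fun s [Tm I s] => hF.one s
  have := In.mk' hf
  have := In.mk' hc
  obtain ⟨η, hη, h2⟩ := MinP.bd h hξ (fun z => if app f z ∈ c then F (app f z) else ∅)
    inferInstance fun z _ => by
      split_ifs with h3
      exacts [H _ h3, zero_mem h]
  refine ⟨η, hη, fun x hx => ?_⟩
  obtain ⟨z, hz, rfl⟩ := h1 x hx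
  simpa [hx] using h2 z hz

theorem prod_sub {a b : ZF} (ha : a ∈ I) (hb : b ∈ I) : prod a b ⊆ pw I (pw I (a ∪ b)) := by
  intro p hp
  obtain ⟨x, hx, y, hy, rfl⟩ := mem_prod.1 hp
  have := In.mk' (tr ha hx)
  have := In.mk' (tr hb hy)
  refine mem_pw.2 ⟨fun u hu => ?_, In.mem _⟩
  rw [ZFSet.pair, mem_pair] at hu
  rcases hu with rfl | rfl
  · exact mem_pw.2 ⟨fun t ht => mem_union.2 (Or.inl (mem_singleton.1 ht ▸ hx)), In.mem _⟩
  · refine mem_pw.2 ⟨fun t ht => ?_, In.mem _⟩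
    rcases mem_pair.1 ht with rfl | rfl
    exacts [mem_union.2 (Or.inl hx), mem_union.2 (Or.inr hy)]

theorem lt_VM (h : Inacc I l) (o : ZF) : o ∈ l → Lt I l (VM I o) := by
  induction o using ZFSet.inductionOn with
  | h o ih =>
    intro ho
    have := In.mk' h.1
    have hs : ∀ o' ∈ o, ∃ η ∈ l, Le I (pw I (VM I o')) η := fun o' ho' =>
      Lt.pw h (ih o' ho' (h.2.1.mem_trans ho' ho))
    obtain ⟨ζ, hζ, h1⟩ := bd h ho (fun o' => lst l fun η => Le I (pw I (VM I o')) η)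
      inferInstance fun o' ho' => (lst_spec h.2.1 (hs o' ho')).1
    have h2 : Le I (VM I o) (prod o ζ) := by
      rw [VM_eq (h.2.1.mem ho)]
      exact le_bun _ inferInstance (tr h.1 ho) (tr h.1 hζ) fun o' ho' =>
        (lst_spec h.2.1 (hs o' ho')).2.1.trans (Le.of_subset (tr h.1 hζ)
          ((h.2.1.mem hζ).subset_of_mem (h1 o' ho'))) (tr h.1 hζ)
    have := In.mk' (tr h.1 ho)
    have := In.mk' (tr h.1 hζ)
    have h3 : Lt I l (o ∪ ζ) := by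
      rcases (h.2.1.mem ho).subset_total (h.2.1.mem hζ) with h3 | h3
      · exact ⟨ζ, hζ, Le.of_subset (In.mem _) fun x hx => (mem_union.1 hx).elim (fun h => h3 h) id⟩
      · exact ⟨o, ho, Le.of_subset (In.mem _) fun x hx => (mem_union.1 hx).elim id fun h => h3 h⟩
    exact Lt.of_le h h2 ((Lt.pw h (Lt.pw h h3)).mono (prod_sub (In.mem _) (In.mem _)))

theorem lt_of_mem (h : Inacc I l) {x : ZF} (hx : x ∈ VM I l) : Lt I l x :=
  (lt_VM h (rk x) ((rk_mem_iff h.2.1).2 (mem_VM.1 hx).1)).mono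
    ((subset_VM (mem_VM.1 hx).2).2 (by simp))

theorem mem_of_lt (h : Inacc I l) {b : ZF} (hb : b ∈ I) (h1 : b ⊆ VM I l) (h2 : Lt I l b) :
    b ∈ VM I l := by
  obtain ⟨η, hη, h3⟩ := Lt.bd h hb h2 rk inferInstance fun x hx =>
    (rk_mem_iff h.2.1).2 (mem_VM.1 (h1 hx)).1
  exact mem_VM.2 ⟨(rank_le_iff.2 fun y hy => (rk_mem_iff (h.2.1.mem hη)).1 (h3 y hy)).trans_lt
    (rank_lt_of_mem hη), hb⟩

theorem sub_mem {a b : ZF} (hb : b ∈ I) (h1 : b ⊆ a) (ha : a ∈ VM I l) : b ∈ VM I l :=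
  mem_VM.2 ⟨(rank_mono h1).trans_lt (mem_VM.1 ha).1, hb⟩

theorem pw_memV (h : Inacc I l) {a : ZF} (ha : a ∈ VM I l) : pw I a ∈ VM I l := by
  refine mem_VM.2 ⟨lt_of_le_of_lt (rank_mono (y := powerset a) sep_subset) ?_,
    pw_mem (mem_VM.1 ha).2⟩
  rw [rank_powerset]
  exact lim h (mem_VM.1 ha).1

theorem df_sat {V : ZF} (hV : V ∈ I) (φ : Fml) : Df I (fun v => Sat (V : Set ZF) φ v) := by
  induction φ with
  | mem i j => exact Df.mem0 i j
  | eq i j => exact Df.eq0 i j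
  | bot => exact Df.bot
  | imp φ ψ h1 h2 => exact @Df.imp _ _ _ h1 h2
  | all φ ih =>
    have := In.mk' hV
    have h1 : Df I (fun v => Sat (V : Set ZF) φ (cons (v 0) fun n => v (n + 1))) :=
      ih.congr fun v _ => by
        have : (cons (v 0) fun n => v (n + 1)) = v := by funext n; cases n <;> rfl
        rw [this]
    exact (Df.allM (P := fun v x => x ∈ V → Sat (V : Set ZF) φ (cons x v)) inferInstance).congr
      fun v _ => ⟨fun H x _ hx => H x hx, fun H x hx => H x (tr hV hx) hx⟩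

end MinP

open MinP

theorem vlam : S_Vlam := by
  intro I hI l h
  have := In.mk' h.1
  have hV : VM I l ∈ I := In.mem _
  have hs : ∀ {x}, x ∈ ((VM I l : ZF) : Set ZF) → x ∈ I := fun hx => (mem_VM.1 hx).2
  have hu : ∀ a ∈ VM I l, ZFSet.sUnion a ∈ VM I l := fun a ha =>
    mem_VM.2 ⟨(rank_sUnion_le a).trans_lt (mem_VM.1 ha).1, hI.union a (hs ha)⟩
  refine ⟨fun x hx y hy => VM_trans l x hx hy, fun a ha b hb => ?_, hu, ?_, fun a ha => ?_,
    fun φ v hv a ha => ?_, fun φ v hv a ha H => ?_, fun a ha => ?_⟩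
  · refine mem_VM.2 ⟨?_, hI.pairing a (hs ha) b (hs hb)⟩
    rw [rank_pair]
    exact max_lt (lim h (mem_VM.1 ha).1) (lim h (mem_VM.1 hb).1)
  · exact mem_VM.2 ⟨rank_lt_of_mem h.2.2.1, hI.infinity⟩
  · exact ⟨pw I a, pw_memV h ha, fun x hx => by simp [hs hx]⟩
  · refine ⟨ZFSet.sep (fun x => Sat _ φ (cons x v)) a, sub_mem (sep_mem' _ ?_ (hs ha)) sep_subset ha,
      fun x => mem_sep⟩
    refine ((df_sat hV φ).sub (cns (Sum.inl 0) fun n => Sum.inr ⟨v n, hs (hv n)⟩)).congr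
      fun w _ => ?_
    have : cons (w 0) v = fun n => Sum.elim w Subtype.val
        (cns (Sum.inl 0) (fun n => Sum.inr (⟨v n, hs (hv n)⟩ : I)) n) := by
      funext n; cases n <;> rfl
    rw [this]
  · have h1 : Df I (fun w => Sat ((VM I l : ZF) : Set ZF) φ (cons (w 0) (cons (w 1) v))) := by
      refine ((df_sat hV φ).sub (cns (Sum.inl 0) (cns (Sum.inl 1)
        fun n => Sum.inr ⟨v n, hs (hv n)⟩))).congr fun w _ => ?_
      have : cons (w 0) (cons (w 1) v) = fun n => Sum.elim w Subtype.val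
          (cns (Sum.inl 0) (cns (Sum.inl 1) fun n => Sum.inr (⟨v n, hs (hv n)⟩ : I)) n) := by
        funext n
        rcases n with _ | _ | n <;> rfl
      rw [this]
    have h2 := fun s t [Tm I s] [Tm I t] =>
      Df.two (R := fun y x => Sat ((VM I l : ZF) : Set ZF) φ (cons y (cons x v))) h1 s t
    obtain ⟨b, hb, e⟩ := repl' (M := I)
      (fun x y => y ∈ VM I l ∧ Sat ((VM I l : ZF) : Set ZF) φ (cons y (cons x v))) inferInstance
      (hs ha) fun x hx => by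
        obtain ⟨y, hy, hy'⟩ := H x hx
        exact ⟨y, ⟨hs hy.1, hy⟩, fun z hz => hy' z hz.2⟩
    obtain ⟨f, hf, h3⟩ := skolem (M := I)
      (fun x y => y ∈ VM I l ∧ Sat ((VM I l : ZF) : Set ZF) φ (cons y (cons x v))) inferInstance
      (hs ha) fun x hx => by
        obtain ⟨y, hy, -⟩ := H x hx
        exact ⟨y, hs hy.1, hy⟩
    refine ⟨b, mem_of_lt h hb (fun y hy => ?_) (Lt.of_le h ⟨f, hf, fun y hy => ?_⟩
      (lt_of_mem h ha)), fun y => (e y).trans ?_⟩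
    · obtain ⟨-, x, -, hy, -⟩ := (e y).1 hy
      exact hy
    · obtain ⟨-, x, hx, hy⟩ := (e y).1 hy
      exact ⟨x, hx, (H x hx).unique (h3 x hx) hy⟩
    · exact ⟨fun ⟨_, x, hx, h4, h5⟩ => ⟨h4, x, hx, h5⟩, fun ⟨h4, x, hx, h5⟩ => ⟨hs h4, x, hx, h4, h5⟩⟩
  · obtain ⟨f, hf, H⟩ := hI.choice a (hs ha)
    have := In.mk' hf
    have := In.mk' (hs ha)
    have h1 : a ∪ ZFSet.sUnion a ∈ VM I l := by
      refine mem_VM.2 ⟨?_, In.mem _⟩
      rw [rank_union]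
      exact max_lt (mem_VM.1 ha).1 (mem_VM.1 (hu a ha)).1
    refine ⟨f ∩ prod a (ZFSet.sUnion a), sub_mem (In.mem _) (fun p hp =>
      prod_sub (In.mem _) (In.mem _) (mem_inter.1 hp).2) (pw_memV h (pw_memV h h1)),
      fun x hx hy => ?_⟩
    obtain ⟨y, h2, h3, h4⟩ := H x hx hy
    exact ⟨y, h2, mem_inter.2 ⟨h3, pair_mem_prod.2 ⟨hx, mem_sUnion.2 ⟨x, hx, h2⟩⟩⟩,
      fun z hz => h4 z (mem_inter.1 hz).1⟩

end Pool.Agent.P.MP_3ab3de_lc
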