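import Pool.Agent.P.MP_3ab3de_lc.Gen3
import Pool.Agent.P.MP_3ab3de_lc.MinCtm
import Pool.Agent.P.MP_3ab3de_lc.MinVlam

/-! The model: a generic extension of a countable transitive model of least height. -/

namespace Pool.Agent.P.MP_3ab3de_lc

open ZFSet Ctx

theorem Ctx.exists_ge (X : Ctx) (hc : X.M.Countable) : ∃ G N, GE X G N ∧ N.Countable := by
  have hp : (∅ : ZF) ∈ X.P X.θ := mem_P.2 ⟨empty_mem, le_empty _,
    fun _ h => absurd h (notMem_empty _), fun _ _ => VV_of_empty fun _ h =>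
      notMem_empty _ (mem_row.1 h)⟩
  obtain ⟨G, hG, -⟩ := genEx X.M hc _ _ X.po _ hp
  obtain ⟨N, hN, h5⟩ := extEx X.M hc _ (In.mem _) _ (In.mem _) X.po G hG
  exact ⟨G, N, ⟨hG, hN⟩, h5⟩

theorem main : ∃ N : Set ZFSet.{0}, TModel N ∧
    (∃ κ, GoodCard N κ ∧ ∀ A ∈ N, IsPi11 N κ A → Hurewicz N κ A) ∧
    ¬ ∃ I, InnerModel N I ∧ ∃ l, Inacc I l := by
  have h0 : ∃ o : Ordinal.{0}, ∃ M : Set ZF, TModel M ∧ M.Countable ∧ ∀ x ∈ M, rank x < o := by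
    obtain ⟨M, h1, h2⟩ := ctm
    obtain ⟨f, hf⟩ := h2.exists_eq_range ⟨_, h1.infinity⟩
    refine ⟨⨆ n, Order.succ (rank (f n)), M, h1, h2, fun x hx => ?_⟩
    rw [hf] at hx
    obtain ⟨n, rfl⟩ := hx
    exact (Order.lt_succ _).trans_le (Ordinal.le_iSup (fun n => Order.succ (rank (f n))) n)
  obtain ⟨o, ⟨M, h1, h2, h3⟩, h4⟩ := wellFounded_lt.has_min {o : Ordinal.{0} | ∃ M : Set ZF,
    TModel M ∧ M.Countable ∧ ∀ x ∈ M, rank x < o} h0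
  obtain ⟨κ, hκ⟩ := exists_hart (M := M) h1.infinity
  obtain ⟨θ, hθ⟩ := exists_hart (M := M) (pw_mem h1.infinity)
  obtain ⟨G, N, h, h5⟩ := Ctx.exists_ge ⟨M, h1, κ, θ, hκ, hθ⟩ h2
  have hN := h.ext
  refine ⟨N, hN.model, ⟨κ, h.good, fun A _ hA => h.hurewicz h2 hA⟩, ?_⟩
  rintro ⟨I, ⟨h6, h7, -⟩, l, h8⟩
  obtain ⟨y, h9, h10⟩ := hN.rank l (h6 h8.1)
  exact h4 (rank l) ⟨_, vlam I l h8, h5.mono fun x hx => h6 (mem_VM.1 hx).2,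
    fun x hx => (mem_VM.1 hx).1⟩ (h10.trans_lt (h3 y h9))

end Pool.Agent.P.MP_3ab3de_lc
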