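import Pool.Agent.P.MP_3ab3de_lc.Df

/-! Set operations inside a transitive model. -/

set_option linter.unusedSectionVars false

namespace Pool.Agent.P.MP_3ab3de_lc

open ZFSet

variable {M : Set ZF} [hM : TModel M]

theorem Tm.ofMem {t : Env → ZF} (Q : Env → ZF → Prop) (hm : ∀ v, EIn M v → t v ∈ M)
    (e : ∀ v, EIn M v → ∀ x ∈ M, x ∈ t v ↔ Q v x)
    (h : Df M (fun v => Q (fun n => v (n + 1)) (v 0))) : Tm M t := by
  refine ⟨hm, ?_⟩
  have h2 : Df M (fun v => Q (fun n => v (n + 2)) (v 0)) := h.ren (cns 0 (fun n => n + 2))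
  have h3 : Df M (fun v => v 0 ∈ v 1 ↔ Q (fun n => v (n + 2)) (v 0)) := inferInstance
  refine (Df.allM (P := fun v x => x ∈ v 0 ↔ Q (fun n => v (n + 1)) x) h3).congr fun v hv => ?_
  have hv' : EIn M fun n => v (n + 1) := hv.ren _
  refine ⟨fun h x hx => by rw [h]; exact e _ hv' x hx, fun h => ZFSet.ext fun x => ⟨fun hx => ?_,
    fun hx => ?_⟩⟩
  · exact (e _ hv' x (tr (hv 0) hx)).2 ((h x (tr (hv 0) hx)).1 hx)
  · exact (h x (tr (hm _ hv') hx)).2 ((e _ hv' x (tr (hm _ hv') hx)).1 hx)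

theorem Tm.congr {s t : Env → ZF} (h : Tm M s) (e : ∀ v, EIn M v → t v = s v) : Tm M t :=
  ⟨fun v hv => e v hv ▸ h.mem v hv, h.out.congr fun v hv => by rw [e _ (hv.ren _)]⟩

instance in_empty : In M ∅ := In.mk' empty_mem
instance in_omega : In M ZFSet.omega := In.mk' hM.infinity

/-- image of a set -/
noncomputable def img (F : ZF → ZF) (a : ZF) : ZF := range fun x : a => F x

@[simp] theorem mem_img {F : ZF → ZF} {a y : ZF} : y ∈ img F a ↔ ∃ x ∈ a, F x = y := by
  simp [img]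

theorem img_mem {F : ZF → ZF} {a x : ZF} (h : x ∈ a) : F x ∈ img F a := mem_img.2 ⟨x, h, rfl⟩

/-- power set in `M` -/
noncomputable def pw (M : Set ZF) (a : ZF) : ZF := ZFSet.sep (· ∈ M) (powerset a)

omit hM in
@[simp] theorem mem_pw {a x : ZF} : x ∈ pw M a ↔ x ⊆ a ∧ x ∈ M := by simp [pw]

section inst

variable {a b c : Env → ZF} [ha : Tm M a] [hb : Tm M b] [hc : Tm M c]

instance tm_singleton : Tm M (fun v => ({a v} : ZF)) :=
  Tm.ofMem (fun v x => x = a v) (fun v hv => by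
    simpa using hM.pairing _ (ha.mem v hv) _ (ha.mem v hv)) (fun _ _ _ _ => mem_singleton)
    inferInstance

instance tm_sUnion : Tm M (fun v => ZFSet.sUnion (a v)) :=
  Tm.ofMem (fun v x => ∃ z ∈ a v, x ∈ z) (fun v hv => hM.union _ (ha.mem v hv))
    (fun _ _ _ _ => mem_sUnion) inferInstance

instance tm_union : Tm M (fun v => a v ∪ b v) :=
  Tm.ofMem (fun v x => x ∈ a v ∨ x ∈ b v)
    (fun v hv => hM.union _ (hM.pairing _ (ha.mem v hv) _ (hb.mem v hv)))
    (fun _ _ _ _ => mem_union) inferInstance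

instance tm_insert : Tm M (fun v => insert (a v) (b v)) :=
  (inferInstance : Tm M (fun v => {a v} ∪ b v)).congr fun _ _ => insert_eq _ _

instance tm_sep {P : Env → ZF → Prop} [h : Df M (fun v => P (fun n => v (n + 1)) (v 0))] :
    Tm M (fun v => ZFSet.sep (P v) (a v)) :=
  Tm.ofMem (fun v x => x ∈ a v ∧ P v x) (fun v hv => sep_mem' _ (h.fix1 hv) (ha.mem v hv))
    (fun _ _ _ _ => mem_sep) inferInstance

instance tm_inter : Tm M (fun v => a v ∩ b v) :=
  (inferInstance : Tm M (fun v => ZFSet.sep (fun x => x ∈ b v) (a v))).congr fun _ _ => by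
    ext; simp

instance tm_sdiff : Tm M (fun v => a v \ b v) :=
  (inferInstance : Tm M (fun v => ZFSet.sep (fun x => x ∉ b v) (a v))).congr fun _ _ => by
    ext; simp

instance tm_pair : Tm M (fun v => pair (a v) (b v)) := by
  unfold ZFSet.pair; infer_instance

theorem pw_mem {a : ZF} (ha : a ∈ M) : pw M a ∈ M := by
  obtain ⟨c, hc, e⟩ := hM.power a ha
  convert hc using 1
  ext x
  rw [mem_pw]
  exact ⟨fun h => (e x h.2).2 h.1, fun h => ⟨(e x (tr hc h)).1 h, tr hc h⟩⟩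

instance tm_pw : Tm M (fun v => pw M (a v)) :=
  Tm.ofMem (fun v x => x ⊆ a v) (fun v hv => pw_mem (ha.mem v hv))
    (fun _ _ _ hx => by simp [hx]) inferInstance

theorem img_mem' {F : ZF → ZF} (h : Tm M (fun v => F (v 0))) {a : ZF} (ha : a ∈ M) :
    img F a ∈ M := by
  have hF : ∀ x ∈ M, F x ∈ M := fun x hx => h.mem (fun _ => x) fun _ => hx
  obtain ⟨b, hb, e⟩ := repl' (fun x y => y = F x) h.out ha fun x hx =>
    ⟨F x, ⟨hF x (tr ha hx), rfl⟩, fun y hy => hy.2⟩
  convert hb using 1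
  ext y
  rw [e, mem_img]
  exact ⟨fun ⟨x, hx, h⟩ => ⟨h ▸ hF x (tr ha hx), x, hx, h.symm⟩, fun ⟨_, x, hx, h⟩ => ⟨x, hx, h.symm⟩⟩

instance tm_img {F : Env → ZF → ZF} [h : Tm M (fun v => F (fun n => v (n + 1)) (v 0))] :
    Tm M (fun v => img (F v) (a v)) := by
  have h2 : Tm M (fun v => F (fun n => v (n + 2)) (v 0)) :=
    @Tm.ren _ _ h (cns 0 fun n => n + 2)
  exact Tm.ofMem (fun v x => ∃ z ∈ a v, F v z = x)
    (fun v hv => img_mem' (h.fix1 hv) (ha.mem v hv)) (fun _ _ _ _ => mem_img) inferInstance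

instance tm_prod : Tm M (fun v => prod (a v) (b v)) :=
  (inferInstance : Tm M (fun v => ZFSet.sUnion (img (fun x => img (fun y => pair x y) (b v))
    (a v)))).congr fun _ _ => by
      ext z
      simp only [mem_prod, mem_sUnion, mem_img (a := a _)]
      constructor
      · rintro ⟨x, hx, y, hy, rfl⟩
        exact ⟨_, ⟨x, hx, rfl⟩, mem_img.2 ⟨y, hy, rfl⟩⟩
      · rintro ⟨_, ⟨x, hx, rfl⟩, h⟩
        obtain ⟨y, hy, rfl⟩ := mem_img.1 h
        exact ⟨x, hx, y, hy, rfl⟩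

open Classical in
instance tm_ite {P : Env → Prop} [h : Df M P] : Tm M (fun v => if P v then a v else b v) :=
  Tm.ofMem (fun v x => (P v ∧ x ∈ a v) ∨ (¬ P v ∧ x ∈ b v))
    (fun v hv => by split_ifs; exacts [ha.mem v hv, hb.mem v hv])
    (fun v _ _ _ => by by_cases h : P v <;> simp [h]) inferInstance

instance df_isFunc : Df M (fun v => IsFunc (a v) (b v) (c v)) := by
  unfold IsFunc; infer_instance

instance df_isTransitive : Df M (fun v => IsTransitive (a v)) := by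
  unfold IsTransitive; infer_instance

instance df_isOrdinal : Df M (fun v => IsOrdinal (a v)) :=
  (inferInstance : Df M (fun v => IsTransitive (a v) ∧ ∀ y ∈ a v, IsTransitive y)).congr
    fun _ _ => isOrdinal_iff_forall_mem_isTransitive

end inst

/-- indexed union -/
noncomputable def bun (F : ZF → ZF) (a : ZF) : ZF := ZFSet.sUnion (img F a)

@[simp] theorem mem_bun {F : ZF → ZF} {a y : ZF} : y ∈ bun F a ↔ ∃ x ∈ a, y ∈ F x := by
  simp only [bun, mem_sUnion, mem_img]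
  exact ⟨fun ⟨_, ⟨x, hx, e⟩, h⟩ => ⟨x, hx, e ▸ h⟩, fun ⟨x, hx, h⟩ => ⟨_, ⟨x, hx, rfl⟩, h⟩⟩

/-- first coordinate -/
noncomputable def fst (p : ZF) : ZF := ZFSet.sUnion (ZFSet.sep (fun x => ∀ y ∈ p, x ∈ y) (ZFSet.sUnion p))

/-- second coordinate -/
noncomputable def snd (p : ZF) : ZF :=
  ZFSet.sUnion (ZFSet.sep (fun y => p = pair (fst p) y) (ZFSet.sUnion p))

@[simp] theorem fst_pair (a b : ZF) : fst (pair a b) = a := by
  have : ZFSet.sep (fun x => ∀ y ∈ pair a b, x ∈ y) (ZFSet.sUnion (pair a b)) = {a} := by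
    ext x
    simp only [mem_sep, mem_sUnion, pair, mem_insert_iff, mem_singleton]
    constructor
    · rintro ⟨-, h⟩
      simpa using h {a} (Or.inl rfl)
    · rintro rfl
      refine ⟨⟨{x}, Or.inl rfl, by simp⟩, ?_⟩
      rintro y (rfl | rfl) <;> simp
  rw [fst, this, sUnion_singleton]

@[simp] theorem snd_pair (a b : ZF) : snd (pair a b) = b := by
  have : ZFSet.sep (fun y => pair a b = pair a y) (ZFSet.sUnion (pair a b)) = {b} := by
    ext x
    simp only [mem_sep, mem_sUnion, pair_inj, true_and, mem_singleton]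
    constructor
    · rintro ⟨-, h⟩
      exact h.symm
    · rintro rfl
      exact ⟨⟨{a, x}, by simp [pair], by simp⟩, rfl⟩
  rw [snd, fst_pair, this, sUnion_singleton]

/-- value of a function -/
noncomputable def app (f x : ZF) : ZF :=
  ZFSet.sUnion (ZFSet.sep (fun y => pair x y ∈ f) (ZFSet.sUnion (ZFSet.sUnion f)))

theorem snd_mem_sUnion {f x y : ZF} (h : pair x y ∈ f) : y ∈ ZFSet.sUnion (ZFSet.sUnion f) :=
  mem_sUnion.2 ⟨{x, y}, mem_sUnion.2 ⟨_, h, by simp [pair]⟩, by simp⟩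

theorem fst_mem_sUnion {f x y : ZF} (h : pair x y ∈ f) : x ∈ ZFSet.sUnion (ZFSet.sUnion f) :=
  mem_sUnion.2 ⟨{x, y}, mem_sUnion.2 ⟨_, h, by simp [pair]⟩, by simp⟩

theorem app_eq {f x y : ZF} (h : pair x y ∈ f) (hu : ∀ z, pair x z ∈ f → z = y) : app f x = y := by
  have : ZFSet.sep (fun y => pair x y ∈ f) (ZFSet.sUnion (ZFSet.sUnion f)) = {y} := by
    ext z
    simp only [mem_sep, mem_singleton]
    exact ⟨fun h => hu z h.2, fun e => e ▸ ⟨snd_mem_sUnion h, h⟩⟩
  rw [app, this, sUnion_singleton]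

theorem _root_.ZFSet.IsFunc.app_mem {a b f x : ZF} (h : IsFunc a b f) (hx : x ∈ a) :
    pair x (app f x) ∈ f := by
  obtain ⟨y, hy, hu⟩ := h.2 x hx
  rwa [app_eq hy hu]

theorem _root_.ZFSet.IsFunc.mem {a b f x y : ZF} (h : IsFunc a b f) (hp : pair x y ∈ f) :
    x ∈ a ∧ y ∈ b := pair_mem_prod.1 (h.1 hp)

theorem _root_.ZFSet.IsFunc.uniq {a b f x y z : ZF} (h : IsFunc a b f) (hy : pair x y ∈ f)
    (hz : pair x z ∈ f) : y = z := (h.2 x (h.mem hy).1).unique hy hz

theorem _root_.ZFSet.IsFunc.app_eq {a b f x y : ZF} (h : IsFunc a b f) (hy : pair x y ∈ f) :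
    app f x = y := h.uniq (h.app_mem (h.mem hy).1) hy

theorem _root_.ZFSet.IsFunc.app_mem' {a b f x : ZF} (h : IsFunc a b f) (hx : x ∈ a) :
    app f x ∈ b := (h.mem (h.app_mem hx)).2

theorem _root_.ZFSet.IsFunc.exists_pair {a b f p : ZF} (h : IsFunc a b f) (hp : p ∈ f) :
    ∃ x ∈ a, ∃ y ∈ b, p = pair x y := mem_prod.1 (h.1 hp)

theorem _root_.ZFSet.IsFunc.eq_of_subset {a b c f g : ZF} (hf : IsFunc a b f) (hg : IsFunc a c g)
    (h : f ⊆ g) : f = g := by
  refine ZFSet.ext fun p => ⟨fun hp => h hp, fun hp => ?_⟩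
  obtain ⟨x, hx, y, -, rfl⟩ := hg.exists_pair hp
  rw [hg.uniq hp (h (hf.app_mem hx))]
  exact hf.app_mem hx

/-- graph of an external function on a set -/
noncomputable def graph (F : ZF → ZF) (a : ZF) : ZF := img (fun x => pair x (F x)) a

theorem mem_graph {F : ZF → ZF} {a p : ZF} : p ∈ graph F a ↔ ∃ x ∈ a, pair x (F x) = p := mem_img

@[simp] theorem pair_mem_graph {F : ZF → ZF} {a x y : ZF} :
    pair x y ∈ graph F a ↔ x ∈ a ∧ F x = y := by
  rw [mem_graph]
  constructor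
  · rintro ⟨z, hz, e⟩
    obtain ⟨rfl, rfl⟩ := pair_inj.1 e
    exact ⟨hz, rfl⟩
  · rintro ⟨h, rfl⟩
    exact ⟨x, h, rfl⟩

theorem app_graph {F : ZF → ZF} {a x : ZF} (h : x ∈ a) : app (graph F a) x = F x :=
  app_eq (pair_mem_graph.2 ⟨h, rfl⟩) fun _ hz => (pair_mem_graph.1 hz).2.symm

theorem graph_isFunc {F : ZF → ZF} {a b : ZF} (h : ∀ x ∈ a, F x ∈ b) : IsFunc a b (graph F a) := by
  refine ⟨fun p hp => ?_, fun x hx => ⟨F x, pair_mem_graph.2 ⟨hx, rfl⟩,
    fun _ hz => (pair_mem_graph.1 hz).2.symm⟩⟩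
  obtain ⟨x, hx, rfl⟩ := mem_graph.1 hp
  exact pair_mem_prod.2 ⟨hx, h x hx⟩

theorem graph_congr {F G : ZF → ZF} {a : ZF} (h : ∀ x ∈ a, F x = G x) : graph F a = graph G a := by
  ext p
  simp only [mem_graph]
  exact exists_congr fun x => and_congr_right fun hx => by rw [h x hx]

/-- restriction of a relation (and of a set of pairs) to first coordinates in `a` -/
noncomputable def res (f a : ZF) : ZF := ZFSet.sep (fun p => fst p ∈ a) f

@[simp] theorem mem_res {f a p : ZF} : p ∈ res f a ↔ p ∈ f ∧ fst p ∈ a := mem_sep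

theorem res_subset (f a : ZF) : res f a ⊆ f := sep_subset

theorem _root_.ZFSet.IsFunc.res {a b f c : ZF} (h : IsFunc a b f) (hc : c ⊆ a) :
    IsFunc c b (res f c) := by
  refine ⟨fun p hp => ?_, fun x hx => ⟨app f x, by simp [h.app_mem (hc hx), hx], fun y hy => ?_⟩⟩
  · obtain ⟨x, -, y, hy, rfl⟩ := h.exists_pair (mem_res.1 hp).1
    exact pair_mem_prod.2 ⟨by simpa using (mem_res.1 hp).2, hy⟩
  · exact (h.app_eq (mem_res.1 hy).1).symm

theorem res_res {f a b : ZF} (h : a ⊆ b) : res (res f b) a = res f a := by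
  ext p
  simp only [mem_res]
  exact ⟨fun h => ⟨h.1.1, h.2⟩, fun h' => ⟨⟨h'.1, h h'.2⟩, h'.2⟩⟩

theorem res_graph {F : ZF → ZF} {a b : ZF} (h : b ⊆ a) : res (graph F a) b = graph F b := by
  ext p
  simp only [mem_res, mem_graph]
  constructor
  · rintro ⟨⟨x, -, rfl⟩, h⟩
    exact ⟨x, by simpa using h, rfl⟩
  · rintro ⟨x, hx, rfl⟩
    exact ⟨⟨x, h hx, rfl⟩, by simpa using hx⟩

/-- domain of a set of pairs -/
noncomputable def dom (f : ZF) : ZF := img fst f

theorem mem_dom {f x : ZF} : x ∈ dom f ↔ ∃ p ∈ f, fst p = x := mem_img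

theorem _root_.ZFSet.IsFunc.dom_eq {a b f : ZF} (h : IsFunc a b f) : dom f = a := by
  ext x
  rw [mem_dom]
  constructor
  · rintro ⟨p, hp, rfl⟩
    obtain ⟨x, hx, y, -, rfl⟩ := h.exists_pair hp
    simpa using hx
  · exact fun hx => ⟨_, h.app_mem hx, by simp⟩

/-- the least element of the ordinal `o` with property `P` (or `o` itself) -/
noncomputable def lst (o : ZF) (P : ZF → Prop) : ZF := ZFSet.sep (fun η => ∀ ξ ∈ o, P ξ → η ∈ ξ) o

theorem exists_min {P : ZF → Prop} (h : ∃ x, P x) : ∃ x, P x ∧ ∀ y ∈ x, ¬ P y := by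
  obtain ⟨x, hx, hm⟩ := mem_wf.has_min {x | P x} h
  exact ⟨x, hx, fun y hy hP => hm y hP hy⟩

theorem lst_spec {o : ZF} (ho : IsOrdinal o) {P : ZF → Prop} (h : ∃ ξ ∈ o, P ξ) :
    lst o P ∈ o ∧ P (lst o P) ∧ ∀ ξ ∈ o, P ξ → lst o P ⊆ ξ := by
  obtain ⟨x, ⟨hx, hP⟩, hm⟩ := exists_min h
  have key : ∀ ξ ∈ o, P ξ → x ⊆ ξ := fun ξ hξ h =>
    ((ho.mem hξ).notMem_iff_subset (ho.mem hx)).1 fun h' => hm ξ h' ⟨hξ, h⟩
  have : lst o P = x := by
    ext η
    simp only [lst, mem_sep]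
    exact ⟨fun h => h.2 x hx hP, fun h => ⟨ho.mem_trans h hx, fun ξ hξ h' => key ξ hξ h' h⟩⟩
  rw [this]
  exact ⟨hx, hP, key⟩

section inst2

variable {a b c : Env → ZF} [ha : Tm M a] [hb : Tm M b] [hc : Tm M c]

instance tm_bun {F : Env → ZF → ZF} [h : Tm M (fun v => F (fun n => v (n + 1)) (v 0))] :
    Tm M (fun v => bun (F v) (a v)) := by
  unfold bun; infer_instance

instance tm_fst : Tm M (fun v => fst (a v)) := by
  unfold fst; infer_instance

instance tm_snd : Tm M (fun v => snd (a v)) := by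
  unfold snd; infer_instance

instance tm_app : Tm M (fun v => app (a v) (b v)) := by
  unfold app; infer_instance

instance tm_graph {F : Env → ZF → ZF} [h : Tm M (fun v => F (fun n => v (n + 1)) (v 0))] :
    Tm M (fun v => graph (F v) (a v)) := by
  unfold graph; infer_instance

instance tm_res : Tm M (fun v => res (a v) (b v)) := by
  unfold res; infer_instance

instance tm_dom : Tm M (fun v => dom (a v)) := by
  unfold dom; infer_instance

instance tm_lst {P : Env → ZF → Prop} [h : Df M (fun v => P (fun n => v (n + 1)) (v 0))] :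
    Tm M (fun v => lst (a v) (P v)) := by
  have h2 : Df M (fun v => P (fun n => v (n + 2)) (v 0)) := h.ren (cns 0 (fun n => n + 2))
  unfold lst; infer_instance

instance df_agree : Df M (fun v => Agree (a v) (b v) (c v)) := by
  unfold Agree; infer_instance

instance df_cardLE : Df M (fun v => CardLE M (a v) (b v)) := by
  unfold CardLE; infer_instance

instance df_baire : Df M (fun v => Baire M (a v) (b v)) := by
  unfold Baire; infer_instance

instance void_baire {t k : Env → ZF → ZF} [h : Occ M t] :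
    Void M (fun v x => Baire M (k v x) (t v x)) :=
  ⟨fun v _ x H => h.out v x H.1⟩

end inst2

/-! ### natural numbers -/

/-- the von Neumann numeral -/
noncomputable def num : ℕ → ZF
  | 0 => ∅
  | n + 1 => insert (num n) (num n)

theorem num_eq (n : ℕ) : num n = ZFSet.mk (PSet.ofNat n) := by
  induction n with
  | zero => rfl
  | succ n ih => rw [num, ih]; rfl

theorem mem_omega {x : ZF} : x ∈ ZFSet.omega ↔ ∃ n, num n = x := by
  induction x using Quotient.inductionOn with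
  | h x =>
    constructor
    · rintro ⟨⟨n⟩, h⟩
      exact ⟨n, by rw [num_eq]; exact (ZFSet.sound h).symm⟩
    · rintro ⟨n, h⟩
      rw [num_eq] at h
      exact ⟨⟨n⟩, ZFSet.exact h.symm⟩

theorem num_mem_omega (n : ℕ) : num n ∈ ZFSet.omega := mem_omega.2 ⟨n, rfl⟩

theorem num_toZFSet (n : ℕ) : num n = Ordinal.toZFSet n := by
  induction n with
  | zero => simp [num]
  | succ n ih => rw [num, ih, Nat.cast_succ, Ordinal.toZFSet_add_one]

theorem num_mem_num {m n : ℕ} : num m ∈ num n ↔ m < n := by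
  simp [num_toZFSet]

theorem num_inj {m n : ℕ} : num m = num n ↔ m = n := by
  rw [num_toZFSet, num_toZFSet, Ordinal.toZFSet_injective.eq_iff, Nat.cast_inj]

theorem mem_num {x : ZF} {n : ℕ} : x ∈ num n ↔ ∃ m < n, num m = x := by
  induction n with
  | zero => simp [num]
  | succ n ih =>
    rw [num, mem_insert_iff, ih]
    constructor
    · rintro (rfl | ⟨m, hm, rfl⟩)
      exacts [⟨n, by omega, rfl⟩, ⟨m, by omega, rfl⟩]
    · rintro ⟨m, hm, rfl⟩
      rcases Nat.lt_succ_iff_lt_or_eq.1 hm with h | rfl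
      exacts [Or.inr ⟨m, h, rfl⟩, Or.inl rfl]

theorem omega_eq : ZFSet.omega.{0} = Ordinal.toZFSet Ordinal.omega0 := by
  ext x
  rw [mem_omega, Ordinal.mem_toZFSet_iff]
  constructor
  · rintro ⟨n, rfl⟩
    exact ⟨n, Ordinal.natCast_lt_omega0 n, (num_toZFSet n).symm⟩
  · rintro ⟨a, ha, rfl⟩
    obtain ⟨n, rfl⟩ := Ordinal.lt_omega0.1 ha
    exact ⟨n, num_toZFSet n⟩

theorem isOrdinal_omega : IsOrdinal ZFSet.omega.{0} := omega_eq ▸ isOrdinal_toZFSet _

instance in_num (n : ℕ) : In M (num n) := In.mk' (tr hM.infinity (num_mem_omega n))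

/-! ### ordinals -/

theorem isOrdinal_sUnion {c : ZF} (h : ∀ x ∈ c, IsOrdinal x) : IsOrdinal (ZFSet.sUnion c) :=
  isOrdinal_iff_forall_mem_isOrdinal.2 ⟨IsTransitive.sUnion' fun y hy => (h y hy).isTransitive,
    fun y hy => by
      obtain ⟨z, hz, hy⟩ := mem_sUnion.1 hy
      exact (h z hz).mem hy⟩

theorem mem_succ_iff {a b : ZF} (ha : IsOrdinal a) (hb : IsOrdinal b) :
    a ∈ insert b b ↔ a ⊆ b := by
  rw [mem_insert_iff, ha.subset_iff_eq_or_mem hb]

theorem ord_of_trans_subset {a o : ZF} (ho : IsOrdinal o) (h : a ⊆ o) (ht : IsTransitive a) :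
    IsOrdinal a :=
  isOrdinal_iff_forall_mem_isOrdinal.2 ⟨ht, fun _ hy => ho.mem (h hy)⟩

end Pool.Agent.P.MP_3ab3de_lc
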