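import Pool.Agent.P.MP_3ab3de_lc.Iface

/-! The forcing: definitions, unfolding, restriction, transitivity. -/

set_option linter.unusedSectionVars false
set_option linter.dupNamespace false
set_option synthInstance.maxSize 100000

namespace Pool.Agent.P.MP_3ab3de_lc

open ZFSet

@[simp] theorem num_eq_iff {m n : ℕ} : num m = num n ↔ m = n := num_inj

theorem zero_mem_two : num 0 ∈ num 2 := num_mem_num.2 (by omega)
theorem one_mem_two : num 1 ∈ num 2 := num_mem_num.2 (by omega)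

theorem mem_two {j : ZF} (h : j ∈ num 2) : j = num 0 ∨ j = num 1 := by
  obtain ⟨m, hm, rfl⟩ := mem_num.1 h
  have : m = 0 ∨ m = 1 := by omega
  rcases this with rfl | rfl
  exacts [Or.inl rfl, Or.inr rfl]

noncomputable abbrev tL (δ l : ZF) : ZF := pair (num 0) (pair δ l)
noncomputable abbrev tX (x : ZF) : ZF := pair (num 1) x
noncomputable abbrev tT (ρ σ : ZF) : ZF := pair (num 2) (pair ρ σ)
noncomputable abbrev tY (ρ x : ZF) : ZF := pair (num 3) (pair ρ x)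
noncomputable abbrev tN (ρ σ j a : ZF) : ZF := pair (num 4) (pair (pair (pair ρ σ) j) a)

/-- section of a set of pairs -/
noncomputable def row (p γ : ZF) : ZF :=
  ZFSet.sep (fun y => pair γ y ∈ p) (ZFSet.sUnion (ZFSet.sUnion p))

@[simp] theorem mem_row {p γ y : ZF} : y ∈ row p γ ↔ pair γ y ∈ p :=
  mem_sep.trans ⟨And.right, fun h => ⟨snd_mem_sUnion h, h⟩⟩

/-- the condition attached to a slot -/
noncomputable def cc (w R ρ σ j : ZF) : ZF :=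
  res w (snd ρ) ∪ row (row R (num 4)) (pair (pair ρ σ) j)

theorem mem_cc {w R ρ σ j a : ZF} :
    a ∈ cc w R ρ σ j ↔ (a ∈ w ∧ fst a ∈ snd ρ) ∨ tN ρ σ j a ∈ R := by simp [cc]

def dec (L p x b : ZF) : Prop := ∃ d, pair p d ∈ L ∧ pair d b ∈ x

def Tot (κ L p x : ZF) : Prop := ∀ q, pair q p ∈ L →
  (∀ η ∈ κ, ∃ r, pair r q ∈ L ∧ ∃ ζ, dec L r x (pair η ζ)) ∧
    ∀ η ζ ζ', dec L q x (pair η ζ) → dec L q x (pair η ζ') → ζ = ζ'

def spl (κ L p q x : ZF) : Prop :=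
  ∃ η ∈ κ, ∃ ζ ζ', ζ ≠ ζ' ∧ dec L p x (pair η ζ) ∧ dec L q x (pair η ζ')

def Split (κ L α p x : ZF) : Prop := ∀ q, pair q p ∈ L →
  ∃ q0, pair q0 q ∈ L ∧ ∃ q1, pair q1 q ∈ L ∧ res q0 α = res q1 α ∧ spl κ L q0 q1 x

/-- validity of a row `R` over the initial segment `w` -/
def VV (κ L w R : ZF) : Prop :=
  (∀ x, tX x ∈ R → Tot κ L w x) ∧
  (∀ ρ σ j a, tN ρ σ j a ∈ R → tT ρ σ ∈ R ∧ fst a ∉ snd ρ) ∧
  (∀ ρ σ, tT ρ σ ∈ R → ∀ j ∈ num 2, pair (cc w R ρ σ j) (cc w R ρ σ j) ∈ L ∧ ∀ η ∈ dom σ,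
    tT ρ (res σ η) ∈ R ∧ pair (cc w R ρ σ j) (cc w R ρ (res σ η) (app σ η)) ∈ L) ∧
  ∀ ρ x, tY ρ x ∈ R → tT ρ ∅ ∈ R ∧ ∀ j ∈ num 2,
    Tot κ L (cc w R ρ ∅ j) x ∧ Split κ L (snd ρ) (cc w R ρ ∅ j) x

/-- what a new slot does for an old name -/
def New (κ L w R ρ σ x : ZF) : Prop :=
  (∀ j ∈ num 2, ∀ η ∈ dom σ, ∃ ζ, dec L (cc w R ρ σ j) x (pair η ζ)) ∧
    spl κ L (cc w R ρ σ (num 0)) (cc w R ρ σ (num 1)) x

/-- the order on a row -/
def OO (κ L w R w' R' : ZF) : Prop :=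
  (∀ δ l x, tL δ l ∈ R → tL δ l ∉ R' → tX x ∈ R' → ∃ s ∈ l, IsFunc δ κ s ∧ ∀ b ∈ s, dec L w x b) ∧
  (∀ ρ σ, tT ρ σ ∈ R' → ∀ j ∈ num 2, pair (cc w R ρ σ j) (cc w' R' ρ σ j) ∈ L) ∧
  ∀ ρ σ x, tT ρ σ ∈ R → tT ρ σ ∉ R' → tY ρ x ∈ R' → New κ L w R ρ σ x

/-- short sequences -/
noncomputable def Sq (M : Set ZF) (κ a : ZF) : ZF :=
  ZFSet.sep (fun s => ∃ ξ ∈ κ, IsFunc ξ a s) (pw M (prod κ a))

/-- names for subsets of `κ × κ` -/
noncomputable def Nm (M : Set ZF) (κ L : ZF) : ZF := pw M (prod (dom L) (prod κ κ))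

/-- slots of a row -/
noncomputable def Sl (M : Set ZF) (κ β : ZF) : ZF := prod (prod κ (insert β β)) (Sq M κ (num 2))

/-- the stem part of a row, with nested atoms from `A` -/
noncomputable def RowS (M : Set ZF) (κ β A : ZF) : ZF :=
  prod {num 0} (prod κ (cs M (Sq M κ κ))) ∪ (prod {num 2} (Sl M κ β) ∪
    prod {num 4} (prod (prod (Sl M κ β) (num 2)) A))

/-- what a row may contain -/
noncomputable def RowA (M : Set ZF) (κ β L : ZF) : ZF :=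
  RowS M κ β (ZFSet.sUnion (dom L)) ∪ (prod {num 1} (Nm M κ L) ∪
    prod {num 3} (prod (prod κ (insert β β)) (Nm M κ L)))

noncomputable def PP (M : Set ZF) (κ : ZF) (g : ZF → ZF) (β : ZF) : ZF :=
  ZFSet.sep (fun p => ∀ γ ∈ β, VV κ (g γ) (res p γ) (row p γ))
    (cs M (bun (fun γ => prod {γ} (RowA M κ γ (g γ))) β))

noncomputable def PhiL (M : Set ZF) (κ β g : ZF) : ZF :=
  ZFSet.sep (fun z => snd z ⊆ fst z ∧ ∀ γ ∈ β,
      OO κ (app g γ) (res (fst z) γ) (row (fst z) γ) (res (snd z) γ) (row (snd z) γ))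
    (prod (PP M κ (app g) β) (PP M κ (app g) β))

section inst

variable {M : Set ZF} [hM : TModel M] {a b c d e f g : Env → ZF} [Tm M a] [Tm M b] [Tm M c]
  [Tm M d] [Tm M e] [Tm M f] [Tm M g]

instance tm_row : Tm M (fun v => row (a v) (b v)) := by unfold row; infer_instance

instance tm_cc : Tm M (fun v => cc (a v) (b v) (c v) (d v) (e v)) := by unfold cc; infer_instance

instance df_dec : Df M (fun v => dec (a v) (b v) (c v) (d v)) := by unfold dec; infer_instance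

instance void_dec {L p t : Env → ZF → ZF} [Occ M t] :
    Void M (fun v y => dec (L v y) (p v y) (a v) (t v y)) := by unfold dec; infer_instance

instance df_Tot : Df M (fun v => Tot (a v) (b v) (c v) (d v)) := by unfold Tot; infer_instance

instance df_spl : Df M (fun v => spl (a v) (b v) (c v) (d v) (e v)) := by
  unfold spl; infer_instance

instance df_Split : Df M (fun v => Split (a v) (b v) (c v) (d v) (e v)) := by
  unfold Split; infer_instance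

instance df_VV : Df M (fun v => VV (a v) (b v) (c v) (d v)) := by unfold VV; infer_instance

instance df_New : Df M (fun v => New (a v) (b v) (c v) (d v) (e v) (f v) (g v)) := by
  unfold New; infer_instance

instance df_OO : Df M (fun v => OO (a v) (b v) (c v) (d v) (e v) (f v)) := by
  unfold OO; infer_instance

instance tm_Sq : Tm M (fun v => Sq M (a v) (b v)) := by unfold Sq; infer_instance

instance tm_Nm : Tm M (fun v => Nm M (a v) (b v)) := by unfold Nm; infer_instance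

instance tm_Sl : Tm M (fun v => Sl M (a v) (b v)) := by unfold Sl; infer_instance

instance tm_RowS : Tm M (fun v => RowS M (a v) (b v) (c v)) := by unfold RowS; infer_instance

instance tm_RowA : Tm M (fun v => RowA M (a v) (b v) (c v)) := by unfold RowA; infer_instance

theorem tm_PhiL {κ : ZF} [In M κ] : Tm M (fun v => PhiL M κ (v 0) (v 1)) := by
  unfold PhiL PP; infer_instance

end inst

/-! ### row level facts -/

section rows

variable {κ L w R w' R' w'' R'' p q x b α : ZF}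

theorem dec.mono (ht : ∀ a b c, pair a b ∈ L → pair b c ∈ L → pair a c ∈ L) (h : dec L p x b)
    (hq : pair q p ∈ L) : dec L q x b := by
  obtain ⟨d, h1, h2⟩ := h
  exact ⟨d, ht _ _ _ hq h1, h2⟩

theorem Tot.mono (ht : ∀ a b c, pair a b ∈ L → pair b c ∈ L → pair a c ∈ L) (h : Tot κ L p x)
    (hq : pair q p ∈ L) : Tot κ L q x := fun r hr => h r (ht _ _ _ hr hq)

theorem Split.mono (ht : ∀ a b c, pair a b ∈ L → pair b c ∈ L → pair a c ∈ L)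
    (h : Split κ L α p x) (hq : pair q p ∈ L) : Split κ L α q x := fun r hr => h r (ht _ _ _ hr hq)

theorem spl.mono (ht : ∀ a b c, pair a b ∈ L → pair b c ∈ L → pair a c ∈ L) {p' q' : ZF}
    (h : spl κ L p q x) (hp : pair p' p ∈ L) (hq : pair q' q ∈ L) : spl κ L p' q' x := by
  obtain ⟨η, hη, ζ, ζ', h1, h2, h3⟩ := h
  exact ⟨η, hη, ζ, ζ', h1, h2.mono ht hp, h3.mono ht hq⟩

theorem New.mono (ht : ∀ a b c, pair a b ∈ L → pair b c ∈ L → pair a c ∈ L) {ρ σ : ZF}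
    (h : New κ L w' R' ρ σ x) (hc : ∀ j ∈ num 2, pair (cc w R ρ σ j) (cc w' R' ρ σ j) ∈ L) :
    New κ L w R ρ σ x :=
  ⟨fun j hj η hη => (h.1 j hj η hη).imp fun _ h' => h'.mono ht (hc j hj),
    h.2.mono ht (hc _ zero_mem_two) (hc _ one_mem_two)⟩

theorem VV_of_empty (h : ∀ y, y ∉ R) : VV κ L w R :=
  ⟨fun _ h' => absurd h' (h _), fun _ _ _ _ h' => absurd h' (h _), fun _ _ h' => absurd h' (h _),
    fun _ _ h' => absurd h' (h _)⟩

theorem OO_of_empty (h : ∀ y, y ∉ R') : OO κ L w R w' R' :=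
  ⟨fun _ _ _ _ _ h' => absurd h' (h _), fun _ _ h' => absurd h' (h _),
    fun _ _ _ _ _ h' => absurd h' (h _)⟩

theorem VV.refl (h : VV κ L w R) : OO κ L w R w R :=
  ⟨fun _ _ _ h1 h2 => absurd h1 h2, fun ρ σ h1 j hj => (h.2.2.1 ρ σ h1 j hj).1,
    fun _ _ _ h1 h2 => absurd h1 h2⟩

theorem OO.trans (ht : ∀ a b c, pair a b ∈ L → pair b c ∈ L → pair a c ∈ L)
    (h : OO κ L w R w' R') (h' : OO κ L w' R' w'' R'') (hw : pair w w' ∈ L) (hR : R'' ⊆ R') :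
    OO κ L w R w'' R'' := by
  refine ⟨fun δ l x h1 h2 h3 => ?_, fun ρ σ h1 j hj =>
    ht _ _ _ (h.2.1 ρ σ (hR h1) j hj) (h'.2.1 ρ σ h1 j hj), fun ρ σ x h1 h2 h3 => ?_⟩
  · by_cases h4 : tL δ l ∈ R'
    · obtain ⟨s, h5, h6, h7⟩ := h'.1 δ l x h4 h2 h3
      exact ⟨s, h5, h6, fun b hb => (h7 b hb).mono ht hw⟩
    · exact h.1 δ l x h1 h4 (hR h3)
  · by_cases h4 : tT ρ σ ∈ R'
    · exact (h'.2.2 ρ σ x h4 h2 h3).mono ht (h.2.1 ρ σ h4)
    · exact h.2.2 ρ σ x h1 h4 (hR h3)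

theorem row_res {γ β : ZF} (h : γ ∈ β) : row (res p β) γ = row p γ := by
  ext y; simp [h]

theorem res_eq_self {β : ZF} (h : ∀ a ∈ p, fst a ∈ β) : res p β = p := by
  ext a; rw [mem_res]; exact ⟨And.left, fun h' => ⟨h', h a h'⟩⟩

theorem res_union {β : ZF} : res (p ∪ q) β = res p β ∪ res q β := by
  ext a; simp only [mem_res, mem_union]; tauto

theorem row_union {β : ZF} : row (p ∪ q) β = row p β ∪ row q β := by
  ext a; simp only [mem_row, mem_union]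

theorem res_mono {β : ZF} (h : p ⊆ q) : res p β ⊆ res q β := fun _ ha =>
  mem_res.2 ⟨h (mem_res.1 ha).1, (mem_res.1 ha).2⟩

theorem row_mono {β : ZF} (h : p ⊆ q) : row p β ⊆ row q β := fun _ ha =>
  mem_row.2 (h (mem_row.1 ha))

theorem cc_mono {ρ σ j : ZF} (hw : w' ⊆ w) (hR : R' ⊆ R) : cc w' R' ρ σ j ⊆ cc w R ρ σ j :=
  fun _ ha => mem_cc.2 ((mem_cc.1 ha).imp (fun h => ⟨hw h.1, h.2⟩) fun h => hR h)

theorem VV.res_cc (h : VV κ L w R) (ρ σ j : ZF) : res (cc w R ρ σ j) (snd ρ) = res w (snd ρ) := by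
  ext a
  simp only [mem_res, mem_cc]
  exact ⟨fun h1 => h1.1.elim id fun h2 => absurd h1.2 (h.2.1 _ _ _ _ h2).2,
    fun h1 => ⟨Or.inl h1, h1.2⟩⟩

end rows

/-- ground model with its two cardinals -/
structure Ctx : Type 1 where
  M : Set ZF
  hM : TModel M
  κ : ZF
  θ : ZF
  hκ : Hart M om κ
  hθ : Hart M (pw M om) θ

namespace Ctx

variable (X : Ctx)

instance model : TModel X.M := X.hM
instance in_κ : In X.M X.κ := In.mk' X.hκ.mem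
instance in_θ : In X.M X.θ := In.mk' X.hθ.mem

/-- the order of the iteration of length `β` -/
noncomputable def L (β : ZF) : ZF := rc (PhiL X.M X.κ) β

/-- the conditions of the iteration of length `β` -/
noncomputable def P (β : ZF) : ZF := PP X.M X.κ X.L β

instance tm_L {a : Env → ZF} [Tm X.M a] : Tm X.M (fun v => X.L (a v)) := (tm_rc tm_PhiL).one a

instance tm_P {a : Env → ZF} [Tm X.M a] : Tm X.M (fun v => X.P (a v)) := by
  unfold P PP; infer_instance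

variable {X} {β γ p q r : ZF}

theorem mem_P : p ∈ X.P β ↔ p ∈ X.M ∧ Le X.M p om ∧
    (∀ a ∈ p, ∃ γ ∈ β, ∃ y ∈ RowA X.M X.κ γ (X.L γ), a = pair γ y) ∧
    ∀ γ ∈ β, VV X.κ (X.L γ) (res p γ) (row p γ) := by
  simp only [P, PP, mem_sep, mem_cs, subset_def, mem_bun, mem_prod, mem_singleton]
  constructor
  · rintro ⟨⟨⟨h1, h2⟩, h3⟩, h4⟩
    refine ⟨h2, h3, fun a ha => ?_, h4⟩
    obtain ⟨γ, h5, _, rfl, y, h6, rfl⟩ := h1 ha
    exact ⟨_, h5, y, h6, rfl⟩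
  · rintro ⟨h1, h2, h3, h4⟩
    refine ⟨⟨⟨fun a ha => ?_, h1⟩, h2⟩, h4⟩
    obtain ⟨γ, h5, y, h6, rfl⟩ := h3 a ha
    exact ⟨γ, h5, γ, rfl, y, h6, rfl⟩

theorem L_eq (β : ZF) : X.L β = ZFSet.sep (fun z => snd z ⊆ fst z ∧ ∀ γ ∈ β,
    OO X.κ (X.L γ) (res (fst z) γ) (row (fst z) γ) (res (snd z) γ) (row (snd z) γ))
    (prod (X.P β) (X.P β)) := by
  have e : PP X.M X.κ (app (graph X.L β)) β = X.P β := by
    ext p
    have h1 : bun (fun γ => prod {γ} (RowA X.M X.κ γ (app (graph X.L β) γ))) β =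
        bun (fun γ => prod {γ} (RowA X.M X.κ γ (X.L γ))) β := by
      ext a
      simp only [mem_bun]
      exact exists_congr fun γ => and_congr_right fun h => by rw [app_graph h]
    simp only [P, PP, mem_sep, h1]
    exact and_congr_right fun _ => forall₂_congr fun γ h => by rw [app_graph h]
  rw [show X.L β = PhiL X.M X.κ β (graph X.L β) from rc_eq _ β, PhiL, e]
  ext z
  simp only [mem_sep]
  exact and_congr_right fun _ => and_congr_right fun _ => forall₂_congr fun γ h => by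
    rw [app_graph h]

theorem mem_L : pair p q ∈ X.L β ↔ p ∈ X.P β ∧ q ∈ X.P β ∧ q ⊆ p ∧
    ∀ γ ∈ β, OO X.κ (X.L γ) (res p γ) (row p γ) (res q γ) (row q γ) := by
  rw [L_eq]; simp [and_assoc]

theorem P_mem (h : p ∈ X.P β) : p ∈ X.M := (mem_P.1 h).1
theorem P_le (h : p ∈ X.P β) : Le X.M p om := (mem_P.1 h).2.1
theorem P_VV (h : p ∈ X.P β) (hγ : γ ∈ β) : VV X.κ (X.L γ) (res p γ) (row p γ) :=
  (mem_P.1 h).2.2.2 γ hγ
theorem L_left (h : pair p q ∈ X.L β) : p ∈ X.P β := (mem_L.1 h).1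
theorem L_right (h : pair p q ∈ X.L β) : q ∈ X.P β := (mem_L.1 h).2.1
theorem L_sub (h : pair p q ∈ X.L β) : q ⊆ p := (mem_L.1 h).2.2.1
theorem L_OO (h : pair p q ∈ X.L β) (hγ : γ ∈ β) :
    OO X.κ (X.L γ) (res p γ) (row p γ) (res q γ) (row q γ) := (mem_L.1 h).2.2.2 γ hγ

theorem P_fst (h : p ∈ X.P β) {a : ZF} (ha : a ∈ p) : fst a ∈ β := by
  obtain ⟨γ, h1, y, -, rfl⟩ := (mem_P.1 h).2.2.1 a ha
  simpa using h1

theorem P_row (h : p ∈ X.P β) {y : ZF} (hy : y ∈ row p γ) :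
    γ ∈ β ∧ y ∈ RowA X.M X.κ γ (X.L γ) := by
  obtain ⟨γ', h1, y', h2, e⟩ := (mem_P.1 h).2.2.1 _ (mem_row.1 hy)
  obtain ⟨rfl, rfl⟩ := pair_inj.1 e
  exact ⟨h1, h2⟩

theorem P_VV' (h : p ∈ X.P β) (γ : ZF) : VV X.κ (X.L γ) (res p γ) (row p γ) := by
  by_cases hγ : γ ∈ β
  exacts [P_VV h hγ, VV_of_empty fun y hy => hγ (P_row h hy).1]

theorem L_OO' (h : pair p q ∈ X.L β) (γ : ZF) :
    OO X.κ (X.L γ) (res p γ) (row p γ) (res q γ) (row q γ) := by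
  by_cases hγ : γ ∈ β
  exacts [L_OO h hγ, OO_of_empty fun y hy => hγ (P_row (L_right h) hy).1]

theorem L_refl (h : p ∈ X.P β) : pair p p ∈ X.L β :=
  mem_L.2 ⟨h, h, fun _ h => h, fun _ hγ => (P_VV h hγ).refl⟩

theorem mem_dom_L : p ∈ dom (X.L β) ↔ p ∈ X.P β := by
  rw [mem_dom]
  refine ⟨?_, fun h => ⟨_, L_refl h, by simp⟩⟩
  rintro ⟨z, hz, rfl⟩
  rw [L_eq] at hz
  obtain ⟨a, ha, b, -, rfl⟩ := mem_prod.1 (mem_sep.1 hz).1
  simpa using ha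

/-- change of the length -/
theorem P_of_fst (h : p ∈ X.P β) (h' : ∀ a ∈ p, fst a ∈ γ) : p ∈ X.P γ := by
  refine mem_P.2 ⟨P_mem h, P_le h, fun a ha => ?_, fun γ' _ => P_VV' h γ'⟩
  obtain ⟨γ', -, y, h2, rfl⟩ := (mem_P.1 h).2.2.1 a ha
  exact ⟨γ', by simpa using h' _ ha, y, h2, rfl⟩

theorem L_of_fst (h : pair p q ∈ X.L β) (h' : ∀ a ∈ p, fst a ∈ γ) : pair p q ∈ X.L γ :=
  mem_L.2 ⟨P_of_fst (L_left h) h', P_of_fst (L_right h) fun a ha => h' a (L_sub h ha), L_sub h,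
    fun γ' _ => L_OO' h γ'⟩

theorem P_lift (h : p ∈ X.P γ) (h' : γ ⊆ β) : p ∈ X.P β := P_of_fst h fun _ ha => h' (P_fst h ha)

theorem L_lift (h : pair p q ∈ X.L γ) (h' : γ ⊆ β) : pair p q ∈ X.L β :=
  L_of_fst h fun _ ha => h' (P_fst (L_left h) ha)

theorem L_down (h : pair p q ∈ X.L β) (h' : p ∈ X.P γ) : pair p q ∈ X.L γ :=
  L_of_fst h fun _ ha => P_fst h' ha

theorem P_res_self (h : p ∈ X.P β) : res p β = p := res_eq_self fun _ ha => P_fst h ha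

/-- ordinals of the ground model -/
structure Od (X : Ctx) (β : ZF) : Prop where
  ord : IsOrdinal β
  mem : β ∈ X.M

theorem Od.of_mem (h : X.Od β) (hγ : γ ∈ β) : X.Od γ := ⟨h.ord.mem hγ, tr h.mem hγ⟩

theorem Od.sub (h : X.Od β) (hγ : γ ∈ β) : γ ⊆ β := h.ord.subset_of_mem hγ

theorem Od.succ (h : X.Od β) : X.Od (insert β β) := by
  have := In.mk' h.mem
  exact ⟨isOrdinal_succ h.ord, In.mem _⟩

theorem od_θ : X.Od X.θ := ⟨X.hθ.ord, X.hθ.mem⟩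

theorem od_κ : X.Od X.κ := ⟨X.hκ.ord, X.hκ.mem⟩

theorem P_res (h : p ∈ X.P β) (hγ : X.Od γ) : res p γ ∈ X.P γ := by
  have := In.mk' (P_mem h)
  have := In.mk' hγ.mem
  refine mem_P.2 ⟨In.mem _, (P_le h).mono (res_subset _ _), fun a ha => ?_, fun γ' h' => ?_⟩
  · obtain ⟨γ', -, y, h2, rfl⟩ := (mem_P.1 h).2.2.1 a (mem_res.1 ha).1
    exact ⟨γ', by simpa using (mem_res.1 ha).2, y, h2, rfl⟩
  · rw [res_res (hγ.sub h'), row_res h']
    exact P_VV' h γ'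

theorem L_res (h : pair p q ∈ X.L β) (hγ : X.Od γ) : pair (res p γ) (res q γ) ∈ X.L γ :=
  mem_L.2 ⟨P_res (L_left h) hγ, P_res (L_right h) hγ, res_mono (L_sub h), fun γ' h' => by
    rw [res_res (hγ.sub h'), row_res h', res_res (hγ.sub h'), row_res h']
    exact L_OO' h γ'⟩

theorem le_res (h : p ∈ X.P β) (hγ : X.Od γ) : pair p (res p γ) ∈ X.L β := by
  refine mem_L.2 ⟨h, P_of_fst (P_res h hγ) fun a ha => P_fst h (mem_res.1 ha).1,
    res_subset _ _, fun γ' _ => ?_⟩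
  by_cases h' : γ' ∈ γ
  · rw [res_res (hγ.sub h'), row_res h']
    exact (P_VV' h γ').refl
  · exact OO_of_empty fun y hy => h' (by simpa using (mem_res.1 (mem_row.1 hy)).2)

theorem Od.trans (h : X.Od β) :
    ∀ p q r, pair p q ∈ X.L β → pair q r ∈ X.L β → pair p r ∈ X.L β := by
  induction β using ZFSet.inductionOn with
  | h β ih =>
    intro p q r h1 h2
    exact mem_L.2 ⟨L_left h1, L_right h2, fun _ h => L_sub h1 (L_sub h2 h), fun γ hγ =>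
      (L_OO h1 hγ).trans (ih γ hγ (h.of_mem hγ)) (L_OO h2 hγ)
        (L_res h1 (h.of_mem hγ)) (row_mono (L_sub h2))⟩

/-! ### shapes -/

variable {A ρ σ j a x δ l : ZF}

theorem tL_S : tL δ l ∈ RowS X.M X.κ γ A ↔ δ ∈ X.κ ∧ l ∈ cs X.M (Sq X.M X.κ X.κ) := by simp [RowS]

theorem tT_S : tT ρ σ ∈ RowS X.M X.κ γ A ↔ pair ρ σ ∈ Sl X.M X.κ γ := by simp [RowS]

theorem tN_S : tN ρ σ j a ∈ RowS X.M X.κ γ A ↔ (pair ρ σ ∈ Sl X.M X.κ γ ∧ j ∈ num 2) ∧ a ∈ A := by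
  simp [RowS]

theorem tL_A : tL δ l ∈ RowA X.M X.κ γ A ↔ δ ∈ X.κ ∧ l ∈ cs X.M (Sq X.M X.κ X.κ) := by
  simp [RowA, tL_S]

theorem tT_A : tT ρ σ ∈ RowA X.M X.κ γ A ↔ pair ρ σ ∈ Sl X.M X.κ γ := by simp [RowA, tT_S]

theorem tN_A : tN ρ σ j a ∈ RowA X.M X.κ γ (X.L γ) ↔
    (pair ρ σ ∈ Sl X.M X.κ γ ∧ j ∈ num 2) ∧ ∃ c ∈ X.P γ, a ∈ c := by
  simp [RowA, tN_S, mem_dom_L]

theorem mem_Nm : x ∈ Nm X.M X.κ (X.L γ) ↔ x ⊆ prod (X.P γ) (prod X.κ X.κ) ∧ x ∈ X.M := by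
  have : dom (X.L γ) = X.P γ := ZFSet.ext fun _ => mem_dom_L
  rw [Nm, mem_pw, this]

theorem tX_A : tX x ∈ RowA X.M X.κ γ A ↔ x ∈ Nm X.M X.κ A := by simp [RowA, RowS]

theorem tY_A : tY ρ x ∈ RowA X.M X.κ γ A ↔ ρ ∈ prod X.κ (insert γ γ) ∧ x ∈ Nm X.M X.κ A := by
  simp [RowA, RowS]

omit X in
theorem mem_Sq {M : Set ZF} {κ s : ZF} : s ∈ Sq M κ a ↔
    (s ⊆ prod κ a ∧ s ∈ M) ∧ ∃ ξ ∈ κ, IsFunc ξ a s := by simp [Sq]

theorem mem_Sq' {s : ZF} : s ∈ Sq X.M X.κ a ↔ s ∈ X.M ∧ ∃ ξ ∈ X.κ, IsFunc ξ a s := by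
  rw [mem_Sq]
  refine ⟨fun h => ⟨h.1.2, h.2⟩, fun ⟨h1, ξ, h2, h3⟩ => ⟨⟨fun z hz => ?_, h1⟩, ξ, h2, h3⟩⟩
  obtain ⟨x, hx, y, hy, rfl⟩ := h3.exists_pair hz
  exact pair_mem_prod.2 ⟨od_κ.sub h2 hx, hy⟩

theorem Sq_func {s : ZF} (h : s ∈ Sq X.M X.κ a) :
    s ∈ X.M ∧ dom s ∈ X.κ ∧ IsFunc (dom s) a s := by
  obtain ⟨h1, ξ, h2, h3⟩ := mem_Sq'.1 h
  rw [h3.dom_eq]
  exact ⟨h1, h2, h3⟩

theorem Sq_res {s η : ZF} (h : s ∈ Sq X.M X.κ a) (hη : η ∈ dom s) :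
    res s η ∈ Sq X.M X.κ a ∧ dom (res s η) = η ∧ app s η ∈ a := by
  obtain ⟨h1, h2, h3⟩ := Sq_func h
  have h4 := h3.res ((od_κ.of_mem h2).sub hη)
  have := In.mk' h1
  have := In.mk' ((od_κ.of_mem h2).of_mem hη).mem
  exact ⟨mem_Sq'.2 ⟨In.mem _, η, od_κ.sub h2 hη, h4⟩, h4.dom_eq, h3.app_mem' hη⟩

theorem mem_Sl : pair ρ σ ∈ Sl X.M X.κ γ ↔
    ρ ∈ prod X.κ (insert γ γ) ∧ σ ∈ Sq X.M X.κ (num 2) := pair_mem_prod

theorem Od.root (h : X.Od γ) (hρ : ρ ∈ prod X.κ (insert γ γ)) : X.Od (snd ρ) ∧ snd ρ ⊆ γ := by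
  obtain ⟨i, -, α, hα, rfl⟩ := mem_prod.1 hρ
  rw [snd_pair]
  exact ⟨h.succ.of_mem hα, (mem_succ_iff (h.succ.of_mem hα).ord h.ord).1 hα⟩

theorem P_slot (h : p ∈ X.P β) (hs : tT ρ σ ∈ row p γ) : pair ρ σ ∈ Sl X.M X.κ γ :=
  tT_A.1 (P_row h hs).2

end Ctx

end Pool.Agent.P.MP_3ab3de_lc
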