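import Pool.Agent.P.MP_3ab3de_lc.Pos1

/-! The forcing: greatest lower bounds, directed unions, amalgamation. -/

set_option linter.unusedSectionVars false
set_option synthInstance.maxSize 100000

namespace Pool.Agent.P.MP_3ab3de_lc

open ZFSet

/-- the condition attached to a slot of a condition -/
noncomputable abbrev cp (p γ ρ σ j : ZF) : ZF := cc (res p γ) (row p γ) ρ σ j

theorem mem_cp {p γ ρ σ j a : ZF} (h : snd ρ ⊆ γ) :
    a ∈ cp p γ ρ σ j ↔ (a ∈ p ∧ fst a ∈ snd ρ) ∨ tN ρ σ j a ∈ row p γ := by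
  rw [mem_cc, mem_res]
  exact or_congr_left ⟨fun h' => ⟨h'.1.1, h'.2⟩, fun h' => ⟨⟨h'.1, h h'.2⟩, h'.2⟩⟩

theorem cp_mono {p q γ ρ σ j : ZF} (h : p ⊆ q) : cp p γ ρ σ j ⊆ cp q γ ρ σ j :=
  cc_mono (res_mono h) (row_mono h)

theorem cp_union {p q γ ρ σ j : ZF} : cp (p ∪ q) γ ρ σ j = cp p γ ρ σ j ∪ cp q γ ρ σ j := by
  ext a; simp only [mem_cc, mem_res, mem_union, mem_row]; tauto

theorem res_comm {p a b : ZF} : res (res p a) b = res (res p b) a := by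
  ext a; simp only [mem_res]; tauto

theorem res_inter {p a b : ZF} : res p (a ∩ b) = res (res p a) b := by
  ext a; simp only [mem_res, mem_inter]; tauto

theorem le_row {M : Set ZF} [TModel M] {p γ : ZF} (hp : p ∈ M) (h : Le M p om) :
    Le M (row p γ) om :=
  (inf_omega.img snd inferInstance hp h).mono fun _ hy =>
    mem_img.2 ⟨_, mem_row.1 hy, snd_pair _ _⟩

namespace Ctx

variable {X : Ctx} {β γ p q r ρ σ j : ZF}

theorem cp_P (h : p ∈ X.P β) (hs : tT ρ σ ∈ row p γ) (hj : j ∈ num 2) : cp p γ ρ σ j ∈ X.P γ :=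
  L_left ((P_VV' h γ).2.2.1 ρ σ hs j hj).1

theorem res_cp (h : p ∈ X.P β) (hρ : snd ρ ⊆ γ) : res (cp p γ ρ σ j) (snd ρ) = res p (snd ρ) := by
  rw [(P_VV' h γ).res_cc, res_res hρ]

theorem cp_le_res (hγ : X.Od γ) (h : p ∈ X.P β) (hs : tT ρ σ ∈ row p γ) (hj : j ∈ num 2) :
    pair (cp p γ ρ σ j) (res p (snd ρ)) ∈ X.L γ := by
  obtain ⟨h1, h2⟩ := hγ.root (mem_Sl.1 (P_slot h hs)).1
  rw [← res_cp (σ := σ) (j := j) h h2]
  exact le_res (cp_P h hs hj) h1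

theorem cp_of_notMem (h : p ∈ X.P β) (hρ : snd ρ ⊆ γ) (hs : tT ρ σ ∉ row p γ) :
    cp p γ ρ σ j = res p (snd ρ) := by
  ext a
  rw [mem_cp hρ, mem_res]
  exact ⟨fun h' => h'.elim id fun h2 => absurd ((P_VV' h γ).2.1 _ _ _ _ h2).1 hs, Or.inl⟩

theorem cp_P' (hγ : X.Od γ) (h : p ∈ X.P β) (hρ : ρ ∈ prod X.κ (insert γ γ)) (hj : j ∈ num 2) :
    cp p γ ρ σ j ∈ X.P γ := by
  by_cases hs : tT ρ σ ∈ row p γ
  · exact cp_P h hs hj
  · rw [cp_of_notMem h (hγ.root hρ).2 hs]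
    exact P_lift (P_res h (hγ.root hρ).1) (hγ.root hρ).2

/-- a valid union of conditions above `w` is above `w` -/
theorem glb (hβ : X.Od β) : ∀ w u, w ∈ X.P β → u ∈ X.P β →
    (∀ y ∈ u, ∃ a, pair w a ∈ X.L β ∧ y ∈ a ∧ a ⊆ u) → pair w u ∈ X.L β := by
  induction β using ZFSet.inductionOn with
  | h β ih =>
    intro w u hw hu H
    have hs : u ⊆ w := fun y hy => by
      obtain ⟨a, h1, h2, -⟩ := H y hy
      exact L_sub h1 h2
    refine mem_L.2 ⟨hw, hu, hs, fun γ hγ => ⟨fun δ l x h1 h2 h3 => ?_, fun ρ σ h1 j hj => ?_,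
      fun ρ σ x h1 h2 h3 => ?_⟩⟩
    · obtain ⟨a, h4, h5, h6⟩ := H _ (mem_row.1 h3)
      exact (L_OO h4 hγ).1 δ l x h1 (fun h => h2 (row_mono h6 h)) (mem_row.2 h5)
    · have hγ' := hβ.of_mem hγ
      obtain ⟨h2, h3⟩ := hγ'.root (mem_Sl.1 (P_slot hu h1)).1
      refine ih γ hγ hγ' _ _ (cp_P hw (row_mono hs h1) hj) (cp_P hu h1 hj) fun y hy => ?_
      rcases (mem_cp h3).1 hy with h4 | h4
      · obtain ⟨a, h5, h6, h7⟩ := H _ h4.1
        exact ⟨res a (snd ρ), hγ'.trans _ _ _ (cp_le_res hγ' hw (row_mono hs h1) hj)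
          (L_lift (L_res h5 h2) h3), mem_res.2 ⟨h6, h4.2⟩, fun z hz =>
            (mem_cp h3).2 (Or.inl ⟨h7 (mem_res.1 hz).1, (mem_res.1 hz).2⟩)⟩
      · obtain ⟨a, h5, h6, h7⟩ := H _ (mem_row.1 h4)
        have h8 := ((P_VV (L_right h5) hγ).2.1 _ _ _ _ (mem_row.2 h6)).1
        exact ⟨cp a γ ρ σ j, (L_OO h5 hγ).2.1 ρ σ h8 j hj, mem_cc.2 (Or.inr (mem_row.2 h6)),
          cp_mono h7⟩
    · obtain ⟨a, h4, h5, h6⟩ := H _ (mem_row.1 h3)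
      exact (L_OO h4 hγ).2.2 ρ σ x h1 (fun h => h2 (row_mono h6 h)) (mem_row.2 h5)

theorem glb2 (hβ : X.Od β) {w a b : ZF} (ha : pair w a ∈ X.L β) (hb : pair w b ∈ X.L β)
    (hu : a ∪ b ∈ X.P β) : pair w (a ∪ b) ∈ X.L β :=
  glb hβ _ _ (L_left ha) hu fun y hy => by
    rcases mem_union.1 hy with h | h
    exacts [⟨a, ha, h, fun _ h => mem_union.2 (Or.inl h)⟩,
      ⟨b, hb, h, fun _ h => mem_union.2 (Or.inr h)⟩]

/-- countable unions of directed families -/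
theorem dun (hβ : X.Od β) : ∀ (A : ZF → Prop) (u : ZF), u ∈ X.M → Le X.M u om →
    (∀ a, A a → a ∈ X.P β ∧ a ⊆ u) → (∀ y ∈ u, ∃ a, A a ∧ y ∈ a) →
    (∀ a b, A a → A b → ∃ c, A c ∧ pair c a ∈ X.L β ∧ pair c b ∈ X.L β) →
    u ∈ X.P β ∧ ∀ a, A a → pair u a ∈ X.L β := by
  induction β using ZFSet.inductionOn with
  | h β ih =>
    intro A u hu hc h1 h2 h3
    have := In.mk' hu
    have hres : ∀ γ ∈ β, ∀ a, A a → pair (res u γ) (res a γ) ∈ X.L γ := fun γ hγ a ha => by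
      have hγ' := hβ.of_mem hγ
      have := In.mk' hγ'.mem
      refine (ih γ hγ hγ' (fun a' => ∃ a, A a ∧ a' = res a γ) (res u γ) (In.mem _)
        (hc.mono (res_subset _ _)) ?_ (fun y hy => ?_) ?_).2 _ ⟨a, ha, rfl⟩
      · rintro _ ⟨a, ha, rfl⟩
        exact ⟨P_res (h1 a ha).1 hγ', res_mono (h1 a ha).2⟩
      · obtain ⟨a, ha, h⟩ := h2 y (mem_res.1 hy).1
        exact ⟨_, ⟨a, ha, rfl⟩, mem_res.2 ⟨h, (mem_res.1 hy).2⟩⟩
      · rintro _ _ ⟨a, ha, rfl⟩ ⟨b, hb, rfl⟩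
        obtain ⟨c, h4, h5, h6⟩ := h3 a b ha hb
        exact ⟨_, ⟨c, h4, rfl⟩, L_res h5 hγ', L_res h6 hγ'⟩
    have hcov : ∀ γ ρ σ σ' j, tT ρ σ ∈ row u γ → ∀ y ∈ cp u γ ρ σ' j,
        ∃ c, A c ∧ tT ρ σ ∈ row c γ ∧ y ∈ cp c γ ρ σ' j := fun γ ρ σ σ' j hs y hy => by
      obtain ⟨a, ha, h4⟩ := h2 _ (mem_row.1 hs)
      rcases mem_cc.1 hy with h5 | h5
      · obtain ⟨b, hb, h6⟩ := h2 _ (mem_res.1 h5.1).1
        obtain ⟨c, h7, h8, h9⟩ := h3 a b ha hb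
        exact ⟨c, h7, mem_row.2 (L_sub h8 h4),
          mem_cc.2 (Or.inl ⟨mem_res.2 ⟨L_sub h9 h6, (mem_res.1 h5.1).2⟩, h5.2⟩)⟩
      · obtain ⟨b, hb, h6⟩ := h2 _ (mem_row.1 h5)
        obtain ⟨c, h7, h8, h9⟩ := h3 a b ha hb
        exact ⟨c, h7, mem_row.2 (L_sub h8 h4), mem_cc.2 (Or.inr (mem_row.2 (L_sub h9 h6)))⟩
    have hcp : ∀ γ ∈ β, ∀ ρ σ, tT ρ σ ∈ row u γ → ∀ j ∈ num 2, cp u γ ρ σ j ∈ X.P γ ∧
        ∀ a, A a → tT ρ σ ∈ row a γ → pair (cp u γ ρ σ j) (cp a γ ρ σ j) ∈ X.L γ :=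
      fun γ hγ ρ σ hs j hj => by
        have hγ' := hβ.of_mem hγ
        have := In.mk' hγ'.mem
        have h4 := snd_mem (snd_mem (tr hu (mem_row.1 hs)))
        have := In.mk' (fst_mem h4)
        have := In.mk' (snd_mem h4)
        have := In.mk' (tr (In.mem (M := X.M) (num 2)) hj)
        have := ih γ hγ hγ' (fun a' => ∃ a, A a ∧ tT ρ σ ∈ row a γ ∧ a' = cp a γ ρ σ j)
          (cp u γ ρ σ j) (In.mem _) (inf_omega.union (In.mem _) (In.mem _)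
            (hc.mono fun y hy => (mem_res.1 (mem_res.1 hy).1).1)
            (le_row (In.mem _) (le_row (In.mem _) (le_row hu hc)))) ?_ (fun y hy => ?_) ?_
        · exact ⟨this.1, fun a ha h => this.2 _ ⟨a, ha, h, rfl⟩⟩
        · rintro _ ⟨a, ha, h, rfl⟩
          exact ⟨cp_P (h1 a ha).1 h hj, cp_mono (h1 a ha).2⟩
        · obtain ⟨c, h5, h6, h7⟩ := hcov γ ρ σ σ j hs y hy
          exact ⟨_, ⟨c, h5, h6, rfl⟩, h7⟩
        · rintro _ _ ⟨a, ha, h5, rfl⟩ ⟨b, hb, h6, rfl⟩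
          obtain ⟨c, h7, h8, h9⟩ := h3 a b ha hb
          exact ⟨_, ⟨c, h7, row_mono (L_sub h8) h5, rfl⟩, (L_OO h8 hγ).2.1 ρ σ h5 j hj,
            (L_OO h9 hγ).2.1 ρ σ h6 j hj⟩
    have hP : u ∈ X.P β := by
      refine mem_P.2 ⟨hu, hc, fun y hy => ?_, fun γ hγ => ⟨fun x hx => ?_,
        fun ρ σ j y hy => ?_, fun ρ σ hs j hj => ⟨L_refl (hcp γ hγ ρ σ hs j hj).1, fun η hη => ?_⟩,
        fun ρ x hx => ?_⟩⟩
      · obtain ⟨a, ha, h⟩ := h2 y hy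
        exact (mem_P.1 (h1 a ha).1).2.2.1 y h
      · obtain ⟨a, ha, h⟩ := h2 _ (mem_row.1 hx)
        exact ((P_VV (h1 a ha).1 hγ).1 x (mem_row.2 h)).mono (hβ.of_mem hγ).trans (hres γ hγ a ha)
      · obtain ⟨a, ha, h⟩ := h2 _ (mem_row.1 hy)
        have := (P_VV (h1 a ha).1 hγ).2.1 _ _ _ _ (mem_row.2 h)
        exact ⟨row_mono (h1 a ha).2 this.1, this.2⟩
      · obtain ⟨a, ha, h⟩ := h2 _ (mem_row.1 hs)
        have h4 := row_mono (h1 a ha).2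
          (((P_VV (h1 a ha).1 hγ).2.2.1 ρ σ (mem_row.2 h) j hj).2 η hη).1
        have h5 := (Sq_res (mem_Sl.1 (P_slot (h1 a ha).1 (mem_row.2 h))).2 hη).2.2
        refine ⟨h4, glb (hβ.of_mem hγ) _ _ (hcp γ hγ ρ σ hs j hj).1 (hcp γ hγ ρ _ h4 _ h5).1
          fun y hy => ?_⟩
        obtain ⟨c, h6, h7, h8⟩ := hcov γ ρ σ _ _ hs y hy
        exact ⟨_, (hβ.of_mem hγ).trans _ _ _ ((hcp γ hγ ρ σ hs j hj).2 c h6 h7)
          (((P_VV (h1 c h6).1 hγ).2.2.1 ρ σ h7 j hj).2 η hη).2, h8, cp_mono (h1 c h6).2⟩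
      · obtain ⟨a, ha, h⟩ := h2 _ (mem_row.1 hx)
        obtain ⟨h4, h5⟩ := (P_VV (h1 a ha).1 hγ).2.2.2 ρ x (mem_row.2 h)
        have h6 := row_mono (h1 a ha).2 h4
        exact ⟨h6, fun j hj => ⟨(h5 j hj).1.mono (hβ.of_mem hγ).trans
          ((hcp γ hγ ρ _ h6 j hj).2 a ha h4), (h5 j hj).2.mono (hβ.of_mem hγ).trans
          ((hcp γ hγ ρ _ h6 j hj).2 a ha h4)⟩⟩
    refine ⟨hP, fun a ha => mem_L.2 ⟨hP, (h1 a ha).1, (h1 a ha).2, fun γ hγ =>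
      ⟨fun δ l x h4 h5 h6 => ?_, fun ρ σ hs j hj =>
        (hcp γ hγ ρ σ (row_mono (h1 a ha).2 hs) j hj).2 a ha hs, fun ρ σ x h4 h5 h6 => ?_⟩⟩⟩
    · obtain ⟨b, hb, h⟩ := h2 _ (mem_row.1 h4)
      obtain ⟨c, h7, h8, h9⟩ := h3 a b ha hb
      obtain ⟨s, h10, h11, h12⟩ := (L_OO h8 hγ).1 δ l x (mem_row.2 (L_sub h9 h)) h5 h6
      exact ⟨s, h10, h11, fun b hb => (h12 b hb).mono (hβ.of_mem hγ).trans (hres γ hγ c h7)⟩
    · obtain ⟨b, hb, h⟩ := h2 _ (mem_row.1 h4)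
      obtain ⟨c, h7, h8, h9⟩ := h3 a b ha hb
      exact ((L_OO h8 hγ).2.2 ρ σ x (mem_row.2 (L_sub h9 h)) h5 h6).mono (hβ.of_mem hγ).trans
        fun j hj => (hcp γ hγ ρ σ h4 j hj).2 c h7 (mem_row.2 (L_sub h9 h))

/-- stem atoms -/
noncomputable def St (X : Ctx) (β : ZF) : ZF :=
  rc (fun β g => bun (fun γ => prod {γ} (RowS X.M X.κ γ (app g γ))) β) β

instance tm_St {a : Env → ZF} [Tm X.M a] : Tm X.M (fun v => X.St (a v)) :=
  (tm_rc inferInstance).one a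

theorem St_eq (β : ZF) : X.St β = bun (fun γ => prod {γ} (RowS X.M X.κ γ (X.St γ))) β := by
  rw [St, rc_eq]
  ext a
  simp only [mem_bun]
  exact exists_congr fun γ => and_congr_right fun h => by rw [app_graph h]; rfl

theorem mem_St {y : ZF} : pair γ y ∈ X.St β ↔ γ ∈ β ∧ y ∈ RowS X.M X.κ γ (X.St γ) := by
  rw [St_eq]
  simp only [mem_bun, pair_mem_prod, mem_singleton]
  exact ⟨fun ⟨_, h1, h2, h3⟩ => h2 ▸ ⟨h1, h2 ▸ h3⟩, fun h => ⟨γ, h.1, rfl, h.2⟩⟩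

/-- unions of two conditions -/
theorem uni (hβ : X.Od β) : ∀ β0 p q : ZF, IsTransitive β0 → p ∈ X.P β → q ∈ X.P β →
    pair (res q β0) (res p β0) ∈ X.L β →
    (∀ γ, γ ∉ β0 → (∀ y, y ∉ row p γ) ∨ (∀ y, y ∉ row q γ) ∨
      ∀ y ∈ RowS X.M X.κ γ (X.St γ), y ∈ row p γ ↔ y ∈ row q γ) →
    p ∪ q ∈ X.P β ∧ pair (p ∪ q) p ∈ X.L β ∧ pair (p ∪ q) q ∈ X.L β := by
  induction β using ZFSet.inductionOn with
  | h β ih =>
    intro β0 p q h0 hp hq hl H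
    have hsp : p ⊆ p ∪ q := fun _ h => mem_union.2 (Or.inl h)
    have hsq : q ⊆ p ∪ q := fun _ h => mem_union.2 (Or.inr h)
    have key : ∀ γ ∈ β, VV X.κ (X.L γ) (res (p ∪ q) γ) (row (p ∪ q) γ) ∧
        OO X.κ (X.L γ) (res (p ∪ q) γ) (row (p ∪ q) γ) (res p γ) (row p γ) ∧
        OO X.κ (X.L γ) (res (p ∪ q) γ) (row (p ∪ q) γ) (res q γ) (row q γ) := by
      intro γ hγ
      have hγ' := hβ.of_mem hγ
      by_cases h1 : γ ∈ β0
      · have e : res (p ∪ q) β0 = res q β0 := by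
          rw [res_union]
          ext a
          rw [mem_union]
          exact ⟨fun h => h.elim (fun h => L_sub hl h) id, Or.inr⟩
        rw [← res_res (h0 γ h1), ← row_res h1, e, res_res (h0 γ h1), row_res h1]
        have := L_OO hl hγ
        rw [res_res (h0 γ h1), row_res h1, res_res (h0 γ h1), row_res h1] at this
        exact ⟨P_VV hq hγ, this, (P_VV hq hγ).refl⟩
      have hw := ih γ hγ hγ' β0 _ _ h0 (P_res hp hγ') (P_res hq hγ')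
        (by rw [res_comm, res_comm (p := p)]; exact L_res hl hγ') fun γ' h' =>
          (em (γ' ∈ γ)).elim (fun h => by rw [row_res h, row_res h]; exact H γ' h')
            fun h => Or.inl fun y hy => h (by simpa using (mem_res.1 (mem_row.1 hy)).2)
      rw [← res_union] at hw
      have hc : ∀ ρ σ, pair ρ σ ∈ Sl X.M X.κ γ → ∀ j ∈ num 2, cp (p ∪ q) γ ρ σ j ∈ X.P γ ∧
          pair (cp (p ∪ q) γ ρ σ j) (cp p γ ρ σ j) ∈ X.L γ ∧
          pair (cp (p ∪ q) γ ρ σ j) (cp q γ ρ σ j) ∈ X.L γ := fun ρ σ hs j hj => by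
        obtain ⟨h2, h3⟩ := hγ'.root (mem_Sl.1 hs).1
        have h4 := cp_P' (σ := σ) hγ' hp (mem_Sl.1 hs).1 hj
        rw [cp_union]
        refine ih γ hγ hγ' (β0 ∩ snd ρ) _ _ (h0.inter h2.ord.isTransitive) h4
          (cp_P' hγ' hq (mem_Sl.1 hs).1 hj) ?_ fun γ' h' => ?_
        · rw [res_inter, res_inter, res_comm, res_comm (p := cp p γ ρ σ j), res_cp hp h3,
            res_cp hq h3, res_comm, res_comm (p := p)]
          exact L_lift (L_res hl h2) h3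
        · by_cases h5 : γ' ∈ snd ρ
          · rw [← row_res h5, ← row_res (p := cp q γ ρ σ j) h5, res_cp hp h3, res_cp hq h3,
              row_res h5, row_res h5]
            exact H γ' fun h => h' (mem_inter.2 ⟨h, h5⟩)
          by_cases h6 : γ' ∈ γ
          swap
          · exact Or.inl fun y hy => h6 (P_row h4 hy).1
          simp only [mem_row (γ := γ'), mem_cp h3, fst_pair, h5, and_false, false_or]
          exact (H γ h1).imp (fun h y => h _) (Or.imp (fun h y => h _) fun h y hy =>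
            h _ (tN_S.2 ⟨⟨hs, hj⟩, mem_St.2 ⟨h6, hy⟩⟩))
      have ht : ∀ t, t = p ∨ t = q → t ∈ X.P β ∧ t ⊆ p ∪ q ∧
          pair (res (p ∪ q) γ) (res t γ) ∈ X.L γ ∧
          (∀ y ∈ row (p ∪ q) γ, y ∈ RowS X.M X.κ γ (X.St γ) → y ∈ row t γ ∨ ∀ y, y ∉ row t γ) ∧
          ∀ ρ σ, pair ρ σ ∈ Sl X.M X.κ γ → ∀ j ∈ num 2,
            pair (cp (p ∪ q) γ ρ σ j) (cp t γ ρ σ j) ∈ X.L γ := by
        have := H γ h1
        rintro t (rfl | rfl)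
        · refine ⟨hp, hsp, hw.2.1, fun y hy h => ?_, fun ρ σ hs j hj => (hc ρ σ hs j hj).2.1⟩
          rw [row_union, mem_union] at hy
          rcases this with h2 | h2 | h2
          exacts [Or.inr h2, Or.inl (hy.resolve_right (h2 y)), Or.inl (hy.elim id (h2 y h).2)]
        · refine ⟨hq, hsq, hw.2.2, fun y hy h => ?_, fun ρ σ hs j hj => (hc ρ σ hs j hj).2.2⟩
          rw [row_union, mem_union] at hy
          rcases this with h2 | h2 | h2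
          exacts [Or.inl (hy.resolve_left (h2 y)), Or.inr h2, Or.inl (hy.elim (h2 y h).1 id)]
      have hcov : ∀ y ∈ row (p ∪ q) γ, ∃ t, (t = p ∨ t = q) ∧ y ∈ row t γ := fun y hy => by
        rw [row_union, mem_union] at hy
        exact hy.elim (fun h => ⟨p, Or.inl rfl, h⟩) fun h => ⟨q, Or.inr rfl, h⟩
      have hsl : ∀ ρ σ, tT ρ σ ∈ row (p ∪ q) γ → pair ρ σ ∈ Sl X.M X.κ γ := fun ρ σ h => by
        obtain ⟨t, h2, h3⟩ := hcov _ h
        exact P_slot (ht t h2).1 h3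
      have hO : ∀ t, t = p ∨ t = q →
          OO X.κ (X.L γ) (res (p ∪ q) γ) (row (p ∪ q) γ) (res t γ) (row t γ) := fun t h => by
        obtain ⟨h2, h3, -, h4, h5⟩ := ht t h
        refine ⟨fun δ l x h6 h7 h8 => ?_, fun ρ σ h6 => h5 ρ σ (P_slot h2 h6),
          fun ρ σ x h6 h7 h8 => ?_⟩
        · obtain ⟨t', h9, h10⟩ := hcov _ h6
          exact absurd h8 (((h4 _ h6 (tL_S.2 (tL_A.1 (P_row (ht t' h9).1 h10).2))).resolve_left h7) _)
        · exact absurd h8 (((h4 _ h6 (tT_S.2 (hsl ρ σ h6))).resolve_left h7) _)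
      refine ⟨⟨fun x hx => ?_, fun ρ σ j y hy => ?_, fun ρ σ hs j hj =>
        ⟨L_refl (hc ρ σ (hsl ρ σ hs) j hj).1, fun η hη => ?_⟩, fun ρ x hx => ?_⟩,
        hO p (Or.inl rfl), hO q (Or.inr rfl)⟩
      · obtain ⟨t, h2, h3⟩ := hcov _ hx
        exact ((P_VV (ht t h2).1 hγ).1 x h3).mono hγ'.trans (ht t h2).2.2.1
      · obtain ⟨t, h2, h3⟩ := hcov _ hy
        have := (P_VV (ht t h2).1 hγ).2.1 _ _ _ _ h3
        exact ⟨row_mono (ht t h2).2.1 this.1, this.2⟩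
      · obtain ⟨t, h2, h3⟩ := hcov _ hs
        have h4 := row_mono (ht t h2).2.1 (((P_VV (ht t h2).1 hγ).2.2.1 ρ σ h3 j hj).2 η hη).1
        have h5 := mem_Sl.1 (hsl ρ σ hs)
        have h6 := (Sq_res h5.2 hη).2.2
        have h7 : ∀ t, t = p ∨ t = q →
            pair (cp (p ∪ q) γ ρ σ j) (cp t γ ρ (res σ η) (app σ η)) ∈ X.L γ := fun t h => by
          obtain ⟨h8, -, -, h9, h10⟩ := ht t h
          have h11 := h10 ρ σ (hsl ρ σ hs) j hj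
          rcases h9 _ hs (tT_S.2 (hsl ρ σ hs)) with h12 | h12
          · exact hγ'.trans _ _ _ h11 (((P_VV h8 hγ).2.2.1 ρ σ h12 j hj).2 η hη).2
          · rwa [cp_of_notMem h8 (hγ'.root h5.1).2 (h12 _),
              ← cp_of_notMem (j := j) h8 (hγ'.root h5.1).2 (h12 (tT ρ σ))]
        have h8 := (hc ρ _ (hsl ρ _ h4) _ h6).1
        rw [cp_union] at h8
        have h9 := glb2 hγ' (h7 p (Or.inl rfl)) (h7 q (Or.inr rfl)) h8
        rw [← cp_union] at h9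
        exact ⟨h4, h9⟩
      · obtain ⟨t, h2, h3⟩ := hcov _ hx
        obtain ⟨h4, h5⟩ := (P_VV (ht t h2).1 hγ).2.2.2 ρ x h3
        have h6 := (ht t h2).2.2.2.2 ρ _ (P_slot (ht t h2).1 h4)
        exact ⟨row_mono (ht t h2).2.1 h4, fun j hj =>
          ⟨(h5 j hj).1.mono hγ'.trans (h6 j hj), (h5 j hj).2.mono hγ'.trans (h6 j hj)⟩⟩
    have hP : p ∪ q ∈ X.P β := by
      have := In.mk' (P_mem hp)
      have := In.mk' (P_mem hq)
      exact mem_P.2 ⟨In.mem _, inf_omega.union (P_mem hp) (P_mem hq) (P_le hp) (P_le hq),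
        fun a ha => (mem_union.1 ha).elim ((mem_P.1 hp).2.2.1 a) ((mem_P.1 hq).2.2.1 a),
        fun γ hγ => (key γ hγ).1⟩
    exact ⟨hP, mem_L.2 ⟨hP, hp, hsp, fun γ hγ => (key γ hγ).2.1⟩,
      mem_L.2 ⟨hP, hq, hsq, fun γ hγ => (key γ hγ).2.2⟩⟩

/-- amalgamation -/
theorem amal (hβ : X.Od β) (hγ : X.Od γ) (hs : γ ⊆ β) (hp : p ∈ X.P β)
    (h : pair r (res p γ) ∈ X.L γ) : pair (p ∪ r) p ∈ X.L β ∧ pair (p ∪ r) r ∈ X.L β ∧
      res (p ∪ r) γ = r ∧ ∀ γ', γ' ∉ γ → row (p ∪ r) γ' = row p γ' := by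
  have h1 := P_res_self (L_left h)
  have h2 : ∀ γ', γ' ∉ γ → ∀ y, y ∉ row r γ' := fun γ' h' y hy => h' (P_row (L_left h) hy).1
  obtain ⟨-, h3, h4⟩ := uni hβ γ p r hγ.ord.isTransitive hp (P_lift (L_left h) hs)
    (by rw [h1]; exact L_lift h hs) fun γ' h' => Or.inr (Or.inl (h2 γ' h'))
  refine ⟨h3, h4, ?_, fun γ' h' => ?_⟩
  · rw [res_union, h1]
    ext a
    rw [mem_union]
    exact ⟨fun h' => h'.elim (fun h' => L_sub h h') id, Or.inr⟩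
  · ext y
    rw [row_union, mem_union]
    exact ⟨fun h => h.resolve_right (h2 γ' h' y), Or.inl⟩

end Ctx

end Pool.Agent.P.MP_3ab3de_lc
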