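import Pool.Agent.P.MP_3ab3de_lc.Iface

/-! Topology of the generalized Baire space inside a transitive model. -/

set_option linter.unusedSectionVars false

namespace Pool.Agent.P.MP_3ab3de_lc

open ZFSet

namespace TopP

variable {N : Set ZF} [TModel N] {κ : ZF}

theorem app_res {a b f c x : ZF} (h : IsFunc a b f) (hc : c ⊆ a) (hx : x ∈ c) :
    app (res f c) x = app f x :=
  (h.res hc).app_eq (mem_res.2 ⟨h.app_mem (hc hx), by simpa using hx⟩)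

theorem fn_ext {a b b' x y : ZF} (hx : IsFunc a b x) (hy : IsFunc a b' y)
    (h : ∀ η ∈ a, app x η = app y η) : x = y :=
  hx.eq_of_subset hy fun p hp => by
    obtain ⟨η, hη, ζ, -, rfl⟩ := hx.exists_pair hp
    rw [← hx.app_eq hp, h η hη]
    exact hy.app_mem hη

theorem res_eq {a a' b b' x y ξ : ZF} (hx : IsFunc a b x) (hy : IsFunc a' b' y) (h1 : ξ ⊆ a)
    (h2 : ξ ⊆ a') (h : ∀ η ∈ ξ, app x η = app y η) : res x ξ = res y ξ :=
  fn_ext (hx.res h1) (hy.res h2) fun η hη => by rw [app_res hx h1 hη, app_res hy h2 hη, h η hη]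

theorem agree_iff {a b b' x y ξ : ZF} (hx : IsFunc a b x) (hy : IsFunc a b' y) (h : ξ ⊆ a) :
    Agree ξ x y ↔ ∀ η ∈ ξ, app x η = app y η :=
  ⟨fun H η hη => (hy.app_eq ((H η hη _).1 (hx.app_mem (h hη)))).symm, fun H η hη ζ =>
    ⟨fun h1 => by rw [← hx.app_eq h1, H η hη]; exact hy.app_mem (h hη),
      fun h1 => by rw [← hy.app_eq h1, ← H η hη]; exact hx.app_mem (h hη)⟩⟩

theorem agree_of_res {x y ξ : ZF} (h : res x ξ = res y ξ) : Agree ξ x y := fun η hη ζ => by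
  have : pair η ζ ∈ res x ξ ↔ pair η ζ ∈ res y ξ := by rw [h]
  simpa [hη] using this

theorem agree_mono {x y ξ ξ' : ZF} (h : Agree ξ x y) (h' : ξ' ⊆ ξ) : Agree ξ' x y :=
  fun η hη => h η (h' hη)

theorem sub_l (a b : ZF) : a ⊆ a ∪ b := fun _ h => mem_union.2 (Or.inl h)

theorem sub_r (a b : ZF) : b ⊆ a ∪ b := fun _ h => mem_union.2 (Or.inr h)

theorem mem_two {j : ZF} : j ∈ num 2 ↔ j = num 0 ∨ j = num 1 := by
  rw [mem_num]
  constructor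
  · rintro ⟨m, hm, rfl⟩
    interval_cases m
    exacts [Or.inl rfl, Or.inr rfl]
  · rintro (rfl | rfl)
    exacts [⟨0, by omega, rfl⟩, ⟨1, by omega, rfl⟩]

/-- sequences of length less than `κ` -/
noncomputable def seqs (N : Set ZF) (κ : ZF) : ZF :=
  bun (fun ξ => ZFSet.sep (IsFunc ξ κ) (pw N (prod ξ κ))) κ

theorem mem_seqs {s : ZF} : s ∈ seqs N κ ↔ s ∈ N ∧ ∃ ξ ∈ κ, IsFunc ξ κ s := by
  simp only [seqs, mem_bun, mem_sep, mem_pw]
  exact ⟨fun ⟨ξ, h1, ⟨_, h2⟩, h3⟩ => ⟨h2, ξ, h1, h3⟩,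
    fun ⟨h2, ξ, h1, h3⟩ => ⟨ξ, h1, ⟨h3.1, h2⟩, h3⟩⟩

theorem seqs_mem (h : κ ∈ N) : seqs N κ ∈ N := by
  have := In.mk' h
  unfold seqs
  exact In.mem _

/-- the hypothesis on the tree of approximations -/
def Sch (N : Set ZF) (κ : ZF) (w : ZF → ZF → ZF) : Prop :=
  ∀ ξ ∈ κ, ∀ σ ∈ N, IsFunc ξ (num 2) σ →
    (∀ j ∈ num 2, w σ j ⊆ prod κ κ ∧
      (∀ η ζ ζ', pair η ζ ∈ w σ j → pair η ζ' ∈ w σ j → ζ = ζ') ∧
      (∀ η ∈ ξ, ∃ ζ, pair η ζ ∈ w σ j) ∧ ∀ η ∈ ξ, w (res σ η) (app σ η) ⊆ w σ j) ∧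
    ∃ η ζ ζ', ζ ≠ ζ' ∧ pair η ζ ∈ w σ (num 0) ∧ pair η ζ' ∈ w σ (num 1)

/-- the point of a branch -/
noncomputable def xz (κ : ZF) (w : ZF → ZF → ZF) (z : ZF) : ZF :=
  bun (fun η => w (res z η) (app z η)) κ

theorem sub_xz {w : ZF → ZF → ZF} {z η : ZF} (h : η ∈ κ) : w (res z η) (app z η) ⊆ xz κ w z :=
  fun _ hp => mem_bun.2 ⟨η, h, hp⟩

section perfect

variable {w : ZF → ZF → ZF} (hκ : Hart N om κ) (hw : Tm N (fun v => w (v 0) (v 1)))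
  (H : Sch N κ w)
include hκ H

theorem node {z η : ZF} (hz : z ∈ N) (h : IsFunc κ (num 2) z) (hη : η ∈ κ) :
    w (res z η) (app z η) ⊆ prod κ κ ∧
      (∀ a ζ ζ', pair a ζ ∈ w (res z η) (app z η) → pair a ζ' ∈ w (res z η) (app z η) → ζ = ζ') ∧
      (∀ a ∈ η, ∃ ζ, pair a ζ ∈ w (res z η) (app z η)) ∧
      ∀ a ∈ η, w (res z a) (app z a) ⊆ w (res z η) (app z η) := by
  have := In.mk' hz
  have := In.mk' (tr hκ.mem hη)
  have h0 := hκ.ord.subset_of_mem hη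
  obtain ⟨h1, h2, h3, h4⟩ := (H η hη (res z η) (In.mem _) (h.res h0)).1 _ (h.app_mem' hη)
  refine ⟨h1, h2, h3, fun a ha => ?_⟩
  have := h4 a ha
  rwa [res_res ((hκ.ord.mem hη).subset_of_mem ha), app_res h h0 ha] at this

theorem xz_fn {z : ZF} (hz : z ∈ N) (h : IsFunc κ (num 2) z) : IsFunc κ κ (xz κ w z) := by
  refine ⟨fun p hp => ?_, fun a ha => ?_⟩
  · obtain ⟨η, hη, hp⟩ := mem_bun.1 hp
    exact (node hκ H hz h hη).1 hp
  · have h1 := hκ.succ inf_omega ha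
    obtain ⟨ζ, h2⟩ := (node hκ H hz h h1).2.2.1 a (mem_insert _ _)
    refine ⟨ζ, sub_xz h1 h2, fun ζ' h3 => ?_⟩
    obtain ⟨η, hη, h3⟩ := mem_bun.1 h3
    rcases (hκ.ord.mem hη).mem_trichotomous (hκ.ord.mem h1) with h4 | rfl | h4
    · exact (node hκ H hz h h1).2.1 a _ _ ((node hκ H hz h h1).2.2.2 η h4 h3) h2
    · exact (node hκ H hz h h1).2.1 a _ _ h3 h2
    · exact (node hκ H hz h hη).2.1 a _ _ h3 ((node hκ H hz h hη).2.2.2 _ h4 h2)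

theorem xz_cont {z z' ξ : ZF} (hz : z ∈ N) (h : IsFunc κ (num 2) z) (hz' : z' ∈ N)
    (h' : IsFunc κ (num 2) z') (hξ : ξ ∈ κ) (e : ∀ η ∈ insert ξ ξ, app z η = app z' η) :
    Agree ξ (xz κ w z) (xz κ w z') := by
  have h0 := hκ.ord.subset_of_mem hξ
  refine (agree_iff (xz_fn hκ H hz h) (xz_fn hκ H hz' h') h0).2 fun a ha => ?_
  obtain ⟨ζ, h2⟩ := (node hκ H hz h hξ).2.2.1 a ha
  rw [(xz_fn hκ H hz h).app_eq (sub_xz hξ h2)]
  rw [res_eq h h' h0 h0 fun η hη => e η (mem_insert_of_mem _ hη), e ξ (mem_insert _ _)] at h2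
  exact ((xz_fn hκ H hz' h').app_eq (sub_xz hξ h2)).symm

include hw

theorem split {σ ξ : ZF} (hξ : ξ ∈ κ) (hσ : σ ∈ N) (h : IsFunc ξ (num 2) σ) :
    ∃ β ∈ κ, ∀ x z, z ∈ N → IsFunc κ (num 2) z → Agree β x (xz κ w z) →
      (∀ η ∈ ξ, w (res σ η) (app σ η) ⊆ x) → ∀ η ∈ ξ, app σ η = app z η := by
  have := fun s t [Tm N s] [Tm N t] => hw.two s t
  have := In.mk' hσ
  have ho := hκ.ord.mem hξ
  obtain ⟨β, hβ, h1⟩ := hκ.bdd_wit inf_omega (fun η a => ∃ ζ ζ', ζ ≠ ζ' ∧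
      pair a ζ ∈ w (res σ η) (num 0) ∧ pair a ζ' ∈ w (res σ η) (num 1)) inferInstance
    (tr hκ.mem hξ) (hκ.le ξ hξ) fun η hη => by
      have := In.mk' (tr (tr hκ.mem hξ) hη)
      obtain ⟨h2, a, ζ, ζ', h3⟩ := H η (hκ.ord.mem_trans hη hξ) (res σ η) (In.mem _)
        (h.res (ho.subset_of_mem hη))
      exact ⟨a, (pair_mem_prod.1 ((h2 _ (mem_two.2 (Or.inl rfl))).1 h3.2.1)).1, ζ, ζ', h3⟩
  refine ⟨β, hβ, fun x z hz hf hA hG η => ?_⟩
  induction η using ZFSet.inductionOn with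
  | h η ih =>
    intro hη
    have hη' := hκ.ord.mem_trans hη hξ
    have e : res σ η = res z η := res_eq h hf (ho.subset_of_mem hη) (hκ.ord.subset_of_mem hη')
      fun a ha => ih a ha (ho.mem_trans ha hη)
    obtain ⟨a, ha, ζ, ζ', h3, h4, h5⟩ := h1 η hη
    have h6 := hG η hη
    have h7 := sub_xz (w := w) (z := z) hη'
    rw [← e] at h7
    have h8 := xz_fn hκ H hz hf
    rcases mem_two.1 (h.app_mem' hη) with e1 | e1 <;>
      rcases mem_two.1 (hf.app_mem' hη') with e2 | e2 <;> rw [e1] at h6 <;> rw [e2] at h7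
    · rw [e1, e2]
    · exact absurd (h8.uniq ((hA a ha _).1 (h6 h4)) (h7 h5)) h3
    · exact absurd (h8.uniq (h7 h4) ((hA a ha _).1 (h6 h5))) h3
    · rw [e1, e2]

theorem xz_cont' {z ξ : ZF} (hz : z ∈ N) (h : IsFunc κ (num 2) z) (hξ : ξ ∈ κ) :
    ∃ β ∈ κ, ∀ z' ∈ N, IsFunc κ (num 2) z' → Agree β (xz κ w z) (xz κ w z') →
      ∀ η ∈ ξ, app z η = app z' η := by
  have := In.mk' hz
  have := In.mk' (tr hκ.mem hξ)
  have h0 := hκ.ord.subset_of_mem hξ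
  obtain ⟨β, hβ, h1⟩ := split hκ hw H hξ (In.mem (res z ξ)) (h.res h0)
  refine ⟨β, hβ, fun z' hz' h' hA η hη => ?_⟩
  rw [← app_res h h0 hη]
  refine h1 _ z' hz' h' hA (fun a ha => ?_) η hη
  rw [res_res ((hκ.ord.mem hξ).subset_of_mem ha), app_res h h0 ha]
  exact sub_xz (h0 ha)

theorem xz_closed {x : ZF} (hx : Baire N κ x)
    (h : ∀ γ ∈ κ, ∃ z ∈ N, IsFunc κ (num 2) z ∧ Agree γ x (xz κ w z)) :
    ∃ z ∈ N, IsFunc κ (num 2) z ∧ xz κ w z = x := by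
  have := fun s t [Tm N s] [Tm N t] => hw.two s t
  have := In.mk' hx.1
  obtain ⟨z, hz, h1, h2⟩ := tdc (M := N) (fun g j => w g j ⊆ x) inferInstance hκ.ord hκ.mem
    (In.mem (num 2)) fun ξ hξ g hg h1 h2 => by
      obtain ⟨β, hβ, h3⟩ := split hκ hw H hξ hg h1
      by_contra h4
      have h5 : ∀ j ∈ num 2, ∃ a ∈ κ, ∃ ζ, pair a ζ ∈ w g j ∧ pair a ζ ∉ x := fun j hj => by
        by_contra h6
        refine h4 ⟨j, hj, fun p hp => ?_⟩
        obtain ⟨a, ha, ζ, -, rfl⟩ := mem_prod.1 (((H ξ hξ g hg h1).1 j hj).1 hp)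
        exact by_contra fun h7 => h6 ⟨a, ha, ζ, hp, h7⟩
      obtain ⟨a, ha, ζ, h6, h7⟩ := h5 _ (mem_two.2 (Or.inl rfl))
      obtain ⟨b, hb, ζ', h8, h9⟩ := h5 _ (mem_two.2 (Or.inr rfl))
      obtain ⟨z, hz, hf, hA⟩ := h _ (hκ.union hβ
        (hκ.union (hκ.succ inf_omega ha) (hκ.succ inf_omega hb)))
      have h0 := hκ.ord.subset_of_mem hξ
      have e : g = res z ξ := fn_ext h1 (hf.res h0) fun η hη => by
        rw [app_res hf h0 hη]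
        exact h3 x z hz hf (agree_mono hA (sub_l _ _)) h2 η hη
      have h10 := sub_xz (w := w) (z := z) hξ
      rw [← e] at h10
      rcases mem_two.1 (hf.app_mem' hξ) with e2 | e2 <;> rw [e2] at h10
      · exact h7 ((hA a (sub_r _ _ (sub_l _ _ (mem_insert _ _))) _).2 (h10 h6))
      · exact h9 ((hA b (sub_r _ _ (sub_r _ _ (mem_insert _ _))) _).2 (h10 h8))
  refine ⟨z, hz, h1, (xz_fn hκ H hz h1).eq_of_subset hx.2 fun p hp => ?_⟩
  obtain ⟨η, hη, hp⟩ := mem_bun.1 hp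
  exact h2 η hη hp

end perfect

/-- the embedding of the Baire space in the Cantor space -/
noncomputable def emb (κ c f y : ZF) : ZF :=
  graph (fun α => @ite _ (fst (app f α) ∈ κ ∧ snd (app f α) ∈ app c (app y (fst (app f α))))
    (Classical.propDecidable _) (num 1) (num 0)) κ

theorem emb_fn (κ c f y : ZF) : IsFunc κ (num 2) (emb κ c f y) :=
  graph_isFunc fun α _ => by
    split_ifs
    exacts [mem_two.2 (Or.inr rfl), mem_two.2 (Or.inl rfl)]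

theorem emb_congr {c f y y' α : ZF} (hα : α ∈ κ)
    (h : fst (app f α) ∈ κ → app y (fst (app f α)) = app y' (fst (app f α))) :
    app (emb κ c f y) α = app (emb κ c f y') α := by
  rw [emb, emb, app_graph hα, app_graph hα]
  by_cases h1 : fst (app f α) ∈ κ
  · rw [h h1]
  · rw [if_neg fun h => h1 h.1, if_neg fun h => h1 h.1]

instance {a b c d : Env → ZF} [Tm N a] [Tm N b] [Tm N c] [Tm N d] :
    Tm N (fun v => emb (a v) (b v) (c v) (d v)) := by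
  unfold emb; infer_instance

theorem exists_emb (hκ : Hart N om κ) : ∃ c ∈ N, ∃ f ∈ N,
    (∀ ξ ∈ κ, ∃ η ∈ κ, ∀ y y', (∀ a ∈ η, app y a = app y' a) →
      ∀ α ∈ ξ, app (emb κ c f y) α = app (emb κ c f y') α) ∧
    ∀ ξ ∈ κ, ∃ η ∈ κ, ∀ y y', IsFunc κ κ y → IsFunc κ κ y' →
      (∀ α ∈ η, app (emb κ c f y) α = app (emb κ c f y') α) → ∀ a ∈ ξ, app y a = app y' a := by
  have := In.mk' hκ.mem
  obtain ⟨c, hc, h1, h2⟩ := hκ.cardLE_pw (In.mem om)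
  obtain ⟨f, hf, h3⟩ := hκ.layers inf_omega (In.mem (prod κ om)) (fun ξ => prod ξ om)
    inferInstance (fun p hp => by
      obtain ⟨a, ha, n, hn, rfl⟩ := mem_prod.1 hp
      exact ⟨_, hκ.succ inf_omega ha, pair_mem_prod.2 ⟨mem_insert _ _, hn⟩⟩)
    fun ξ hξ => inf_omega.prod (hκ.le ξ hξ) inf_omega.omLe
  have := In.mk' hf
  refine ⟨c, hc, f, hf, fun ξ hξ => ?_, fun ξ hξ => ?_⟩
  · have := In.mk' (tr hκ.mem hξ)
    obtain ⟨η, hη, h4⟩ := hκ.bdd inf_omega (In.mem (img (fun α => fst (app f α)) ξ ∩ κ))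
      (fun _ h => (mem_inter.1 h).2) ((inf_omega.img (fun α => fst (app f α)) inferInstance
        (In.mem ξ) (hκ.le ξ hξ)).mono fun _ h => (mem_inter.1 h).1)
    exact ⟨η, hη, fun y y' h α hα => emb_congr (hκ.ord.mem_trans hα hξ) fun h5 =>
      h _ (h4 (mem_inter.2 ⟨img_mem (F := fun α => fst (app f α)) hα, h5⟩))⟩
  · have := In.mk' (tr hκ.mem hξ)
    have h0 := hκ.ord.subset_of_mem hξ
    obtain ⟨η, hη, h4⟩ := hκ.bdd_wit inf_omega (fun p α => app f α = p) inferInstance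
      (In.mem (prod ξ om)) (inf_omega.prod (hκ.le ξ hξ) inf_omega.omLe) fun p hp => by
        obtain ⟨a, ha, n, hn, rfl⟩ := mem_prod.1 hp
        exact h3 _ (pair_mem_prod.2 ⟨h0 ha, hn⟩)
    refine ⟨η, hη, fun y y' hy hy' h a ha => ?_⟩
    have h5 := hy.app_mem' (h0 ha)
    have h6 := hy'.app_mem' (h0 ha)
    have key : ∀ n ∈ om, n ∈ app c (app y a) ↔ n ∈ app c (app y' a) := fun n hn => by
      obtain ⟨α, hα, e⟩ := h4 _ (pair_mem_prod.2 ⟨ha, hn⟩)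
      have h7 := h α hα
      have hα' := hκ.ord.mem_trans hα hη
      rw [emb, emb, app_graph hα', app_graph hα', e, fst_pair, snd_pair] at h7
      have h01 : num 0 ≠ num 1 := fun e => absurd (num_inj.1 e) (by omega)
      by_cases h8 : n ∈ app c (app y a) <;> by_cases h9 : n ∈ app c (app y' a) <;>
        simp [h8, h9, h0 ha, h01, h01.symm] at h7 ⊢
    have e : app c (app y a) = app c (app y' a) := ZFSet.ext fun n =>
      ⟨fun h => (key n ((mem_pw.1 (h1.app_mem' h5)).1 h)).1 h,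
        fun h => (key n ((mem_pw.1 (h1.app_mem' h6)).1 h)).2 h⟩
    exact h2 _ _ _ (h1.app_mem h5) (e ▸ h1.app_mem h6)

end TopP

open TopP

theorem ch : S_CH := by
  intro N _ κ hκ F hF h1 h2
  have := In.mk' hκ.mem
  have hS := seqs_mem hκ.mem
  refine ⟨hκ.mem, hκ.ord, fun ξ hξ h => hκ.not_le
    ((h.le hκ.mem (tr hκ.mem hξ)).trans (hκ.le ξ hξ) (In.mem om)),
    fun h => hκ.not_le (h.le hκ.mem (In.mem om)), seqs N κ, hS, fun _ => mem_seqs,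
    (hκ.layers inf_omega hS F hF (fun s hs => ?_) h1).cardLE hS hκ.mem hκ.ord,
    cardLE_of_fun (fun ζ => graph (fun _ => ζ) (num 1)) inferInstance hκ.mem (fun ζ hζ => ?_)
      fun a _ b _ e => ?_⟩
  · obtain ⟨h3, ξ, hξ, h4⟩ := mem_seqs.1 hs
    exact h2 ξ hξ s h3 h4
  · have := In.mk' (tr hκ.mem hζ)
    exact mem_seqs.2 ⟨In.mem _, num 1, hκ.num inf_omega 1, graph_isFunc fun _ _ => hζ⟩
  · have := congrArg (fun g => app g (num 0)) e
    simpa only [app_graph (num_mem_num.2 Nat.zero_lt_one)] using this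

theorem kk : S_Kk := by
  intro N _ κ hκ K hK h1 h2 A h3
  have := fun s [Tm N s] => hK.one s
  have := In.mk' hκ.mem
  have := In.mk' (seqs_mem hκ.mem)
  refine ⟨graph K κ, In.mem _, img K κ, In.mem _, graph_isFunc fun _ h => img_mem h,
    fun C hC => ?_, fun x hx => ?_⟩
  · obtain ⟨η, hη, rfl⟩ := mem_img.1 hC
    refine ⟨h1 η hη, fun W hW h4 h5 => ?_⟩
    have := In.mk' hW
    obtain ⟨W0, hW0, e⟩ : ∃ W0 ∈ N, ∀ s, s ∈ W0 ↔ s ∈ seqs N κ ∧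
        ∃ U ∈ W, ∀ y, Baire N κ y → res y (dom s) = s → y ∈ U :=
      ⟨ZFSet.sep (fun s => ∃ U ∈ W, ∀ y, Baire N κ y → res y (dom s) = s → y ∈ U) (seqs N κ),
        In.mem _, fun _ => mem_sep⟩
    obtain ⟨c, hc, h6, h7⟩ := h2 η hη W0 hW0 (fun s hs => (mem_seqs.1 ((e s).1 hs).1).2)
      fun y hy => by
        obtain ⟨U, hU, h8⟩ := h5 y hy
        obtain ⟨h9, ξ, hξ, h10⟩ := h4 U hU y h8
        have := In.mk' h9.1
        have := In.mk' (tr hκ.mem hξ)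
        have h11 := h9.2.res (hκ.ord.subset_of_mem hξ)
        refine ⟨ξ, hξ, (e _).2 ⟨mem_seqs.2 ⟨In.mem _, ξ, hξ, h11⟩, U, hU, fun y' h12 h13 => ?_⟩⟩
        rw [h11.dom_eq] at h13
        exact h10 y' h12 (agree_of_res h13.symm)
    have := In.mk' hc
    have := In.mk' hW0
    obtain ⟨f, hf, h8⟩ := skolem (M := N)
      (fun s U => U ∈ W ∧ ∀ y, Baire N κ y → res y (dom s) = s → y ∈ U) inferInstance
      (In.mem (c ∩ W0)) fun s hs => by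
        obtain ⟨U, hU, h⟩ := ((e s).1 (mem_inter.1 hs).2).2
        exact ⟨U, tr hW hU, hU, h⟩
    have := In.mk' hf
    refine ⟨img (app f) (c ∩ W0), In.mem _, fun U hU => ?_, ⟨om, hκ.omega inf_omega,
      (inf_omega.img (app f) inferInstance (In.mem _)
        (h6.mono fun _ h => (mem_inter.1 h).1)).cardLE (In.mem _) (In.mem _) isOrdinal_omega⟩,
      fun y hy => ?_⟩
    · obtain ⟨s, hs, rfl⟩ := mem_img.1 hU
      exact (h8 s hs).1
    · obtain ⟨ξ, hξ, h9, h10⟩ := h7 y hy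
      have h11 := mem_inter.2 ⟨h10, h9⟩
      refine ⟨_, img_mem h11, (h8 _ h11).2 y (h1 η hη y hy) ?_⟩
      rw [((h1 η hη y hy).2.res (hκ.ord.subset_of_mem hξ)).dom_eq]
  · obtain ⟨η, hη, h⟩ := h3 x hx
    exact ⟨η, _, pair_mem_graph.2 ⟨hη, rfl⟩, h⟩

theorem perf : S_Perf := by
  intro N _ κ hκ w hw H A hA
  have := fun s t [Tm N s] [Tm N t] => hw.two s t
  have := In.mk' hκ.mem
  obtain ⟨c, hc, f, hf, h1, h2⟩ := exists_emb hκ
  have := In.mk' hc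
  have := In.mk' hf
  obtain ⟨B, hB, eB⟩ : ∃ B ∈ N, ∀ y, y ∈ B ↔ Baire N κ y :=
    ⟨ZFSet.sep (IsFunc κ κ) (pw N (prod κ κ)), In.mem _, fun y => by
      rw [mem_sep, mem_pw]
      exact ⟨fun h => ⟨h.1.2, h.2⟩, fun h => ⟨⟨h.2.1, h.1⟩, h.2⟩⟩⟩
  have := In.mk' hB
  have hx : ∀ s [Tm N s], Tm N fun v => xz κ w (s v) := fun s _ => by
    unfold xz; infer_instance
  have he : ∀ y ∈ B, emb κ c f y ∈ N := fun y hy => by
    have := In.mk' (tr hB hy)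
    exact In.mem _
  have hb : ∀ y ∈ B, Baire N κ (xz κ w (emb κ c f y)) := fun y hy => by
    have := In.mk' (tr hB hy)
    exact ⟨In.mem _, xz_fn hκ H (he y hy) (emb_fn ..)⟩
  have sub := fun ξ (h : ξ ∈ κ) => hκ.ord.subset_of_mem h
  have c2 : ∀ z ∈ N, IsFunc κ (num 2) z → ∀ ξ ∈ κ, ∃ η ∈ κ, ∀ y ∈ B,
      Agree η (xz κ w z) (xz κ w (emb κ c f y)) → ∀ α ∈ ξ, app z α = app (emb κ c f y) α :=
    fun z hz h ξ hξ => by
      obtain ⟨β, hβ, h3⟩ := xz_cont' hκ hw H hz h hξ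
      exact ⟨β, hβ, fun y hy => h3 _ (he y hy) (emb_fn ..)⟩
  have c3 : ∀ y ∈ B, ∀ ξ ∈ κ, ∃ η ∈ κ, ∀ y' ∈ B,
      Agree η (xz κ w (emb κ c f y)) (xz κ w (emb κ c f y')) → ∀ a ∈ ξ, app y a = app y' a :=
    fun y hy ξ hξ => by
      obtain ⟨η, hη, h3⟩ := h2 ξ hξ
      obtain ⟨β, hβ, h4⟩ := c2 _ (he y hy) (emb_fn ..) η hη
      exact ⟨β, hβ, fun y' hy' h => h3 y y' ((eB y).1 hy).2 ((eB y').1 hy').2 (h4 y' hy' h)⟩
  refine ⟨img (fun y => xz κ w (emb κ c f y)) B, In.mem _, fun x hx => ?_,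
    ⟨fun x hx => ?_, fun x hx h => ?_⟩, B, hB, eB, graph (fun y => xz κ w (emb κ c f y)) B,
    In.mem _, graph_isFunc fun _ h => img_mem (F := fun y => xz κ w (emb κ c f y)) h,
    fun x hx => ?_, fun y x h ξ hξ => ?_, fun y x h ξ hξ => ?_⟩
  · obtain ⟨y, hy, rfl⟩ := mem_img.1 hx
    exact hA _ (he y hy) (emb_fn ..)
  · obtain ⟨y, hy, rfl⟩ := mem_img.1 hx
    exact hb y hy
  · have h' : ∀ ξ ∈ κ, ∃ y ∈ B, Agree ξ x (xz κ w (emb κ c f y)) := fun ξ hξ => by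
      obtain ⟨_, h3, h4⟩ := h ξ hξ
      obtain ⟨y, hy, rfl⟩ := mem_img.1 h3
      exact ⟨y, hy, h4⟩
    obtain ⟨z, hz, h3, rfl⟩ := xz_closed hκ hw H hx fun γ hγ => by
      obtain ⟨y, hy, h4⟩ := h' γ hγ
      exact ⟨_, he y hy, emb_fn .., h4⟩
    have h4 : ∀ ξ ∈ κ, ∃ y ∈ B, ∀ α ∈ ξ, app z α = app (emb κ c f y) α := fun ξ hξ => by
      obtain ⟨η, hη, h5⟩ := c2 z hz h3 ξ hξ
      obtain ⟨y, hy, h6⟩ := h' η hη
      exact ⟨y, hy, h5 y hy h6⟩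
    have := In.mk' hz
    obtain ⟨g, hg, h5⟩ := skolem (M := N) (fun a b => b ∈ κ ∧ ∃ γ ∈ κ, ∀ y ∈ B,
        (∀ α ∈ γ, app z α = app (emb κ c f y) α) → app y a = b) inferInstance hκ.mem
      fun a ha => by
        obtain ⟨η, hη, h5⟩ := h2 _ (hκ.succ inf_omega ha)
        obtain ⟨y, hy, h6⟩ := h4 η hη
        have h7 := ((eB y).1 hy).2.app_mem' ha
        exact ⟨_, tr hκ.mem h7, h7, η, hη, fun y' hy' h8 => h5 y' y ((eB y').1 hy').2
          ((eB y).1 hy).2 (fun α hα => (h8 α hα).symm.trans (h6 α hα)) a (mem_insert _ _)⟩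
    have := In.mk' hg
    refine mem_img.2 ⟨graph (app g) κ,
      (eB _).2 ⟨In.mem _, graph_isFunc fun a ha => (h5 a ha).1⟩, ?_⟩
    congr 1
    refine fn_ext (emb_fn ..) h3 fun α hα => ?_
    by_cases h6 : fst (app f α) ∈ κ
    · obtain ⟨γ, hγ, h7⟩ := (h5 _ h6).2
      obtain ⟨y, hy, h8⟩ := h4 _ (hκ.union hγ (hκ.succ inf_omega hα))
      rw [h8 α (sub_r _ _ (mem_insert _ _))]
      exact emb_congr hα fun _ => by
        rw [app_graph h6, h7 y hy fun β hβ => h8 β (sub_l _ _ hβ)]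
    · obtain ⟨y, hy, h8⟩ := h4 _ (hκ.succ inf_omega hα)
      rw [h8 α (mem_insert _ _)]
      exact emb_congr hα fun h => absurd h h6
  · obtain ⟨y, hy, rfl⟩ := mem_img.1 hx
    refine ⟨y, pair_mem_graph.2 ⟨hy, rfl⟩, fun y' h => ?_⟩
    obtain ⟨hy', e⟩ := pair_mem_graph.1 h
    refine fn_ext ((eB y').1 hy').2 ((eB y).1 hy).2 fun a ha => ?_
    obtain ⟨η, -, h3⟩ := c3 y' hy' _ (hκ.succ inf_omega ha)
    exact h3 y hy (by rw [e]; exact fun _ _ _ => Iff.rfl) a (mem_insert _ _)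
  · obtain ⟨hy, rfl⟩ := pair_mem_graph.1 h
    obtain ⟨η, hη, h3⟩ := h1 _ (hκ.succ inf_omega hξ)
    refine ⟨η, hη, fun y' x' h' h4 => ?_⟩
    obtain ⟨hy', rfl⟩ := pair_mem_graph.1 h'
    exact xz_cont hκ H (he y hy) (emb_fn ..) (he y' hy') (emb_fn ..) hξ
      (h3 y y' ((agree_iff ((eB y).1 hy).2 ((eB y').1 hy').2 (sub η hη)).1 h4))
  · obtain ⟨hy, rfl⟩ := pair_mem_graph.1 h
    obtain ⟨η, hη, h3⟩ := c3 y hy ξ hξ
    refine ⟨η, hη, fun y' x' h' h4 => ?_⟩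
    obtain ⟨hy', rfl⟩ := pair_mem_graph.1 h'
    exact (agree_iff ((eB y).1 hy).2 ((eB y').1 hy').2 (sub ξ hξ)).2 (h3 y' hy' h4)

end Pool.Agent.P.MP_3ab3de_lc
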