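import Pool.Agent.P.MP_3ab3de_lc.Pos2
import Pool.Agent.P.MP_3ab3de_lc.Top

/-! The forcing: countable closure and the ways to extend a condition. -/

set_option linter.unusedSectionVars false
set_option synthInstance.maxSize 100000

namespace Pool.Agent.P.MP_3ab3de_lc

open ZFSet

/-- the decided values -/
noncomputable def dv (L w x δ a : ZF) : ZF := ZFSet.sep (fun b => dec L w x b) (prod δ a)

theorem mem_dv {L w x δ a b : ZF} : b ∈ dv L w x δ a ↔ b ∈ prod δ a ∧ dec L w x b := mem_sep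

instance tm_dv {M : Set ZF} [TModel M] {a b c d e : Env → ZF} [Tm M a] [Tm M b] [Tm M c] [Tm M d]
    [Tm M e] : Tm M (fun v => dv (a v) (b v) (c v) (d v) (e v)) := by unfold dv; infer_instance

theorem dv_func {L w x δ a : ZF} (h : ∀ η ∈ δ, ∃ ζ ∈ a, dec L w x (pair η ζ))
    (h' : ∀ η ζ ζ', dec L w x (pair η ζ) → dec L w x (pair η ζ') → ζ = ζ') :
    IsFunc δ a (dv L w x δ a) :=
  ⟨sep_subset, fun η hη => by
    obtain ⟨ζ, h1, h2⟩ := h η hη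
    exact ⟨ζ, mem_dv.2 ⟨pair_mem_prod.2 ⟨hη, h1⟩, h2⟩, fun ζ' h3 => h' _ _ _ (mem_dv.1 h3).2 h2⟩⟩

theorem dec.shape {L w x b P a : ZF} (h : dec L w x b) (hx : x ⊆ prod P a) : b ∈ a := by
  obtain ⟨d, -, h⟩ := h
  exact (pair_mem_prod.1 (hx h)).2

theorem cc_insert {w R t ρ σ j : ZF} (h : ∀ a, tN ρ σ j a ≠ t) :
    cc w (insert t R) ρ σ j = cc w R ρ σ j := by
  ext a; simp only [mem_cc, mem_insert_iff, h a, false_or]

namespace Ctx

variable {X : Ctx} {β γ α p q r ρ σ j x : ZF}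

theorem chain (hβ : X.Od β) {F : ZF → ZF} (hF : Tm X.M (fun v => F (v 0)))
    (h : ∀ n : ℕ, pair (F (num (n + 1))) (F (num n)) ∈ X.L β) (n : ℕ) :
    pair (bun F om) (F (num n)) ∈ X.L β := by
  have key : ∀ m k : ℕ, pair (F (num (m + k))) (F (num m)) ∈ X.L β := fun m k => by
    induction k with
    | zero => exact L_refl (L_right (h m))
    | succ k ih => exact hβ.trans _ _ _ (h (m + k)) ih
  refine (dun hβ (fun a => ∃ n : ℕ, a = F (num n)) (bun F om) (In.mem _)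
    (inf_omega.bun F hF (In.mem _) (Le.refl (In.mem _)) fun x hx => ?_) ?_ (fun y hy => ?_) ?_).2
    _ ⟨n, rfl⟩
  · obtain ⟨n, rfl⟩ := mem_omega.1 hx
    exact P_le (L_right (h n))
  · rintro _ ⟨n, rfl⟩
    exact ⟨L_right (h n), fun y hy => mem_bun.2 ⟨_, num_mem_omega n, hy⟩⟩
  · obtain ⟨x, hx, hy⟩ := mem_bun.1 hy
    obtain ⟨n, rfl⟩ := mem_omega.1 hx
    exact ⟨_, ⟨n, rfl⟩, hy⟩
  · rintro _ _ ⟨m, rfl⟩ ⟨n, rfl⟩
    exact ⟨_, ⟨m + n, rfl⟩, key m n, add_comm m n ▸ key n m⟩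

theorem baireL (hβ : X.Od β) (D : ZF → ZF → Prop) (hD : Df X.M (fun v => D (v 0) (v 1))) {I : ZF}
    (hI : I ∈ X.M) (hc : Le X.M I om) (hp : p ∈ X.P β)
    (hd : ∀ i ∈ I, ∀ q, pair q p ∈ X.L β → ∃ r, pair r q ∈ X.L β ∧ D i r)
    (ho : ∀ i ∈ I, ∀ q r, D i q → pair r q ∈ X.L β → D i r) :
    ∃ q, pair q p ∈ X.L β ∧ ∀ i ∈ I, D i q := by
  have := In.mk' hβ.mem
  obtain ⟨q, -, h⟩ := baire (M := X.M) (fun a b => pair a b ∈ X.L β) inferInstance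
    (In.mem (X.P β)) hβ.trans (fun f hf h => by
      have := In.mk' hf
      have h1 := chain hβ (F := app f) inferInstance fun n => (h n).2
      exact ⟨_, L_left (h1 0), h1⟩) D hD hc hp (fun q => L_refl) (fun i hi q _ h => by
        obtain ⟨r, h1, h2⟩ := hd i hi q h
        exact ⟨r, L_left h1, h1, h2⟩) ho hI
  exact ⟨q, h⟩

/-- closing off -/
theorem closing (hβ : X.Od β) (D : ZF → ZF → Prop) (hD : Df X.M (fun v => D (v 0) (v 1)))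
    (hp : p ∈ X.P β) (hd : ∀ q, pair q p ∈ X.L β → ∀ y ∈ q, ∃ r, pair r q ∈ X.L β ∧ D y r)
    (ho : ∀ y q r, D y q → pair r q ∈ X.L β → D y r) :
    ∃ q, pair q p ∈ X.L β ∧ ∀ y ∈ q, D y q := by
  have := fun s t [Tm X.M s] [Tm X.M t] => hD.two s t
  have := In.mk' hβ.mem
  have := In.mk' (P_mem hp)
  obtain ⟨f, hf, h1, h2⟩ := dc (M := X.M) (fun _ a b => pair b a ∈ X.L β ∧ ∀ y ∈ a, D y b)
    inferInstance (In.mem (ZFSet.sep (fun q => pair q p ∈ X.L β) (X.P β)))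
    (mem_sep.2 ⟨hp, L_refl hp⟩) fun _ a ha => by
      obtain ⟨h1, h2⟩ := mem_sep.1 ha
      obtain ⟨q, h3, h4⟩ := baireL hβ D hD (P_mem h1) (P_le h1) h1
        (fun y hy q hq => hd q (hβ.trans _ _ _ hq h2) y (L_sub hq hy)) fun y _ => ho y
      exact ⟨q, mem_sep.2 ⟨L_left h3, hβ.trans _ _ _ h3 h2⟩, h3, h4⟩
  have := In.mk' hf
  have h3 := chain hβ (F := app f) inferInstance fun n => (h2 n).2.1
  refine ⟨_, h1 ▸ h3 0, fun y hy => ?_⟩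
  obtain ⟨x, hx, hy⟩ := mem_bun.1 hy
  obtain ⟨n, rfl⟩ := mem_omega.1 hx
  exact ho _ _ _ ((h2 n).2.2 y hy) (h3 (n + 1))

/-- changing one row -/
theorem rowmod (hβ : X.Od β) (hγ : γ ∈ β) (hp : p ∈ X.P β) {R : ZF} (hR : R ∈ X.M)
    (hc : Le X.M R om) (h1 : R ⊆ RowA X.M X.κ γ (X.L γ)) (h2 : row p γ ⊆ R)
    (h3 : VV X.κ (X.L γ) (res p γ) R) (h4 : OO X.κ (X.L γ) (res p γ) R (res p γ) (row p γ)) :
    ∃ p', pair p' p ∈ X.L β ∧ res p' γ = res p γ ∧ row p' γ = R := by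
  have hγ' := hβ.of_mem hγ
  have := In.mk' hγ'.mem
  have := In.mk' hR
  have := In.mk' (P_mem hp)
  have e1 : res (res p γ ∪ prod {γ} R) γ = res p γ := by
    ext a
    simp only [mem_res, mem_union, mem_prod, mem_singleton]
    refine ⟨fun h => h.1.elim id ?_, fun h => ⟨Or.inl h, h.2⟩⟩
    rintro ⟨_, rfl, y, -, rfl⟩
    exact absurd (by simpa using h.2) (mem_irrefl _)
  have e2 : row (res p γ ∪ prod {γ} R) γ = R := by
    ext a; simp [mem_irrefl]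
  have hs : γ ⊆ insert γ γ := fun _ h => mem_insert_of_mem _ h
  have h5 : res p γ ∪ prod {γ} R ∈ X.P (insert γ γ) := by
    refine mem_P.2 ⟨In.mem _, inf_omega.union (In.mem _) (In.mem _) (P_le (P_res hp hγ'))
      (inf_omega.prod (inf_omega.singleton hγ'.mem) hc), fun a ha => ?_, fun γ' h' => ?_⟩
    · rcases mem_union.1 ha with h | h
      · exact (mem_P.1 (P_lift (P_res hp hγ') hs)).2.2.1 a h
      · obtain ⟨_, h6, y, hy, rfl⟩ := mem_prod.1 h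
        obtain rfl := mem_singleton.1 h6
        exact ⟨_, mem_insert _ _, y, h1 hy, rfl⟩
    · rcases mem_insert_iff.1 h' with rfl | h'
      · rwa [e1, e2]
      · rw [← res_res (hγ'.sub h'), ← row_res h', e1]
        exact P_VV (P_res hp hγ') h'
  have h6 : pair (res p γ ∪ prod {γ} R) (res p (insert γ γ)) ∈ X.L (insert γ γ) := by
    refine mem_L.2 ⟨h5, P_res hp hγ'.succ, fun a ha => ?_, fun γ' h' => ?_⟩
    · obtain ⟨h6, h7⟩ := mem_res.1 ha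
      rcases mem_insert_iff.1 h7 with h | h
      · obtain ⟨γ', -, y, -, rfl⟩ := (mem_P.1 hp).2.2.1 a h6
        obtain rfl : γ' = γ := by simpa using h
        exact mem_union.2 (Or.inr (pair_mem_prod.2 ⟨mem_singleton.2 rfl, h2 (mem_row.2 h6)⟩))
      · exact mem_union.2 (Or.inl (mem_res.2 ⟨h6, h⟩))
    · rw [res_res (hγ'.succ.sub h'), row_res h']
      rcases mem_insert_iff.1 h' with rfl | h'
      · rwa [e1, e2]
      · rw [← res_res (hγ'.sub h'), ← row_res h', e1, res_res (hγ'.sub h'), row_res h']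
        exact (P_VV' hp γ').refl
  obtain ⟨h7, -, h8, -⟩ := amal hβ hγ'.succ
    (fun a ha => (mem_insert_iff.1 ha).elim (fun e => e ▸ hγ) fun h => hβ.sub hγ h) hp h6
  exact ⟨_, h7, by rw [← res_res hs, h8, e1], by rw [← row_res (mem_insert γ γ), h8, e2]⟩

/-- adding an atom that is not part of a slot -/
theorem add1 (hβ : X.Od β) (hγ : γ ∈ β) (hp : p ∈ X.P β) {t : ZF}
    (ht : t ∈ RowA X.M X.κ γ (X.L γ)) (hN : ∀ ρ σ j a, tN ρ σ j a ≠ t) (hT : ∀ ρ σ, tT ρ σ ≠ t)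
    (hX : ∀ x, tX x = t → Tot X.κ (X.L γ) (res p γ) x)
    (hY : ∀ ρ x, tY ρ x = t → tT ρ ∅ ∈ row p γ ∧ ∀ j ∈ num 2,
      Tot X.κ (X.L γ) (cp p γ ρ ∅ j) x ∧ Split X.κ (X.L γ) (snd ρ) (cp p γ ρ ∅ j) x)
    (hL : ∀ δ l x, tL δ l = t → tX x ∈ row p γ →
      ∃ s ∈ l, IsFunc δ X.κ s ∧ ∀ b ∈ s, dec (X.L γ) (res p γ) x b) :
    ∃ p', pair p' p ∈ X.L β ∧ res p' γ = res p γ ∧ row p' γ = insert t (row p γ) := by
  have := In.mk' (hβ.of_mem hγ).mem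
  have := In.mk' (P_mem hp)
  have hm : t ∈ X.M := tr (In.mem _) ht
  have := In.mk' hm
  obtain ⟨h1, h2, h3, h4⟩ := P_VV hp hγ
  refine rowmod hβ hγ hp (In.mem _) (inf_omega.insert hm (In.mem _) (le_row (P_mem hp) (P_le hp)))
    (fun y hy => (mem_insert_iff.1 hy).elim (fun e => e ▸ ht) fun h => (P_row hp h).2)
    (fun _ h => mem_insert_of_mem _ h) ?_ ?_
  · simp only [VV, cc_insert (hN _ _ _), mem_insert_iff, hN, hT, false_or]
    exact ⟨fun x h => h.elim (hX x) (h1 x), h2, h3, fun ρ x h => h.elim (hY ρ x) (h4 ρ x)⟩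
  · simp only [OO, cc_insert (hN _ _ _), mem_insert_iff, hT, false_or]
    exact ⟨fun δ l x h5 h6 => hL δ l x (h5.resolve_right h6), fun ρ σ h5 j hj => (h3 ρ σ h5 j hj).1,
      fun _ _ _ h5 h6 => absurd h5 h6⟩

theorem addX (hβ : X.Od β) (hγ : γ ∈ β) (hp : p ∈ X.P β) (hx : x ∈ Nm X.M X.κ (X.L γ))
    (h : Tot X.κ (X.L γ) (res p γ) x) : ∃ p', pair p' p ∈ X.L β ∧ tX x ∈ row p' γ := by
  obtain ⟨p', h1, -, h2⟩ := add1 hβ hγ hp (tX_A.2 hx) (by simp) (by simp)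
    (fun x' e => by obtain rfl : x' = x := by simpa using e
                    exact h) (by simp) (by simp)
  exact ⟨p', h1, h2 ▸ mem_insert _ _⟩

theorem addL (hβ : X.Od β) (hγ : γ ∈ β) (hp : p ∈ X.P β) {δ : ZF} (hδ : δ ∈ X.κ) :
    ∃ p', pair p' p ∈ X.L β ∧ ∃ l, tL δ l ∈ row p' γ ∧ ∀ s ∈ l, IsFunc δ X.κ s ∧
      ∃ x, tX x ∈ row p γ ∧ ∀ b ∈ s, dec (X.L γ) (res p' γ) x b := by
  have hγ' := hβ.of_mem hγ
  have := In.mk' hγ'.mem
  have := In.mk' (P_mem hp)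
  have := In.mk' (od_κ.of_mem hδ).mem
  have hc : Le X.M (row (row p γ) (num 1)) om := le_row (In.mem _) (le_row (P_mem hp) (P_le hp))
  obtain ⟨w, h1, h2⟩ := baireL hγ' (fun i w => ∃ ζ, dec (X.L γ) w (fst i) (pair (snd i) ζ))
    inferInstance (In.mem (prod (row (row p γ) (num 1)) δ)) (inf_omega.prod hc (X.hκ.le δ hδ))
    (P_res hp hγ') (fun i hi q hq => by
      obtain ⟨x, hx, η, hη, rfl⟩ := mem_prod.1 hi
      simpa using ((P_VV hp hγ).1 x (mem_row.1 hx) q hq).1 η (od_κ.sub hδ hη))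
    fun i _ q r ⟨ζ, h⟩ h' => ⟨ζ, h.mono hγ'.trans h'⟩
  have := In.mk' (P_mem (L_left h1))
  obtain ⟨h3, -, h4, h5⟩ := amal hβ hγ' (hβ.sub hγ) hp h1
  have h6 := h5 γ (mem_irrefl γ)
  have key : ∀ x, tX x ∈ row p γ → IsFunc δ X.κ (dv (X.L γ) w x δ X.κ) := fun x hx =>
    dv_func (fun η hη => by
      obtain ⟨ζ, h⟩ := h2 (pair x η) (pair_mem_prod.2 ⟨mem_row.2 hx, hη⟩)
      simp only [fst_pair, snd_pair] at h
      exact ⟨ζ, (pair_mem_prod.1 (h.shape (mem_Nm.1 (tX_A.1 (P_row hp hx).2)).1)).2, h⟩)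
      ((P_VV hp hγ).1 x hx w h1).2
  obtain ⟨p', h7, h8, h9⟩ := add1 hβ hγ (L_left h3)
    (t := tL δ (img (fun x => dv (X.L γ) w x δ X.κ) (row (row p γ) (num 1))))
    (tL_A.2 ⟨hδ, mem_cs.2 ⟨⟨fun s hs => by
      obtain ⟨x, hx, rfl⟩ := mem_img.1 hs
      have := In.mk' (tr (In.mem (M := X.M) _) hx)
      exact mem_Sq'.2 ⟨In.mem _, δ, hδ, key x (mem_row.1 hx)⟩, In.mem _⟩,
      inf_omega.img _ inferInstance (In.mem _) hc⟩⟩) (by simp) (by simp) (by simp) (by simp)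
    fun δ' l x e hx => by
      obtain ⟨rfl, rfl⟩ : δ' = δ ∧ l = _ := by simpa using e
      rw [h6] at hx
      rw [h4]
      exact ⟨_, img_mem (mem_row.2 hx), key x hx, fun b hb => (mem_dv.1 hb).2⟩
  refine ⟨p', hβ.trans _ _ _ h7 h3, _, h9 ▸ mem_insert _ _, fun s hs => ?_⟩
  obtain ⟨x, hx, rfl⟩ := mem_img.1 hs
  rw [h8, h4]
  exact ⟨key x (mem_row.1 hx), x, mem_row.1 hx, fun b hb => (mem_dv.1 hb).2⟩

theorem sync (hβ : X.Od β) (hα : X.Od α) (hs : α ⊆ β) {q0 q1 q : ZF} (h1 : q1 ∈ X.P β)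
    (e : res q0 α = res q1 α) (h : pair q q0 ∈ X.L β) :
    ∃ q', pair q' q1 ∈ X.L β ∧ res q α = res q' α := by
  obtain ⟨h2, -, h3, -⟩ := amal hβ hα hs h1 (e ▸ L_res h hα)
  exact ⟨_, h2, h3.symm⟩

/-- two extensions with the same initial part which decide and split countably many names -/
theorem twin (hβ : X.Od β) (hα : X.Od α) (hs : α ⊆ β) {e Y ξ : ZF} (he : e ∈ X.P β) (hY : Y ∈ X.M)
    (hc : Le X.M Y om) (hξ : ξ ∈ X.κ)
    (H : ∀ x ∈ Y, Tot X.κ (X.L β) e x ∧ Split X.κ (X.L β) α e x) :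
    ∃ q0 q1, pair q0 e ∈ X.L β ∧ pair q1 e ∈ X.L β ∧ res q0 α = res q1 α ∧ ∀ x ∈ Y,
      (∀ η ∈ ξ, (∃ ζ, dec (X.L β) q0 x (pair η ζ)) ∧ ∃ ζ, dec (X.L β) q1 x (pair η ζ)) ∧
        spl X.κ (X.L β) q0 q1 x := by
  have := In.mk' hβ.mem
  have := In.mk' hα.mem
  have := In.mk' hY
  have := In.mk' (od_κ.of_mem hξ).mem
  have hξ' := X.hκ.succ inf_omega hξ
  have ht := hβ.trans
  have hS : ∀ a b, a ∈ X.P β → b ∈ X.P β → res a α = res b α → pair a b ∈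
      ZFSet.sep (fun z => res (fst z) α = res (snd z) α) (prod (X.P β) (X.P β)) :=
    fun a b ha hb h => mem_sep.2 ⟨pair_mem_prod.2 ⟨ha, hb⟩, by simpa using h⟩
  obtain ⟨z, hz, h1, h2⟩ := baire (M := X.M)
    (fun a b => pair (fst a) (fst b) ∈ X.L β ∧ pair (snd a) (snd b) ∈ X.L β) inferInstance
    (In.mem (ZFSet.sep (fun z => res (fst z) α = res (snd z) α) (prod (X.P β) (X.P β))))
    (fun _ _ _ h h' => ⟨ht _ _ _ h.1 h'.1, ht _ _ _ h.2 h'.2⟩) (fun f hf h => by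
      have := In.mk' hf
      have h1 := chain hβ (F := fun n => fst (app f n)) inferInstance fun n => (h n).2.1
      have h2 := chain hβ (F := fun n => snd (app f n)) inferInstance fun n => (h n).2.2
      refine ⟨_, hS _ _ (L_left (h1 0)) (L_left (h2 0)) ?_, fun n => by simpa using ⟨h1 n, h2 n⟩⟩
      have h3 : ∀ n ∈ om, ∀ a, a ∈ fst (app f n) ∧ fst a ∈ α ↔ a ∈ snd (app f n) ∧ fst a ∈ α :=
        fun n hn a => by
          obtain ⟨n, rfl⟩ := mem_omega.1 hn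
          rw [← mem_res, ← mem_res, (mem_sep.1 (h n).1).2]
      ext a
      simp only [mem_res, mem_bun]
      exact ⟨fun ⟨⟨n, hn, h⟩, h'⟩ => ⟨⟨n, hn, ((h3 n hn a).1 ⟨h, h'⟩).1⟩, h'⟩,
        fun ⟨⟨n, hn, h⟩, h'⟩ => ⟨⟨n, hn, ((h3 n hn a).2 ⟨h, h'⟩).1⟩, h'⟩⟩)
    (fun i z => ((∃ ζ, dec (X.L β) (fst z) (fst i) (pair (snd i) ζ)) ∧
      ∃ ζ, dec (X.L β) (snd z) (fst i) (pair (snd i) ζ)) ∧ spl X.κ (X.L β) (fst z) (snd z) (fst i))
    inferInstance (I := prod Y (insert ξ ξ)) (inf_omega.prod hc (X.hκ.le _ hξ')) (hS e e he he rfl)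
    (fun z hz => by
      obtain ⟨a, ha, b, hb, rfl⟩ := mem_prod.1 (mem_sep.1 hz).1
      simpa using ⟨L_refl ha, L_refl hb⟩)
    (fun i hi z hz h => by
      obtain ⟨x, hx, η, hη, rfl⟩ := mem_prod.1 hi
      obtain ⟨h1, h2⟩ := mem_sep.1 hz
      obtain ⟨a, ha, b, hb, rfl⟩ := mem_prod.1 h1
      simp only [fst_pair, snd_pair] at h h2 ⊢
      obtain ⟨hT, hP⟩ := H x hx
      have hη' := od_κ.sub hξ' hη
      obtain ⟨a1, h3, ζ0, h4⟩ := (hT a h.1).1 η hη'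
      obtain ⟨b1, h5, h6⟩ := sync hβ hα hs hb h2 h3
      obtain ⟨b2, h7, ζ1, h8⟩ := (hT b1 (ht _ _ _ h5 h.2)).1 η hη'
      obtain ⟨a2, h9, h10⟩ := sync hβ hα hs (L_left h3) h6.symm h7
      obtain ⟨r0, h11, r1, h12, h13, η', h14, ζ, ζ', h15, h16, h17⟩ :=
        hP a2 (ht _ _ _ h9 (ht _ _ _ h3 h.1))
      obtain ⟨b3, h18, h19⟩ := sync hβ hα hs (L_left h7) h10.symm h11
      have h20 := ht _ _ _ h18 (ht _ _ _ h7 h5)
      obtain ⟨b4, h21, ζ'', h22⟩ := (hT b3 (ht _ _ _ h20 h.2)).1 η' h14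
      have key : ∀ r ζ, pair r a2 ∈ X.L β → res r α = res b3 α → dec (X.L β) r x (pair η' ζ) →
          ζ ≠ ζ'' → ∃ z ∈ ZFSet.sep (fun z => res (fst z) α = res (snd z) α)
            (prod (X.P β) (X.P β)), (pair (fst z) a ∈ X.L β ∧ pair (snd z) b ∈ X.L β) ∧
            ((∃ ζ, dec (X.L β) (fst z) x (pair η ζ)) ∧ ∃ ζ, dec (X.L β) (snd z) x (pair η ζ)) ∧
            spl X.κ (X.L β) (fst z) (snd z) x := fun r ζ k1 k2 k3 k4 => by
        obtain ⟨a3, k5, k6⟩ := sync hβ hα hs (L_left k1) k2.symm h21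
        have k7 := ht _ _ _ k5 (ht _ _ _ k1 h9)
        refine ⟨_, hS a3 b4 (L_left k5) (L_left h21) k6.symm, ?_⟩
        simp only [fst_pair, snd_pair]
        exact ⟨⟨ht _ _ _ k7 h3, ht _ _ _ h21 h20⟩, ⟨⟨ζ0, h4.mono ht k7⟩,
          ζ1, h8.mono ht (ht _ _ _ h21 h18)⟩, η', h14, ζ, ζ'', k4, k3.mono ht k5, h22⟩
      by_cases e : ζ = ζ''
      exacts [key r1 ζ' h12 (h13 ▸ h19) h17 (e ▸ h15.symm), key r0 ζ h11 h19 h16 e])
    (fun i _ z z' ⟨⟨⟨ζ, h1⟩, ζ', h2⟩, h3⟩ h =>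
      ⟨⟨⟨ζ, h1.mono ht h.1⟩, ζ', h2.mono ht h.2⟩, h3.mono ht h.1 h.2⟩) (In.mem _)
  simp only [fst_pair, snd_pair] at h1
  refine ⟨fst z, snd z, h1.1, h1.2, (mem_sep.1 hz).2, fun x hx => ⟨fun η hη => ?_, ?_⟩⟩
  · simpa using (h2 (pair x η) (pair_mem_prod.2 ⟨hx, mem_insert_of_mem _ hη⟩)).1
  · simpa using (h2 (pair x ξ) (pair_mem_prod.2 ⟨hx, mem_insert _ _⟩)).2

end Ctx

end Pool.Agent.P.MP_3ab3de_lc
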