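import Pool.Agent.P.MP_3ab3de_lc.Pos3

/-! The forcing: new slots, change of length for names, reflection. -/

set_option linter.unusedSectionVars false
set_option synthInstance.maxSize 100000

namespace Pool.Agent.P.MP_3ab3de_lc

open ZFSet

namespace Ctx

variable {X : Ctx} {β γ α p q r ρ σ j x : ZF}

/-- adding a slot with prescribed children -/
theorem addT (hβ : X.Od β) (hγ : γ ∈ β) (hp : p ∈ X.P β) (hs : pair ρ σ ∈ Sl X.M X.κ γ)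
    (h0 : tT ρ σ ∉ row p γ) (h1 : ∀ η ∈ dom σ, tT ρ (res σ η) ∈ row p γ) (c : ZF → ZF)
    (hc : Tm X.M (fun v => c (v 0)))
    (h2 : ∀ j ∈ num 2, c j ∈ X.P γ ∧ res (c j) (snd ρ) = res p (snd ρ) ∧
      ∀ η ∈ dom σ, pair (c j) (cp p γ ρ (res σ η) (app σ η)) ∈ X.L γ)
    (h3 : ∀ x, tY ρ x ∈ row p γ → (∀ j ∈ num 2, ∀ η ∈ dom σ, ∃ ζ, dec (X.L γ) (c j) x (pair η ζ)) ∧
      spl X.κ (X.L γ) (c (num 0)) (c (num 1)) x) :
    ∃ p', pair p' p ∈ X.L β ∧ (∀ ρ' σ', tT ρ' σ' ∈ row p' γ ↔ (ρ' = ρ ∧ σ' = σ) ∨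
      tT ρ' σ' ∈ row p γ) ∧ ∀ j ∈ num 2, cp p' γ ρ σ j = c j := by
  have hγ' := hβ.of_mem hγ
  have := In.mk' hγ'.mem
  have := In.mk' (P_mem hp)
  have hm : pair ρ σ ∈ X.M := tr (In.mem _) hs
  have := In.mk' (fst_mem hm)
  have := In.mk' (snd_mem hm)
  have := fun s [Tm X.M s] => hc.one s
  obtain ⟨hα, hαγ⟩ := hγ'.root (mem_Sl.1 hs).1
  obtain ⟨v1, v2, v3, v4⟩ := P_VV hp hγ
  obtain ⟨R, hR⟩ : ∃ R, R = insert (tT ρ σ) (row p γ ∪ bun (fun j => img (fun a => tN ρ σ j a)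
    (ZFSet.sep (fun a => fst a ∉ snd ρ) (c j))) (num 2)) := ⟨_, rfl⟩
  have mR : ∀ y, y ∈ R ↔ y = tT ρ σ ∨ y ∈ row p γ ∨
      ∃ j ∈ num 2, ∃ a, (a ∈ c j ∧ fst a ∉ snd ρ) ∧ tN ρ σ j a = y := fun y => by
    simp only [hR, mem_insert_iff, mem_union, mem_bun, mem_img, mem_sep]
  have mT : ∀ ρ' σ', tT ρ' σ' ∈ R ↔ (ρ' = ρ ∧ σ' = σ) ∨ tT ρ' σ' ∈ row p γ := by
    simp [mR, -mem_row]
  have mN : ∀ ρ' σ' j a, tN ρ' σ' j a ∈ R ↔ tN ρ' σ' j a ∈ row p γ ∨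
      (ρ' = ρ ∧ σ' = σ) ∧ j ∈ num 2 ∧ a ∈ c j ∧ fst a ∉ snd ρ := fun ρ' σ' j a => by
    rw [mR]
    constructor
    · rintro (h | h | ⟨j', h4, a', h5, h6⟩)
      · simp at h
      · exact Or.inl h
      · obtain ⟨⟨⟨rfl, rfl⟩, rfl⟩, rfl⟩ : ((ρ = ρ' ∧ σ = σ') ∧ j' = j) ∧ a' = a := by simpa using h6
        exact Or.inr ⟨⟨rfl, rfl⟩, h4, h5⟩
    · rintro (h | ⟨⟨rfl, rfl⟩, h4, h5⟩)
      exacts [Or.inr (Or.inl h), Or.inr (Or.inr ⟨j, h4, a, h5, rfl⟩)]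
  have eo : ∀ ρ' σ' j, tT ρ' σ' ∈ row p γ → cc (res p γ) R ρ' σ' j = cp p γ ρ' σ' j :=
    fun ρ' σ' j h => by
      ext a
      rw [mem_cc, mem_cc, mN]
      refine or_congr_right ⟨fun h' => h'.resolve_right ?_, Or.inl⟩
      rintro ⟨⟨rfl, rfl⟩, -⟩
      exact h0 h
  have en : ∀ j ∈ num 2, cc (res p γ) R ρ σ j = c j := fun j hj => by
    ext a
    rw [mem_cc, mN, ← mem_res, res_res hαγ, ← (h2 j hj).2.1, mem_res]
    constructor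
    · rintro (h | h | h)
      exacts [h.1, absurd (v2 _ _ _ _ h).1 h0, h.2.2.1]
    · intro h
      by_cases h' : fst a ∈ snd ρ
      exacts [Or.inl ⟨h, h'⟩, Or.inr (Or.inr ⟨⟨rfl, rfl⟩, hj, h, h'⟩)]
  have mX : ∀ x, tX x ∈ R ↔ tX x ∈ row p γ := by simp [mR, -mem_row]
  have mY : ∀ ρ x, tY ρ x ∈ R ↔ tY ρ x ∈ row p γ := by simp [mR, -mem_row]
  have mL : ∀ δ l, tL δ l ∈ R ↔ tL δ l ∈ row p γ := by simp [mR, -mem_row]
  obtain ⟨p', h4, h5, h6⟩ := rowmod hβ hγ hp (R := R) (hR ▸ In.mem _)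
    (hR ▸ inf_omega.insert (In.mem _) (In.mem _) (inf_omega.union (In.mem _) (In.mem _)
      (le_row (P_mem hp) (P_le hp)) (inf_omega.bun _ inferInstance (In.mem _)
        (X.hκ.le _ (X.hκ.num inf_omega 2)) fun j hj => by
          have := In.mk' (tr (In.mem (M := X.M) _) hj)
          exact inf_omega.img _ inferInstance (In.mem _) ((P_le (h2 j hj).1).mono sep_subset))))
    (fun y hy => by
      rcases (mR y).1 hy with rfl | h | ⟨j, hj, a, h, rfl⟩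
      exacts [tT_A.2 hs, (P_row hp h).2, tN_A.2 ⟨⟨hs, hj⟩, _, (h2 j hj).1, h.1⟩])
    (fun y hy => (mR y).2 (Or.inr (Or.inl hy)))
    ⟨fun x hx => v1 x ((mX x).1 hx), fun ρ' σ' j a h => by
      rcases (mN _ _ _ _).1 h with h | ⟨⟨rfl, rfl⟩, -, -, h⟩
      exacts [⟨(mT _ _).2 (Or.inr (v2 _ _ _ _ h).1), (v2 _ _ _ _ h).2⟩,
        ⟨(mT _ _).2 (Or.inl ⟨rfl, rfl⟩), h⟩], fun ρ' σ' h j hj => by
      rcases (mT _ _).1 h with ⟨rfl, rfl⟩ | h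
      · rw [en j hj]
        refine ⟨L_refl (h2 j hj).1, fun η hη => ⟨(mT _ _).2 (Or.inr (h1 η hη)), ?_⟩⟩
        rw [eo _ _ _ (h1 η hη)]
        exact (h2 j hj).2.2 η hη
      · rw [eo _ _ _ h]
        refine ⟨(v3 _ _ h j hj).1, fun η hη => ?_⟩
        obtain ⟨h7, h8⟩ := (v3 _ _ h j hj).2 η hη
        rw [eo _ _ _ h7]
        exact ⟨(mT _ _).2 (Or.inr h7), h8⟩, fun ρ' x hx => by
      obtain ⟨h7, h8⟩ := v4 ρ' x ((mY _ _).1 hx)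
      refine ⟨(mT _ _).2 (Or.inr h7), fun j hj => ?_⟩
      rw [eo _ _ _ h7]
      exact h8 j hj⟩
    ⟨fun δ l x h h' => absurd ((mL δ l).1 h) h', fun ρ' σ' h j hj => by
      rw [eo _ _ _ h]
      exact (v3 _ _ h j hj).1, fun ρ' σ' x h h' hx => by
      obtain ⟨rfl, rfl⟩ := ((mT _ _).1 h).resolve_right h'
      refine ⟨fun j hj => ?_, ?_⟩
      · rw [en j hj]
        exact (h3 x hx).1 j hj
      · rw [en _ zero_mem_two, en _ one_mem_two]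
        exact (h3 x hx).2⟩
  exact ⟨p', h4, h6 ▸ mT, fun j hj => by rw [cp, h5, h6, en j hj]⟩

theorem res_empty (s : ZF) : res s ∅ = ∅ := by ext a; simp

theorem empty_mem_dom {a s : ZF} (h : s ∈ Sq X.M X.κ a) (h' : s ≠ ∅) : ∅ ∈ dom s := by
  obtain ⟨-, h1, h2⟩ := Sq_func h
  refine (isOrdinal_empty.mem_or_subset (od_κ.of_mem h1).ord).resolve_right fun e => h' ?_
  refine (eq_empty _).2 fun z hz => ?_
  obtain ⟨x, hx, -⟩ := h2.exists_pair hz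
  exact notMem_empty _ (e hx)

/-- a new slot may be put below any condition that extends the branch leading to it -/
theorem slot (hβ : X.Od β) (hγ : γ ∈ β) (hp : p ∈ X.P β) (hs : pair ρ σ ∈ Sl X.M X.κ γ)
    (h0 : tT ρ σ ∉ row p γ) (h1 : ∀ η ∈ dom σ, tT ρ (res σ η) ∈ row p γ) {e Y : ZF}
    (he : pair e (res p (snd ρ)) ∈ X.L γ)
    (h2 : ∀ η ∈ dom σ, pair e (cp p γ ρ (res σ η) (app σ η)) ∈ X.L γ) (hY : Y ∈ X.M)
    (hc : Le X.M Y om) (h3 : ∀ x ∈ Y, Tot X.κ (X.L γ) e x ∧ Split X.κ (X.L γ) (snd ρ) e x) :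
    ∃ p', pair p' p ∈ X.L β ∧ tT ρ σ ∈ row p' γ ∧ (∀ j ∈ num 2, pair (cp p' γ ρ σ j) e ∈ X.L γ) ∧
      (∀ x ∈ Y, New X.κ (X.L γ) (res p' γ) (row p' γ) ρ σ x) ∧
      ∀ σ', tT ρ σ' ∈ row p' γ → σ' = σ ∨ tT ρ σ' ∈ row p γ := by
  classical
  have hγ' := hβ.of_mem hγ
  have := In.mk' hγ'.mem
  have := In.mk' (P_mem hp)
  have := In.mk' hY
  have := In.mk' (fst_mem (tr (In.mem (M := X.M) _) hs))
  obtain ⟨hα, hαγ⟩ := hγ'.root (mem_Sl.1 hs).1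
  have hσ := (mem_Sl.1 hs).2
  obtain ⟨q0, q1, h4, h5, h6, h7⟩ := twin hγ' hα hαγ (L_left he)
    (In.mem (Y ∪ row (row (row p γ) (num 3)) ρ)) (inf_omega.union hY (In.mem _) hc
      (le_row (In.mem _) (le_row (In.mem _) (le_row (P_mem hp) (P_le hp))))) (Sq_func hσ).2.1
    fun x hx => (mem_union.1 hx).elim (h3 x) fun hx => by
      obtain ⟨h4, h5⟩ := (P_VV hp hγ).2.2.2 ρ x (mem_row.1 (mem_row.1 hx))
      have h6 := empty_mem_dom hσ fun e => h0 (e ▸ h4)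
      have h7 := h2 _ h6
      rw [res_empty] at h7
      exact ⟨(h5 _ (Sq_res hσ h6).2.2).1.mono hγ'.trans h7,
        (h5 _ (Sq_res hσ h6).2.2).2.mono hγ'.trans h7⟩
  have h8 := L_res (hγ'.trans _ _ _ h4 he) hα
  rw [res_res fun _ h => h] at h8
  obtain ⟨h9, -, h10, h11⟩ := amal hβ hα (fun _ h => hβ.sub hγ (hαγ h)) hp h8
  have h12 := h11 γ fun h => mem_irrefl _ (hαγ h)
  have := In.mk' (P_mem (L_left h4))
  have := In.mk' (P_mem (L_left h5))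
  have hc0 : (if num 0 = num 0 then q0 else q1) = q0 := if_pos rfl
  have hc1 : (if num 1 = num 0 then q0 else q1) = q1 := if_neg (by simp)
  have key : ∀ q', pair q' e ∈ X.L γ → res q' (snd ρ) = res q0 (snd ρ) → q' ∈ X.P γ ∧
      res q' (snd ρ) = res (p ∪ res q0 (snd ρ)) (snd ρ) ∧ ∀ η ∈ dom σ,
        pair q' (cp (p ∪ res q0 (snd ρ)) γ ρ (res σ η) (app σ η)) ∈ X.L γ := fun q' k1 k2 => by
    refine ⟨L_left k1, by rw [h10, k2], fun η hη => ?_⟩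
    have k3 := cp_P (L_left h9) (h12 ▸ h1 η hη) (Sq_res hσ hη).2.2
    rw [cp_union] at k3 ⊢
    refine glb2 hγ' (hγ'.trans _ _ _ k1 (h2 η hη)) ?_ k3
    rw [cp_of_notMem (L_left h8) hαγ fun h => mem_irrefl _ (hαγ (P_row (L_left h8) h).1),
      res_res fun _ h => h, ← k2]
    exact le_res (L_left k1) hα
  have hd : ∀ x ∈ Y ∪ row (row (row p γ) (num 3)) ρ, ∀ j ∈ num 2, ∀ η ∈ dom σ,
      ∃ ζ, dec (X.L γ) (if j = num 0 then q0 else q1) x (pair η ζ) := fun x hx j _ η hη => by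
    split_ifs
    exacts [((h7 x hx).1 η hη).1, ((h7 x hx).1 η hη).2]
  obtain ⟨p', h13, h14, h15⟩ := addT hβ hγ (L_left h9) hs (h12 ▸ h0) (h12 ▸ h1)
    (fun j => if j = num 0 then q0 else q1) inferInstance (fun j _ => by
      split_ifs
      exacts [key q0 h4 rfl, key q1 h5 h6.symm]) fun x hx => by
        have hx' := mem_union.2 (Or.inr (a := x ∈ Y) (mem_row.2 (mem_row.2 (h12 ▸ hx))))
        rw [hc0, hc1]
        exact ⟨hd x hx', (h7 x hx').2⟩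
  refine ⟨p', hβ.trans _ _ _ h13 h9, (h14 _ _).2 (Or.inl ⟨rfl, rfl⟩), fun j hj => ?_,
    fun x hx => ⟨fun j hj => ?_, ?_⟩, fun σ' h => ((h14 _ _).1 h).imp And.right fun h => h12 ▸ h⟩
  · rw [h15 j hj]
    split_ifs
    exacts [h4, h5]
  · rw [show cc _ _ _ _ _ = _ from h15 j hj]
    exact hd x (mem_union.2 (Or.inl hx)) j hj
  · rw [show cc _ _ _ _ _ = _ from h15 _ zero_mem_two, show cc _ _ _ _ _ = _ from h15 _ one_mem_two,
      hc0, hc1]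
    exact (h7 x (mem_union.2 (Or.inl hx))).2

theorem cp_chain (hp : p ∈ X.P β) {u η η' : ZF} (hu : u ∈ Sq X.M X.κ (num 2)) (h' : η' ∈ dom u)
    (h : η ∈ η') (hs : tT ρ (res u η') ∈ row p γ) (hj : j ∈ num 2) :
    pair (cp p γ ρ (res u η') j) (cp p γ ρ (res u η) (app u η)) ∈ X.L γ := by
  obtain ⟨-, h1, h2⟩ := Sq_func hu
  have h3 := (((P_VV' hp γ).2.2.1 ρ _ hs j hj).2 η ((Sq_res hu h').2.1.symm ▸ h)).2
  rwa [res_res (((od_κ.of_mem h1).of_mem h').sub h),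
    TopP.app_res h2 ((od_κ.of_mem h1).sub h') h] at h3

/-- a lower bound along a branch -/
theorem branch (hγ : X.Od γ) (hp : p ∈ X.P β) (hρ : ρ ∈ X.M) {u : ZF}
    (hu : u ∈ Sq X.M X.κ (num 2)) (h : ∀ η ∈ dom u, tT ρ (res u η) ∈ row p γ) :
    ∃ e, ∀ η ∈ dom u, pair e (cp p γ ρ (res u η) (app u η)) ∈ X.L γ := by
  have := In.mk' hγ.mem
  have := In.mk' (P_mem hp)
  have := In.mk' hρ
  obtain ⟨h1, h2, h3⟩ := Sq_func hu
  have := In.mk' h1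
  have h4 := fun η hη => cp_P hp (h η hη) (Sq_res hu hη).2.2
  refine ⟨bun (fun η => cp p γ ρ (res u η) (app u η)) (dom u), fun η hη => (dun hγ
    (fun a => ∃ η ∈ dom u, a = cp p γ ρ (res u η) (app u η)) _ (In.mem _)
    (inf_omega.bun _ inferInstance (In.mem _) (X.hκ.le _ h2) fun η hη => P_le (h4 η hη)) ?_
    (fun y hy => ?_) ?_).2 _ ⟨η, hη, rfl⟩⟩
  · rintro _ ⟨η, hη, rfl⟩
    exact ⟨h4 η hη, fun y hy => mem_bun.2 ⟨η, hη, hy⟩⟩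
  · obtain ⟨η, hη, hy⟩ := mem_bun.1 hy
    exact ⟨_, ⟨η, hη, rfl⟩, hy⟩
  · rintro _ _ ⟨η, hη, rfl⟩ ⟨η', hη', rfl⟩
    have ho := od_κ.of_mem h2
    rcases (ho.of_mem hη).ord.mem_trichotomous (ho.of_mem hη').ord with h5 | rfl | h5
    · exact ⟨_, ⟨η', hη', rfl⟩, cp_chain hp hu hη' h5 (h η' hη') (Sq_res hu hη').2.2,
        L_refl (h4 η' hη')⟩
    · exact ⟨_, ⟨η, hη, rfl⟩, L_refl (h4 η hη), L_refl (h4 η hη)⟩
    · exact ⟨_, ⟨η, hη, rfl⟩, L_refl (h4 η hη), cp_chain hp hu hη h5 (h η hη) (Sq_res hu hη).2.2⟩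

theorem slot_dense (hβ : X.Od β) (hγ : γ ∈ β) (ξ : ZF) : ∀ σ ∈ Sq X.M X.κ (num 2), dom σ = ξ →
    ∀ p ∈ X.P β, tT ρ ∅ ∈ row p γ → ∃ p', pair p' p ∈ X.L β ∧ tT ρ σ ∈ row p' γ := by
  induction ξ using ZFSet.inductionOn with
  | h ξ ih =>
    rintro σ hσ rfl p hp h
    have hγ' := hβ.of_mem hγ
    have h0 := (mem_Sl.1 (P_slot hp h)).1
    have hρ : ρ ∈ X.M := by
      have := In.mk' hγ'.mem
      exact tr (In.mem _) h0
    obtain ⟨h1, h2, -⟩ := Sq_func hσ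
    have := In.mk' hγ'.mem
    have := In.mk' h1
    have := In.mk' hρ
    obtain ⟨q, h3, h4⟩ := baireL hβ (fun η q => tT ρ (res σ η) ∈ row q γ) inferInstance
      (In.mem (dom σ)) (X.hκ.le _ h2) hp (fun η hη q hq => ih η hη _ (Sq_res hσ hη).1
        (Sq_res hσ hη).2.1 q (L_left hq) (row_mono (L_sub hq) h))
      fun _ _ _ _ h h' => row_mono (L_sub h') h
    by_cases h5 : tT ρ σ ∈ row q γ
    · exact ⟨q, h3, h5⟩
    obtain ⟨e, h6⟩ := branch hγ' (L_left h3) hρ hσ h4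
    have h7 := empty_mem_dom hσ fun e => h5 (e ▸ row_mono (L_sub h3) h)
    obtain ⟨p', h8, h9, -⟩ := slot hβ hγ (L_left h3) (mem_Sl.2 ⟨h0, hσ⟩) h5 h4
      (hγ'.trans _ _ _ (h6 _ h7) (cp_le_res hγ' (L_left h3) (h4 _ h7) (Sq_res hσ h7).2.2)) h6
      empty_mem (le_empty _) fun x hx => absurd hx (notMem_empty _)
    exact ⟨p', hβ.trans _ _ _ h8 h3, h9⟩

/-- a fresh root -/
theorem root (hβ : X.Od β) (hγ : γ ∈ β) (hp : p ∈ X.P β) (hα : α ∈ insert γ γ)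
    (hx : x ∈ Nm X.M X.κ (X.L γ)) (h1 : Tot X.κ (X.L γ) (res p γ) x)
    (h2 : Split X.κ (X.L γ) α (res p γ) x) :
    ∃ p', pair p' p ∈ X.L β ∧ ∃ i ∈ X.κ, tY (pair i α) x ∈ row p' γ ∧
      (∀ j ∈ num 2, pair (cp p' γ (pair i α) ∅ j) (res p γ) ∈ X.L γ) ∧
      ∀ σ, tT (pair i α) σ ∈ row p' γ → New X.κ (X.L γ) (res p' γ) (row p' γ) (pair i α) σ x := by
  have hγ' := hβ.of_mem hγ
  have := In.mk' hγ'.mem
  have := In.mk' (P_mem hp)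
  have hxm := (mem_Nm.1 hx).2
  have := In.mk' hxm
  obtain ⟨i, hi, h3⟩ := X.hκ.exists_notMem (inf_omega.img (fun y => fst (fst (snd y))) inferInstance
    (In.mem (row p γ)) (le_row (P_mem hp) (P_le hp)))
  have hρ := pair_mem_prod.2 ⟨hi, hα⟩
  have hd : ∀ η, η ∉ dom ∅ := fun η h => by simpa using mem_dom.1 h
  obtain ⟨h4, h5⟩ := hγ'.root hρ
  obtain ⟨q, h6, h7, h8, h9, h9'⟩ := slot hβ hγ hp (ρ := pair i α) (σ := ∅) (e := res p γ) (Y := {x})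
    (mem_Sl.2 ⟨hρ, mem_Sq'.2 ⟨empty_mem, ∅, X.hκ.zero inf_omega, fun _ h => absurd h (notMem_empty _),
      fun _ h => absurd h (notMem_empty _)⟩⟩)
    (fun h => h3 (mem_img.2 ⟨_, h, by simp⟩)) (fun η h => absurd h (hd η))
    (res_res h5 ▸ le_res (P_res hp hγ') h4) (fun η h => absurd h (hd η)) (In.mem _)
    (inf_omega.singleton hxm) fun y hy => by
      obtain rfl := mem_singleton.1 hy
      rw [snd_pair]
      exact ⟨h1, h2⟩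
  obtain ⟨p', h10, h11, h12⟩ := add1 hβ hγ (L_left h6) (tY_A.2 ⟨hρ, hx⟩) (by simp) (by simp) (by simp)
    (fun ρ y e => by
      obtain ⟨rfl, rfl⟩ : ρ = pair i α ∧ y = x := by simpa using e
      rw [snd_pair]
      exact ⟨h7, fun j hj => ⟨h1.mono hγ'.trans (h8 j hj), h2.mono hγ'.trans (h8 j hj)⟩⟩) (by simp)
  have h13 := (L_OO h10 hγ).2.1 _ _ h7
  refine ⟨p', hβ.trans _ _ _ h10 h6, i, hi, h12 ▸ mem_insert _ _,
    fun j hj => hγ'.trans _ _ _ (h13 j hj) (h8 j hj), fun σ hσ => ?_⟩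
  rw [h12, mem_insert_iff] at hσ
  obtain rfl := (h9' σ (hσ.resolve_left (by simp))).resolve_right fun h =>
    h3 (mem_img.2 ⟨_, h, by simp⟩)
  exact (h9 x (mem_singleton.2 rfl)).mono hγ'.trans h13

/-! ### names for an initial segment -/

theorem dec_res (hβ : X.Od β) (hγ : X.Od γ) (hs : γ ⊆ β) (hp : p ∈ X.P β) {a b : ZF}
    (hx : x ⊆ prod (X.P γ) a) : dec (X.L β) p x b ↔ dec (X.L γ) (res p γ) x b := by
  constructor
  · rintro ⟨d, h1, h2⟩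
    exact ⟨d, P_res_self (pair_mem_prod.1 (hx h2)).1 ▸ L_res h1 hγ, h2⟩
  · rintro ⟨d, h1, h2⟩
    exact ⟨d, hβ.trans _ _ _ (le_res hp hγ) (L_lift h1 hs), h2⟩

theorem tot_res (hβ : X.Od β) (hγ : X.Od γ) (hs : γ ⊆ β) (hp : p ∈ X.P β) {a : ZF}
    (hx : x ⊆ prod (X.P γ) a) : Tot X.κ (X.L β) p x ↔ Tot X.κ (X.L γ) (res p γ) x := by
  constructor
  · intro h q hq
    obtain ⟨h1, -, h2, -⟩ := amal hβ hγ hs hp hq
    obtain ⟨h3, h4⟩ := h _ h1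
    simp only [dec_res hβ hγ hs (L_left h1) hx, h2] at h4
    refine ⟨fun η hη => ?_, h4⟩
    obtain ⟨r, h5, ζ, h6⟩ := h3 η hη
    exact ⟨_, h2 ▸ L_res h5 hγ, ζ, (dec_res hβ hγ hs (L_left h5) hx).1 h6⟩
  · intro h q hq
    obtain ⟨h3, h4⟩ := h _ (L_res hq hγ)
    simp only [dec_res hβ hγ hs (L_left hq) hx]
    refine ⟨fun η hη => ?_, h4⟩
    obtain ⟨r, h5, ζ, h6⟩ := h3 η hη
    obtain ⟨h1, -, h2, -⟩ := amal hβ hγ hs (L_left hq) h5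
    exact ⟨_, h1, ζ, (dec_res hβ hγ hs (L_left h1) hx).2 (h2.symm ▸ h6)⟩

theorem split_res (hβ : X.Od β) (hγ : X.Od γ) (hs : γ ⊆ β) (hα : α ⊆ γ) (hp : p ∈ X.P β) {a : ZF}
    (hx : x ⊆ prod (X.P γ) a) (h : Split X.κ (X.L β) α p x) :
    Split X.κ (X.L γ) α (res p γ) x := by
  intro q hq
  obtain ⟨h1, -, h2, -⟩ := amal hβ hγ hs hp hq
  obtain ⟨q0, h3, q1, h4, h5, η, hη, ζ, ζ', h6, h7, h8⟩ := h _ h1
  exact ⟨_, h2 ▸ L_res h3 hγ, _, h2 ▸ L_res h4 hγ, by rw [res_res hα, res_res hα, h5], η, hη, ζ, ζ',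
    h6, (dec_res hβ hγ hs (L_left h3) hx).1 h7, (dec_res hβ hγ hs (L_left h4) hx).1 h8⟩

/-! ### reflection -/

theorem le_Sq {a : ZF} (ha : Le X.M a (pw X.M om)) : Le X.M (Sq X.M X.κ a) (pw X.M om) :=
  (le_cs (inf_pw.prod (X.hκ.le_pw (In.mem _)) ha)).mono fun s hs => by
    obtain ⟨h1, h2, h3⟩ := Sq_func hs
    have := In.mk' h1
    refine mem_cs.2 ⟨(mem_Sq.1 hs).1, (inf_omega.img (fun η => pair η (app s η)) inferInstance
      (In.mem _) (X.hκ.le _ h2)).mono fun z hz => ?_⟩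
    obtain ⟨x, hx, y, -, rfl⟩ := h3.exists_pair hz
    exact mem_img.2 ⟨x, hx, by rw [h3.app_eq hz]⟩

theorem le_St (β : ZF) : β ∈ X.θ → Le X.M (X.St β) (pw X.M om) := by
  induction β using ZFSet.inductionOn with
  | h β ih =>
    intro hβ
    have := In.mk' (od_θ.of_mem hβ).mem
    rw [St_eq]
    refine inf_pw.bun _ inferInstance (In.mem _) (X.hθ.le β hβ) fun γ hγ => ?_
    have h1 := od_θ.sub hβ hγ
    have := In.mk' (od_θ.of_mem h1).mem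
    have hκ := X.hκ.le_pw (In.mem om)
    have h2 := X.hθ.le _ (X.hθ.num inf_pw 2)
    have h3 : Le X.M (Sl X.M X.κ γ) (pw X.M om) :=
      inf_pw.prod (inf_pw.prod hκ (X.hθ.le _ (X.hθ.succ inf_pw h1))) (le_Sq h2)
    exact inf_pw.prod (inf_pw.singleton (In.mem _)) (inf_pw.union (In.mem _) (In.mem _)
      (inf_pw.prod (inf_pw.singleton (In.mem _)) (inf_pw.prod hκ (le_cs (le_Sq hκ))))
      (inf_pw.union (In.mem _) (In.mem _) (inf_pw.prod (inf_pw.singleton (In.mem _)) h3)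
        (inf_pw.prod (inf_pw.singleton (In.mem _)) (inf_pw.prod (inf_pw.prod h3 h2) (ih γ hγ h1)))))

theorem P_bdd (hp : p ∈ X.P X.θ) : ∃ ξ ∈ X.θ, p ∈ X.P ξ := by
  have := In.mk' (P_mem hp)
  obtain ⟨ξ, h1, h2⟩ := X.hθ.bdd inf_pw (In.mem (img fst p)) (fun y hy => by
    obtain ⟨a, ha, rfl⟩ := mem_img.1 hy
    exact P_fst hp ha) (inf_pw.img fst inferInstance (P_mem hp) ((P_le hp).trans inf_pw.omLe (In.mem _)))
  exact ⟨ξ, h1, P_of_fst hp fun a ha => h2 (img_mem ha)⟩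

theorem reflect {A a : ZF} (hA : A ∈ X.M) (ha : a ∈ X.M) (hc : Le X.M a (pw X.M om)) :
    ∃ γ ∈ X.θ, ∀ b ∈ a, ∀ q, dec (X.L X.θ) q A b → ∃ d ∈ X.P γ, dec (X.L X.θ) d A b ∧
      ∃ r, pair r q ∈ X.L X.θ ∧ pair r d ∈ X.L X.θ := by
  have := In.mk' hA
  have := In.mk' ha
  have step : ∀ δ ∈ X.θ, ∃ η ∈ X.θ, ∀ b ∈ a, ∀ q ∈ X.P X.θ, dec (X.L X.θ) q A b →
      ∃ d ∈ X.P η, dec (X.L X.θ) d A b ∧ d ∩ X.St δ = q ∩ X.St δ := fun δ hδ => by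
    have := In.mk' (od_θ.of_mem hδ).mem
    obtain ⟨η, h1, h2⟩ := X.hθ.bdd_wit inf_pw (fun z ξ => ∀ q ∈ X.P X.θ, dec (X.L X.θ) q A (fst z) →
      q ∩ X.St δ = snd z → ∃ d ∈ X.P ξ, dec (X.L X.θ) d A (fst z) ∧ d ∩ X.St δ = snd z)
      inferInstance (In.mem (prod a (cs X.M (X.St δ)))) (inf_pw.prod hc (le_cs (le_St δ hδ)))
      fun z _ => by
        by_cases h : ∃ q ∈ X.P X.θ, dec (X.L X.θ) q A (fst z) ∧ q ∩ X.St δ = snd z
        · obtain ⟨q, h1, h2⟩ := h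
          obtain ⟨ξ, h3, h4⟩ := P_bdd h1
          exact ⟨ξ, h3, fun _ _ _ _ => ⟨q, h4, h2⟩⟩
        · exact ⟨δ, hδ, fun q h1 h2 h3 => absurd ⟨q, h1, h2, h3⟩ h⟩
    refine ⟨η, h1, fun b hb q hq h => ?_⟩
    have := In.mk' (P_mem hq)
    obtain ⟨ξ, h3, h4⟩ := h2 (pair b (q ∩ X.St δ)) (pair_mem_prod.2 ⟨hb, mem_cs.2
      ⟨⟨fun _ h => (mem_inter.1 h).2, In.mem _⟩, (P_le hq).mono fun _ h => (mem_inter.1 h).1⟩⟩)
    simp only [fst_pair, snd_pair] at h4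
    obtain ⟨d, h5, h6⟩ := h4 q hq h rfl
    exact ⟨d, P_lift h5 ((od_θ.of_mem h1).sub h3), h6⟩
  have sup : ∀ g ∈ X.M, ∀ ξ ∈ X.M, Le X.M ξ (pw X.M om) → (∀ η ∈ ξ, app g η ∈ X.θ) →
      bun (app g) ξ ∈ X.θ := fun g hg ξ hξ h1 h2 => by
    have := In.mk' hg
    refine X.hθ.mem_of_le (isOrdinal_sUnion fun y hy => ?_)
      (inf_pw.bun _ inferInstance hξ h1 fun η hη => X.hθ.le _ (h2 η hη))
    obtain ⟨η, hη, rfl⟩ := mem_img.1 hy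
    exact X.hθ.ord.mem (h2 η hη)
  have hκ := X.hκ.le_pw (In.mem om)
  obtain ⟨f, hf, h1, h2⟩ := tdc (M := X.M) (fun g η => ∀ b ∈ a, ∀ q ∈ X.P X.θ, dec (X.L X.θ) q A b →
      ∃ d ∈ X.P η, dec (X.L X.θ) d A b ∧ d ∩ X.St (bun (app g) (dom g)) =
        q ∩ X.St (bun (app g) (dom g))) inferInstance X.hκ.ord X.hκ.mem X.hθ.mem
    fun ξ hξ g hg h _ => step _ (by
      rw [h.dom_eq]
      exact sup g hg ξ (od_κ.of_mem hξ).mem (hκ.mono (od_κ.sub hξ)) fun η hη => h.app_mem' hη)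
  have := In.mk' hf
  have hγ := sup f hf _ X.hκ.mem hκ fun η hη => h1.app_mem' hη
  refine ⟨_, hγ, fun b hb q hq => ?_⟩
  have h3 : q ∈ X.P X.θ := hq.elim fun _ h => L_left h.1
  have := In.mk' (P_mem h3)
  obtain ⟨ξ, hξ, h4⟩ := X.hκ.bdd_wit inf_omega (fun y η => fst y ∈ bun (app f) X.κ → fst y ∈ app f η)
    inferInstance (P_mem h3) (P_le h3) fun y _ => by
      by_cases h : fst y ∈ bun (app f) X.κ
      · exact (mem_bun.1 h).imp fun η h' => ⟨h'.1, fun _ => h'.2⟩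
      · exact ⟨∅, X.hκ.zero inf_omega, fun h' => absurd h' h⟩
  obtain ⟨d, h5, h6, h7⟩ := h2 ξ hξ b hb q h3 hq
  rw [(h1.res (od_κ.sub hξ)).dom_eq] at h7
  have h8 : d ∈ X.P (bun (app f) X.κ) := P_lift h5 fun y hy => mem_bun.2 ⟨ξ, hξ, hy⟩
  obtain ⟨-, h9, h10⟩ := uni od_θ ∅ q d isTransitive_empty h3 (P_lift h8 (od_θ.sub hγ))
    (by rw [res_empty, res_empty, ← res_empty q]; exact L_left (L_lift (L_res (L_refl h3)
      (od_θ.of_mem (X.hθ.zero inf_pw))) (empty_subset _)) |> L_refl) fun γ _ => by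
      by_cases k1 : γ ∈ bun (app (res f ξ)) ξ
      · refine Or.inr (Or.inr fun y hy => ?_)
        have k2 := mem_St.2 ⟨k1, hy⟩
        have k3 := ZFSet.ext_iff.1 h7 (pair γ y)
        simpa [k2] using k3.symm
      by_cases k2 : γ ∈ bun (app f) X.κ
      · refine Or.inl fun y hy => k1 ?_
        obtain ⟨η, k3, k4⟩ := h4 _ (mem_row.1 hy)
        rw [fst_pair] at k4
        exact mem_bun.2 ⟨η, k3, (TopP.app_res h1 (od_κ.sub hξ) k3).symm ▸ k4 k2⟩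
      · exact Or.inr (Or.inl fun y hy => k2 (P_row h8 hy).1)
  exact ⟨d, h8, h6, _, h9, h10⟩

end Ctx

end Pool.Agent.P.MP_3ab3de_lc
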