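import Pool.Agent.P.MP_3ab3de_lc.Ops

/-! Recursion, the cumulative hierarchy, collection and choice inside a transitive model. -/

set_option linter.unusedSectionVars false

namespace Pool.Agent.P.MP_3ab3de_lc

open ZFSet

variable {M : Set ZF} [hM : TModel M]

/-- recursion along membership -/
noncomputable def rc (Φ : ZF → ZF → ZF) : ZF → ZF :=
  mem_wf.fix fun x IH => Φ x (range fun y : x => pair y (IH y y.2))

theorem rc_eq (Φ : ZF → ZF → ZF) (x : ZF) : rc Φ x = Φ x (graph (rc Φ) x) := by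
  rw [rc, WellFounded.fix_eq]; rfl

/-- approximations -/
def Apx (Φ : ZF → ZF → ZF) (g : ZF) : Prop :=
  ∀ p ∈ g, p = pair (fst p) (snd p) ∧ (∀ y ∈ fst p, ∃ u, pair y u ∈ g) ∧
    snd p = Φ (fst p) (res g (fst p))

theorem Apx.sound {Φ : ZF → ZF → ZF} {g : ZF} (h : Apx Φ g) (z : ZF) :
    ∀ w, pair z w ∈ g → w = rc Φ z := by
  induction z using ZFSet.inductionOn with
  | h z ih =>
    intro w hw
    obtain ⟨-, h2, h3⟩ := h _ hw
    simp only [fst_pair, snd_pair] at h2 h3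
    rw [h3, rc_eq]
    congr 1
    ext p
    rw [mem_res, mem_graph]
    constructor
    · rintro ⟨h4, h5⟩
      have e := (h p h4).1
      refine ⟨fst p, h5, ?_⟩
      rw [← ih _ h5 (snd p) (e ▸ h4), ← e]
    · rintro ⟨y, hy, rfl⟩
      obtain ⟨u, hu⟩ := h2 y hy
      exact ⟨ih y hy u hu ▸ hu, by simpa using hy⟩

theorem apx_graph (Φ : ZF → ZF → ZF) {s : ZF} (hs : IsTransitive s) : Apx Φ (graph (rc Φ) s) := by
  intro p hp
  obtain ⟨x, hx, rfl⟩ := mem_graph.1 hp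
  simp only [fst_pair, snd_pair, true_and]
  exact ⟨fun y hy => ⟨_, pair_mem_graph.2 ⟨hs x hx hy, rfl⟩⟩, by rw [res_graph (hs x hx)]; exact rc_eq Φ x⟩

/-- the defining relation of a recursion -/
def Psi (M : Set ZF) (Φ : ZF → ZF → ZF) (x y : ZF) : Prop := ∃ g ∈ M, Apx Φ g ∧ pair x y ∈ g

omit hM in
theorem Psi.eq {Φ : ZF → ZF → ZF} {x y : ZF} (h : Psi M Φ x y) : y = rc Φ x := by
  obtain ⟨g, -, h1, h2⟩ := h
  exact h1.sound x y h2

theorem df_psi {Φ : ZF → ZF → ZF} (h : Tm M (fun v => Φ (v 0) (v 1))) (a b : Env → ZF) [Tm M a]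
    [Tm M b] : Df M (fun v => Psi M Φ (a v) (b v)) := by
  have : ∀ (s t : Env → ZF) [Tm M s] [Tm M t], Tm M (fun v => Φ (s v) (t v)) :=
    fun s t _ _ => h.two s t
  unfold Psi Apx
  infer_instance

theorem rc_aux {Φ : ZF → ZF → ZF} (h : Tm M (fun v => Φ (v 0) (v 1))) (D : ZF → Prop)
    (hD : ∀ x ∈ M, D x → ∃ t ∈ M, x ⊆ t ∧ IsTransitive t ∧ ∀ y ∈ t, D y ∧ rank y < rank x)
    (x : ZF) : x ∈ M → D x → rc Φ x ∈ M ∧ Psi M Φ x (rc Φ x) := by
  induction x using (measure_wf_rank).induction with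
  | _ x ih =>
    intro hx hd
    obtain ⟨t, ht, h1, h2, h3⟩ := hD x hx hd
    have := fun a b [Tm M a] [Tm M b] => df_psi h a b
    obtain ⟨b, hb, e⟩ := repl' (M := M) (fun z p => p = pair z (snd p) ∧ Psi M Φ z (snd p))
      inferInstance ht fun z hz => by
        obtain ⟨h4, h5⟩ := ih z (h3 z hz).2 (tr ht hz) (h3 z hz).1
        have := In.mk' h4
        have := In.mk' (tr ht hz)
        refine ⟨pair z (rc Φ z), ⟨In.mem _, by simp, by simpa using h5⟩, ?_⟩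
        rintro p ⟨-, h6, h7⟩
        rw [h6, h7.eq]
    have e2 : b = graph (rc Φ) t := by
      ext p
      rw [e, mem_graph]
      constructor
      · rintro ⟨-, z, hz, h6, h7⟩
        exact ⟨z, hz, by rw [h6, h7.eq]⟩
      · rintro ⟨z, hz, rfl⟩
        obtain ⟨h4, h5⟩ := ih z (h3 z hz).2 (tr ht hz) (h3 z hz).1
        have := In.mk' h4
        have := In.mk' (tr ht hz)
        exact ⟨In.mem _, z, hz, by simp, by simpa using h5⟩
    have := In.mk' hb
    have := In.mk' hx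
    have h4 : rc Φ x ∈ M := by
      rw [rc_eq, ← res_graph h1, ← e2]
      exact h.mem (cons x fun _ => res b x) (EIn.cons (fun _ => In.mem _) hx)
    have := In.mk' h4
    refine ⟨h4, graph (rc Φ) (insert x t), ?_, apx_graph Φ ?_, pair_mem_graph.2 ⟨by simp, rfl⟩⟩
    · have : graph (rc Φ) (insert x t) = insert (pair x (rc Φ x)) b := by
        ext p
        simp only [e2, mem_graph, mem_insert_iff]
        constructor
        · rintro ⟨z, rfl | hz, rfl⟩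
          exacts [Or.inl rfl, Or.inr ⟨z, hz, rfl⟩]
        · rintro (rfl | ⟨z, hz, rfl⟩)
          exacts [⟨x, Or.inl rfl, rfl⟩, ⟨z, Or.inr hz, rfl⟩]
      rw [this]; exact In.mem _
    · intro y hy z hz
      rcases mem_insert_iff.1 hy with rfl | hy
      exacts [mem_insert_of_mem _ (h1 hz), mem_insert_of_mem _ (h2 y hy hz)]
where
  measure_wf_rank : WellFounded fun y x : ZF => rank y < rank x := InvImage.wf rank wellFounded_lt

/-- the rank as a von Neumann ordinal -/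
noncomputable def rk (x : ZF) : ZF := (rank x).toZFSet

theorem rk_ord (x : ZF) : IsOrdinal (rk x) := isOrdinal_toZFSet _

@[simp] theorem rank_rk (x : ZF) : rank (rk x) = rank x := Ordinal.rank_toZFSet _

theorem rk_mem_iff {x o : ZF} (ho : IsOrdinal o) : rk x ∈ o ↔ rank x < rank o := by
  rw [← (rk_ord x).rank_lt_iff_mem ho, rank_rk]

/-- the cumulative hierarchy of `M` -/
noncomputable def VM (M : Set ZF) (o : ZF) : ZF := ZFSet.sep (· ∈ M) (vonNeumann (rank o))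

omit hM in
theorem mem_VM {o x : ZF} : x ∈ VM M o ↔ rank x < rank o ∧ x ∈ M := by
  simp [VM, mem_vonNeumann]

theorem subset_VM {o x : ZF} (hx : x ∈ M) : x ⊆ VM M o ↔ rank x ≤ rank o := by
  rw [rank_le_iff]
  exact ⟨fun h y hy => (mem_VM.1 (h hy)).1, fun h y hy => mem_VM.2 ⟨h hy, tr hx hy⟩⟩

theorem VM_trans (o : ZF) : IsTransitive (VM M o) := fun _ hx _ hy =>
  mem_VM.2 ⟨(rank_lt_of_mem hy).trans (mem_VM.1 hx).1, tr (mem_VM.1 hx).2 hy⟩

theorem VM_eq {o : ZF} (ho : IsOrdinal o) : VM M o = bun (fun o' => pw M (VM M o')) o := by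
  ext x
  simp only [mem_bun, mem_pw, mem_VM]
  constructor
  · rintro ⟨h1, h2⟩
    exact ⟨rk x, (rk_mem_iff ho).2 h1, (subset_VM h2).2 (by simp), h2⟩
  · rintro ⟨o', h1, h2, h3⟩
    exact ⟨((subset_VM h3).1 h2).trans_lt (rank_lt_of_mem h1), h3⟩

/-- recursion step for the hierarchy -/
noncomputable def PhiV (M : Set ZF) (_ g : ZF) : ZF := bun (fun p => pw M (snd p)) g

theorem rc_PhiV (o : ZF) : IsOrdinal o → rc (PhiV M) o = VM M o := by
  induction o using ZFSet.inductionOn with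
  | h o ih =>
    intro ho
    rw [rc_eq, VM_eq ho]
    ext x
    simp only [PhiV, mem_bun, mem_graph]
    constructor
    · rintro ⟨_, ⟨y, hy, rfl⟩, h⟩
      exact ⟨y, hy, by simpa [ih y hy (ho.mem hy)] using h⟩
    · rintro ⟨y, hy, h⟩
      exact ⟨_, ⟨y, hy, rfl⟩, by simpa [ih y hy (ho.mem hy)] using h⟩

theorem tm_PhiV : Tm M (fun v => PhiV M (v 0) (v 1)) := by unfold PhiV; infer_instance

theorem VM_aux {o : ZF} (hm : o ∈ M) (ho : IsOrdinal o) :
    VM M o ∈ M ∧ Psi M (PhiV M) o (VM M o) := by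
  rw [← rc_PhiV o ho]
  exact rc_aux tm_PhiV IsOrdinal (fun x hx hd => ⟨x, hx, fun _ h => h, hd.isTransitive,
    fun y hy => ⟨hd.mem hy, rank_lt_of_mem hy⟩⟩) o hm ho

/-- the defining relation of the rank -/
def RkR (M : Set ZF) (y o : ZF) : Prop :=
  IsOrdinal o ∧ (∃ W ∈ M, Psi M (PhiV M) o W ∧ y ⊆ W) ∧
    ∀ o' ∈ o, ¬ ∃ W ∈ M, Psi M (PhiV M) o' W ∧ y ⊆ W

theorem df_RkR : Df M (fun v => RkR M (v 1) (v 0)) := by
  have := fun a b [Tm M a] [Tm M b] => df_psi (tm_PhiV (M := M)) a b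
  unfold RkR
  infer_instance

theorem rkR_iff {y o : ZF} (hy : y ∈ M) (hm : o ∈ M) : RkR M y o ↔ o = rk y := by
  have key : ∀ o ∈ M, IsOrdinal o → ((∃ W ∈ M, Psi M (PhiV M) o W ∧ y ⊆ W) ↔ rank y ≤ rank o) := by
    intro o hm ho
    rw [← subset_VM hy]
    constructor
    · rintro ⟨W, -, h1, h2⟩
      rwa [h1.eq, rc_PhiV o ho] at h2
    · exact fun h => ⟨_, (VM_aux hm ho).1, (VM_aux hm ho).2, h⟩
  constructor
  · rintro ⟨ho, h1, h2⟩
    rw [key o hm ho] at h1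
    rw [← ho.rank_inj (rk_ord y), rank_rk]
    refine le_antisymm (not_lt.1 fun h => ?_) h1
    have h3 := (rk_mem_iff ho).2 h
    exact h2 _ h3 ((key _ (tr hm h3) (rk_ord y)).2 (by simp))
  · rintro rfl
    refine ⟨rk_ord y, (key _ hm (rk_ord y)).2 (by simp), fun o' ho' h => ?_⟩
    rw [key _ (tr hm ho') ((rk_ord y).mem ho')] at h
    have := rank_lt_of_mem ho'
    rw [rank_rk] at this
    exact absurd h (not_le.2 this)

theorem rk_mem (x : ZF) : x ∈ M → rk x ∈ M := by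
  induction x using ZFSet.inductionOn with
  | h x ih =>
    intro hx
    obtain ⟨b, hb, e⟩ := repl' (RkR M) df_RkR hx fun y hy =>
      ⟨rk y, ⟨ih y hy (tr hx hy), (rkR_iff (tr hx hy) (ih y hy (tr hx hy))).2 rfl⟩,
        fun o ho => (rkR_iff (tr hx hy) ho.1).1 ho.2⟩
    have := In.mk' hb
    have e2 : rk x = bun (fun o => insert o o) b := by
      ext z
      simp only [mem_bun, e]
      constructor
      · intro hz
        have h1 := rank_lt_of_mem hz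
        rw [rank_rk, lt_rank_iff] at h1
        obtain ⟨y, hy, h1⟩ := h1
        refine ⟨rk y, ⟨ih y hy (tr hx hy), y, hy, (rkR_iff (tr hx hy) (ih y hy (tr hx hy))).2 rfl⟩, ?_⟩
        rw [mem_succ_iff ((rk_ord x).mem hz) (rk_ord y),
          ← ((rk_ord x).mem hz).rank_le_iff_subset (rk_ord y), rank_rk]
        exact h1
      · rintro ⟨o, ⟨ho, y, hy, h⟩, hz⟩
        obtain rfl := (rkR_iff (tr hx hy) ho).1 h
        have h2 : rk y ∈ rk x := (rk_mem_iff (rk_ord x)).2 (by simpa using rank_lt_of_mem hy)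
        rcases mem_insert_iff.1 hz with rfl | hz
        exacts [h2, (rk_ord x).mem_trans hz h2]
    rw [e2]; exact In.mem _

theorem tm_rc {Φ : ZF → ZF → ZF} (h : Tm M (fun v => Φ (v 0) (v 1))) :
    Tm M (fun v => rc Φ (v 0)) := by
  have key := fun x hx => rc_aux h (fun _ => True) (fun x hx _ =>
    ⟨VM M (rk x), (VM_aux (rk_mem x hx) (rk_ord x)).1, (subset_VM hx).2 (by simp), VM_trans _,
      fun y hy => ⟨trivial, by simpa using (mem_VM.1 hy).1⟩⟩) x hx trivial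
  exact ⟨fun v hv => (key _ (hv 0)).1, (df_psi h (fun v => v 1) (fun v => v 0)).congr fun v hv =>
    ⟨fun e => e ▸ (key _ (hv 1)).2, fun e => e.eq⟩⟩

instance tm_rk {a : Env → ZF} [Tm M a] : Tm M (fun v => rk (a v)) :=
  Tm.one ⟨fun _ hv => rk_mem _ (hv 0), df_RkR.congr fun _ hv => (rkR_iff (hv 1) (hv 0)).symm⟩ a

instance tm_VM {a : Env → ZF} [Tm M a] : Tm M (fun v => VM M (a v)) :=
  ((tm_rc tm_PhiV).one (fun v => rk (a v))).congr fun v _ => by
    rw [rc_PhiV _ (rk_ord _), VM, VM, rank_rk]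

theorem collect (P : ZF → ZF → Prop) (h : Df M (fun v => P (v 0) (v 1))) {a : ZF} (ha : a ∈ M)
    (H : ∀ x ∈ a, ∃ y ∈ M, P x y) : ∃ b ∈ M, ∀ x ∈ a, ∃ y ∈ b, P x y := by
  have := fun s t [Tm M s] [Tm M t] => h.two s t
  have key : ∀ x ∈ a, ∃ o, (o ∈ M ∧ IsOrdinal o ∧ ∃ y ∈ VM M o, P x y) ∧
      ∀ o' ∈ o, ¬ (o' ∈ M ∧ IsOrdinal o' ∧ ∃ y ∈ VM M o', P x y) := fun x hx => by
    obtain ⟨y, hy, hP⟩ := H x hx
    have := In.mk' hy
    exact exists_min ⟨insert (rk y) (rk y), In.mem _, isOrdinal_succ (rk_ord y), y,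
      mem_VM.2 ⟨by simp, hy⟩, hP⟩
  obtain ⟨b, hb, e⟩ := repl' (M := M) (fun x o => IsOrdinal o ∧ (∃ y ∈ VM M o, P x y) ∧
      ∀ o' ∈ o, ¬ ∃ y ∈ VM M o', P x y) inferInstance ha fun x hx => by
    obtain ⟨o, ⟨h1, h2, h3⟩, h4⟩ := key x hx
    refine ⟨o, ⟨h1, h2, h3, fun o' ho' h => h4 o' ho' ⟨tr h1 ho', h2.mem ho', h⟩⟩, ?_⟩
    rintro o' ⟨h5, h6, h7, h8⟩
    rcases h6.mem_trichotomous h2 with h | h | h
    exacts [absurd ⟨h5, h6, h7⟩ (h4 o' h), h, absurd h3 (h8 o h)]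
  have := In.mk' hb
  refine ⟨bun (VM M) b, In.mem _, fun x hx => ?_⟩
  obtain ⟨o, ⟨h1, h2, y, h3, h3'⟩, h4⟩ := key x hx
  exact ⟨y, mem_bun.2 ⟨o, (e o).2 ⟨h1, x, hx, h2, ⟨y, h3, h3'⟩,
    fun o' ho' h => h4 o' ho' ⟨tr h1 ho', h2.mem ho', h⟩⟩, h3⟩, h3'⟩

theorem exists_ch {Q : ZF} (hQ : Q ∈ M) :
    ∃ ch ∈ M, ∀ s ∈ M, s ⊆ Q → (∃ y, y ∈ s) → app ch s ∈ s := by
  obtain ⟨f, hf, h⟩ := hM.choice _ (pw_mem hQ)
  refine ⟨f, hf, fun s hs h1 h2 => ?_⟩
  obtain ⟨y, hy, h3, h4⟩ := h s (mem_pw.2 ⟨h1, hs⟩) h2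
  rwa [app_eq h3 h4]

/-- definable choice -/
theorem skolem (P : ZF → ZF → Prop) (h : Df M (fun v => P (v 0) (v 1))) {a : ZF} (ha : a ∈ M)
    (H : ∀ x ∈ a, ∃ y ∈ M, P x y) : ∃ f ∈ M, ∀ x ∈ a, P x (app f x) := by
  have := fun s t [Tm M s] [Tm M t] => h.two s t
  obtain ⟨b, hb, h1⟩ := collect P h ha H
  obtain ⟨ch, hc, h2⟩ := exists_ch hb
  have := In.mk' ha
  have := In.mk' hb
  have := In.mk' hc
  refine ⟨graph (fun x => app ch (ZFSet.sep (P x) b)) a, In.mem _, fun x hx => ?_⟩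
  have := In.mk' (tr ha hx)
  rw [app_graph hx]
  obtain ⟨y, hy, hP⟩ := h1 x hx
  exact (mem_sep.1 (h2 _ (In.mem _) sep_subset ⟨y, mem_sep.2 ⟨hy, hP⟩⟩)).2

/-- transfinite dependent choice -/
theorem tdc (S : ZF → ZF → Prop) (h : Df M (fun v => S (v 0) (v 1))) {o Q : ZF} (ho : IsOrdinal o)
    (hm : o ∈ M) (hQ : Q ∈ M)
    (H : ∀ ξ ∈ o, ∀ g ∈ M, IsFunc ξ Q g → (∀ η ∈ ξ, S (res g η) (app g η)) → ∃ y ∈ Q, S g y) :
    ∃ f ∈ M, IsFunc o Q f ∧ ∀ η ∈ o, S (res f η) (app f η) := by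
  have := fun s t [Tm M s] [Tm M t] => h.two s t
  obtain ⟨ch, hc, h2⟩ := exists_ch hQ
  have := In.mk' hm
  have := In.mk' hQ
  have := In.mk' hc
  let F := rc fun _ g => app ch (ZFSet.sep (S g) Q)
  have hF : Tm M (fun v => F (v 0)) := tm_rc inferInstance
  have := fun s [Tm M s] => hF.one s
  have key : ∀ η, η ∈ o → F η ∈ Q ∧ S (graph F η) (F η) := by
    intro η
    induction η using ZFSet.inductionOn with
    | h η ih =>
      intro hη
      have := In.mk' (tr hm hη)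
      have h3 := H η hη (graph F η) (In.mem _)
        (graph_isFunc fun x hx => (ih x hx (ho.mem_trans hx hη)).1) fun x hx => by
          rw [res_graph ((ho.mem hη).subset_of_mem hx), app_graph hx]
          exact (ih x hx (ho.mem_trans hx hη)).2
      obtain ⟨y, hy, h4⟩ := h3
      have e : F η = app ch (ZFSet.sep (S (graph F η)) Q) := rc_eq _ η
      rw [e]
      exact mem_sep.1 (h2 _ (In.mem _) sep_subset ⟨y, mem_sep.2 ⟨hy, h4⟩⟩)
  refine ⟨graph F o, In.mem _, graph_isFunc fun x hx => (key x hx).1, fun η hη => ?_⟩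
  rw [res_graph (ho.subset_of_mem hη), app_graph hη]
  exact (key η hη).2

/-- dependent choice -/
theorem dc (R : ZF → ZF → ZF → Prop) (h : Df M (fun v => R (v 0) (v 1) (v 2))) {Q q : ZF}
    (hQ : Q ∈ M) (hq : q ∈ Q) (H : ∀ n : ℕ, ∀ x ∈ Q, ∃ y ∈ Q, R (num n) x y) :
    ∃ f ∈ M, app f (num 0) = q ∧
      ∀ n : ℕ, app f (num n) ∈ Q ∧ R (num n) (app f (num n)) (app f (num (n + 1))) := by
  have := fun s t r [Tm M s] [Tm M t] [Tm M r] => h.three s t r
  have := In.mk' (tr hQ hq)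
  obtain ⟨f, hf, h1, h2⟩ := tdc (M := M) (fun g y => (dom g = ∅ → y = q) ∧
    ∀ n ∈ dom g, dom g = insert n n → R n (app g n) y) inferInstance isOrdinal_omega hM.infinity hQ
    fun ξ hξ g _ hg _ => by
      obtain ⟨n, rfl⟩ := mem_omega.1 hξ
      rw [hg.dom_eq]
      cases n with
      | zero => exact ⟨q, hq, fun _ => rfl, fun n hn => absurd hn (notMem_empty _)⟩
      | succ n =>
        obtain ⟨y, hy, h3⟩ := H n _ (hg.app_mem' (mem_insert _ _))
        refine ⟨y, hy, fun e => absurd (e ▸ num_mem_num.2 (Nat.lt_succ_self n) :) (notMem_empty _),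
          fun m hm e => ?_⟩
        obtain ⟨k, -, rfl⟩ := mem_num.1 hm
        obtain rfl : n = k := Nat.succ_injective (num_inj.1 e)
        exact h3
  have hd : ∀ n, dom (res f (num n)) = num n := fun n =>
    (h1.res (isOrdinal_omega.subset_of_mem (num_mem_omega n))).dom_eq
  refine ⟨f, hf, (h2 _ (num_mem_omega 0)).1 (hd 0), fun n => ⟨h1.app_mem' (num_mem_omega n), ?_⟩⟩
  have h3 := (h2 _ (num_mem_omega (n + 1))).2 (num n) (by rw [hd]; exact mem_insert _ _) (hd _)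
  have h4 := h1.res (isOrdinal_omega.subset_of_mem (num_mem_omega (n + 1)))
  rwa [h4.app_eq (mem_res.2 ⟨h1.app_mem (num_mem_omega n), by simp [num]⟩)] at h3

end Pool.Agent.P.MP_3ab3de_lc
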